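import Pool.Agent.K13.TP.Tri

/-!
# The joint moment of three eigenfunctions along sequences with convergent ratios
-/

set_option autoImplicit false
set_option linter.unusedSectionVars false
open MeasureTheory Filter Topology Complex Set
open scoped ContDiff Real Manifold

namespace Pool.Agent.K13.TP

open Pool.Agent.W745.RW Pool.Agent.TH294.RS Pool.Agent.Y265.HY
open Pool.Agent.R314.JN (QS)
open Pool.Agent.Y265.HY.JC (hh)

noncomputable section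

lemma ev2_cont (F : Polynomial A) : Continuous fun p : ℝ × ℝ => ev2 p.1 p.2 F := by
  have : (fun p : ℝ × ℝ => ev2 p.1 p.2 F) = fun p : ℝ × ℝ =>
      ∑ i ∈ F.support, (F.coeff i).eval p.1 * p.2 ^ i := by
    funext p
    rw [ev2_sum, Polynomial.sum_def]
  rw [this]
  refine continuous_finsetSum _ fun i _ => ?_
  exact ((F.coeff i).continuous.comp continuous_fst).mul (continuous_snd.pow i)

lemma gx_cont (F : Polynomial A) : Continuous (gx F) := by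
  unfold gx
  refine continuous_const.mul ?_
  refine intervalIntegral.continuous_parametric_intervalIntegral_of_continuous'
    (f := fun ρ θ => (ev2 ρ (1 + ρ ^ 2 + ρ * (2 * Real.cos θ)) F) ^ 2) ?_ 0 (2 * π)
  refine Continuous.pow ?_ 2
  exact (ev2_cont F).comp (continuous_fst.prodMk (by fun_prop))

lemma gp_cont (F : Polynomial A) : Continuous (gp F) := by
  unfold gp
  refine continuous_const.mul ?_
  refine intervalIntegral.continuous_parametric_intervalIntegral_of_continuous'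
    (f := fun ρ θ => (ev2 ρ (2 + 2 * Real.cos θ) F) ^ 2) ?_ 0 (2 * π)
  refine Continuous.pow ?_ 2
  exact (ev2_cont F).comp (continuous_fst.prodMk (by fun_prop))

lemma gx_nn (F : Polynomial A) (ρ : ℝ) : 0 ≤ gx F ρ := by
  unfold gx
  refine mul_nonneg (by positivity) ?_
  exact intervalIntegral.integral_nonneg (by positivity) fun θ _ => sq_nonneg _

lemma gp_nn (F : Polynomial A) (ρ : ℝ) : 0 ≤ gp F ρ := by
  unfold gp
  refine mul_nonneg (by positivity) ?_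
  exact intervalIntegral.integral_nonneg (by positivity) fun θ _ => sq_nonneg _

lemma pi2 : 1 / (2 * π) ≤ 1 := by
  rw [div_le_one (by positivity)]
  linarith [Real.pi_gt_three]

/-- polynomials which pick the frequency `r` -/
lemma pick {ρ r : ℝ} (hρ : 1 ≤ ρ) (hr : 0 ≤ r) (h1 : r ≠ (1 + ρ) ^ 2)
    (h2 : r ≠ (ρ - 1) ^ 2) (h3 : r ≠ ρ ^ 2 - 1) {ε : ℝ} (hε : 0 < ε) : ∃ K : Polynomial A,
    ev2 ρ r (Mp * K) = 1 ∧ gx (Mp * K) ρ ≤ ε ∧ gp (AAp K) ρ ≤ ε := by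
  obtain ⟨Hp, e1, e2, e3⟩ := poly_pick hρ hr h1 h2 h3 hε
  refine ⟨Hp.map Polynomial.C, e1, ?_, ?_⟩
  · have e : gx (Mp * Hp.map Polynomial.C) ρ = 1 / (2 * π) *
        ∫ θ in (0 : ℝ)..(2 * π), (ev2 ρ (1 + ρ ^ 2 + 2 * ρ * Real.cos θ)
          (Mp * Hp.map Polynomial.C)) ^ 2 := by
      unfold gx
      congr 2
      funext θ
      rw [show ρ * (2 * Real.cos θ) = 2 * ρ * Real.cos θ by ring]
    rw [e]
    have p : 0 ≤ ∫ θ in (0 : ℝ)..(2 * π), (ev2 ρ (1 + ρ ^ 2 + 2 * ρ * Real.cos θ)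
          (Mp * Hp.map Polynomial.C)) ^ 2 :=
      intervalIntegral.integral_nonneg (by positivity) fun θ _ => sq_nonneg _
    exact (mul_le_of_le_one_left p pi2).trans e2
  · unfold gp
    have p : 0 ≤ ∫ θ in (0 : ℝ)..(2 * π), (ev2 ρ (2 + 2 * Real.cos θ)
          (AAp (Hp.map Polynomial.C))) ^ 2 :=
      intervalIntegral.integral_nonneg (by positivity) fun θ _ => sq_nonneg _
    exact (mul_le_of_le_one_left p pi2).trans e3

/-- the joint moment -/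
def J3 (φ u v g : ℂ → ℝ) : ℝ := ∫ z, φ z * (u z * v z * g z)

variable {Ω : Set ℂ} {lam mu nu : ℕ → ℝ} {u v g : ℕ → ℂ → ℝ}

/-- convergent ratios -/
theorem TD.lim (D : TD Ω lam mu nu u v g) {φ : ℂ → ℝ} (hφ : TF Ω φ) (h0 : ∀ z, 0 ≤ φ z)
    {ρ r : ℝ} (hρ : 1 ≤ ρ) (hr : 0 ≤ r) (h1 : r ≠ (1 + ρ) ^ 2)
    (h2 : r ≠ (ρ - 1) ^ 2) (h3 : r ≠ ρ ^ 2 - 1)
    (l1 : Tendsto (rh lam mu) atTop (𝓝 ρ)) (l2 : Tendsto (fun n => nu n / lam n) atTop (𝓝 r)) :
    Tendsto (fun n => J3 φ (u n) (v n) (g n)) atTop (𝓝 0) := by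
  obtain ⟨C, hC0, hC⟩ := D.f5 hφ
  obtain ⟨I0, hI⟩ : ∃ I0, I0 = ∫ z, φ z := ⟨_, rfl⟩
  have I0n : 0 ≤ I0 := by rw [hI]; exact integral_nonneg h0
  obtain ⟨Kb, hKb⟩ : ∃ Kb, Kb = gp BBp ρ := ⟨_, rfl⟩
  have Kbn : 0 ≤ Kb := by rw [hKb]; exact gp_nn _ _
  rw [Metric.tendsto_atTop']
  intro ε' hε'
  obtain ⟨ε, he⟩ : ∃ ε, ε = ε' / 2 := ⟨_, rfl⟩
  have hε : 0 < ε := by rw [he]; positivity
  obtain ⟨s, hs⟩ : ∃ s, s = (ε / 4) ^ 2 / (C + 1) := ⟨_, rfl⟩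
  have sp : 0 < s := by rw [hs]; positivity
  obtain ⟨t, ht⟩ : ∃ t, t = 4 * (Kb + 1) * (I0 + 1) / s := ⟨_, rfl⟩
  have tp : 0 < t := by rw [ht]; positivity
  obtain ⟨η, hη⟩ : ∃ η, η = s / (8 * (t + 1) * (I0 + 1)) := ⟨_, rfl⟩
  have ηp : 0 < η := by rw [hη]; positivity
  obtain ⟨K, K1, K2, K3⟩ := pick hρ hr h1 h2 h3 ηp
  obtain ⟨e, he0, hbd⟩ := D.f1 hφ h0 K tp
  -- the limit of the bound
  have L1 : Tendsto (fun n => (gx (Mp * K) (rh lam mu n) + t * gp (AAp K) (rh lam mu n) +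
      t⁻¹ * gp BBp (rh lam mu n)) * (∫ z, φ z) + e n) atTop
      (𝓝 ((gx (Mp * K) ρ + t * gp (AAp K) ρ + t⁻¹ * gp BBp ρ) * (∫ z, φ z) + 0)) := by
    refine Tendsto.add (Tendsto.mul_const _ ?_) he0
    exact (((gx_cont _).tendsto ρ).comp l1).add ((((gp_cont _).tendsto ρ).comp l1).const_mul t)
      |>.add ((((gp_cont _).tendsto ρ).comp l1).const_mul t⁻¹)
  have L2 : (gx (Mp * K) ρ + t * gp (AAp K) ρ + t⁻¹ * gp BBp ρ) * (∫ z, φ z) + 0 < s := by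
    rw [← hI, ← hKb, add_zero]
    have a1 : gx (Mp * K) ρ + t * gp (AAp K) ρ ≤ (t + 1) * η := by nlinarith
    have a2 : (t + 1) * η * I0 ≤ s / 8 := by
      have : (t + 1) * η * (I0 + 1) = s / 8 := by rw [hη]; field_simp
      nlinarith [mul_pos (add_pos tp one_pos) ηp]
    have a3 : t⁻¹ * Kb * I0 ≤ s / 4 := by
      have : t⁻¹ * (Kb + 1) * (I0 + 1) = s / 4 := by rw [ht]; field_simp
      have b1 : t⁻¹ * Kb * I0 ≤ t⁻¹ * (Kb + 1) * (I0 + 1) := by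
        have := inv_pos.2 tp
        gcongr <;> linarith
      linarith
    nlinarith
  have E1 := L1.eventually (gt_mem_nhds L2)
  have F1 : Tendsto (fun n => ev2 (rh lam mu n) (nu n / lam n) (Mp * K)) atTop (𝓝 1) := by
    have := ((ev2_cont (Mp * K)).tendsto (ρ, r)).comp (l1.prodMk_nhds l2)
    rw [K1] at this
    exact this
  have E2 := F1.eventually (lt_mem_nhds (show (1 / 2 : ℝ) < 1 by norm_num))
  have P1 : Tendsto (fun n => ev2 (rh lam mu n) (nu n / lam n) (Mp * K) *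
      J3 φ (u n) (v n) (g n) - ∫ z, φ z * (XR lam mu (Mp * K) u v n z * g n z)) atTop (𝓝 0) := by
    have k1 := (D.f2 hφ (Mp * K)).mul ((l2.const_add 1).pow (Mp * K).natDegree)
    rw [zero_mul] at k1
    refine k1.congr fun n => ?_
    have hp : (1 + nu n / lam n) ^ (Mp * K).natDegree ≠ 0 := by
      have := div_nonneg (D.np n) (D.qu.pos n).le
      positivity
    rw [div_mul_cancel₀ _ hp]
    rfl
  have E3 := (P1.abs).eventually (gt_mem_nhds (show |(0 : ℝ)| < ε / 4 by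
    rw [abs_zero]; positivity))
  have ev := ((E1.and E2).and (E3.and hC))
  rw [eventually_atTop] at ev
  obtain ⟨N, hN⟩ := ev
  refine ⟨N, fun n hn => ?_⟩
  obtain ⟨⟨n1, n2⟩, n3, n4⟩ := hN n hn.le
  rw [dist_zero_right, Real.norm_eq_abs]
  obtain ⟨Z, hZ⟩ : ∃ Z, Z = ∫ z, φ z * (XR lam mu (Mp * K) u v n z * g n z) := ⟨_, rfl⟩
  obtain ⟨F, hF⟩ : ∃ F, F = ev2 (rh lam mu n) (nu n / lam n) (Mp * K) := ⟨_, rfl⟩
  obtain ⟨J, hJ⟩ : ∃ J, J = J3 φ (u n) (v n) (g n) := ⟨_, rfl⟩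
  rw [← hZ, ← hF, ← hJ] at n3
  rw [← hF] at n2
  rw [← hJ]
  have cs := JC.cs D.op hφ h0 (XR_co D (Mp * K) n) (D.gs n).continuousOn
  rw [← hZ] at cs
  have m0 : 0 ≤ ∫ z, φ z * g n z ^ 2 :=
    integral_nonneg fun z => mul_nonneg (h0 z) (sq_nonneg _)
  have m1 : (∫ z, φ z * XR lam mu (Mp * K) u v n z ^ 2) ≤ s := (hbd n).trans n1.le
  have m2 : Z ^ 2 ≤ (ε / 4) ^ 2 := by
    calc Z ^ 2 ≤ s * C := cs.trans (mul_le_mul m1 n4 m0 sp.le)
      _ ≤ s * (C + 1) := by nlinarith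
      _ = (ε / 4) ^ 2 := by rw [hs]; field_simp
  have m3 : |Z| ≤ ε / 4 := abs_le_of_sq_le_sq m2 (by positivity)
  have m4 : |F * J| ≤ ε / 2 := by
    calc |F * J| = |(F * J - Z) + Z| := by ring_nf
      _ ≤ |F * J - Z| + |Z| := abs_add_le _ _
      _ ≤ ε / 2 := by linarith
  rw [abs_mul, abs_of_pos (by linarith : 0 < F)] at m4
  have m5 : 1 / 2 * |J| ≤ F * |J| := mul_le_mul_of_nonneg_right n2.le (abs_nonneg _)
  have : |J| ≤ ε := by linarith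
  linarith

lemma mp_deg : Mp.natDegree = 4 := by
  unfold Mp Np
  compute_degree!

/-- the third frequency is much larger -/
theorem TD.inf (D : TD Ω lam mu nu u v g) {φ : ℂ → ℝ} (hφ : TF Ω φ) (h0 : ∀ z, 0 ≤ φ z)
    {ρ : ℝ} (l1 : Tendsto (rh lam mu) atTop (𝓝 ρ))
    (l2 : Tendsto (fun n => nu n / lam n) atTop atTop) :
    Tendsto (fun n => J3 φ (u n) (v n) (g n)) atTop (𝓝 0) := by
  obtain ⟨C, hC0, hC⟩ := D.f5 hφ
  obtain ⟨e, he0, hbd⟩ := D.f1 hφ h0 1 one_pos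
  have L1 : Tendsto (fun n => (gx (Mp * 1) (rh lam mu n) + 1 * gp (AAp 1) (rh lam mu n) +
      1⁻¹ * gp BBp (rh lam mu n)) * (∫ z, φ z) + e n) atTop
      (𝓝 ((gx (Mp * 1) ρ + 1 * gp (AAp 1) ρ + 1⁻¹ * gp BBp ρ) * (∫ z, φ z) + 0)) := by
    refine Tendsto.add (Tendsto.mul_const _ ?_) he0
    exact (((gx_cont _).tendsto ρ).comp l1).add ((((gp_cont _).tendsto ρ).comp l1).const_mul 1)
      |>.add ((((gp_cont _).tendsto ρ).comp l1).const_mul 1⁻¹)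
  obtain ⟨S, hS⟩ : ∃ S, S = (gx (Mp * 1) ρ + 1 * gp (AAp 1) ρ + 1⁻¹ * gp BBp ρ) * (∫ z, φ z) + 0 :=
    ⟨_, rfl⟩
  rw [← hS] at L1
  have E1 := L1.eventually (gt_mem_nhds (show S < S + 1 by linarith))
  have r0 : ∀ n, 0 ≤ nu n / lam n := fun n => div_nonneg (D.np n) (D.qu.pos n).le
  have k2 := D.f2 hφ (Mp * 1)
  rw [mul_one] at k2 hbd E1
  rw [mp_deg] at k2
  have rl : Tendsto (fun n => 1 + nu n / lam n) atTop atTop :=
    tendsto_atTop_add_const_left _ _ l2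
  have ri : Tendsto (fun n => (1 + nu n / lam n)⁻¹) atTop (𝓝 0) :=
    rl.inv_tendsto_atTop.congr fun n => rfl
  -- the pairing is bounded
  have E2 : ∀ᶠ n in atTop, |∫ z, φ z * (XR lam mu Mp u v n z * g n z)| ≤
      √(|S + 1| * C) := by
    filter_upwards [E1, hC] with n n1 n2
    have h1 := JC.cs D.op hφ h0 (XR_co D Mp n) (D.gs n).continuousOn
    have h2 : (∫ z, φ z * XR lam mu Mp u v n z ^ 2) ≤ |S + 1| :=
      ((hbd n).trans n1.le).trans (le_abs_self _)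
    have h3 : 0 ≤ ∫ z, φ z * g n z ^ 2 :=
      integral_nonneg fun z => mul_nonneg (h0 z) (sq_nonneg _)
    refine Real.abs_le_sqrt (h1.trans ?_)
    exact mul_le_mul h2 n2 h3 (abs_nonneg _)
  have k3 : Tendsto (fun n => (∫ z, φ z * (XR lam mu Mp u v n z * g n z)) *
      (1 + nu n / lam n)⁻¹ ^ 4) atTop (𝓝 0) := by
    have k4 : Tendsto (fun n => √(|S + 1| * C) * |(1 + nu n / lam n)⁻¹ ^ 4|)
        atTop (𝓝 0) := by
      have := ((ri.pow 4).abs).const_mul (√(|S + 1| * C))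
      simpa using this
    refine squeeze_zero_norm' (E2.mono fun n hn => ?_) k4
    rw [Real.norm_eq_abs, abs_mul]
    exact mul_le_mul_of_nonneg_right hn (abs_nonneg _)
  have k5 : Tendsto (fun n => ev2 (rh lam mu n) (nu n / lam n) Mp * (1 + nu n / lam n)⁻¹ ^ 4)
      atTop (𝓝 1) := by
    have e : ∀ n, ev2 (rh lam mu n) (nu n / lam n) Mp * (1 + nu n / lam n)⁻¹ ^ 4 =
        ((1 - (1 + nu n / lam n)⁻¹) ^ 2 - 2 * (1 + rh lam mu n ^ 2) *
          (1 - (1 + nu n / lam n)⁻¹) * (1 + nu n / lam n)⁻¹ +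
          (rh lam mu n ^ 2 - 1) ^ 2 * (1 + nu n / lam n)⁻¹ ^ 2) *
        ((1 - (1 + nu n / lam n)⁻¹) ^ 2 - (rh lam mu n ^ 2 - 1) ^ 2 *
          (1 + nu n / lam n)⁻¹ ^ 2) := by
      intro n
      have h1 : (1 + nu n / lam n) ≠ 0 := by have := r0 n; positivity
      rw [ev2_Mp]
      obtain ⟨x, hx⟩ : ∃ x, x = nu n / lam n := ⟨_, rfl⟩
      obtain ⟨y, hy⟩ : ∃ y, y = rh lam mu n := ⟨_, rfl⟩
      rw [← hy]
      rw [← hx] at h1 ⊢
      field_simp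
      ring
    simp only [e]
    have ri1 := ri.const_sub 1
    rw [sub_zero] at ri1
    have s1 : Tendsto (fun n => 2 * (1 + rh lam mu n ^ 2)) atTop (𝓝 (2 * (1 + ρ ^ 2))) :=
      ((l1.pow 2).const_add 1).const_mul 2
    have s2 : Tendsto (fun n => (rh lam mu n ^ 2 - 1) ^ 2) atTop (𝓝 ((ρ ^ 2 - 1) ^ 2)) :=
      ((l1.pow 2).sub_const 1).pow 2
    have := ((((ri1.pow 2).sub ((s1.mul ri1).mul ri)).add (s2.mul (ri.pow 2))).mul
      ((ri1.pow 2).sub (s2.mul (ri.pow 2))))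
    simpa using this
  have k6 := (k2.add k3).mul (k5.inv₀ one_ne_zero)
  simp only [add_zero, zero_mul] at k6
  refine k6.congr' ?_
  filter_upwards [k5.eventually_ne one_ne_zero] with n hn
  have h1 : (1 + nu n / lam n) ≠ 0 := by have := r0 n; positivity
  have h2 : ev2 (rh lam mu n) (nu n / lam n) Mp ≠ 0 := fun h => hn (by rw [h, zero_mul])
  simp only [J3]
  obtain ⟨x, hx⟩ : ∃ x, x = nu n / lam n := ⟨_, rfl⟩
  rw [← hx] at h1 h2 ⊢
  field_simp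
  ring

end

end Pool.Agent.K13.TP
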