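import Pool.Agent.K13.TP.Sq

/-!
# The bound of the power spectrum of a product
-/

set_option autoImplicit false
set_option linter.unusedSectionVars false
open MeasureTheory Filter Topology Complex Set
open scoped ContDiff Real Manifold

namespace Pool.Agent.K13.TP

open Pool.Agent.W745.RW Pool.Agent.TH294.RS Pool.Agent.Y265.HY
open Polynomial (aeval)

noncomputable section

variable {B : Set ℂ} {h κ : ℕ → ℝ} {w v : ℤ → ℕ → ℂ → ℂ} {ρ : ℕ → ℝ}

lemma ev2_AA0 (H : Polynomial A) (t : ℝ) : ev2 t 0 (AAp H) = 0 := by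
  simp [AAp, ev2]

lemma ev2_AA4 (H : Polynomial A) (t : ℝ) : ev2 t 4 (AAp H) = 0 := by
  simp [AAp, ev2]

lemma ev2_BB0 (t : ℝ) : ev2 t 0 BBp = 0 := by
  simp [BBp, ev2]

lemma ev2_BB4 (t : ℝ) : ev2 t 4 BBp = 0 := by
  simp [BBp, ev2]
  ring_nf
  simp

lemma LM_real (H : SY B Complex.im h w) (a : R1) (n : ℕ) {z : ℂ} (hz : z ∈ B) :
    (starRingEnd ℂ) (LM ρ w w a n z) = LM ρ w w a n z := by
  induction a using AddMonoidAlgebra.induction_linear with
  | zero => rw [LM_zero, map_zero]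
  | add x y h1 h2 => rw [LM_add, map_add, h1, h2]
  | single m p =>
    have c1 : (starRingEnd ℂ) (w m n z) = sg m * w (-m) n z := H.cj m n z hz
    have c2 : (starRingEnd ℂ) (w (-m) n z) = sg m * w m n z := by
      rw [H.cj (-m) n z hz, neg_neg, Int.natAbs_neg]; rfl
    rw [LM_single, map_mul, map_mul, conj_ofReal, c1, c2]
    linear_combination (((p.eval (ρ n) : ℝ) : ℂ) * (w m n z * w (-m) n z)) * sg_sq m

lemma LM_re (H : SY B Complex.im h w) (a : R1) (n : ℕ) {z : ℂ} (hz : z ∈ B) :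
    (((LM ρ w w a n z).re : ℝ) : ℂ) = LM ρ w w a n z := conj_eq_iff_re.1 (LM_real H a n hz)

/-- a weighted form of the inequality of arithmetic and geometric means -/
lemma amgm {φ : ℂ → ℝ} (hφ : TF B φ) (p0 : ∀ z, 0 ≤ φ z) {X Y : ℂ → ℂ}
    (cX : ContinuousOn X B) (cY : ContinuousOn Y B) (rX : ∀ z ∈ B, ((X z).re : ℂ) = X z)
    (rY : ∀ z ∈ B, ((Y z).re : ℂ) = Y z) {t : ℝ} (ht : 0 < t) :
    (∫ z, (φ z : ℂ) * (X z * Y z)).re ≤ t / 2 * (∫ z, (φ z : ℂ) * (X z * X z)).re +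
      t⁻¹ / 2 * (∫ z, (φ z : ℂ) * (Y z * Y z)).re := by
  have i1 := TF.cint hφ (cX.mul cY)
  have i2 := TF.cint hφ (cX.mul cX)
  have i3 := TF.cint hφ (cY.mul cY)
  have r1 : (∫ z, (φ z : ℂ) * (X z * Y z)).re = ∫ z, ((φ z : ℂ) * (X z * Y z)).re :=
    (integral_re i1).symm
  have r2 : (∫ z, (φ z : ℂ) * (X z * X z)).re = ∫ z, ((φ z : ℂ) * (X z * X z)).re :=
    (integral_re i2).symm
  have r3 : (∫ z, (φ z : ℂ) * (Y z * Y z)).re = ∫ z, ((φ z : ℂ) * (Y z * Y z)).re :=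
    (integral_re i3).symm
  have j1 : Integrable fun z => ((φ z : ℂ) * (X z * Y z)).re := i1.re
  have j2 : Integrable fun z => ((φ z : ℂ) * (X z * X z)).re := i2.re
  have j3 : Integrable fun z => ((φ z : ℂ) * (Y z * Y z)).re := i3.re
  rw [r1, r2, r3, ← integral_const_mul, ← integral_const_mul,
    ← integral_add (j2.const_mul _) (j3.const_mul _)]
  refine integral_mono j1 ((j2.const_mul _).add (j3.const_mul _)) fun z => ?_
  show ((φ z : ℂ) * (X z * Y z)).re ≤ t / 2 * ((φ z : ℂ) * (X z * X z)).re + t⁻¹ / 2 * ((φ z : ℂ) * (Y z * Y z)).re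
  by_cases hz : z ∈ B
  · obtain ⟨x, hx⟩ : ∃ x, x = (X z).re := ⟨_, rfl⟩
    obtain ⟨y, hy⟩ : ∃ y, y = (Y z).re := ⟨_, rfl⟩
    have e1 : X z = (x : ℂ) := by rw [hx, rX z hz]
    have e2 : Y z = (y : ℂ) := by rw [hy, rY z hz]
    rw [e1, e2]
    have f : ∀ a b : ℝ, ((φ z : ℂ) * ((a : ℂ) * (b : ℂ))).re = φ z * (a * b) := fun a b => by
      rw [← ofReal_mul, ← ofReal_mul, ofReal_re]
    rw [f, f, f]
    have k : 0 ≤ φ z * ((t * x - y) ^ 2 * (t⁻¹ / 2)) := by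
      have := p0 z
      positivity
    have e : t / 2 * (φ z * (x * x)) + t⁻¹ / 2 * (φ z * (y * y)) - φ z * (x * y) =
        φ z * ((t * x - y) ^ 2 * (t⁻¹ / 2)) := by
      field_simp; ring
    linarith
  · rw [TF.zero hφ hz]; simp

variable (H : SY B Complex.im h w) (H' : SY B Complex.im κ v) (hBU : B ⊆ UH) {C : ℝ}
  (hC : Cmp h κ C)

lemma G4_1 (m k : ℤ) : G4 (g1 m + g2 k) = if m + k = 0 then 1 else 0 := by
  have e : (g1 m + g2 k : Z4) = (m, k, -m, -k) := by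
    show ((m + 0, 0 + k, -m + 0, 0 + -k) : Z4) = _
    simp only [add_zero, zero_add]
  rw [e]
  show CC m k * CC (-m) (-k) = _
  rw [CC_val, CC_val]
  by_cases h : m + k = 0
  · rw [if_pos h, if_pos (by omega), if_pos h, sg_neg, sg_sq]
  · rw [if_neg h, if_neg h, zero_mul]

lemma G4_2 (m k : ℤ) : G4 (g12 m + g34 k) = sg m * sg k := by
  have e : (g12 m + g34 k : Z4) = (m, -m, k, -k) := by
    show ((m + 0, -m + 0, 0 + k, 0 + -k) : Z4) = _
    simp only [add_zero, zero_add]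
  rw [e]
  show CC m (-m) * CC k (-k) = _
  rw [CC_self, CC_self]

lemma J4_1 (φ : ℂ → ℝ) (m k : ℤ) (n : ℕ) : J4 φ w v (g1 m + g2 k) n =
    ∫ z, (φ z : ℂ) * ((w m n z * v (-m) n z) * (w k n z * v (-k) n z)) := by
  have e : (g1 m + g2 k : Z4) = (m, k, -m, -k) := by
    show ((m + 0, 0 + k, -m + 0, 0 + -k) : Z4) = _
    simp only [add_zero, zero_add]
  rw [e]
  show ∫ z, (φ z : ℂ) * (w m n z * w k n z * (v (-m) n z * v (-k) n z)) = _
  congr 1; funext z; ring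

lemma J4_2 (φ : ℂ → ℝ) (m k : ℤ) (n : ℕ) : J4 φ w v (g12 m + g34 k) n =
    ∫ z, (φ z : ℂ) * ((w m n z * w (-m) n z) * (v k n z * v (-k) n z)) := by
  have e : (g12 m + g34 k : Z4) = (m, -m, k, -k) := by
    show ((m + 0, -m + 0, 0 + k, 0 + -k) : Z4) = _
    simp only [add_zero, zero_add]
  rw [e]
  rfl

lemma Ev_D5 (φ : ℂ → ℝ) (x : R4) (n : ℕ) : Ev ρ (D5 φ w v) x n = Ev ρ (J4 φ w v) x n -
    ((∫ z, φ z : ℝ) : ℂ) * Ev ρ (fun m _ => G4 m) x n := by
  have h1 : Ev ρ (J4 φ w v) x n = Ev ρ (fun m n => D5 φ w v m n +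
      ((∫ z, φ z : ℝ) : ℂ) * G4 m) x n := by
    refine Ev_cg x n fun m => ?_
    simp only [D5]; ring
  rw [h1, Ev_D (D := D5 φ w v), Ev_smulD (D := fun m _ => G4 m)]
  ring

include H H' hBU hC in
/-- **the reduction to the squares** -/
theorem red (h0 : EX B h w (w 0)) (k0 : EX B κ v (v 0)) {φ : ℂ → ℝ} (hφ : TF B φ)
    (K : Polynomial A) :
    Null (fun n => (∫ z, (φ z : ℂ) * (OP h (ra h κ) (Mp * K) (fun n z => w 0 n z * v 0 n z) n z *
      OP h (ra h κ) (Mp * K) (fun n z => w 0 n z * v 0 n z) n z)) -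
      ((∫ z, (φ z : ℂ) * (LM (ra h κ) w w (aeval ps (AAp K)) n z *
        LM (ra h κ) v v (aeval ps BBp) n z)) +
      ((gx (Mp * K) (ra h κ n) * (∫ z, φ z) : ℝ) : ℂ))) := by
  have n1 := sq_main H H' hBU hC k0 hφ (good_OP H H' hC h0 k0 (Mp * K))
  have n2 := (rel5 H H' hBU hC h0 k0 hφ).main K
  have n3 := n1.add n2
  rw [add_zero] at n3
  refine n3.congr fun n => ?_
  set I0 : ℂ := ((∫ z, φ z : ℝ) : ℂ) with hI0
  have cw := fun m n => (H.bd m).co n
  have cv := fun m n => (H'.bd m).co n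
  have p1 := Ev_prod (ρ := ra h κ) hφ cw cv cw cv (D := J4 φ w v) (g := g1) (g' := g2)
    (fun m k n => J4_1 φ m k n) (aeval xs (Mp * K)) (aeval xs (Mp * K)) n
  have p2 := Ev_prod (ρ := ra h κ) hφ cw cw cv cv (D := J4 φ w v) (g := g12) (g' := g34)
    (fun m k n => J4_2 φ m k n) (aeval ps (AAp K)) (aeval ps BBp) n
  have q1 : Ev (ra h κ) (fun m _ => G4 m) (JJ g1 (aeval xs (Mp * K)) *
      JJ g2 (aeval xs (Mp * K))) n = ((gx (Mp * K) (ra h κ n) : ℝ) : ℂ) := by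
    rw [Ev_J2, ← ct_xs (ρ := ra h κ) (Mp * K) n]
    unfold ct
    rw [Ev_pair]
    refine Ev_cg _ n fun m => Ev_cg _ n fun k => G4_1 m k
  have q2 : Ev (ra h κ) (fun m _ => G4 m) (JJ g12 (aeval ps (AAp K)) *
      JJ g34 (aeval ps BBp)) n = 0 := by
    rw [Ev_J2]
    have f1 : Ev (ra h κ) (fun m n => Ev (ra h κ) (fun k _ => G4 (g12 m + g34 k))
        (aeval ps BBp) n) (aeval ps (AAp K)) n = Ev (ra h κ) (fun _ _ => 0)
        (aeval ps (AAp K)) n := by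
      refine Ev_cg _ n fun m => ?_
      have f2 : Ev (ra h κ) (fun k _ => G4 (g12 m + g34 k)) (aeval ps BBp) n =
          Ev (ra h κ) (fun k _ => sg m * sg k) (aeval ps BBp) n := Ev_cg _ n fun k => G4_2 m k
      rw [f2, Ev_smulD (D := fun k _ => sg k), Ev_sg_ps, ev2_BB0]
      simp
    rw [f1]
    have f3 := Ev_smulD (ρ := ra h κ) (D := fun (_ : ℤ) _ => (0 : ℂ)) (aeval ps (AAp K)) 0 n
    simpa using f3
  rw [Ev_D5, Ev_D5, q1, q2, p1, p2]
  push_cast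
  ring

include H H' hBU hC in
/-- **the bound of the power spectrum of the product** -/
theorem sqb (h0 : EX B h w (w 0)) (k0 : EX B κ v (v 0)) {φ : ℂ → ℝ} (hφ : TF B φ)
    (p0 : ∀ z, 0 ≤ φ z) (K : Polynomial A) {t : ℝ} (ht : 0 < t) :
    ∃ e : ℕ → ℝ, Tendsto e atTop (𝓝 0) ∧ ∀ n,
      (∫ z, (φ z : ℂ) * (OP h (ra h κ) (Mp * K) (fun n z => w 0 n z * v 0 n z) n z *
      OP h (ra h κ) (Mp * K) (fun n z => w 0 n z * v 0 n z) n z)).re ≤
      (gx (Mp * K) (ra h κ n) + t * gp (AAp K) (ra h κ n) + t⁻¹ * gp BBp (ra h κ n)) *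
        (∫ z, φ z) + e n := by
  have r1 := red H H' hBU hC h0 k0 hφ K
  have r2 := msq H hBU h0 hφ (ra_bd H H' hC) (AAp K) (fun t => ev2_AA0 K t) (fun t => ev2_AA4 K t)
  have r3 := msq H' hBU k0 hφ (ra_bd H H' hC) BBp ev2_BB0 ev2_BB4
  have s1 := (Complex.continuous_re.tendsto _).comp r1
  have s2 := (Complex.continuous_re.tendsto _).comp r2
  have s3 := (Complex.continuous_re.tendsto _).comp r3
  rw [Complex.zero_re] at s1 s2 s3
  have s4 := (s1.add (s2.const_mul (t / 2))).add (s3.const_mul (t⁻¹ / 2))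
  simp only [mul_zero, add_zero] at s4
  refine ⟨_, s4, fun n => ?_⟩
  simp only [Function.comp_apply, sub_re, add_re, ofReal_re]
  have cX : ContinuousOn (fun z => LM (ra h κ) w w (aeval ps (AAp K)) n z) B :=
    (LM_sm H H _ _ n).continuousOn
  have cY : ContinuousOn (fun z => LM (ra h κ) v v (aeval ps BBp) n z) B :=
    (LM_sm H' H' _ _ n).continuousOn
  have key := amgm hφ p0 cX cY (fun z hz => LM_re H _ n hz) (fun z hz => LM_re H' _ n hz) ht
  nlinarith [key]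

end

end Pool.Agent.K13.TP
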