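import Pool.Agent.K13.TP.Sym

/-!
# Evaluation of polynomials whose coefficients are polynomials in the ratio
-/

set_option autoImplicit false

namespace Pool.Agent.K13.TP

noncomputable section

open Polynomial

/-- the value at the ratio `ρ` and the point `x` -/
def ev2 (ρ x : ℝ) (F : Polynomial A) : ℝ := (F.map (Polynomial.evalRingHom ρ)).eval x

lemma ev2_add (ρ x : ℝ) (F G : Polynomial A) : ev2 ρ x (F + G) = ev2 ρ x F + ev2 ρ x G := by
  simp [ev2]

lemma ev2_mul (ρ x : ℝ) (F G : Polynomial A) : ev2 ρ x (F * G) = ev2 ρ x F * ev2 ρ x G := by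
  simp [ev2]

lemma ev2_C (ρ x : ℝ) (c : A) : ev2 ρ x (C c) = c.eval ρ := by
  simp [ev2]

lemma ev2_X (ρ x : ℝ) : ev2 ρ x (Polynomial.X : Polynomial A) = x := by
  simp [ev2]

lemma ev2_sum (ρ x : ℝ) (F : Polynomial A) :
    ev2 ρ x F = F.sum fun i c => c.eval ρ * x ^ i := by
  rw [ev2, Polynomial.eval_map, Polynomial.eval₂_eq_sum]
  rfl

end

end Pool.Agent.K13.TP
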