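import Pool.Agent.K13.TP.Good
import Pool.Agent.K13.TP.Ev2

/-!
# Pairing of polynomials in the Laplacian applied to the product of two ladders with a third form
-/

set_option autoImplicit false
set_option linter.unusedSectionVars false
open MeasureTheory Filter Topology Complex Set
open scoped ContDiff Real Manifold

namespace Pool.Agent.K13.TP

open Pool.Agent.W745.RW Pool.Agent.TH294.RS Pool.Agent.Y265.HY
open Pool.Agent.Y265.HY.PS (DM_cg)
open Pool.Agent.TH294.RG (sL sL_eq lap_cg lap_lin sL1 sL_it)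

noncomputable section

variable {B : Set ℂ} {h κ : ℕ → ℝ} {w v : ℤ → ℕ → ℂ → ℂ}
variable (H : SY B Complex.im h w) (H' : SY B Complex.im κ v)

include H H' in
/-- cubic errors vanish -/
lemma q2_wn (hBU : B ⊆ UH) {C : ℝ} (hC : Cmp h κ C) {Q G : ℕ → ℂ → ℂ} (hQ : Q2 B h κ w v Q)
    (hG : LB B 2 G) : WN B (fun n z => (h n : ℂ) * (Q n z * G n z)) := by
  induction hQ with
  | @mw e f he hf =>
    exact (JC.hE3 H hBU (LB.mul2 he.lb hG) hf).congr fun n z _ => by ring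
  | @mv e f he hf =>
    have h1 := JC.hE3 H' hBU (LB.mul2 he.lb hG) hf
    refine (Pool.Agent.R314.JN.WN.bsc h1 (ra_bd H H' hC)).congr fun n z _ => ?_
    have : (κ n : ℂ) ≠ 0 := by exact_mod_cast (H'.hpos n).ne'
    simp only [ra]
    push_cast
    field_simp
  | add _ _ h1 h2 => exact (h1.add h2).congr fun n z _ => by ring
  | bs hc _ h1 =>
    exact (Pool.Agent.R314.JN.WN.bsc h1 hc).congr fun n z _ => by ring
  | cg _ e h1 => exact h1.congr fun n z hz => by rw [e n z hz]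

include H H' in
lemma q2_hd1 (hBU : B ⊆ UH) {C : ℝ} (hC : Cmp h κ C) {Q : ℕ → ℂ → ℂ} (hQ : Q2 B h κ w v Q) :
    Q2 B h κ w v (hd h 1 Q) := by
  refine ((((hQ.sP H H' hC).add (hQ.sM H H' hC)).smulc H H' (JC.inv_im hBU)).cmul H H'
    (1 / 2)).cg fun n z hz => ?_
  have hz' : (z.im : ℂ) ≠ 0 := by
    have : 0 < z.im := hBU hz
    exact_mod_cast this.ne'
  simp only [TH294.RS.sP, TH294.RS.sM, DP, DM, dd, db, dx, dy, hd]
  field_simp
  ring

include H H' in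
lemma q2_hdI (hBU : B ⊆ UH) {C : ℝ} (hC : Cmp h κ C) {Q : ℕ → ℂ → ℂ} (hQ : Q2 B h κ w v Q) :
    Q2 B h κ w v (hd h I Q) := by
  refine ((((hQ.sM H H' hC).sub H H' (hQ.sP H H' hC)).smulc H H' (JC.inv_im hBU)).cmul H H'
    (-I / 2)).cg fun n z hz => ?_
  have hz' : (z.im : ℂ) ≠ 0 := by
    have : 0 < z.im := hBU hz
    exact_mod_cast this.ne'
  simp only [TH294.RS.sP, TH294.RS.sM, DP, DM, dd, db, dx, dy, hd]
  field_simp
  linear_combination (2 * (h n : ℂ) * fderiv ℝ (Q n) z I) * Complex.I_sq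

include H H' in
/-- **Pairing.** -/
theorem q2_pair1 (hBU : B ⊆ UH) {C : ℝ} (hC : Cmp h κ C) {r : ℕ → ℝ} {G : ℕ → ℂ → ℂ}
    (hG : LB B 2 G)
    (eG : ∀ n, ∀ z ∈ B, (h n : ℂ) ^ 2 * ((z.im : ℂ) ^ 2 * lap (G n) z) = -((r n : ℂ) * G n z))
    {E : ℕ → ℂ → ℂ} (hE : Q2 B h κ w v E) {φ : ℂ → ℝ} (hφ : TF B φ) :
    Tendsto (fun n => (r n : ℂ) * (∫ z, (φ z : ℂ) * (E n z * G n z)) -
      ∫ z, (φ z : ℂ) * (sL Complex.im h E n z * G n z)) atTop (𝓝 0) := by
  have hB := H.op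
  have hψ : TF B (fun z => φ z * z.im ^ 2) :=
    TF.mulc hB hφ ((imCLM.contDiff.pow 2).contDiffOn)
  set ψ : ℂ → ℝ := fun z => φ z * z.im ^ 2 with hψd
  have t1 := fun v => Pool.Agent.W450.RW.T.tf_deriv hψ v
  have t2 := fun v => Pool.Agent.W450.RW.T.tf_deriv (t1 v) v
  have sE := (hE.lb H H').sm
  have sG := hG.sm
  have n1 : ∀ v, Tendsto (fun n => ∫ z, ((fderiv ℝ (fun w => fderiv ℝ ψ w v) z v : ℝ) : ℂ) *
      ((h n : ℂ) * (((h n : ℂ) * E n z) * G n z))) atTop (𝓝 0) := fun v =>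
    (q2_wn H H' hBU hC (hE.hmul H H') hG).nul _ (t2 v)
  have n2 : Tendsto (fun n => ∫ z, ((fderiv ℝ ψ z 1 : ℝ) : ℂ) *
      ((h n : ℂ) * (hd h 1 E n z * G n z))) atTop (𝓝 0) :=
    (q2_wn H H' hBU hC (q2_hd1 H H' hBU hC hE) hG).nul _ (t1 1)
  have n3 : Tendsto (fun n => ∫ z, ((fderiv ℝ ψ z I : ℝ) : ℂ) *
      ((h n : ℂ) * (hd h I E n z * G n z))) atTop (𝓝 0) :=
    (q2_wn H H' hBU hC (q2_hdI H H' hBU hC hE) hG).nul _ (t1 I)
  have n4 := (((n1 1).add (n1 I)).add ((n2.add n3).const_mul 2)).const_mul (-1)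
  simp only [add_zero, mul_zero] at n4
  refine n4.congr fun n => ?_
  have g1 := JC.green hB hψ (sE n) (sG n) 1
  have g2 := JC.green hB hψ (sE n) (sG n) I
  -- the left side
  have dsm : ∀ {F : ℂ → ℂ} (_ : ContDiffOn ℝ ∞ F B) (v : ℂ),
      ContDiffOn ℝ ∞ (fun w => fderiv ℝ F w v) B := fun hF v =>
    (hF.fderiv_of_isOpen hB (by simp)).clm_apply contDiffOn_const
  have a1 : (r n : ℂ) * (∫ z, (φ z : ℂ) * (E n z * G n z)) = -(h n : ℂ) ^ 2 *
      ((∫ z, (ψ z : ℂ) * (E n z * fderiv ℝ (fun w => fderiv ℝ (G n) w 1) z 1)) +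
       ∫ z, (ψ z : ℂ) * (E n z * fderiv ℝ (fun w => fderiv ℝ (G n) w I) z I)) := by
    have i1 : Integrable (fun z => (ψ z : ℂ) *
        (E n z * fderiv ℝ (fun w => fderiv ℝ (G n) w 1) z 1)) :=
      TF.cint hψ ((sE n).mul (dsm (dsm (sG n) 1) 1)).continuousOn
    have i2 : Integrable (fun z => (ψ z : ℂ) *
        (E n z * fderiv ℝ (fun w => fderiv ℝ (G n) w I) z I)) :=
      TF.cint hψ ((sE n).mul (dsm (dsm (sG n) I) I)).continuousOn
    rw [← integral_add i1 i2, ← integral_const_mul, ← integral_const_mul]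
    congr 1; funext z
    by_cases hz : z ∈ B
    · have e1 := eG n z hz
      have e2 : lap (G n) z = fderiv ℝ (fun w => fderiv ℝ (G n) w 1) z 1 +
        fderiv ℝ (fun w => fderiv ℝ (G n) w I) z I := rfl
      rw [e2] at e1
      simp only [hψd]
      push_cast
      linear_combination ((φ z : ℂ) * E n z) * e1
    · rw [TF.zero hφ hz, TF.zero hψ hz]; simp
  have a2 : ∫ z, (φ z : ℂ) * (sL Complex.im h E n z * G n z) = -(h n : ℂ) ^ 2 *
      ((∫ z, (ψ z : ℂ) * (fderiv ℝ (fun w => fderiv ℝ (E n) w 1) z 1 * G n z)) +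
       ∫ z, (ψ z : ℂ) * (fderiv ℝ (fun w => fderiv ℝ (E n) w I) z I * G n z)) := by
    have i1 : Integrable (fun z => (ψ z : ℂ) *
        (fderiv ℝ (fun w => fderiv ℝ (E n) w 1) z 1 * G n z)) :=
      TF.cint hψ ((dsm (dsm (sE n) 1) 1).mul (sG n)).continuousOn
    have i2 : Integrable (fun z => (ψ z : ℂ) *
        (fderiv ℝ (fun w => fderiv ℝ (E n) w I) z I * G n z)) :=
      TF.cint hψ ((dsm (dsm (sE n) I) I).mul (sG n)).continuousOn
    rw [← integral_add i1 i2, ← integral_const_mul]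
    congr 1; funext z
    have e2 : lap (E n) z = fderiv ℝ (fun w => fderiv ℝ (E n) w 1) z 1 +
        fderiv ℝ (fun w => fderiv ℝ (E n) w I) z I := rfl
    simp only [sL, hψd, e2]
    push_cast
    ring
  have b1 : ∀ v, ∫ z, ((fderiv ℝ (fun w => fderiv ℝ ψ w v) z v : ℝ) : ℂ) *
      ((h n : ℂ) * (((h n : ℂ) * E n z) * G n z)) = (h n : ℂ) ^ 2 *
      ∫ z, ((fderiv ℝ (fun w => fderiv ℝ ψ w v) z v : ℝ) : ℂ) * (E n z * G n z) := by
    intro v
    rw [← integral_const_mul]; congr 1; funext z; ring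
  have b2 : ∀ v, ∫ z, ((fderiv ℝ ψ z v : ℝ) : ℂ) * ((h n : ℂ) * (hd h v E n z * G n z)) =
      (h n : ℂ) ^ 2 * ∫ z, ((fderiv ℝ ψ z v : ℝ) : ℂ) * (fderiv ℝ (E n) z v * G n z) := by
    intro v
    rw [← integral_const_mul]; congr 1; funext z
    simp only [hd]; ring
  rw [b1, b1, b2, b2, a1, a2, g1, g2]
  ring

include H H' in
lemma q2_it {C : ℝ} (hC : Cmp h κ C) {E : ℕ → ℂ → ℂ} (hE : Q2 B h κ w v E) (i : ℕ) :
    Q2 B h κ w v ((sL Complex.im h)^[i] E) := by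
  induction i with
  | zero => exact hE
  | succ i ih =>
    rw [Function.iterate_succ_apply']
    exact ih.sL H H' hC

include H H' in
/-- iterated pairing -/
theorem q2_pairI (hBU : B ⊆ UH) {C : ℝ} (hC : Cmp h κ C) {r : ℕ → ℝ} (r0 : ∀ n, 0 ≤ r n)
    {G : ℕ → ℂ → ℂ} (hG : LB B 2 G)
    (eG : ∀ n, ∀ z ∈ B, (h n : ℂ) ^ 2 * ((z.im : ℂ) ^ 2 * lap (G n) z) = -((r n : ℂ) * G n z))
    {E : ℕ → ℂ → ℂ} (hE : Q2 B h κ w v E) {φ : ℂ → ℝ} (hφ : TF B φ) (i : ℕ) :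
    Tendsto (fun n => ((r n : ℂ) ^ i * (∫ z, (φ z : ℂ) * (E n z * G n z)) -
      ∫ z, (φ z : ℂ) * ((sL Complex.im h)^[i] E n z * G n z)) / ((1 + r n : ℝ) : ℂ) ^ i)
      atTop (𝓝 0) := by
  induction i with
  | zero => simp
  | succ i ih =>
    have p := q2_pair1 H H' hBU hC hG eG (q2_it H H' hC hE i) hφ
    have b1 : ∀ n, ‖(r n : ℂ) / ((1 + r n : ℝ) : ℂ)‖ ≤ 1 := by
      intro n
      have := r0 n
      rw [norm_div, Complex.norm_real, Complex.norm_real, Real.norm_eq_abs, Real.norm_eq_abs,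
        abs_of_nonneg this, abs_of_nonneg (by linarith : 0 ≤ 1 + r n),
        div_le_one (by linarith)]
      linarith
    have t := (JC.mul_null ih b1).add (JC.mul_null p fun n => JC.nb1 (r0 n) (i + 1))
    rw [add_zero] at t
    refine t.congr fun n => ?_
    rw [Function.iterate_succ_apply']
    have := JC.nb (r0 n)
    field_simp
    ring

lemma mul_null_bd {a b : ℕ → ℂ} (ha : Tendsto a atTop (𝓝 0)) {C : ℝ} (hb : ∀ n, ‖b n‖ ≤ C) :
    Tendsto (fun n => b n * a n) atTop (𝓝 0) := by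
  refine squeeze_zero_norm (a := fun n => C * ‖a n‖) (fun n => ?_) ?_
  · rw [norm_mul]
    exact mul_le_mul_of_nonneg_right (hb n) (norm_nonneg _)
  · simpa using ha.norm.const_mul C

include H H' in
/-- **pairing with a polynomial in the Laplacian applied to the product of two ladders** -/
theorem pairF (hBU : B ⊆ UH) {C : ℝ} (hC : Cmp h κ C) (h0 : EX B h w (w 0)) (k0 : EX B κ v (v 0))
    {r : ℕ → ℝ} (r0 : ∀ n, 0 ≤ r n) {G : ℕ → ℂ → ℂ} (hG : LB B 2 G)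
    (eG : ∀ n, ∀ z ∈ B, (h n : ℂ) ^ 2 * ((z.im : ℂ) ^ 2 * lap (G n) z) = -((r n : ℂ) * G n z))
    {φ : ℂ → ℝ} (hφ : TF B φ) (F : Polynomial A) :
    Tendsto (fun n => (((ev2 (ra h κ n) (r n) F : ℝ) : ℂ) *
      (∫ z, (φ z : ℂ) * (w 0 n z * v 0 n z * G n z)) -
      ∫ z, (φ z : ℂ) * (OP h (ra h κ) F (fun n z => w 0 n z * v 0 n z) n z * G n z)) /
        ((1 + r n : ℝ) : ℂ) ^ F.natDegree) atTop (𝓝 0) := by
  have hQ : Q2 B h κ w v (fun n z => w 0 n z * v 0 n z) := Q2.mv (H.bd 0) (RP.W H' k0 0)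
  obtain ⟨E, hE⟩ : ∃ E : ℕ → ℂ → ℂ, E = fun n z => w 0 n z * v 0 n z := ⟨_, rfl⟩
  rw [← hE] at hQ ⊢
  have hE' : ∀ n z, w 0 n z * v 0 n z = E n z := fun n z => by rw [hE]
  simp only [hE']
  have hcb : ∀ p : A, ∃ C', ∀ n, |p.eval (ra h κ n)| ≤ C' := fun p => poly_bd (ra_bd H H' hC) p
  have t : Tendsto (fun n => ∑ i ∈ F.support, (((F.coeff i).eval (ra h κ n) : ℝ) : ℂ) *
      (1 / ((1 + r n : ℝ) : ℂ) ^ (F.natDegree - i) *
      (((r n : ℂ) ^ i * (∫ z, (φ z : ℂ) * (E n z * G n z)) -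
      ∫ z, (φ z : ℂ) * ((sL Complex.im h)^[i] E n z * G n z)) /
        ((1 + r n : ℝ) : ℂ) ^ i))) atTop (𝓝 0) := by
    have := tendsto_finsetSum F.support fun i _ => by
      obtain ⟨C', hC'⟩ := hcb (F.coeff i)
      exact mul_null_bd (a := fun n => (1 / ((1 + r n : ℝ) : ℂ) ^ (F.natDegree - i) *
        (((r n : ℂ) ^ i * (∫ z, (φ z : ℂ) * (E n z * G n z)) -
        ∫ z, (φ z : ℂ) * ((sL Complex.im h)^[i] E n z * G n z)) /
        ((1 + r n : ℝ) : ℂ) ^ i))) (b := fun n => (((F.coeff i).eval (ra h κ n) : ℝ) : ℂ))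
        (JC.mul_null (q2_pairI H H' hBU hC r0 hG eG hQ hφ i)
        fun n => JC.nb1 (r0 n) (F.natDegree - i)) (C := C') fun n => by
          rw [Complex.norm_real, Real.norm_eq_abs]; exact hC' n
    simpa using this
  refine t.congr fun n => ?_
  have sm : ∀ i, ContDiffOn ℝ ∞ ((sL Complex.im h)^[i] E n) B := fun i =>
    ((q2_it H H' hC hQ i).lb H H').sm n
  have ii : ∀ i, Integrable (fun z => (φ z : ℂ) *
      ((((F.coeff i).eval (ra h κ n) : ℝ) : ℂ) * (sL Complex.im h)^[i] E n z * G n z)) := fun i =>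
    TF.cint hφ ((continuousOn_const.mul (sm i).continuousOn).mul (hG.sm n).continuousOn)
  have e1 : ∫ z, (φ z : ℂ) * (OP h (ra h κ) F E n z * G n z) =
      ∑ i ∈ F.support, (((F.coeff i).eval (ra h κ n) : ℝ) : ℂ) *
        ∫ z, (φ z : ℂ) * ((sL Complex.im h)^[i] E n z * G n z) := by
    simp only [OP, Polynomial.sum_def, ← integral_const_mul]
    rw [← integral_finsetSum _ fun i _ => ?_]
    · congr 1; funext z
      rw [Finset.sum_mul, Finset.mul_sum]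
      refine Finset.sum_congr rfl fun i _ => ?_
      ring
    · exact (ii i).congr (Eventually.of_forall fun z => by simp only; ring)
  have e2 : ((ev2 (ra h κ n) (r n) F : ℝ) : ℂ) =
      ∑ i ∈ F.support, (((F.coeff i).eval (ra h κ n) : ℝ) : ℂ) * (r n : ℂ) ^ i := by
    rw [ev2_sum, Polynomial.sum_def]
    push_cast; rfl
  rw [e1, e2, Finset.sum_mul, ← Finset.sum_sub_distrib, Finset.sum_div]
  refine Finset.sum_congr rfl fun i hi => ?_
  have hd : i ≤ F.natDegree := Polynomial.le_natDegree_of_mem_supp i hi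
  have hb := JC.nb (r0 n)
  have e3 : ((1 + r n : ℝ) : ℂ) ^ F.natDegree = ((1 + r n : ℝ) : ℂ) ^ (F.natDegree - i) *
      ((1 + r n : ℝ) : ℂ) ^ i := by
    rw [← pow_add, Nat.sub_add_cancel hd]
  rw [e3]
  field_simp

end

end Pool.Agent.K13.TP
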