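import Pool.Agent.K13.TP.Ev2
import Pool.Agent.Y265.HY.JC3

/-!
# Polynomials which pick the frequency of a third form
-/

set_option autoImplicit false
open MeasureTheory Filter Topology

namespace Pool.Agent.K13.TP

noncomputable section

open Polynomial

lemma dct2 {F : ℕ → ℝ → ℝ} {g : ℝ → ℝ} (hF : ∀ N, Continuous (F N)) (hg : Continuous g)
    (hb : ∀ N θ, |F N θ| ≤ g θ) {S : Set ℝ} (hS : S.Countable)
    (hl : ∀ θ, θ ∉ S → Tendsto (fun N => F N θ) atTop (𝓝 0)) :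
    Tendsto (fun N => ∫ θ in (0 : ℝ)..(2 * Real.pi), F N θ ^ 2) atTop (𝓝 0) := by
  have key : Tendsto (fun N : ℕ => ∫ θ in (0 : ℝ)..(2 * Real.pi), F N θ ^ 2) atTop
      (𝓝 (∫ _θ in (0 : ℝ)..(2 * Real.pi), (0 : ℝ))) := by
    refine intervalIntegral.tendsto_integral_filter_of_dominated_convergence
      (fun θ => g θ ^ 2)
      (Eventually.of_forall fun N => ((hF N).pow 2).aestronglyMeasurable)
      (Eventually.of_forall fun N => ae_of_all _ fun θ _ => ?_)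
      ((hg.pow 2).intervalIntegrable _ _) ?_
    · rw [Real.norm_eq_abs, abs_of_nonneg (sq_nonneg _), ← sq_abs]
      exact pow_le_pow_left₀ (abs_nonneg _) (hb N θ) 2
    · have h6 : ∀ᵐ θ : ℝ, θ ∉ S :=
        measure_eq_zero_iff_ae_notMem.1 (hS.measure_zero volume)
      filter_upwards [h6] with θ hθ _
      simpa using (hl θ hθ).pow 2
  simpa using key

/-- the algebra of the evaluation at `ρ` -/
abbrev algR (ρ : ℝ) : Algebra A ℝ := (Polynomial.evalRingHom ρ).toAlgebra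

lemma aeval_ev2 (ρ x : ℝ) (F : Polynomial A) :
    @Polynomial.aeval A ℝ _ _ (algR ρ) x F = ev2 ρ x F := by
  let _ := algR ρ
  rw [ev2, Polynomial.eval_map]
  rfl

lemma Sy_ev2 (ρ x y P : ℝ) (hs : P + x + y = 2 + 2 * ρ ^ 2) (hd : x * y = (ρ ^ 2 - 1) ^ 2)
    (G : Polynomial A) : P * (ev2 ρ x G + ev2 ρ y G) = P * ev2 ρ P (Sy G) := by
  let _ := algR ρ
  have hr : rr ℝ = ρ := by
    show Polynomial.eval ρ Polynomial.X = ρ
    simp
  have h := Sy_eq (Q := ℝ) x y P (by rw [hr]; exact hs) (by rw [hr, hd]; ring) G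
  rw [← aeval_ev2, ← aeval_ev2, ← aeval_ev2]
  exact h

lemma ev2_pow (ρ x : ℝ) (F : Polynomial A) (m : ℕ) : ev2 ρ x (F ^ m) = ev2 ρ x F ^ m := by
  simp [ev2]

lemma ev2_map (ρ x : ℝ) (F : Polynomial ℝ) : ev2 ρ x (F.map Polynomial.C) = F.eval x := by
  rw [ev2, Polynomial.map_map]
  have : (Polynomial.evalRingHom ρ).comp (Polynomial.C : ℝ →+* A) = RingHom.id ℝ := by
    ext y
    simp
  rw [this, Polynomial.map_id]

lemma ev2_Mp (ρ x : ℝ) : ev2 ρ x Mp =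
    (x ^ 2 - 2 * (1 + ρ ^ 2) * x + (ρ ^ 2 - 1) ^ 2) * (x ^ 2 - (ρ ^ 2 - 1) ^ 2) := by
  simp [ev2, Mp, Np]

lemma ev2_AAp (ρ x y P : ℝ) (hs : P + x + y = 2 + 2 * ρ ^ 2) (hd : x * y = (ρ ^ 2 - 1) ^ 2)
    (F : Polynomial ℝ) : ev2 ρ P (AAp (F.map Polynomial.C)) =
      1 / 2 * (4 - P) * (P * ((x ^ 2 * F.eval x) ^ 2 + (y ^ 2 * F.eval y) ^ 2)) := by
  have h := Sy_ev2 ρ x y P hs hd ((Polynomial.X ^ 2 * F.map Polynomial.C) ^ 2)
  have e4 : ev2 ρ P (4 - Polynomial.X) = 4 - P := by simp [ev2]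
  rw [AAp, ev2_mul, ev2_mul, ev2_mul, e4, ev2_C, ev2_X]
  rw [ev2_pow, ev2_mul, ev2_pow, ev2_X, ev2_map, ev2_pow, ev2_mul, ev2_pow, ev2_X, ev2_map] at h
  rw [Polynomial.eval_C]
  linear_combination (-(1 / 2 * (4 - P))) * h

/-- the roots -/
def rx (s ρ θ : ℝ) : ℝ :=
  ((2 + 2 * ρ ^ 2 - (2 + 2 * Real.cos θ)) + s * √((4 - (2 + 2 * Real.cos θ)) *
    (4 * ρ ^ 2 - (2 + 2 * Real.cos θ)))) / 2

lemma rx_co (s ρ : ℝ) : Continuous (rx s ρ) := by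
  unfold rx
  fun_prop

lemma disc {ρ θ : ℝ} (hρ : 1 ≤ ρ) : 0 ≤ (4 - (2 + 2 * Real.cos θ)) *
    (4 * ρ ^ 2 - (2 + 2 * Real.cos θ)) := by
  have h1 := Real.cos_le_one θ
  refine mul_nonneg (by linarith) ?_
  nlinarith

lemma rx_sum (ρ θ : ℝ) : (2 + 2 * Real.cos θ) + rx 1 ρ θ + rx (-1) ρ θ = 2 + 2 * ρ ^ 2 := by
  unfold rx; ring

lemma rx_mul {ρ θ : ℝ} (hρ : 1 ≤ ρ) : rx 1 ρ θ * rx (-1) ρ θ = (ρ ^ 2 - 1) ^ 2 := by
  have h := Real.mul_self_sqrt (disc (θ := θ) hρ)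
  unfold rx
  linear_combination (-1 / 4) * h

lemma rx_nn {ρ θ : ℝ} (hρ : 1 ≤ ρ) : 0 ≤ rx 1 ρ θ ∧ 0 ≤ rx (-1) ρ θ := by
  have h1 := rx_sum ρ θ
  have h2 := rx_mul (θ := θ) hρ
  have h3 := Real.cos_le_one θ
  have h4 : 0 ≤ √((4 - (2 + 2 * Real.cos θ)) * (4 * ρ ^ 2 - (2 + 2 * Real.cos θ))) :=
    Real.sqrt_nonneg _
  have h5 : 0 ≤ rx 1 ρ θ := by
    unfold rx
    nlinarith
  refine ⟨h5, ?_⟩
  by_contra h6
  push Not at h6
  rcases h5.eq_or_lt with h7 | h7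
  · nlinarith
  · nlinarith [mul_neg_of_pos_of_neg h7 h6, sq_nonneg (ρ ^ 2 - 1)]

lemma rx_le {ρ θ : ℝ} (hρ : 1 ≤ ρ) : rx 1 ρ θ ≤ 4 + 2 * ρ ^ 2 ∧ rx (-1) ρ θ ≤ 4 + 2 * ρ ^ 2 := by
  obtain ⟨h1, h2⟩ := rx_nn (θ := θ) hρ
  have h3 := rx_sum ρ θ
  have h4 := Real.neg_one_le_cos θ
  constructor <;> nlinarith

lemma rx_ne {ρ θ r : ℝ} (hr : 0 < r) {x y : ℝ}
    (hs : (2 + 2 * Real.cos θ) + x + y = 2 + 2 * ρ ^ 2) (hd : x * y = (ρ ^ 2 - 1) ^ 2)
    (h : Real.cos θ ≠ (-(r ^ 2 - (2 + 2 * ρ ^ 2) * r + (ρ ^ 2 - 1) ^ 2) / r - 2) / 2) :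
    x ≠ r := by
  intro hx
  apply h
  rw [hx] at hs hd
  have hr' := hr.ne'
  field_simp
  have hy : y = 2 + 2 * ρ ^ 2 - (2 + 2 * Real.cos θ) - r := by linarith
  rw [hy] at hd
  linear_combination -hd

/-- the polynomial `1 - c (Y - r)²` -/
def qp (c r : ℝ) : Polynomial ℝ := 1 - Polynomial.C c * (Polynomial.X - Polynomial.C r) ^ 2

lemma qp_ev (c r x : ℝ) : (qp c r).eval x = 1 - c * (x - r) ^ 2 := by
  simp [qp]

/-- **polynomials which pick the frequency `r`** -/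
theorem poly_pick {ρ r : ℝ} (hρ : 1 ≤ ρ) (hr : 0 ≤ r) (h1 : r ≠ (1 + ρ) ^ 2)
    (h2 : r ≠ (ρ - 1) ^ 2) (h3 : r ≠ ρ ^ 2 - 1) {ε : ℝ} (hε : 0 < ε) : ∃ Hp : Polynomial ℝ,
    ev2 ρ r (Mp * Hp.map Polynomial.C) = 1 ∧
    (∫ ω in (0 : ℝ)..(2 * Real.pi), (ev2 ρ (1 + ρ ^ 2 + 2 * ρ * Real.cos ω)
      (Mp * Hp.map Polynomial.C)) ^ 2) ≤ ε ∧
    (∫ θ in (0 : ℝ)..(2 * Real.pi), (ev2 ρ (2 + 2 * Real.cos θ)
      (AAp (Hp.map Polynomial.C))) ^ 2) ≤ ε := by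
  obtain ⟨T, hT⟩ : ∃ T, T = 4 + 2 * ρ ^ 2 := ⟨_, rfl⟩
  have T0 : 0 < T := by rw [hT]; positivity
  obtain ⟨c, hc⟩ : ∃ c, c = 1 / (T ^ 2 + r ^ 2) := ⟨_, rfl⟩
  have c0 : 0 < c := by rw [hc]; positivity
  -- bounds of `q`
  have q1 : ∀ x, 0 ≤ x → x ≤ T → |(qp c r).eval x| ≤ 1 := by
    intro x x0 x1
    rw [qp_ev, abs_le]
    have e1 : c * (x - r) ^ 2 ≤ 1 := by
      rw [hc, one_div, inv_mul_le_iff₀ (by positivity), mul_one]
      nlinarith [mul_nonneg x0 hr]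
    have e2 : 0 ≤ c * (x - r) ^ 2 := by positivity
    constructor <;> linarith
  have q2 : ∀ x, 0 ≤ x → x ≤ T → x ≠ r → |(qp c r).eval x| < 1 := by
    intro x x0 x1 xr
    rw [qp_ev, abs_lt]
    have e1 : c * (x - r) ^ 2 ≤ 1 := by
      rw [hc, one_div, inv_mul_le_iff₀ (by positivity), mul_one]
      nlinarith [mul_nonneg x0 hr]
    have e2 : 0 < c * (x - r) ^ 2 := by
      have : x - r ≠ 0 := sub_ne_zero.2 xr
      positivity
    constructor <;> linarith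
  have q3 : (qp c r).eval r = 1 := by rw [qp_ev]; ring
  -- the value of `M`
  have hM : ev2 ρ r Mp ≠ 0 := by
    rw [ev2_Mp]
    have e1 : r ^ 2 - 2 * (1 + ρ ^ 2) * r + (ρ ^ 2 - 1) ^ 2 =
      (r - (1 + ρ) ^ 2) * (r - (ρ - 1) ^ 2) := by ring
    have e2 : r ^ 2 - (ρ ^ 2 - 1) ^ 2 = (r - (ρ ^ 2 - 1)) * (r + (ρ ^ 2 - 1)) := by ring
    rw [e1, e2]
    refine mul_ne_zero (mul_ne_zero (sub_ne_zero.2 h1) (sub_ne_zero.2 h2))
      (mul_ne_zero (sub_ne_zero.2 h3) ?_)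
    intro h
    have p1 : 0 ≤ ρ ^ 2 - 1 := by nlinarith
    have p2 : r = 0 := by linarith
    have p3 : ρ ^ 2 - 1 = 0 := by linarith
    have p4 : ρ = 1 := by nlinarith
    rw [p2, p4] at h2
    norm_num at h2
  obtain ⟨k, hk⟩ : ∃ k, k = (ev2 ρ r Mp)⁻¹ := ⟨_, rfl⟩
  obtain ⟨Hp, hHp⟩ : ∃ Hp : ℕ → Polynomial ℝ, ∀ N, Hp N = Polynomial.C k * qp c r ^ N :=
    ⟨_, fun _ => rfl⟩
  have eH : ∀ N x, (Hp N).eval x = k * (qp c r).eval x ^ N := fun N x => by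
    rw [hHp, Polynomial.eval_mul, Polynomial.eval_C, Polynomial.eval_pow]
  have cM : Continuous fun x => ev2 ρ x Mp := by
    simp only [ev2_Mp]; fun_prop
  have cH : ∀ N, Continuous fun x => (Hp N).eval x := fun N => (Hp N).continuous
  -- first integral
  have xT : ∀ ω : ℝ, 0 ≤ 1 + ρ ^ 2 + 2 * ρ * Real.cos ω ∧ 1 + ρ ^ 2 + 2 * ρ * Real.cos ω ≤ T := by
    intro ω
    have a1 := Real.cos_le_one ω
    have a2 := Real.neg_one_le_cos ω
    rw [hT]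
    constructor <;> nlinarith
  have pw : ∀ {a : ℝ}, |a| ≤ 1 → ∀ N : ℕ, |a ^ N| ≤ 1 := fun ha N => by
    rw [abs_pow]; exact pow_le_one₀ (abs_nonneg _) ha
  have t1 : Tendsto (fun N => ∫ ω in (0 : ℝ)..(2 * Real.pi),
      (ev2 ρ (1 + ρ ^ 2 + 2 * ρ * Real.cos ω) (Mp * (Hp N).map Polynomial.C)) ^ 2) atTop
      (𝓝 0) := by
    have ex : Continuous fun ω : ℝ => 1 + ρ ^ 2 + 2 * ρ * Real.cos ω := by fun_prop
    refine dct2 (g := fun ω => |ev2 ρ (1 + ρ ^ 2 + 2 * ρ * Real.cos ω) Mp| * |k|) (fun N => ?_)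
      ?_ (fun N ω => ?_) (S := {ω | Real.cos ω = (r - 1 - ρ ^ 2) / (2 * ρ)})
      (Pool.Agent.Y265.HY.JC.cnt _) (fun ω hω => ?_)
    · simp only [ev2_mul, ev2_map]
      exact (cM.comp ex).mul ((cH N).comp ex)
    · exact ((cM.comp ex).abs).mul continuous_const
    · rw [ev2_mul, ev2_map, eH, abs_mul, abs_mul]
      have := pw (q1 _ (xT ω).1 (xT ω).2) N
      exact mul_le_mul_of_nonneg_left (mul_le_of_le_one_right (abs_nonneg _) this) (abs_nonneg _)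
    · have hne : 1 + ρ ^ 2 + 2 * ρ * Real.cos ω ≠ r := by
        intro h
        apply hω
        show Real.cos ω = _
        have : (2 * ρ) ≠ 0 := by positivity
        rw [eq_div_iff this]; linarith
      have h10 := tendsto_pow_atTop_nhds_zero_of_abs_lt_one (q2 _ (xT ω).1 (xT ω).2 hne)
      have h11 := (h10.const_mul k).const_mul (ev2 ρ (1 + ρ ^ 2 + 2 * ρ * Real.cos ω) Mp)
      rw [mul_zero, mul_zero] at h11
      exact h11.congr fun N => by rw [ev2_mul, ev2_map, eH]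
  -- second integral
  have t2 : Tendsto (fun N => ∫ θ in (0 : ℝ)..(2 * Real.pi),
      (ev2 ρ (2 + 2 * Real.cos θ) (AAp ((Hp N).map Polynomial.C))) ^ 2) atTop (𝓝 0) := by
    have eA : ∀ N θ, ev2 ρ (2 + 2 * Real.cos θ) (AAp ((Hp N).map Polynomial.C)) =
        1 / 2 * (4 - (2 + 2 * Real.cos θ)) * ((2 + 2 * Real.cos θ) *
        ((rx 1 ρ θ ^ 2 * (Hp N).eval (rx 1 ρ θ)) ^ 2 +
         (rx (-1) ρ θ ^ 2 * (Hp N).eval (rx (-1) ρ θ)) ^ 2)) := fun N θ =>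
      ev2_AAp ρ _ _ _ (rx_sum ρ θ) (rx_mul hρ) _
    have c1 := rx_co 1 ρ
    have c2 := rx_co (-1) ρ
    have cc := Real.continuous_cos
    refine dct2 (g := fun θ => |1 / 2 * (4 - (2 + 2 * Real.cos θ))| * (|2 + 2 * Real.cos θ| *
        ((rx 1 ρ θ ^ 2 * k) ^ 2 + (rx (-1) ρ θ ^ 2 * k) ^ 2))) (fun N => ?_)
      ?_ (fun N θ => ?_) (S := {θ | Real.cos θ =
        (-(r ^ 2 - (2 + 2 * ρ ^ 2) * r + (ρ ^ 2 - 1) ^ 2) / r - 2) / 2})
      (Pool.Agent.Y265.HY.JC.cnt _) (fun θ hθ => ?_)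
    · simp only [eA]
      have d1 := (cH N).comp c1
      have d2 := (cH N).comp c2
      simp only [Function.comp_def] at d1 d2
      exact (continuous_const.mul (continuous_const.sub (continuous_const.add
        (continuous_const.mul cc)))).mul ((continuous_const.add (continuous_const.mul cc)).mul
          ((((c1.pow 2).mul d1).pow 2).add (((c2.pow 2).mul d2).pow 2)))
    · fun_prop
    · rw [eA, abs_mul, abs_mul (2 + 2 * Real.cos θ)]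
      refine mul_le_mul_of_nonneg_left (mul_le_mul_of_nonneg_left ?_ (abs_nonneg _))
        (abs_nonneg _)
      have b : ∀ x, 0 ≤ x → x ≤ T → (x ^ 2 * (Hp N).eval x) ^ 2 ≤ (x ^ 2 * k) ^ 2 := by
        intro x x0 x1
        rw [eH, ← mul_assoc, mul_pow _ (_ ^ N)]
        have h5 : ((qp c r).eval x ^ N) ^ 2 ≤ 1 := by
          rw [← sq_abs]
          exact pow_le_one₀ (abs_nonneg _) (pw (q1 x x0 x1) N)
        exact mul_le_of_le_one_right (sq_nonneg _) h5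
      rw [abs_of_nonneg (by positivity)]
      have n1 := rx_nn (θ := θ) hρ
      have n2 := rx_le (θ := θ) hρ
      rw [← hT] at n2
      exact add_le_add (b _ n1.1 n2.1) (b _ n1.2 n2.2)
    · simp only [eA]
      have n1 := rx_nn (θ := θ) hρ
      have n2 := rx_le (θ := θ) hρ
      rw [← hT] at n2
      have b : ∀ x y, 0 ≤ x → x ≤ T → (2 + 2 * Real.cos θ) + x + y = 2 + 2 * ρ ^ 2 →
          x * y = (ρ ^ 2 - 1) ^ 2 →
          Tendsto (fun N => (x ^ 2 * (Hp N).eval x) ^ 2) atTop (𝓝 0) := by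
        intro x y x0 x1 hs hd
        have hne : x ≠ r := by
          rcases hr.eq_or_lt with h0 | h0
          · intro hx
            rw [hx, ← h0, zero_mul] at hd
            have p3 : ρ ^ 2 - 1 = 0 := by
              have := hd.symm
              exact pow_eq_zero_iff (two_ne_zero) |>.1 this
            have p4 : ρ = 1 := by nlinarith
            rw [← h0, p4] at h2
            norm_num at h2
          · exact rx_ne h0 hs hd hθ
        have h10 := tendsto_pow_atTop_nhds_zero_of_abs_lt_one (q2 _ x0 x1 hne)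
        have h11 := ((h10.const_mul k).const_mul (x ^ 2)).pow 2
        rw [mul_zero, mul_zero, zero_pow two_ne_zero] at h11
        exact h11.congr fun N => by rw [eH]
      have b1 := b _ _ n1.1 n2.1 (rx_sum ρ θ) (rx_mul hρ)
      have b2 := b (rx (-1) ρ θ) (rx 1 ρ θ) n1.2 n2.2 (by linarith [rx_sum ρ θ]) (by rw [mul_comm]; exact rx_mul hρ)
      have := ((b1.add b2).const_mul (2 + 2 * Real.cos θ)).const_mul
        (1 / 2 * (4 - (2 + 2 * Real.cos θ)))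
      simpa using this
  obtain ⟨N, hN1, hN2⟩ := ((t1.eventually (gt_mem_nhds hε)).and
    (t2.eventually (gt_mem_nhds hε))).exists
  refine ⟨Hp N, ?_, hN1.le, hN2.le⟩
  rw [ev2_mul, ev2_map, eH, q3, one_pow, mul_one, hk, mul_inv_cancel₀ hM]

end

end Pool.Agent.K13.TP
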