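import Pool.Agent.K13.TP.Sqb
import Pool.Agent.K13.TP.Pair
import Pool.Agent.K13.TP.Poly

/-!
# Three sequences of eigenfunctions
-/

set_option autoImplicit false
set_option linter.unusedSectionVars false
open MeasureTheory Filter Topology Complex Set
open scoped ContDiff Real Manifold

namespace Pool.Agent.K13.TP

open Pool.Agent.W745.RW Pool.Agent.TH294.RS Pool.Agent.Y265.HY
open Pool.Agent.TH294.RG (sL sL1 sL_it sR sL1_re)
open Pool.Agent.R314.JN (QS)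
open Pool.Agent.Y265.HY.JC (hh)

noncomputable section

/-- `u`, `v` are quantum ergodic sequences with comparable eigenvalues, `g` is a third sequence of
eigenfunctions -/
structure TD (Ω : Set ℂ) (lam mu nu : ℕ → ℝ) (u v g : ℕ → ℂ → ℝ) : Prop where
  op : IsOpen Ω
  hU : ∀ z ∈ Ω, 0 < z.im
  qu : QS Ω lam u
  qv : QS Ω mu v
  cm : ∃ C : ℝ, ∀ n, lam n ≤ C * mu n ∧ mu n ≤ C * lam n
  np : ∀ n, 0 ≤ nu n
  gs : ∀ n, ContDiffOn ℝ ∞ (g n) Ω
  ge : ∀ n, ∀ z ∈ Ω, z.im ^ 2 * lap (g n) z + nu n * g n z = 0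
  gb : ∀ K : Set ℂ, IsCompact K → K ⊆ Ω → ∃ C : ℝ, ∀ᶠ n in atTop, ∫ z in K, g n z ^ 2 ≤ C

variable {Ω : Set ℂ} {lam mu nu : ℕ → ℝ} {u v g : ℕ → ℂ → ℝ}

lemma qs_cmp (D : QS Ω lam u) {σ : ℕ → ℕ} (hσ : Tendsto σ atTop atTop) :
    QS Ω (fun n => lam (σ n)) (fun n => u (σ n)) where
  pos := fun n => D.pos _
  lim := D.lim.comp hσ
  sm := fun n => D.sm _
  eq := fun n => D.eq _
  qe := fun φ hφ k => (D.qe φ hφ k).comp hσ

lemma TD.cmp (D : TD Ω lam mu nu u v g) {σ : ℕ → ℕ} (hσ : Tendsto σ atTop atTop) :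
    TD Ω (fun n => lam (σ n)) (fun n => mu (σ n)) (fun n => nu (σ n)) (fun n => u (σ n))
      (fun n => v (σ n)) (fun n => g (σ n)) where
  op := D.op
  hU := D.hU
  qu := qs_cmp D.qu hσ
  qv := qs_cmp D.qv hσ
  cm := by
    obtain ⟨C, hC⟩ := D.cm
    exact ⟨C, fun n => hC _⟩
  np := fun n => D.np _
  gs := fun n => D.gs _
  ge := fun n => D.ge _
  gb := fun K hK hKΩ => by
    obtain ⟨C, hC⟩ := D.gb K hK hKΩ
    exact ⟨C, hσ.eventually hC⟩

lemma TD.swap (D : TD Ω lam mu nu u v g) : TD Ω mu lam nu v u g where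
  op := D.op
  hU := D.hU
  qu := D.qv
  qv := D.qu
  cm := by
    obtain ⟨C, hC⟩ := D.cm
    exact ⟨C, fun n => ⟨(hC n).2, (hC n).1⟩⟩
  np := D.np
  gs := D.gs
  ge := D.ge
  gb := D.gb

/-- the ladder -/
abbrev lw (lam : ℕ → ℝ) (u : ℕ → ℂ → ℝ) : ℤ → ℕ → ℂ → ℂ :=
  ww Complex.im (hh lam) (fun n z => (u n z : ℂ))

lemma qs_sy (hΩ : IsOpen Ω) (hU : ∀ z ∈ Ω, 0 < z.im) (D : QS Ω lam u) :
    SY Ω Complex.im (hh lam) (lw lam u) :=
  (hyp_sys hΩ hU D.pos D.lim D.sm D.eq D.qe).1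

lemma qs_ex (hΩ : IsOpen Ω) (hU : ∀ z ∈ Ω, 0 < z.im) (D : QS Ω lam u) :
    EX Ω (hh lam) (lw lam u) (lw lam u 0) :=
  (hyp_sys hΩ hU D.pos D.lim D.sm D.eq D.qe).2

lemma lw0 (n : ℕ) (z : ℂ) : lw lam u 0 n z = (u n z : ℂ) := rfl

lemma TD.cc (D : TD Ω lam mu nu u v g) : ∃ C, Cmp (hh lam) (hh mu) C := by
  obtain ⟨A, hA⟩ := D.cm
  have A0 : 0 < A := by
    have p1 := D.qu.pos 0; have p2 := D.qv.pos 0
    by_contra hA'
    have := (hA 0).1
    nlinarith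
  have cmp : ∀ x y : ℝ, 0 < x → 0 < y → y ≤ A * x → 1 / √x ≤ √A * (1 / √y) := by
    intro x y hx hy hxy
    have : √y ≤ √A * √x := by
      rw [← Real.sqrt_mul A0.le]
      exact Real.sqrt_le_sqrt hxy
    have px := Real.sqrt_pos.2 hx
    have py := Real.sqrt_pos.2 hy
    rw [mul_one_div, div_le_div_iff₀ px py]
    linarith
  exact ⟨√A, fun n => cmp _ _ (D.qu.pos _) (D.qv.pos _) (hA n).2,
    fun n => cmp _ _ (D.qv.pos _) (D.qu.pos _) (hA n).1⟩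

/-- the ratio of the frequencies -/
abbrev rh (lam mu : ℕ → ℝ) (n : ℕ) : ℝ := ra (hh lam) (hh mu) n

/-- `F(L) (u v)` -/
def XR (lam mu : ℕ → ℝ) (F : Polynomial A) (u v : ℕ → ℂ → ℝ) (n : ℕ) (z : ℂ) : ℝ :=
  F.sum fun i c => c.eval (rh lam mu n) * (sR Complex.im (hh lam n))^[i] (fun w => u n w * v n w) z

lemma XR_eq (D : TD Ω lam mu nu u v g) (F : Polynomial A) (n : ℕ) {z : ℂ} (hz : z ∈ Ω) :
    OP (hh lam) (rh lam mu) F (fun n z => lw lam u 0 n z * lw mu v 0 n z) n z =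
      ((XR lam mu F u v n z : ℝ) : ℂ) := by
  simp only [OP, XR, Polynomial.sum_def]
  push_cast
  refine Finset.sum_congr rfl fun i _ => ?_
  have e1 : (sL Complex.im (hh lam))^[i] (fun n z => lw lam u 0 n z * lw mu v 0 n z) n =
      (sL1 Complex.im (hh lam n))^[i] (fun z => lw lam u 0 n z * lw mu v 0 n z) :=
    sL_it _ _ _ i n
  rw [e1, sL1_re D.op (show ContDiffOn ℝ ∞ Complex.im Ω from imCLM.contDiff.contDiffOn) _
    ((D.qu.sm n).mul (D.qv.sm n)) (fun w _ => by rw [lw0, lw0]; push_cast; ring) i z hz]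

lemma OP_co (D : TD Ω lam mu nu u v g) (F : Polynomial A) (n : ℕ) :
    ContinuousOn (fun z => OP (hh lam) (rh lam mu) F
      (fun n z => lw lam u 0 n z * lw mu v 0 n z) n z) Ω := by
  obtain ⟨C, hC⟩ := D.cc
  have H := qs_sy D.op D.hU D.qu
  have H' := qs_sy D.op D.hU D.qv
  obtain ⟨Q, hQ, hE⟩ := good_OP H H' hC (qs_ex D.op D.hU D.qu) (qs_ex D.op D.hU D.qv) F
  exact ((LM_sm H H' _ _ n).continuousOn.add
    (continuousOn_const.mul ((hQ.lb H H').co n))).congr fun z hz => hE n z hz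

lemma XR_co (D : TD Ω lam mu nu u v g) (F : Polynomial A) (n : ℕ) :
    ContinuousOn (XR lam mu F u v n) Ω := by
  have c2 := Complex.continuous_re.comp_continuousOn (OP_co D F n)
  refine c2.congr fun z hz => ?_
  simp only [Function.comp_def]
  rw [XR_eq D F n hz, Complex.ofReal_re]

lemma TD.lbg (D : TD Ω lam mu nu u v g) : LB Ω 2 (fun n z => (g n z : ℂ)) := by
  refine ⟨fun n => cxa (D.gs n), fun K hK hKΩ => ?_⟩
  obtain ⟨C, hC⟩ := D.gb K hK hKΩ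
  refine ⟨C, hC.mono fun n hn => ?_⟩
  have e : ∀ z, ‖(g n z : ℂ)‖ ^ 2 = g n z ^ 2 := fun z => by
    rw [Complex.norm_real, Real.norm_eq_abs, sq_abs]
  simp only [e]
  exact hn

/-- the third sequence is bounded in mean square -/
theorem TD.f5 (D : TD Ω lam mu nu u v g) {φ : ℂ → ℝ} (hφ : TF Ω φ) :
    ∃ C : ℝ, 0 ≤ C ∧ ∀ᶠ n in atTop, ∫ z, φ z * g n z ^ 2 ≤ C := by
  have l1 : LB Ω 1 (fun n z => (g n z : ℂ) * (g n z : ℂ)) := LB.mul2 D.lbg D.lbg
  obtain ⟨C, hC⟩ := l1.bdd hφ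
  refine ⟨|C|, abs_nonneg _, hC.mono fun n hn => ?_⟩
  have e : ∫ z, (φ z : ℂ) * ((g n z : ℂ) * (g n z : ℂ)) = ((∫ z, φ z * g n z ^ 2 : ℝ) : ℂ) := by
    rw [← integral_complex_ofReal]
    congr 1; funext z
    push_cast; ring
  rw [e, Complex.norm_real, Real.norm_eq_abs] at hn
  exact (le_abs_self _).trans (hn.trans (le_abs_self _))

/-- the pairing -/
theorem TD.f2 (D : TD Ω lam mu nu u v g) {φ : ℂ → ℝ} (hφ : TF Ω φ) (F : Polynomial A) :
    Tendsto (fun n => (ev2 (rh lam mu n) (nu n / lam n) F * (∫ z, φ z * (u n z * v n z * g n z)) -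
      ∫ z, φ z * (XR lam mu F u v n z * g n z)) / (1 + nu n / lam n) ^ F.natDegree) atTop
      (𝓝 0) := by
  obtain ⟨C, hC⟩ := D.cc
  have H := qs_sy D.op D.hU D.qu
  have H' := qs_sy D.op D.hU D.qv
  have eG : ∀ n, ∀ z ∈ Ω, (hh lam n : ℂ) ^ 2 * ((z.im : ℂ) ^ 2 *
      lap (fun w => ((g n w : ℝ) : ℂ)) z) = -(((nu n / lam n : ℝ) : ℂ) * (g n z : ℂ)) := by
    intro n z hz
    rw [Pool.Agent.TH294.RS.lap_re D.op (D.gs n) hz]
    have h1 := D.ge n z hz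
    have h2 : (hh lam n) ^ 2 = 1 / lam n := by
      rw [div_pow, Real.sq_sqrt (D.qu.pos n).le, one_pow]
    have h3 := (D.qu.pos n).ne'
    have h4 : (hh lam n) ^ 2 * (z.im ^ 2 * lap (g n) z) = -(nu n / lam n * g n z) := by
      rw [h2]
      have : z.im ^ 2 * lap (g n) z = -(nu n * g n z) := by linarith
      rw [this]; field_simp
    exact_mod_cast h4
  have key := pairF H H' D.hU hC (qs_ex D.op D.hU D.qu) (qs_ex D.op D.hU D.qv)
    (r := fun n => nu n / lam n)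
    (fun n => div_nonneg (D.np n) (D.qu.pos n).le) D.lbg eG hφ F
  have k2 := (Complex.continuous_re.tendsto _).comp key
  rw [Complex.zero_re] at k2
  refine k2.congr fun n => ?_
  have a1 : ∫ z, (φ z : ℂ) * (lw lam u 0 n z * lw mu v 0 n z * (g n z : ℂ)) =
      ((∫ z, φ z * (u n z * v n z * g n z) : ℝ) : ℂ) := by
    rw [← integral_complex_ofReal]
    congr 1; funext z
    rw [lw0, lw0]
    push_cast; ring
  have a2 : ∫ z, (φ z : ℂ) * (OP (hh lam) (rh lam mu) F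
      (fun n z => lw lam u 0 n z * lw mu v 0 n z) n z * (g n z : ℂ)) =
      ((∫ z, φ z * (XR lam mu F u v n z * g n z) : ℝ) : ℂ) := by
    rw [← integral_complex_ofReal]
    congr 1; funext z
    by_cases hz : z ∈ Ω
    · rw [XR_eq D F n hz]
      push_cast; ring
    · have : φ z = 0 := TF.zero hφ hz
      rw [this]; simp
  simp only [Function.comp_def]
  rw [a1, a2, ← Complex.ofReal_mul, ← Complex.ofReal_sub, ← Complex.ofReal_pow,
    ← Complex.ofReal_div, Complex.ofReal_re]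

/-- the bound of the power spectrum -/
theorem TD.f1 (D : TD Ω lam mu nu u v g) {φ : ℂ → ℝ} (hφ : TF Ω φ) (p0 : ∀ z, 0 ≤ φ z)
    (K : Polynomial A) {t : ℝ} (ht : 0 < t) :
    ∃ e : ℕ → ℝ, Tendsto e atTop (𝓝 0) ∧ ∀ n,
      (∫ z, φ z * XR lam mu (Mp * K) u v n z ^ 2) ≤
      (gx (Mp * K) (rh lam mu n) + t * gp (AAp K) (rh lam mu n) + t⁻¹ * gp BBp (rh lam mu n)) *
        (∫ z, φ z) + e n := by
  obtain ⟨C, hC⟩ := D.cc
  have H := qs_sy D.op D.hU D.qu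
  have H' := qs_sy D.op D.hU D.qv
  obtain ⟨e, he, h⟩ := sqb H H' D.hU hC (qs_ex D.op D.hU D.qu) (qs_ex D.op D.hU D.qv) hφ p0 K ht
  refine ⟨e, he, fun n => ?_⟩
  have h1 := h n
  have a1 : ∫ z, (φ z : ℂ) * (OP (hh lam) (rh lam mu) (Mp * K)
      (fun n z => lw lam u 0 n z * lw mu v 0 n z) n z * OP (hh lam) (rh lam mu) (Mp * K)
      (fun n z => lw lam u 0 n z * lw mu v 0 n z) n z) =
      ((∫ z, φ z * XR lam mu (Mp * K) u v n z ^ 2 : ℝ) : ℂ) := by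
    rw [← integral_complex_ofReal]
    congr 1; funext z
    by_cases hz : z ∈ Ω
    · rw [XR_eq D (Mp * K) n hz]
      push_cast; ring
    · have : φ z = 0 := TF.zero hφ hz
      rw [this]; simp
  rw [a1, Complex.ofReal_re] at h1
  exact h1

end

end Pool.Agent.K13.TP
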