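import Pool.Agent.K13.TP.Func

/-!
# Reduction of the power spectrum of a product to two power spectra of squares
-/

set_option autoImplicit false
open Filter Topology

namespace Pool.Agent.K13.TP

noncomputable section

open Polynomial
open Pool.Agent.W745.RW (Null)

/-- the exponents of the product of the first waves -/
def g1 : ℤ →+ Z4 where
  toFun m := (m, 0, -m, 0)
  map_zero' := by simp
  map_add' a b := by
    show ((a + b, 0, -(a + b), 0) : Z4) = (a + b, 0 + 0, -a + -b, 0 + 0)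
    rw [neg_add, add_zero]

/-- the exponents of the product of the second waves -/
def g2 : ℤ →+ Z4 where
  toFun m := (0, m, 0, -m)
  map_zero' := by simp
  map_add' a b := by
    show ((0, a + b, 0, -(a + b)) : Z4) = (0 + 0, a + b, 0 + 0, -a + -b)
    rw [neg_add, add_zero]

/-- the exponents of the product of the waves of frequency `1` -/
def g12 : ℤ →+ Z4 where
  toFun m := (m, -m, 0, 0)
  map_zero' := by simp
  map_add' a b := by
    show ((a + b, -(a + b), 0, 0) : Z4) = (a + b, -a + -b, 0 + 0, 0 + 0)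
    rw [neg_add, add_zero]

/-- the exponents of the product of the waves of frequency `r` -/
def g34 : ℤ →+ Z4 where
  toFun m := (0, 0, m, -m)
  map_zero' := by simp
  map_add' a b := by
    show ((0, 0, a + b, -(a + b)) : Z4) = (0 + 0, 0 + 0, a + b, -a + -b)
    rw [neg_add, add_zero]

/-- the exchange of the waves of frequency `r` -/
def gs : Z4 →+ Z4 where
  toFun m := (m.1, m.2.1, m.2.2.2, m.2.2.1)
  map_zero' := rfl
  map_add' _ _ := rfl

/-- the induced homomorphism -/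
abbrev JJ {G : Type*} [AddMonoid G] (g : G →+ Z4) : AddMonoidAlgebra A G →ₐ[A] R4 :=
  AddMonoidAlgebra.mapDomainAlgHom A A g

/-- the variable and its inverse -/
def tt : R1 := AddMonoidAlgebra.single 1 1
def tt' : R1 := AddMonoidAlgebra.single (-1) 1

/-- the normalised Laplacian on the product of two waves of different frequency -/
def xs : R1 := xx tt tt' 1 1
/-- the normalised Laplacian on the product of two waves of equal frequency -/
def ps : R1 := PP tt tt' 1 1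

section
variable {Q Q' : Type*} [CommRing Q] [Algebra A Q] [CommRing Q'] [Algebra A Q'] (φ : Q →ₐ[A] Q')

lemma map_rr : φ (rr Q) = rr Q' := φ.commutes X

lemma map_xx (z z' w w' : Q) : φ (xx z z' w w') = xx (φ z) (φ z') (φ w) (φ w') := by
  unfold xx
  simp only [map_add, map_mul, map_pow, map_one, map_rr]

lemma map_PP (z z' w w' : Q) : φ (PP z z' w w') = PP (φ z) (φ z') (φ w) (φ w') := by
  unfold PP
  have h2 : φ 2 = 2 := map_ofNat φ 2
  simp only [map_add, map_mul, h2]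

end

lemma JJ_single {G : Type*} [AddMonoid G] (g : G →+ Z4) (m : G) (p : A) :
    JJ g (AddMonoidAlgebra.single m p) = AddMonoidAlgebra.single (g m) p := by
  show AddMonoidAlgebra.mapDomain g _ = _
  rw [AddMonoidAlgebra.mapDomain_single]

lemma Ev_JJ {G : Type*} [AddMonoid G] (g : G →+ Z4) {ρ : ℕ → ℝ} (D : Z4 → ℕ → ℂ)
    (x : AddMonoidAlgebra A G) (n : ℕ) : Ev ρ D (JJ g x) n = Ev ρ (fun m => D (g m)) x n :=
  Ev_map g D x n

lemma J1x : JJ g1 xs = xx (mo 1 0 0 0) (mo (-1) 0 0 0) (mo 0 0 1 0) (mo 0 0 (-1) 0) := by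
  unfold xs
  rw [map_xx]
  unfold xx
  simp only [map_one, mo_mul, mul_one]
  rw [tt, tt', JJ_single, JJ_single]
  rfl

lemma J2x : JJ g2 xs = xx (mo 0 1 0 0) (mo 0 (-1) 0 0) (mo 0 0 0 1) (mo 0 0 0 (-1)) := by
  unfold xs
  rw [map_xx]
  unfold xx
  simp only [map_one, mo_mul, mul_one]
  rw [tt, tt', JJ_single, JJ_single]
  rfl

lemma J12p : JJ g12 ps = PP (mo 1 0 0 0) (mo (-1) 0 0 0) (mo 0 1 0 0) (mo 0 (-1) 0 0) := by
  unfold ps
  rw [map_PP]
  unfold PP
  simp only [map_one, mo_mul, mul_one]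
  rw [tt, tt', JJ_single, JJ_single]
  rfl

lemma J34p : JJ g34 ps = PP (mo 0 0 1 0) (mo 0 0 (-1) 0) (mo 0 0 0 1) (mo 0 0 0 (-1)) := by
  unfold ps
  rw [map_PP]
  unfold PP
  simp only [map_one, mo_mul, mul_one]
  rw [tt, tt', JJ_single, JJ_single]
  rfl

/-- the first symbol -/
def AAp (H : Polynomial A) : Polynomial A :=
  C (C (1 / 2)) * Polynomial.X * (4 - Polynomial.X) * Sy ((Polynomial.X ^ 2 * H) ^ 2)
/-- the second symbol -/
def BBp : Polynomial A :=
  C (X ^ 2) * Polynomial.X * (4 * C (X ^ 2) - C (X ^ 2) * Polynomial.X)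

variable {ρ : ℕ → ℝ} {D : Z4 → ℕ → ℂ}

lemma mo_s (a b c d : ℤ) : JJ gs (mo a b c d) = mo a b d c := by
  unfold mo; rw [JJ_single]; rfl

lemma Rel.Ev_s (R : Rel ρ D) (x : R4) (n : ℕ) : Ev ρ D (JJ gs x) n = Ev ρ D x n := by
  rw [Ev_JJ]
  congr 1
  funext m n
  exact R.s34 _ _ _ _ _

lemma alg_ev {Q Q' : Type*} [CommRing Q] [Algebra A Q] [CommRing Q'] [Algebra A Q']
    (φ : Q →ₐ[A] Q') (x : Q) (F : Polynomial A) : φ (aeval x F) = aeval (φ x) F :=
  (Polynomial.aeval_algHom_apply φ x F).symm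

lemma JJ_ev {G : Type*} [AddCommMonoid G] (g : G →+ Z4) (x : AddMonoidAlgebra A G)
    (F : Polynomial A) : JJ g (aeval x F) = aeval (JJ g x) F :=
  (Polynomial.aeval_algHom_apply (JJ g) x F).symm

/-- **The reduction.** -/
theorem Rel.main (R : Rel ρ D) (H : Polynomial A) :
    Null (fun n => Ev ρ D (JJ g1 (aeval xs (Mp * H)) * JJ g2 (aeval xs (Mp * H))) n -
      Ev ρ D (JJ g12 (aeval ps (AAp H)) * JJ g34 (aeval ps BBp)) n) := by
  obtain ⟨Q, iQ, iA, φ, K, hφ⟩ := R.exQ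
  have K' := K.swap
  set z1 := φ (mo 1 0 0 0) with hz1
  set z1' := φ (mo (-1) 0 0 0) with hz1'
  set z2 := φ (mo 0 1 0 0) with hz2
  set z2' := φ (mo 0 (-1) 0 0) with hz2'
  set w1 := φ (mo 0 0 1 0) with hw1
  set w1' := φ (mo 0 0 (-1) 0) with hw1'
  set w2 := φ (mo 0 0 0 1) with hw2
  set w2' := φ (mo 0 0 0 (-1)) with hw2'
  set G : Polynomial A := (Polynomial.X ^ 2 * H) ^ 2 with hG
  obtain ⟨P4, hP4⟩ : ∃ x : R4, x = PP (mo 1 0 0 0) (mo (-1) 0 0 0) (mo 0 1 0 0) (mo 0 (-1) 0 0) :=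
    ⟨_, rfl⟩
  obtain ⟨X1, hX1⟩ : ∃ x : R4, x = xx (mo 1 0 0 0) (mo (-1) 0 0 0) (mo 0 0 1 0) (mo 0 0 (-1) 0) :=
    ⟨_, rfl⟩
  obtain ⟨X2, hX2⟩ : ∃ x : R4, x = xx (mo 1 0 0 0) (mo (-1) 0 0 0) (mo 0 0 0 1) (mo 0 0 0 (-1)) :=
    ⟨_, rfl⟩
  obtain ⟨W1, hW1⟩ : ∃ x : R4, x = P4 ^ 2 * (4 - P4) * (4 * rr R4 ^ 2 - P4) * aeval X1 G :=
    ⟨_, rfl⟩
  obtain ⟨W2, hW2⟩ : ∃ x : R4, x = P4 ^ 2 * (4 - P4) * (4 * rr R4 ^ 2 - P4) * aeval X2 G :=
    ⟨_, rfl⟩
  have m4 : ∀ {S : Type} [CommRing S] [Algebra A S] (φ : R4 →ₐ[A] S), φ 4 = 4 := fun φ =>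
    map_ofNat φ 4
  -- symmetry
  have hs : ∀ n, Ev ρ D W2 n = Ev ρ D W1 n := by
    intro n
    have e : JJ gs W1 = W2 := by
      rw [hW1, hW2]
      simp only [map_mul, map_pow, map_sub, m4, map_rr, JJ_ev]
      have e1 : JJ gs P4 = P4 := by
        rw [hP4, map_PP, mo_s, mo_s, mo_s, mo_s]
      have e2 : JJ gs X1 = X2 := by
        rw [hX1, hX2, map_xx, mo_s, mo_s, mo_s, mo_s]
      rw [e1, e2]
    rw [← e, R.Ev_s]
  -- the half
  obtain ⟨hf, hhf⟩ : ∃ x : R4, x = algebraMap A R4 (C (1 / 2)) := ⟨_, rfl⟩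
  have hh : hf + hf = 1 := by
    rw [hhf, ← map_add, ← map_one (algebraMap A R4), ← C_add]
    norm_num
  -- the identity in the quotient
  have prP : φ P4 = PP z1 z1' z2 z2' := by rw [hP4, map_PP]
  have prX1 : φ X1 = xx z1 z1' w1 w1' := by rw [hX1, map_xx]
  have prX2 : φ X2 = xx z1 z1' w2 w2' := by rw [hX2, map_xx]
  have q1 : φ (JJ g1 (aeval xs (Mp * H)) * JJ g2 (aeval xs (Mp * H))) = φ W1 := by
    rw [map_mul, JJ_ev, JJ_ev, J1x, J2x, alg_ev, alg_ev, map_xx, map_xx]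
    have := K.fin H
    rw [this, hW1, ← hG]
    simp only [map_mul, map_pow, map_sub, m4, map_rr, alg_ev, prP, prX1]
  have q2 : φ (JJ g12 (aeval ps (AAp H)) * JJ g34 (aeval ps BBp)) =
      φ (hf * (W1 + W2)) := by
    have e1 := Sy_eq (xx z1 z1' w1 w1') (xx z1 z1' w2 w2') (PP z1 z1' z2 z2') K.sum K.Pdl G
    have e2 := K.PPg
    have e3 : φ hf = algebraMap A (Q) (C (1 / 2)) := by
      rw [hhf]; exact φ.commutes _
    have a4 : ∀ x : Q, aeval x (4 : Polynomial A) = 4 := fun x => map_ofNat (aeval x) 4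
    have eX : algebraMap A (Q) X = rr (Q) := rfl
    rw [map_mul, JJ_ev, JJ_ev, J12p, J34p, alg_ev, alg_ev, map_PP, map_PP, AAp, BBp, hW1, hW2]
    simp only [map_mul, map_pow, map_sub, map_add, m4, map_rr, alg_ev, prP, prX1, prX2, aeval_C,
      aeval_X, a4, eX, e3]
    rw [← hG]
    linear_combination (algebraMap A (Q) (C (1 / 2)) * (PP z1 z1' z2 z2' *
      (4 - PP z1 z1' z2 z2') * aeval (PP z1 z1' z2 z2') (Sy G)) * (4 * rr (Q) ^ 2 -
      rr (Q) ^ 2 * PP w1 w1' w2 w2' - PP z1 z1' z2 z2')) * e2 -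
      (algebraMap A (Q) (C (1 / 2)) * PP z1 z1' z2 z2' * (4 - PP z1 z1' z2 z2') *
      (4 * rr (Q) ^ 2 - PP z1 z1' z2 z2')) * e1
  have n1 := hφ _ _ q1
  have n2 := hφ _ _ q2
  have n3 := n1.sub n2
  rw [sub_zero] at n3
  refine n3.congr fun n => ?_
  have e5 : Ev ρ D (hf * (W1 + W2)) n = Ev ρ D W1 n := by
    have e6 : Ev ρ D (hf * (W1 + W2)) n = Ev ρ D (hf * W1) n + Ev ρ D (hf * W2) n := by
      rw [mul_add, Ev_add]
    have e7 : ∀ x : R4, Ev ρ D (hf * x) n = (1 / 2 : ℂ) * Ev ρ D x n := by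
      intro x
      induction x using AddMonoidAlgebra.induction_linear with
      | zero => rw [mul_zero, Ev_zero, mul_zero]
      | add y z h1 h2 => rw [mul_add, Ev_add, Ev_add, h1, h2]; ring
      | single m q =>
        have e8 : hf = AddMonoidAlgebra.single 0 (C (1 / 2)) := hhf
        rw [e8, AddMonoidAlgebra.single_mul_single, Ev_single, Ev_single, eval_mul, eval_C,
          zero_add]
        push_cast; ring
    rw [e6, e7, e7, hs n]; ring
  rw [e5]
  ring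

end

end Pool.Agent.K13.TP
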