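import Pool.Agent.K13.TP.Lim

/-!
# The joint moment of three eigenfunctions
-/

set_option autoImplicit false
set_option linter.unusedSectionVars false
open MeasureTheory Filter Topology Complex Set
open scoped ContDiff Real Manifold

namespace Pool.Agent.K13.TP

open Pool.Agent.W745.RW Pool.Agent.TH294.RS Pool.Agent.Y265.HY
open Pool.Agent.R314.JN (QS)
open Pool.Agent.Y265.HY.JC (hh sub_ratio)

noncomputable section

variable {Ω : Set ℂ} {lam mu nu : ℕ → ℝ} {u v g : ℕ → ℂ → ℝ}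

lemma hh_pos (H : ∀ n, 0 < lam n) (n : ℕ) : 0 < hh lam n := by
  have := Real.sqrt_pos.2 (H n)
  positivity

lemma rh_sq (D : TD Ω lam mu nu u v g) (n : ℕ) : rh lam mu n ^ 2 = mu n / lam n := by
  have h1 := D.qu.pos n
  have h2 := D.qv.pos n
  have e1 : hh lam n ^ 2 = 1 / lam n := by rw [div_pow, Real.sq_sqrt h1.le, one_pow]
  have e2 : hh mu n ^ 2 = 1 / mu n := by rw [div_pow, Real.sq_sqrt h2.le, one_pow]
  show (hh lam n / hh mu n) ^ 2 = _
  rw [div_pow, e1, e2]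
  field_simp

lemma J3_swap (φ a b c : ℂ → ℝ) : J3 φ a b c = J3 φ b a c := by
  unfold J3
  congr 1; funext z; ring

/-- **nonnegative test functions** -/
theorem TD.all (D : TD Ω lam mu nu u v g) {φ : ℂ → ℝ} (hφ : TF Ω φ) (h0 : ∀ z, 0 ≤ φ z)
    {δ : ℝ} (hδ : 0 < δ) (h : ∀ᶠ n in atTop, δ ≤ |nu n / lam n - (1 + rh lam mu n) ^ 2| ∧
      δ ≤ |nu n / lam n - (1 - rh lam mu n) ^ 2| ∧
      δ ≤ |nu n / lam n - abs (1 - rh lam mu n ^ 2)|) :
    Tendsto (fun n => J3 φ (u n) (v n) (g n)) atTop (𝓝 0) := by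
  obtain ⟨C, hC⟩ := D.cc
  have hb := ra_bd (qs_sy D.op D.hU D.qu) (qs_sy D.op D.hU D.qv) hC
  have C0 : 0 < C := by
    have h1 := hC.1 0
    have h2 := hh_pos D.qu.pos 0
    have h3 := hh_pos D.qv.pos 0
    by_contra hc
    push Not at hc
    nlinarith
  have rpos : ∀ n, 1 / C ≤ rh lam mu n := by
    intro n
    have h1 := hC.2 n
    have h2 := hh_pos D.qu.pos n
    have h3 := hh_pos D.qv.pos n
    show 1 / C ≤ hh lam n / hh mu n
    rw [div_le_div_iff₀ C0 h3]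
    linarith
  refine tendsto_of_subseq_tendsto fun ns hns => ?_
  obtain ⟨ρ, hρ, σ, hσ, hσρ⟩ := isCompact_Icc.tendsto_subseq (s := Set.Icc (1 / C) C)
    (x := fun n => rh lam mu (ns n)) (fun n => ⟨rpos _, (le_abs_self _).trans (hb _)⟩)
  obtain ⟨τ, hτ, hR⟩ := sub_ratio (fun n => nu n / lam n)
    (fun n => div_nonneg (D.np n) (D.qu.pos n).le) (fun n => ns (σ n))
  refine ⟨fun n => σ (τ n), ?_⟩
  have hs : Tendsto (fun n => ns (σ (τ n))) atTop atTop :=
    (hns.comp hσ.tendsto_atTop).comp hτ.tendsto_atTop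
  have D1 := D.cmp hs
  have l1 : Tendsto (fun n => rh lam mu (ns (σ (τ n)))) atTop (𝓝 ρ) :=
    hσρ.comp hτ.tendsto_atTop
  have ρ0 : 0 < ρ := lt_of_lt_of_le (by positivity) hρ.1
  rcases hR with hR | ⟨r, hr0, hr⟩
  · exact D1.inf hφ h0 l1 hR
  · have h' := hs.eventually h
    have g1 : δ ≤ |r - (1 + ρ) ^ 2| :=
      ge_of_tendsto (((hr.sub ((l1.const_add 1).pow 2))).abs) (h'.mono fun n hn => hn.1)
    have g2 : δ ≤ |r - (1 - ρ) ^ 2| :=
      ge_of_tendsto (((hr.sub ((l1.const_sub 1).pow 2))).abs) (h'.mono fun n hn => hn.2.1)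
    have g3 : δ ≤ |r - abs (1 - ρ ^ 2)| :=
      ge_of_tendsto ((hr.sub ((l1.pow 2).const_sub 1).abs).abs) (h'.mono fun n hn => hn.2.2)
    have ne : ∀ x y : ℝ, δ ≤ |x - y| → x ≠ y := by
      intro x y h1 h2
      rw [h2, sub_self, abs_zero] at h1
      linarith
    by_cases hρ1 : 1 ≤ ρ
    · refine D1.lim hφ h0 hρ1 hr0 (ne _ _ g1) (ne _ _ ?_) (ne _ _ ?_) l1 hr
      · rw [show (ρ - 1) ^ 2 = (1 - ρ) ^ 2 by ring]; exact g2
      · have : |1 - ρ ^ 2| = ρ ^ 2 - 1 := by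
          rw [abs_of_nonpos (by nlinarith)]; ring
        rw [this] at g3; exact g3
    · push Not at hρ1
      have D2 := D1.swap
      have l2 : Tendsto (fun n => rh (fun n => mu (ns (σ (τ n)))) (fun n => lam (ns (σ (τ n)))) n)
          atTop (𝓝 ρ⁻¹) := by
        refine (l1.inv₀ ρ0.ne').congr fun n => ?_
        show (hh lam _ / hh mu _)⁻¹ = hh mu _ / hh lam _
        rw [inv_div]
      have l3 : Tendsto (fun n => nu (ns (σ (τ n))) / mu (ns (σ (τ n)))) atTop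
          (𝓝 (r * (ρ⁻¹) ^ 2)) := by
        refine (hr.mul (l2.pow 2)).congr fun n => ?_
        have e1 := rh_sq D2 n
        rw [e1]
        have h1 := (D.qu.pos (ns (σ (τ n)))).ne'
        have h2 := (D.qv.pos (ns (σ (τ n)))).ne'
        field_simp
      have i1 : 1 ≤ ρ⁻¹ := (one_le_inv₀ ρ0).2 hρ1.le
      have := D2.lim hφ h0 i1 (by positivity) (r := r * (ρ⁻¹) ^ 2) ?_ ?_ ?_ l2 l3
      · exact this.congr fun n => J3_swap _ _ _ _
      · intro h1
        refine ne _ _ g1 ?_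
        field_simp at h1
        linarith
      · intro h1
        refine ne _ _ g2 ?_
        field_simp at h1
        linarith
      · intro h1
        have h2 : |1 - ρ ^ 2| = 1 - ρ ^ 2 := abs_of_nonneg (by nlinarith)
        rw [h2] at g3
        refine ne _ _ g3 ?_
        field_simp at h1
        linarith

/-- **all test functions** -/
theorem TD.off (D : TD Ω lam mu nu u v g) {ψ : ℂ → ℝ} (hψ : TF Ω ψ)
    {δ : ℝ} (hδ : 0 < δ) (h : ∀ᶠ n in atTop, δ ≤ |nu n / lam n - (1 + rh lam mu n) ^ 2| ∧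
      δ ≤ |nu n / lam n - (1 - rh lam mu n) ^ 2| ∧
      δ ≤ |nu n / lam n - abs (1 - rh lam mu n ^ 2)|) :
    Tendsto (fun n => J3 ψ (u n) (v n) (g n)) atTop (𝓝 0) := by
  have key : ∀ φ, TF Ω φ → (∀ z, 0 ≤ φ z) →
      Tendsto (fun n => J3 φ (u n) (v n) (g n)) atTop (𝓝 0) := fun φ hφ h0 => D.all hφ h0 hδ h
  obtain ⟨χ, hχ, hχ0, -, hχ1⟩ := Pool.Agent.Y265.RW.cutoff D.op hψ.2.1 hψ.2.2
  obtain ⟨M', hM'⟩ := hψ.2.1.exists_bound_of_continuousOn hψ.1.continuous.continuousOn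
  obtain ⟨M, hM⟩ : ∃ M, M = max M' 0 := ⟨_, rfl⟩
  have M0 : 0 ≤ M := by rw [hM]; exact le_max_right _ _
  have t1 : TF Ω (fun z => ψ z + M * χ z) := by
    refine ⟨hψ.1.add (contDiff_const.mul hχ.1), hψ.2.1.add (hχ.2.1.mul_left), ?_⟩
    refine (tsupport_add _ _).trans (Set.union_subset hψ.2.2 ?_)
    exact (tsupport_mul_subset_right (f := fun _ : ℂ => M)).trans hχ.2.2
  have p1 : ∀ z, 0 ≤ ψ z + M * χ z := by
    intro z
    by_cases hz : z ∈ tsupport ψ
    · rw [hχ1 z hz, mul_one]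
      have h1 := hM' z hz
      rw [Real.norm_eq_abs] at h1
      have h2 := neg_abs_le (ψ z)
      have h3 : M' ≤ M := by rw [hM]; exact le_max_left _ _
      linarith
    · rw [image_eq_zero_of_notMem_tsupport hz, zero_add]
      exact mul_nonneg M0 (hχ0 z)
  have k := (key _ t1 p1).sub ((key χ hχ hχ0).const_mul M)
  rw [mul_zero, sub_zero] at k
  refine k.congr fun n => ?_
  have c0 : ContinuousOn (fun z => u n z * v n z * g n z) Ω :=
    ((D.qu.sm n).continuousOn.mul (D.qv.sm n).continuousOn).mul (D.gs n).continuousOn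
  have i1 : Integrable (fun z => (ψ z + M * χ z) * (u n z * v n z * g n z)) :=
    Pool.Agent.W311.RW.int_mul D.op t1 c0
  have i2 : Integrable (fun z => χ z * (u n z * v n z * g n z)) :=
    Pool.Agent.W311.RW.int_mul D.op hχ c0
  simp only [J3]
  rw [← integral_const_mul, ← integral_sub i1 (i2.const_mul _)]
  congr 1; funext z; ring

end

end Pool.Agent.K13.TP
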