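import Pool.Agent.K13.TP.LimR

/-!
# The joint moment of three eigenfunctions: all comparable triples
-/

set_option autoImplicit false
set_option linter.unusedSectionVars false
open MeasureTheory Filter Topology Complex Set
open scoped ContDiff Real Manifold

namespace Pool.Agent.K13.TP

open Pool.Agent.W745.RW Pool.Agent.TH294.RS Pool.Agent.Y265.HY
open Pool.Agent.R314.JN (QS)
open Pool.Agent.Y265.HY.JC (hh sub_ratio eX mS)

noncomputable section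

variable {Ω : Set ℂ} {lam mu nu : ℕ → ℝ} {u v g : ℕ → ℂ → ℝ}

/-- the main term -/
def MT (ε : ℝ) (φ a b c : ℂ → ℝ) : ℝ :=
  (1 + ε) / 3 * √((eX φ a + ε) * (eX φ b + ε)) * mS φ c

lemma MT_comm (ε : ℝ) (φ a b c : ℂ → ℝ) : MT ε φ a b c = MT ε φ b a c := by
  unfold MT; rw [mul_comm (eX φ a + ε)]

lemma MT_nn {ε : ℝ} (hε : 0 ≤ ε) {φ : ℂ → ℝ} (h0 : ∀ z, 0 ≤ φ z) (a b c : ℂ → ℝ) :
    0 ≤ MT ε φ a b c := by
  have m0 : 0 ≤ mS φ c := integral_nonneg fun z => mul_nonneg (h0 z) (sq_nonneg _)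
  unfold MT
  positivity

/-- small moments satisfy the bound -/
lemma ev_small {J M : ℕ → ℝ} (h : Tendsto J atTop (𝓝 0)) (hM : ∀ n, 0 ≤ M n) {ε : ℝ}
    (hε : 0 < ε) : ∀ᶠ n in atTop, J n ^ 2 ≤ M n + ε := by
  have h2 := h.pow 2
  rw [zero_pow two_ne_zero] at h2
  filter_upwards [h2.eventually (gt_mem_nhds hε)] with n hn
  linarith [hM n]

/-- convergent ratios, `ρ ≥ 1` -/
theorem TD.cv (D : TD Ω lam mu nu u v g) {φ : ℂ → ℝ} (hφ : TF Ω φ) (h0 : ∀ z, 0 ≤ φ z)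
    {ρ r : ℝ} (hρ : 1 ≤ ρ) (hr : 0 < r) (hs : r ≠ ρ ^ 2 - 1)
    (l1 : Tendsto (rh lam mu) atTop (𝓝 ρ)) (l2 : Tendsto (fun n => nu n / lam n) atTop (𝓝 r))
    {ε : ℝ} (hε : 0 < ε) : ∀ᶠ n in atTop, J3 φ (u n) (v n) (g n) ^ 2 ≤
      MT ε φ (u n) (v n) (g n) + ε := by
  by_cases h1 : r = (1 + ρ) ^ 2
  · refine D.limD hφ h0 hρ hr (r' := (ρ - 1) ^ 2) (sq_nonneg _) ?_ ?_ ?_ l1 l2 hε
    · rw [h1]; intro h; nlinarith
    · rw [h1]; ring
    · rw [h1]; ring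
  by_cases h2 : r = (ρ - 1) ^ 2
  · refine D.limD hφ h0 hρ hr (r' := (1 + ρ) ^ 2) (sq_nonneg _) ?_ ?_ ?_ l1 l2 hε
    · rw [h2]; intro h; nlinarith
    · rw [h2]; ring
    · rw [h2]; ring
  exact ev_small (D.lim hφ h0 hρ hr.le h1 h2 hs l1 l2) (fun n => MT_nn hε.le h0 _ _ _) hε

/-- convergent ratios, `ρ ≥ 1`, all triangles -/
theorem TD.cvR (D : TD Ω lam mu nu u v g) {φ : ℂ → ℝ} (hφ : TF Ω φ) (h0 : ∀ z, 0 ≤ φ z)
    {ρ r : ℝ} (hρ : 1 ≤ ρ) (hr : 0 < r)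
    (l1 : Tendsto (rh lam mu) atTop (𝓝 ρ)) (l2 : Tendsto (fun n => nu n / lam n) atTop (𝓝 r))
    {ε : ℝ} (hε : 0 < ε) : ∀ᶠ n in atTop, J3 φ (u n) (v n) (g n) ^ 2 ≤
      MT ε φ (u n) (v n) (g n) + ε * √(1 + |eX φ (u n)| + |eX φ (v n)|) := by
  by_cases h : r = ρ ^ 2 - 1
  · filter_upwards [D.limR hφ h0 hρ hr h l1 l2 hε] with n hn
    have h1 := MT_nn hε.le h0 (u n) (v n) (g n)
    have h2 : √(1 + |eX φ (u n)|) ≤ √(1 + |eX φ (u n)| + |eX φ (v n)|) :=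
      Real.sqrt_le_sqrt (by linarith [abs_nonneg (eX φ (v n))])
    have h3 := mul_le_mul_of_nonneg_left h2 hε.le
    linarith
  · filter_upwards [D.cv hφ h0 hρ hr h l1 l2 hε] with n hn
    have h2 : 1 ≤ √(1 + |eX φ (u n)| + |eX φ (v n)|) := by
      rw [Real.one_le_sqrt]
      linarith [abs_nonneg (eX φ (v n)), abs_nonneg (eX φ (u n))]
    have h3 := mul_le_mul_of_nonneg_left h2 hε.le
    linarith

/-- from subsequences to the sequence -/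
lemma ev_of_sub {P : ℕ → Prop}
    (h : ∀ ns : ℕ → ℕ, StrictMono ns → ∃ τ : ℕ → ℕ, ∀ᶠ n in atTop, P (ns (τ n))) :
    ∀ᶠ n in atTop, P n := by
  by_contra hc
  rw [not_eventually] at hc
  obtain ⟨ns, hns, hP⟩ := extraction_of_frequently_atTop hc
  obtain ⟨τ, hτ⟩ := h ns hns
  obtain ⟨n, hn⟩ := hτ.exists
  exact hP _ hn

lemma ratio_bd (D : TD Ω lam mu nu u v g) : ∃ C > 0, ∀ n, 1 / C ≤ rh lam mu n ∧
    rh lam mu n ≤ C := by
  obtain ⟨C, hC⟩ := D.cc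
  have hb := ra_bd (qs_sy D.op D.hU D.qu) (qs_sy D.op D.hU D.qv) hC
  have C0 : 0 < C := by
    have h1 := hC.1 0
    have h2 := hh_pos D.qu.pos 0
    have h3 := hh_pos D.qv.pos 0
    by_contra hc
    push Not at hc
    nlinarith
  refine ⟨C, C0, fun n => ⟨?_, (le_abs_self _).trans (hb _)⟩⟩
  have h1 := hC.2 n
  have h2 := hh_pos D.qu.pos n
  have h3 := hh_pos D.qv.pos n
  show 1 / C ≤ hh lam n / hh mu n
  rw [div_le_div_iff₀ C0 h3]
  linarith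

/-- the extraction -/
theorem TD.ext (D : TD Ω lam mu nu u v g) {δ : ℝ} (hδ : 0 < δ)
    (h : ∀ᶠ n in atTop, δ ≤ nu n / lam n) {φ : ℂ → ℝ} (hφ : TF Ω φ) (h0 : ∀ z, 0 ≤ φ z)
    {P : ℕ → Prop} (hP : ∀ ns : ℕ → ℕ, StrictMono ns → ∀ ρ r : ℝ, 0 < ρ → 0 < r →
      Tendsto (rh (fun n => lam (ns n)) (fun n => mu (ns n))) atTop (𝓝 ρ) →
      Tendsto (fun n => nu (ns n) / lam (ns n)) atTop (𝓝 r) → ∀ᶠ n in atTop, P (ns n))
    (hI : ∀ ns : ℕ → ℕ, StrictMono ns → Tendsto (fun n => J3 φ (u (ns n)) (v (ns n)) (g (ns n)))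
      atTop (𝓝 0) → ∀ᶠ n in atTop, P (ns n)) :
    ∀ᶠ n in atTop, P n := by
  obtain ⟨C, C0, hC⟩ := ratio_bd D
  refine ev_of_sub fun ns hns => ?_
  obtain ⟨ρ, hρ, σ, hσ, hσρ⟩ := isCompact_Icc.tendsto_subseq (s := Set.Icc (1 / C) C)
    (x := fun n => rh lam mu (ns n)) (fun n => hC _)
  obtain ⟨τ, hτ, hR⟩ := sub_ratio (fun n => nu n / lam n)
    (fun n => div_nonneg (D.np n) (D.qu.pos n).le) (fun n => ns (σ n))
  refine ⟨fun n => σ (τ n), ?_⟩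
  have hm : StrictMono fun n => ns (σ (τ n)) := (hns.comp hσ).comp hτ
  have hs : Tendsto (fun n => ns (σ (τ n))) atTop atTop := hm.tendsto_atTop
  have l1 : Tendsto (fun n => rh lam mu (ns (σ (τ n)))) atTop (𝓝 ρ) :=
    hσρ.comp hτ.tendsto_atTop
  have ρ0 : 0 < ρ := lt_of_lt_of_le (by positivity) hρ.1
  rcases hR with hR | ⟨r, hr0, hr⟩
  · exact hI _ hm ((D.cmp hs).inf hφ h0 l1 hR)
  · have g1 : δ ≤ r := ge_of_tendsto hr (hs.eventually h)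
    exact hP _ hm ρ r ρ0 (lt_of_lt_of_le hδ g1) l1 hr

/-- the swapped ratios -/
lemma TD.swl (D : TD Ω lam mu nu u v g) {ρ r : ℝ} (ρ0 : 0 < ρ)
    (l1 : Tendsto (rh lam mu) atTop (𝓝 ρ)) (l2 : Tendsto (fun n => nu n / lam n) atTop (𝓝 r)) :
    Tendsto (rh mu lam) atTop (𝓝 ρ⁻¹) ∧
    Tendsto (fun n => nu n / mu n) atTop (𝓝 (r * (ρ⁻¹) ^ 2)) := by
  have l3 : Tendsto (rh mu lam) atTop (𝓝 ρ⁻¹) := by
    refine (l1.inv₀ ρ0.ne').congr fun n => ?_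
    show (hh lam _ / hh mu _)⁻¹ = hh mu _ / hh lam _
    rw [inv_div]
  refine ⟨l3, ?_⟩
  refine (l2.mul (l3.pow 2)).congr fun n => ?_
  have e1 := rh_sq D.swap n
  rw [e1]
  have h1 := (D.qu.pos n).ne'
  have h2 := (D.qv.pos n).ne'
  field_simp

/-- **all comparable triples away from right triangles**, nonnegative test functions -/
theorem TD.allD (D : TD Ω lam mu nu u v g) {φ : ℂ → ℝ} (hφ : TF Ω φ) (h0 : ∀ z, 0 ≤ φ z)
    {δ : ℝ} (hδ : 0 < δ) (h : ∀ᶠ n in atTop, δ ≤ nu n / lam n)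
    (h' : ∀ᶠ n in atTop, δ ≤ |nu n / lam n - abs (1 - rh lam mu n ^ 2)|)
    {ε : ℝ} (hε : 0 < ε) : ∀ᶠ n in atTop, J3 φ (u n) (v n) (g n) ^ 2 ≤
      MT ε φ (u n) (v n) (g n) + ε := by
  refine D.ext hδ h hφ h0 (fun ns hns ρ r ρ0 r0 l1 l2 => ?_) fun ns hns hI =>
    ev_small hI (fun n => MT_nn hε.le h0 _ _ _) hε
  have D1 := D.cmp hns.tendsto_atTop
  have g3 : δ ≤ |r - abs (1 - ρ ^ 2)| :=
    ge_of_tendsto ((l2.sub ((l1.pow 2).const_sub 1).abs).abs) (hns.tendsto_atTop.eventually h')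
  have ne : r ≠ abs (1 - ρ ^ 2) := by
    intro h2
    rw [h2, sub_self, abs_zero] at g3
    linarith
  by_cases hρ1 : 1 ≤ ρ
  · refine D1.cv hφ h0 hρ1 r0 ?_ l1 l2 hε
    have : |1 - ρ ^ 2| = ρ ^ 2 - 1 := by
      rw [abs_of_nonpos (by nlinarith)]; ring
    rw [this] at ne; exact ne
  · push Not at hρ1
    obtain ⟨l3, l4⟩ := D1.swl ρ0 l1 l2
    have i1 : 1 ≤ ρ⁻¹ := (one_le_inv₀ ρ0).2 hρ1.le
    have := D1.swap.cv hφ h0 i1 (by positivity) ?_ l3 l4 hε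
    · refine this.mono fun n hn => ?_
      rw [J3_swap, MT_comm] at hn
      exact hn
    · intro h1
      have h2 : |1 - ρ ^ 2| = 1 - ρ ^ 2 := abs_of_nonneg (by nlinarith)
      rw [h2] at ne
      refine ne ?_
      field_simp at h1
      linarith

/-- **all comparable triples**, nonnegative test functions -/
theorem TD.allR (D : TD Ω lam mu nu u v g) {φ : ℂ → ℝ} (hφ : TF Ω φ) (h0 : ∀ z, 0 ≤ φ z)
    {δ : ℝ} (hδ : 0 < δ) (h : ∀ᶠ n in atTop, δ ≤ nu n / lam n)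
    {ε : ℝ} (hε : 0 < ε) : ∀ᶠ n in atTop, J3 φ (u n) (v n) (g n) ^ 2 ≤
      MT ε φ (u n) (v n) (g n) + ε * √(1 + |eX φ (u n)| + |eX φ (v n)|) := by
  refine D.ext hδ h hφ h0 (fun ns hns ρ r ρ0 r0 l1 l2 => ?_) fun ns hns hI => ?_
  · have D1 := D.cmp hns.tendsto_atTop
    by_cases hρ1 : 1 ≤ ρ
    · exact D1.cvR hφ h0 hρ1 r0 l1 l2 hε
    · push Not at hρ1
      obtain ⟨l3, l4⟩ := D1.swl ρ0 l1 l2
      have i1 : 1 ≤ ρ⁻¹ := (one_le_inv₀ ρ0).2 hρ1.le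
      refine (D1.swap.cvR hφ h0 i1 (by positivity) l3 l4 hε).mono fun n hn => ?_
      rw [J3_swap, MT_comm, show 1 + |eX φ (v (ns n))| + |eX φ (u (ns n))| =
        1 + |eX φ (u (ns n))| + |eX φ (v (ns n))| by ring] at hn
      exact hn
  · filter_upwards [ev_small hI (fun n => MT_nn hε.le h0 (u (ns n)) (v (ns n)) (g (ns n))) hε]
      with n hn
    have h2 : 1 ≤ √(1 + |eX φ (u (ns n))| + |eX φ (v (ns n))|) := by
      rw [Real.one_le_sqrt]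
      linarith [abs_nonneg (eX φ (v (ns n))), abs_nonneg (eX φ (u (ns n)))]
    have h3 := mul_le_mul_of_nonneg_left h2 hε.le
    linarith

/-- **vanishing**: if the first sequence has Gaussian local fourth moments and the second
bounded ones -/
theorem TD.van (D : TD Ω lam mu nu u v g) {φ : ℂ → ℝ} (hφ : TF Ω φ) (h0 : ∀ z, 0 ≤ φ z)
    {δ : ℝ} (hδ : 0 < δ) (h : ∀ᶠ n in atTop, δ ≤ nu n / lam n)
    (hu : Tendsto (fun n => eX φ (u n)) atTop (𝓝 0)) {B : ℝ}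
    (hv : ∀ᶠ n in atTop, |eX φ (v n)| ≤ B) :
    Tendsto (fun n => J3 φ (u n) (v n) (g n)) atTop (𝓝 0) := by
  obtain ⟨C, hC0, hC⟩ := D.f5 hφ
  have B0 : 0 ≤ B := by
    obtain ⟨n, hn⟩ := hv.exists
    exact (abs_nonneg _).trans hn
  have key : Tendsto (fun n => J3 φ (u n) (v n) (g n) ^ 2) atTop (𝓝 0) := by
    rw [Metric.tendsto_atTop]
    intro s sp
    -- choose `ε`
    have t1 : Tendsto (fun ε : ℝ => (1 + ε) / 3 * √((2 * ε) * (B + ε)) * C +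
        ε * √(1 + ε + B)) (𝓝[>] 0) (𝓝 0) := by
      have : Tendsto (fun ε : ℝ => (1 + ε) / 3 * √((2 * ε) * (B + ε)) * C +
        ε * √(1 + ε + B)) (𝓝 0) (𝓝 ((1 + 0) / 3 * √((2 * 0) * (B + 0)) * C +
        0 * √(1 + 0 + B))) := by
        apply Continuous.tendsto
        fun_prop
      have e : (1 + 0) / 3 * √((2 * 0) * (B + 0)) * C + 0 * √(1 + 0 + B) = 0 := by simp
      rw [e] at this
      exact this.mono_left nhdsWithin_le_nhds
    obtain ⟨ε, hε1, hε⟩ := ((t1.eventually (gt_mem_nhds sp)).and self_mem_nhdsWithin).exists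
    have εp : 0 < ε := hε
    have ev := (D.allR hφ h0 hδ h εp).and ((hu.eventually (gt_mem_nhds εp)).and
      ((hu.eventually (lt_mem_nhds (neg_lt_zero.2 εp))).and (hv.and (hC.and
      (qs_low D.op D.hU D.qv hφ h0 εp)))))
    rw [eventually_atTop] at ev
    obtain ⟨N, hN⟩ := ev
    refine ⟨N, fun n hn => ?_⟩
    obtain ⟨n1, n2, n3, n4, n5, n6⟩ := hN n hn
    rw [Real.dist_eq, sub_zero, abs_of_nonneg (sq_nonneg _)]
    refine lt_of_le_of_lt (n1.trans ?_) hε1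
    have m0 : 0 ≤ mS φ (g n) := integral_nonneg fun z => mul_nonneg (h0 z) (sq_nonneg _)
    have a1 : √((eX φ (u n) + ε) * (eX φ (v n) + ε)) ≤ √((2 * ε) * (B + ε)) := by
      refine Real.sqrt_le_sqrt (mul_le_mul (by linarith) ?_ (by linarith) (by linarith))
      linarith [le_abs_self (eX φ (v n))]
    have a2 : √(1 + |eX φ (u n)| + |eX φ (v n)|) ≤ √(1 + ε + B) := by
      refine Real.sqrt_le_sqrt ?_
      have : |eX φ (u n)| ≤ ε := abs_le.2 ⟨n3.le, n2.le⟩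
      linarith
    refine add_le_add ?_ (mul_le_mul_of_nonneg_left a2 εp.le)
    unfold MT
    refine mul_le_mul (mul_le_mul_of_nonneg_left a1 (by positivity)) n5 m0 (by positivity)
  have k2 := key.sqrt
  rw [Real.sqrt_zero] at k2
  simp only [Real.sqrt_sq_eq_abs] at k2
  exact tendsto_zero_iff_abs_tendsto_zero _ |>.2 k2

end

end Pool.Agent.K13.TP
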