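import Pool.Agent.Y265.HY.JC6
import Pool.Agent.R314.JN.Low4

/-!
# Quadratic error terms of two ladder systems with comparable parameters
-/

set_option autoImplicit false
set_option linter.unusedSectionVars false
open MeasureTheory Filter Topology Complex Set
open scoped ContDiff Real Manifold

namespace Pool.Agent.K13.TP

open Pool.Agent.W745.RW Pool.Agent.TH294.RS Pool.Agent.Y265.HY
open Pool.Agent.Y265.HY.PS (DM_cg)

noncomputable section

variable {B : Set ℂ} {h κ : ℕ → ℝ} {w v : ℤ → ℕ → ℂ → ℂ}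

lemma LB.bs {p : ℕ} {f : ℕ → ℂ → ℂ} (hf : LB B p f) {c : ℕ → ℝ} {C : ℝ} (hc : ∀ n, |c n| ≤ C) :
    LB B p (fun n z => (c n : ℂ) * f n z) := by
  have C0 : 0 ≤ C := (abs_nonneg _).trans (hc 0)
  refine ⟨fun n => contDiffOn_const.mul (hf.sm n), fun K hK hKB => ?_⟩
  obtain ⟨M, hM⟩ := hf.bd K hK hKB
  refine ⟨C ^ p * M, hM.mono fun n hn => ?_⟩
  have c1 : ContinuousOn (fun z => ‖f n z‖ ^ p) K := (hf.copow n p).mono hKB
  refine intK_c hK (by positivity) ?_ c1 (fun z _ => ?_) hn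
  · exact (((continuousOn_const.mul (hf.co n)).norm).pow p).mono hKB
  · rw [norm_mul, mul_pow, Complex.norm_real, Real.norm_eq_abs]
    exact mul_le_mul_of_nonneg_right (pow_le_pow_left₀ (abs_nonneg _) (hc n) p) (by positivity)

lemma M2.bs (hB : IsOpen B) {c : ℕ → ℝ} {C : ℝ} (hc : ∀ n, |c n| ≤ C) {k : ℕ} :
    ∀ {f : ℕ → ℂ → ℂ}, M2 B h k f → M2 B h k (fun n z => (c n : ℂ) * f n z) := by
  induction k with
  | zero => intro f H; exact LB.bs H hc
  | succ k ih =>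
    intro f H
    have e : ∀ v, ∀ n, ∀ z ∈ B, hd h v (fun n z => (c n : ℂ) * f n z) n z =
        (c n : ℂ) * hd h v f n z := by
      intro v n z hz
      simp only [hd]
      rw [fd_cm (fda hB (H.1.sm n) hz)]
      ring
    exact ⟨LB.bs H.1 hc, (ih H.2.1).congr hB (e 1), (ih H.2.2).congr hB (e I)⟩

lemma M2C.bs (hB : IsOpen B) {c : ℕ → ℝ} {C : ℝ} (hc : ∀ n, |c n| ≤ C) {f : ℕ → ℂ → ℂ}
    (H : M2C B h f) : M2C B h (fun n z => (c n : ℂ) * f n z) := fun k => M2.bs hB hc (H k)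

/-- change of the parameter -/
lemma M2.chg (hB : IsOpen B) (hp : ∀ n, 0 < h n) (kp : ∀ n, 0 < κ n) {C : ℝ}
    (hC : ∀ n, κ n ≤ C * h n) {k : ℕ} : ∀ {f : ℕ → ℂ → ℂ}, M2 B h k f → M2 B κ k f := by
  induction k with
  | zero => intro f H; exact H
  | succ k ih =>
    intro f H
    have hc : ∀ n, |κ n / h n| ≤ C := fun n => by
      rw [abs_of_pos (div_pos (kp n) (hp n)), div_le_iff₀ (hp n)]
      exact hC n
    have e : ∀ v, ∀ n, ∀ z ∈ B, hd κ v f n z = ((κ n / h n : ℝ) : ℂ) * hd h v f n z := by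
      intro v n z _
      have : (h n : ℂ) ≠ 0 := by exact_mod_cast (hp n).ne'
      simp only [hd]
      push_cast
      field_simp
    exact ⟨H.1, (M2.bs hB hc (ih H.2.1)).congr hB (e 1), (M2.bs hB hc (ih H.2.2)).congr hB (e I)⟩

/-- comparable parameters -/
def Cmp (h κ : ℕ → ℝ) (C : ℝ) : Prop := (∀ n, h n ≤ C * κ n) ∧ ∀ n, κ n ≤ C * h n

lemma M2C.chg (H : SY B Complex.im h w) (H' : SY B Complex.im κ v) {C : ℝ} (hC : Cmp h κ C)
    {f : ℕ → ℂ → ℂ} (hf : M2C B κ f) : M2C B h f := fun k =>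
  M2.chg H.op H'.hpos H.hpos hC.1 (hf k)

/-- the ratio of the parameters -/
abbrev ra (h κ : ℕ → ℝ) (n : ℕ) : ℝ := h n / κ n

lemma ra_bd (H : SY B Complex.im h w) (H' : SY B Complex.im κ v) {C : ℝ} (hC : Cmp h κ C) (n : ℕ) :
    |ra h κ n| ≤ C := by
  rw [abs_of_pos (div_pos (H.hpos n) (H'.hpos n)), div_le_iff₀ (H'.hpos n)]
  exact hC.1 n

/-- quadratic error terms -/
inductive Q2 (B : Set ℂ) (h κ : ℕ → ℝ) (w v : ℤ → ℕ → ℂ → ℂ) : (ℕ → ℂ → ℂ) → Prop
  | mw {e f : ℕ → ℂ → ℂ} (he : M2C B h e) (hf : RP B h w f) : Q2 B h κ w v (fun n z => e n z * f n z)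
  | mv {e f : ℕ → ℂ → ℂ} (he : M2C B h e) (hf : RP B κ v f) : Q2 B h κ w v (fun n z => e n z * f n z)
  | add {f g : ℕ → ℂ → ℂ} (hf : Q2 B h κ w v f) (hg : Q2 B h κ w v g) :
      Q2 B h κ w v (fun n z => f n z + g n z)
  | bs {f : ℕ → ℂ → ℂ} {c : ℕ → ℝ} {C : ℝ} (hc : ∀ n, |c n| ≤ C) (hf : Q2 B h κ w v f) :
      Q2 B h κ w v (fun n z => (c n : ℂ) * f n z)
  | cg {f g : ℕ → ℂ → ℂ} (hf : Q2 B h κ w v f) (e : ∀ n, ∀ z ∈ B, g n z = f n z) : Q2 B h κ w v g

variable (H : SY B Complex.im h w) (H' : SY B Complex.im κ v)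

include H H' in
lemma Q2.lb {f : ℕ → ℂ → ℂ} (hf : Q2 B h κ w v f) : LB B 1 f := by
  induction hf with
  | mw he hf => exact LB.mul2 he.lb ((hf.dec.m H).lb)
  | mv he hf => exact LB.mul2 he.lb ((hf.dec.m H').lb)
  | add _ _ ih1 ih2 => exact ih1.add ih2
  | bs hc _ ih => exact LB.bs ih hc
  | cg _ e ih => exact ih.congr e

include H H' in
lemma Q2.smulc {f : ℕ → ℂ → ℂ} (hf : Q2 B h κ w v f) {c : ℂ → ℂ}
    (hc : ContDiffOn ℝ ∞ c B) : Q2 B h κ w v (fun n z => c z * f n z) := by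
  induction hf with
  | mw he hg => exact (Q2.mw (he.smulc H.op H.hlim hc) hg).cg fun n z _ => by ring
  | mv he hg => exact (Q2.mv (he.smulc H.op H.hlim hc) hg).cg fun n z _ => by ring
  | add _ _ ih1 ih2 => exact (ih1.add ih2).cg fun n z _ => by ring
  | bs hc' _ ih => exact (Q2.bs hc' ih).cg fun n z _ => by ring
  | cg _ e ih => exact ih.cg fun n z hz => by rw [e n z hz]

include H H' in
lemma Q2.cmul {f : ℕ → ℂ → ℂ} (hf : Q2 B h κ w v f) (c : ℂ) :
    Q2 B h κ w v (fun n z => c * f n z) := hf.smulc H H' (c := fun _ => c) contDiffOn_const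

include H H' in
lemma Q2.hmul {f : ℕ → ℂ → ℂ} (hf : Q2 B h κ w v f) :
    Q2 B h κ w v (fun n z => (h n : ℂ) * f n z) := by
  induction hf with
  | mw he hg => exact (Q2.mw (he.hmul H.op H.hlim) hg).cg fun n z _ => by ring
  | mv he hg => exact (Q2.mv (he.hmul H.op H.hlim) hg).cg fun n z _ => by ring
  | add _ _ ih1 ih2 => exact (ih1.add ih2).cg fun n z _ => by ring
  | bs hc' _ ih => exact (Q2.bs hc' ih).cg fun n z _ => by ring
  | cg _ e ih => exact ih.cg fun n z hz => by rw [e n z hz]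

include H H' in
lemma Q2.sub {f g : ℕ → ℂ → ℂ} (hf : Q2 B h κ w v f) (hg : Q2 B h κ w v g) :
    Q2 B h κ w v (fun n z => f n z - g n z) :=
  (hf.add (hg.cmul H H' (-1))).cg fun n z _ => by ring

include H H' in
lemma Q2.sP {C : ℝ} (hC : Cmp h κ C) {f : ℕ → ℂ → ℂ} (hf : Q2 B h κ w v f) :
    Q2 B h κ w v (TH294.RS.sP Complex.im h f) := by
  have hB := H.op
  induction hf with
  | mw he hg =>
    refine ((Q2.mw (he.sP hB H.hlim H.sa) hg).add (Q2.mw he (hg.sP H))).cg fun n z hz => ?_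
    simp only [TH294.RS.sP, DP]
    rw [dd_mul (fda hB (he.sm n) hz) (fda hB ((hg.dec.m H).sm n) hz)]
    ring
  | mv he hg =>
    refine ((Q2.mv (he.sP hB H.hlim H.sa) hg).add (Q2.bs (ra_bd H H' hC)
      (Q2.mv he (hg.sP H')))).cg fun n z hz => ?_
    have : (κ n : ℂ) ≠ 0 := by exact_mod_cast (H'.hpos n).ne'
    simp only [TH294.RS.sP, DP, ra]
    rw [dd_mul (fda hB (he.sm n) hz) (fda hB ((hg.dec.m H').sm n) hz)]
    push_cast
    field_simp
  | add hf hg ih1 ih2 =>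
    refine (ih1.add ih2).cg fun n z hz => ?_
    simp only [TH294.RS.sP, DP]
    rw [Pool.Agent.Y265.HY.dd_add (fda hB ((hf.lb H H').sm n) hz) (fda hB ((hg.lb H H').sm n) hz)]
    ring
  | bs hc hf ih =>
    refine (Q2.bs hc ih).cg fun n z hz => ?_
    simp only [TH294.RS.sP, DP]
    rw [dd_cm (fda hB ((hf.lb H H').sm n) hz)]
    ring
  | cg _ e ih =>
    refine ih.cg fun n z hz => ?_
    simp only [TH294.RS.sP]
    exact DP_cg hB (h n) (e n) hz

include H H' in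
lemma Q2.sM {C : ℝ} (hC : Cmp h κ C) {f : ℕ → ℂ → ℂ} (hf : Q2 B h κ w v f) :
    Q2 B h κ w v (TH294.RS.sM Complex.im h f) := by
  have hB := H.op
  induction hf with
  | mw he hg =>
    refine ((Q2.mw (he.sM hB H.hlim H.sa) hg).add (Q2.mw he (hg.sM H))).cg fun n z hz => ?_
    simp only [TH294.RS.sM, DM]
    rw [db_mul (fda hB (he.sm n) hz) (fda hB ((hg.dec.m H).sm n) hz)]
    ring
  | mv he hg =>
    refine ((Q2.mv (he.sM hB H.hlim H.sa) hg).add (Q2.bs (ra_bd H H' hC)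
      (Q2.mv he (hg.sM H')))).cg fun n z hz => ?_
    have : (κ n : ℂ) ≠ 0 := by exact_mod_cast (H'.hpos n).ne'
    simp only [TH294.RS.sM, DM, ra]
    rw [db_mul (fda hB (he.sm n) hz) (fda hB ((hg.dec.m H').sm n) hz)]
    push_cast
    field_simp
  | add hf hg ih1 ih2 =>
    refine (ih1.add ih2).cg fun n z hz => ?_
    simp only [TH294.RS.sM, DM]
    rw [Pool.Agent.Y265.HY.db_add (fda hB ((hf.lb H H').sm n) hz) (fda hB ((hg.lb H H').sm n) hz)]
    ring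
  | bs hc hf ih =>
    refine (Q2.bs hc ih).cg fun n z hz => ?_
    simp only [TH294.RS.sM, DM]
    rw [db_cm (fda hB ((hf.lb H H').sm n) hz)]
    ring
  | cg _ e ih =>
    refine ih.cg fun n z hz => ?_
    simp only [TH294.RS.sM]
    exact DM_cg hB (h n) (e n) hz

include H H' in
lemma Q2.sL {C : ℝ} (hC : Cmp h κ C) {f : ℕ → ℂ → ℂ} (hf : Q2 B h κ w v f) :
    Q2 B h κ w v (TH294.RG.sL Complex.im h f) := by
  refine (((((hf.sP H H' hC)).sM H H' hC).cmul H H' (-1)).add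
    (((hf.sP H H' hC).smulc H H' (ab_sm H.op H.sa)).hmul H H')).cg fun n z hz => ?_
  rw [TH294.RG.sL_eq H.op H.sa (hf.lb H H').sm n hz]; ring

end

end Pool.Agent.K13.TP
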