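import Pool.Agent.K13.TP.Spec

/-!
# Errors in second moments of quadratic expressions of two ladders
-/

set_option autoImplicit false
set_option linter.unusedSectionVars false
open MeasureTheory Filter Topology Complex Set
open scoped ContDiff Real Manifold

namespace Pool.Agent.K13.TP

open Pool.Agent.W745.RW Pool.Agent.TH294.RS Pool.Agent.Y265.HY

noncomputable section

variable {B : Set ℂ} {h κ : ℕ → ℝ} {w v : ℤ → ℕ → ℂ → ℂ}

/-- `h |f|² → 0` locally uniformly -/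
def SMf (B : Set ℂ) (h : ℕ → ℝ) (f : ℕ → ℂ → ℂ) : Prop :=
  ∀ K, IsCompact K → K ⊆ B → ∀ ε > 0, ∀ᶠ n in atTop, ∀ z ∈ K, h n * ‖f n z‖ ^ 2 ≤ ε

lemma smf_w (H : SY B Complex.im h w) (hBU : B ⊆ UH) {f : ℕ → ℂ → ℂ} (hf : RP B h w f) :
    SMf B h f := fun _ hK hKB _ hε => sup_rp H hBU hf hK hKB hε

lemma smf_v (H : SY B Complex.im h w) (H' : SY B Complex.im κ v) (hBU : B ⊆ UH) {C : ℝ}
    (hC : Cmp h κ C) {f : ℕ → ℂ → ℂ} (hf : RP B κ v f) : SMf B h f := by
  intro K hK hKB ε hε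
  have hC0 : 0 < C := by
    have h1 := hC.1 0
    have h2 := H.hpos 0
    have h3 := H'.hpos 0
    by_contra hc
    push Not at hc
    nlinarith
  filter_upwards [sup_rp H' hBU hf hK hKB (ε := ε / C) (by positivity)] with n hn z hz
  have h1 := hn z hz
  rw [le_div_iff₀ hC0] at h1
  calc h n * ‖f n z‖ ^ 2 ≤ (C * κ n) * ‖f n z‖ ^ 2 :=
        mul_le_mul_of_nonneg_right (hC.1 n) (sq_nonneg _)
    _ = κ n * ‖f n z‖ ^ 2 * C := by ring
    _ ≤ ε := h1

/-- quartic errors vanish -/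
theorem hEg (hp0 : ∀ n, 0 < h n) {R f g : ℕ → ℂ → ℂ} (hR : LB B 1 R)
    (cf : ∀ n, ContinuousOn (f n) B) (cg : ∀ n, ContinuousOn (g n) B)
    (hf : SMf B h f) (hg : SMf B h g) :
    WN B (fun n z => (h n : ℂ) * (R n z * (f n z * g n z))) := by
  refine ⟨fun n => continuousOn_const.mul ((hR.co n).mul ((cf n).mul (cg n))), fun φ hφ => ?_⟩
  have hK : IsCompact (tsupport φ) := hφ.2.1
  obtain ⟨C, hC⟩ := l1b_of hR (tsupport φ) hK hφ.2.2
  obtain ⟨M', hM'⟩ := hK.exists_bound_of_continuousOn hφ.1.continuous.continuousOn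
  set M := max M' 0 with hM
  have hM0 : 0 ≤ M := le_max_right _ _
  have hb : ∀ z ∈ tsupport φ, ‖φ z‖ ≤ M := fun z hz => (hM' z hz).trans (le_max_left _ _)
  show Tendsto _ atTop (𝓝 0)
  rw [Metric.tendsto_atTop']
  intro ε hε
  have hpos : 0 < ε / (2 * (M * (|C| + 1) + 1)) := by positivity
  have := ((hf _ hK hφ.2.2 _ hpos).and (hg _ hK hφ.2.2 _ hpos)).and hC
  rw [eventually_atTop] at this
  obtain ⟨N, hN⟩ := this
  refine ⟨N, fun n hn => ?_⟩
  obtain ⟨⟨h1, h1'⟩, h2⟩ := hN n hn.le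
  rw [dist_zero_right]
  set η := ε / (2 * (M * (|C| + 1) + 1)) with hη
  have ip : IntegrableOn (fun z => ‖R n z‖) (tsupport φ) :=
    ContinuousOn.integrableOn_compact hK (((hR.co n).mono hφ.2.2).norm)
  have e : ∫ z, (φ z : ℂ) * ((h n : ℂ) * (R n z * (f n z * g n z))) =
      ∫ z in tsupport φ, (φ z : ℂ) * ((h n : ℂ) * (R n z * (f n z * g n z))) := by
    refine (setIntegral_eq_integral_of_forall_compl_eq_zero (fun z hz => ?_)).symm
    rw [image_eq_zero_of_notMem_tsupport hz]; simp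
  rw [e]
  have bb : ‖∫ z in tsupport φ, (φ z : ℂ) * ((h n : ℂ) * (R n z * (f n z * g n z)))‖ ≤
      ∫ z in tsupport φ, (M * η) * ‖R n z‖ := by
    refine norm_integral_le_of_norm_le (ip.const_mul _) ?_
    refine (ae_restrict_iff' hK.measurableSet).2 (Eventually.of_forall fun z hz => ?_)
    have hp := (hp0 n).le
    rw [norm_mul, norm_mul, norm_mul (R n z), norm_mul (f n z), Complex.norm_real,
      Complex.norm_real, Real.norm_eq_abs (h n), abs_of_nonneg hp]
    have a1 := hb z hz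
    have a2 := h1 z hz
    have a3 := h1' z hz
    have a4 : h n * (‖f n z‖ * ‖g n z‖) ≤ η := by
      have : ‖f n z‖ * ‖g n z‖ ≤ (‖f n z‖ ^ 2 + ‖g n z‖ ^ 2) / 2 := by
        nlinarith [sq_nonneg (‖f n z‖ - ‖g n z‖)]
      calc h n * (‖f n z‖ * ‖g n z‖) ≤ h n * ((‖f n z‖ ^ 2 + ‖g n z‖ ^ 2) / 2) := by gcongr
        _ ≤ η := by linarith
    calc ‖φ z‖ * (h n * (‖R n z‖ * (‖f n z‖ * ‖g n z‖))) =
          ‖φ z‖ * (h n * (‖f n z‖ * ‖g n z‖)) * ‖R n z‖ := by ring
      _ ≤ M * η * ‖R n z‖ := by gcongr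
  refine bb.trans_lt ?_
  rw [integral_const_mul]
  have hC' : ∫ z in tsupport φ, ‖R n z‖ ≤ |C| + 1 := h2.trans (by linarith [le_abs_self C])
  calc M * η * ∫ z in tsupport φ, ‖R n z‖
      ≤ M * η * (|C| + 1) := by gcongr
    _ = (M * (|C| + 1)) / (M * (|C| + 1) + 1) * (ε / 2) := by
        rw [hη]; field_simp
    _ ≤ 1 * (ε / 2) := by
        gcongr
        rw [div_le_one (by positivity)]; linarith
    _ < ε := by linarith

variable (H : SY B Complex.im h w) (H' : SY B Complex.im κ v) (hBU : B ⊆ UH) {C : ℝ}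
  (hC : Cmp h κ C)

include H H' hBU hC in
lemma crossR {R g Q : ℕ → ℂ → ℂ} (hR : LB B 2 R) (cg : ∀ n, ContinuousOn (g n) B)
    (hg : SMf B h g) (hQ : Q2 B h κ w v Q) :
    WN B (fun n z => (h n : ℂ) * (R n z * (g n z * Q n z))) := by
  induction hQ with
  | @mw e f he hf =>
    exact (hEg H.hpos (LB.mul2 he.lb hR) cg (fun n => (hf.dec.m H).co n) hg
      (smf_w H hBU hf)).congr fun n z _ => by ring
  | @mv e f he hf =>
    exact (hEg H.hpos (LB.mul2 he.lb hR) cg (fun n => (hf.dec.m H').co n) hg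
      (smf_v H H' hBU hC hf)).congr fun n z _ => by ring
  | add _ _ h1 h2 => exact (h1.add h2).congr fun n z _ => by ring
  | bs hc _ h1 =>
    exact (Pool.Agent.R314.JN.WN.bsc h1 hc).congr fun n z _ => by ring
  | cg _ e h1 => exact h1.congr fun n z hz => by rw [e n z hz]

include H H' hBU hC in
lemma crossLM (k0 : EX B κ v (v 0)) {Q : ℕ → ℂ → ℂ} (hQ : Q2 B h κ w v Q) (a : R1) :
    WN B (fun n z => (h n : ℂ) * (LM (ra h κ) w v a n z * Q n z)) := by
  induction a using AddMonoidAlgebra.induction_linear with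
  | zero =>
    have := crossR H H' hBU hC (H.bd 0).lb (H'.bd 0).co
      (smf_v H H' hBU hC (RP.W H' k0 0)) hQ
    exact (this.cmul 0).congr fun n z _ => by rw [LM_zero]; ring
  | add x y h1 h2 => exact (h1.add h2).congr fun n z _ => by rw [LM_add]; ring
  | single m p =>
    obtain ⟨C', hC'⟩ := poly_bd (ra_bd H H' hC) p
    have := crossR H H' hBU hC (H.bd m).lb (H'.bd (-m)).co
      (smf_v H H' hBU hC (RP.W H' k0 (-m))) hQ
    exact (Pool.Agent.R314.JN.WN.bsc this hC').congr fun n z _ => by rw [LM_single]; ring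

include H H' hBU hC in
lemma crossQ2 {Q Q' : ℕ → ℂ → ℂ} (hQ : Q2 B h κ w v Q) (hQ' : Q2 B h κ w v Q') :
    WN B (fun n z => (h n : ℂ) * ((h n : ℂ) * (Q' n z * Q n z))) := by
  induction hQ' with
  | @mw e f he hf =>
    exact (crossR H H' hBU hC (he.lb.hmul H.hlim) (fun n => (hf.dec.m H).co n)
      (smf_w H hBU hf) hQ).congr fun n z _ => by ring
  | @mv e f he hf =>
    exact (crossR H H' hBU hC (he.lb.hmul H.hlim) (fun n => (hf.dec.m H').co n)
      (smf_v H H' hBU hC hf) hQ).congr fun n z _ => by ring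
  | add _ _ h1 h2 => exact (h1.add h2).congr fun n z _ => by ring
  | bs hc _ h1 =>
    exact (Pool.Agent.R314.JN.WN.bsc h1 hc).congr fun n z _ => by ring
  | cg _ e h1 => exact h1.congr fun n z hz => by rw [e n z hz]

include H H' hBU hC in
/-- the second moment of a quadratic expression is the one of the main term -/
theorem sq_main (k0 : EX B κ v (v 0)) {φ : ℂ → ℝ} (hφ : TF B φ) {E : ℕ → ℂ → ℂ} {a : R1}
    (G : Good2 B h κ w v E a) :
    Null (fun n => (∫ z, (φ z : ℂ) * (E n z * E n z)) -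
      ∫ z, (φ z : ℂ) * (LM (ra h κ) w v a n z * LM (ra h κ) w v a n z)) := by
  obtain ⟨Q, hQ, hE⟩ := G
  have err : WN B (fun n z => (h n : ℂ) * (2 * (LM (ra h κ) w v a n z * Q n z) +
      (h n : ℂ) * (Q n z * Q n z))) :=
    (((crossLM H H' hBU hC k0 hQ a).cmul 2).add (crossQ2 H H' hBU hC hQ hQ)).congr
      fun n z _ => by ring
  refine (err.nul φ hφ).congr fun n => ?_
  have cL : ContinuousOn (fun z => LM (ra h κ) w v a n z) B := (LM_sm H H' _ a n).continuousOn
  have cQ : ContinuousOn (fun z => Q n z) B := (hQ.lb H H').co n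
  have c1 : ContinuousOn (fun z => LM (ra h κ) w v a n z * LM (ra h κ) w v a n z) B := cL.mul cL
  have c2 : ContinuousOn (fun z => (h n : ℂ) * (2 * (LM (ra h κ) w v a n z * Q n z) +
      (h n : ℂ) * (Q n z * Q n z))) B :=
    continuousOn_const.mul ((continuousOn_const.mul (cL.mul cQ)).add
      (continuousOn_const.mul (cQ.mul cQ)))
  have a2 : ∫ z, (φ z : ℂ) * (E n z * E n z) = (∫ z, (φ z : ℂ) * (LM (ra h κ) w v a n z *
      LM (ra h κ) w v a n z)) + ∫ z, (φ z : ℂ) * ((h n : ℂ) * (2 * (LM (ra h κ) w v a n z *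
      Q n z) + (h n : ℂ) * (Q n z * Q n z))) := by
    rw [← integral_add (TF.cint hφ c1) (TF.cint hφ c2)]
    congr 1; funext z
    by_cases hz : z ∈ B
    · rw [hE n z hz]; ring
    · rw [TF.zero hφ hz]; simp
  rw [a2]; ring

end

end Pool.Agent.K13.TP
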