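import Pool.Agent.K13.TP.All

/-!
# The joint moment of three eigenfunctions: spectral parameters
-/

set_option autoImplicit false
set_option linter.unusedSectionVars false
open MeasureTheory Filter Topology Complex Set
open scoped ContDiff Real Manifold

namespace Pool.Agent.K13.TP

open Pool.Agent.W745.RW Pool.Agent.TH294.RS Pool.Agent.Y265.HY
open Pool.Agent.R314.JN (QS)
open Pool.Agent.Y265.HY.JC (hh sub_ratio)

noncomputable section

/-- the eigenvalue -/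
def evv (t : ℝ) : ℝ := 1 / 4 + t ^ 2

lemma evv_pos (t : ℝ) : 0 < evv t := by unfold evv; positivity

lemma evv_top {t : ℕ → ℝ} (ht : Tendsto t atTop atTop) :
    Tendsto (fun n => evv (t n)) atTop atTop :=
  tendsto_atTop_add_const_left _ _ ((tendsto_pow_atTop two_ne_zero).comp ht)

/-- the frequency -/
lemma fr_bd {t : ℝ} (ht : 1 ≤ t) : t ≤ √(evv t) ∧ √(evv t) ≤ t + 1 / 8 := by
  have h0 : 0 ≤ t := by linarith
  constructor
  · exact Real.le_sqrt_of_sq_le (by unfold evv; linarith)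
  · rw [Real.sqrt_le_left (by positivity)]
    unfold evv
    nlinarith

section
variable {t s u a b δ C : ℝ} (ht : 1 ≤ t) (hs : 0 ≤ s) (hC : s ≤ C * t) (hC1 : 1 ≤ C)
    (hδ1 : δ ≤ 1) (a1 : t ≤ a) (a2 : a ≤ t + 1 / 8) (b1 : s ≤ b) (b2 : b ≤ s + 1 / 8)
    (big : 8 * C ≤ δ * t)

include ht hs hC hC1 hδ1 a1 a2 b1 b2 big in
lemma conv1 (h : δ * t ^ 2 ≤ |u ^ 2 - (t + s) ^ 2|) :
    δ / 4 * (1 / 4 + t ^ 2) ≤ |1 / 4 + u ^ 2 - (a + b) ^ 2| := by
  have h1 : |u ^ 2 - (t + s) ^ 2| ≤ |1 / 4 + u ^ 2 - (a + b) ^ 2| +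
      |(a + b) ^ 2 - (t + s) ^ 2 - 1 / 4| := by
    have : u ^ 2 - (t + s) ^ 2 = (1 / 4 + u ^ 2 - (a + b) ^ 2) +
      ((a + b) ^ 2 - (t + s) ^ 2 - 1 / 4) := by ring
    rw [this]; exact abs_add_le _ _
  have h2 : |(a + b) ^ 2 - (t + s) ^ 2 - 1 / 4| ≤ 2 * C * t := by
    rw [abs_le]
    constructor <;> nlinarith
  nlinarith

include ht hs hC hC1 hδ1 a1 a2 b1 b2 big in
lemma conv2 (h : δ * t ^ 2 ≤ |u ^ 2 - (t - s) ^ 2|) :
    δ / 4 * (1 / 4 + t ^ 2) ≤ |1 / 4 + u ^ 2 - (a - b) ^ 2| := by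
  have h1 : |u ^ 2 - (t - s) ^ 2| ≤ |1 / 4 + u ^ 2 - (a - b) ^ 2| +
      |(a - b) ^ 2 - (t - s) ^ 2 - 1 / 4| := by
    have : u ^ 2 - (t - s) ^ 2 = (1 / 4 + u ^ 2 - (a - b) ^ 2) +
      ((a - b) ^ 2 - (t - s) ^ 2 - 1 / 4) := by ring
    rw [this]; exact abs_add_le _ _
  have h2 : |(a - b) ^ 2 - (t - s) ^ 2 - 1 / 4| ≤ 2 * C * t := by
    obtain ⟨x, hx⟩ : ∃ x, x = (a - b) - (t - s) := ⟨_, rfl⟩
    have x1 : |x| ≤ 1 / 8 := by rw [hx, abs_le]; constructor <;> linarith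
    have x2 : |(a - b) + (t - s)| ≤ 2 * (1 + C) * t + 1 / 8 := by
      rw [abs_le]; constructor <;> nlinarith
    have e : (a - b) ^ 2 - (t - s) ^ 2 = x * ((a - b) + (t - s)) := by rw [hx]; ring
    have x3 : |x * ((a - b) + (t - s))| ≤ 1 / 8 * (2 * (1 + C) * t + 1 / 8) := by
      rw [abs_mul]
      exact mul_le_mul x1 x2 (abs_nonneg _) (by norm_num)
    rw [e]
    have x4 := abs_le.1 x3
    rw [abs_le]
    constructor <;> nlinarith
  nlinarith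

include ht hC1 hδ1 big in
lemma conv3 (h : δ * t ^ 2 ≤ |u ^ 2 - abs (t ^ 2 - s ^ 2)|) :
    δ / 4 * (1 / 4 + t ^ 2) ≤ |1 / 4 + u ^ 2 - abs (t ^ 2 - s ^ 2)| := by
  have h1 : |u ^ 2 - abs (t ^ 2 - s ^ 2)| ≤ |1 / 4 + u ^ 2 - abs (t ^ 2 - s ^ 2)| + |(-1 / 4 : ℝ)| := by
    have : u ^ 2 - abs (t ^ 2 - s ^ 2) = (1 / 4 + u ^ 2 - abs (t ^ 2 - s ^ 2)) + (-1 / 4) := by ring
    rw [this]; exact abs_add_le _ _
  have h2 : |(-1 / 4 : ℝ)| = 1 / 4 := by norm_num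
  rw [h2] at h1
  nlinarith

end

/-- the ratios stay away from the exceptional values -/
def Away (t s u : ℕ → ℝ) : Prop := ∃ δ : ℝ, 0 < δ ∧ ∀ᶠ n in atTop,
  δ * t n ≤ s n ∧ δ * s n ≤ t n ∧ δ * t n ^ 2 ≤ |u n ^ 2 - (t n + s n) ^ 2| ∧
  δ * t n ^ 2 ≤ |u n ^ 2 - (t n - s n) ^ 2| ∧ δ * t n ^ 2 ≤ |u n ^ 2 - abs (t n ^ 2 - s n ^ 2)|

variable {Ω : Set ℂ} {t s u : ℕ → ℝ} {f g k : ℕ → ℂ → ℝ}

/-- the moment tends to zero if the first two sequences are quantum ergodic -/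
theorem fin1 (hΩ : IsOpen Ω) (hU : ∀ z ∈ Ω, 0 < z.im) (ht : Tendsto t atTop atTop)
    (hs : Tendsto s atTop atTop) (qf : QS Ω (fun n => evv (t n)) f)
    (qg : QS Ω (fun n => evv (s n)) g) (ks : ∀ n, ContDiffOn ℝ ∞ (k n) Ω)
    (ke : ∀ n, ∀ z ∈ Ω, z.im ^ 2 * lap (k n) z + evv (u n) * k n z = 0)
    (kb : ∀ K : Set ℂ, IsCompact K → K ⊆ Ω → ∃ C : ℝ, ∀ᶠ n in atTop, ∫ z in K, k n z ^ 2 ≤ C)
    (hA : Away t s u) {ψ : ℂ → ℝ} (hψ : TF Ω ψ) :
    Tendsto (fun n => J3 ψ (f n) (g n) (k n)) atTop (𝓝 0) := by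
  obtain ⟨δ', hδ', hA⟩ := hA
  obtain ⟨δ, hδd⟩ : ∃ δ, δ = min δ' 1 := ⟨_, rfl⟩
  have hδ : 0 < δ := by rw [hδd]; positivity
  have hδ1 : δ ≤ 1 := by rw [hδd]; exact min_le_right _ _
  have hδ2 : δ ≤ δ' := by rw [hδd]; exact min_le_left _ _
  obtain ⟨C, hC⟩ : ∃ C, C = 1 / δ := ⟨_, rfl⟩
  have hC1 : 1 ≤ C := by rw [hC, le_div_iff₀ hδ]; linarith
  have hCδ : C * δ = 1 := by rw [hC]; field_simp
  have E := (((ht.eventually_ge_atTop 1).and (hs.eventually_ge_atTop 1)).and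
    ((ht.eventually_ge_atTop (8 * C / δ)))).and hA
  rw [eventually_atTop] at E
  obtain ⟨N, hN⟩ := E
  have main : ∀ n, N ≤ n → (evv (t n) ≤ (2 * C) ^ 2 * evv (s n) ∧
      evv (s n) ≤ (2 * C) ^ 2 * evv (t n)) ∧
      δ / 4 ≤ |evv (u n) / evv (t n) - (1 + rh (fun n => evv (t n)) (fun n => evv (s n)) n) ^ 2| ∧
      δ / 4 ≤ |evv (u n) / evv (t n) - (1 - rh (fun n => evv (t n)) (fun n => evv (s n)) n) ^ 2| ∧
      δ / 4 ≤ |evv (u n) / evv (t n) -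
        abs (1 - rh (fun n => evv (t n)) (fun n => evv (s n)) n ^ 2)| := by
    intro n hn
    obtain ⟨⟨⟨h1, h2⟩, h3⟩, h4, h5, h6, h7, h8⟩ := hN n hn
    have h3' : 8 * C ≤ δ * t n := by
      rw [div_le_iff₀ hδ] at h3; linarith
    have st : s n ≤ C * t n := by
      have : δ * s n ≤ t n := (mul_le_mul_of_nonneg_right hδ2 (by linarith)).trans h5
      calc s n = C * (δ * s n) := by rw [← mul_assoc, hCδ, one_mul]
        _ ≤ C * t n := mul_le_mul_of_nonneg_left this (by linarith)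
    have ts : t n ≤ C * s n := by
      have : δ * t n ≤ s n := (mul_le_mul_of_nonneg_right hδ2 (by linarith)).trans h4
      calc t n = C * (δ * t n) := by rw [← mul_assoc, hCδ, one_mul]
        _ ≤ C * s n := mul_le_mul_of_nonneg_left this (by linarith)
    have sq : ∀ {x : ℝ}, δ' * t n ^ 2 ≤ x → δ * t n ^ 2 ≤ x := fun h =>
      (mul_le_mul_of_nonneg_right hδ2 (sq_nonneg _)).trans h
    obtain ⟨a1, a2⟩ := fr_bd h1
    obtain ⟨b1, b2⟩ := fr_bd h2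
    obtain ⟨a, ha⟩ : ∃ a, a = √(evv (t n)) := ⟨_, rfl⟩
    obtain ⟨b, hb⟩ : ∃ b, b = √(evv (s n)) := ⟨_, rfl⟩
    rw [← ha] at a1 a2
    rw [← hb] at b1 b2
    have a0 : 0 < a := by linarith
    have b0 : 0 < b := by linarith
    have asq : a ^ 2 = evv (t n) := by rw [ha]; exact Real.sq_sqrt (evv_pos _).le
    have bsq : b ^ 2 = evv (s n) := by rw [hb]; exact Real.sq_sqrt (evv_pos _).le
    have er : rh (fun n => evv (t n)) (fun n => evv (s n)) n = b / a := by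
      show (1 / √(evv (t n))) / (1 / √(evv (s n))) = b / a
      rw [← ha, ← hb]
      field_simp
    have c1 := conv1 h1 (by linarith) st hC1 hδ1 a1 a2 b1 b2 h3' (sq h6)
    have c2 := conv2 h1 (by linarith) st hC1 hδ1 a1 a2 b1 b2 h3' (sq h7)
    have c3 := conv3 h1 hC1 hδ1 h3' (sq h8)
    have dv : ∀ x : ℝ, evv (u n) / evv (t n) - x / a ^ 2 = (evv (u n) - x) / evv (t n) := by
      intro x; rw [asq]; ring
    refine ⟨⟨?_, ?_⟩, ?_, ?_, ?_⟩
    · unfold evv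
      nlinarith
    · unfold evv
      nlinarith
    · rw [er, show (1 + b / a) ^ 2 = (a + b) ^ 2 / a ^ 2 by field_simp, dv, abs_div,
        abs_of_pos (evv_pos (t n)), le_div_iff₀ (evv_pos (t n))]
      exact c1
    · rw [er, show (1 - b / a) ^ 2 = (a - b) ^ 2 / a ^ 2 by field_simp, dv, abs_div,
        abs_of_pos (evv_pos (t n)), le_div_iff₀ (evv_pos (t n))]
      exact c2
    · have e3 : |1 - (b / a) ^ 2| = |t n ^ 2 - s n ^ 2| / a ^ 2 := by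
        have : 1 - (b / a) ^ 2 = (t n ^ 2 - s n ^ 2) / a ^ 2 := by
          field_simp
          rw [asq, bsq]; unfold evv; ring
        rw [this, abs_div, abs_of_pos (by positivity : 0 < a ^ 2)]
      rw [er, e3, dv, abs_div,
        abs_of_pos (evv_pos (t n)), le_div_iff₀ (evv_pos (t n))]
      exact c3
  have hsh : Tendsto (fun n => n + N) atTop atTop := tendsto_add_atTop_nat N
  have D : TD Ω (fun n => evv (t (n + N))) (fun n => evv (s (n + N))) (fun n => evv (u (n + N)))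
      (fun n => f (n + N)) (fun n => g (n + N)) (fun n => k (n + N)) :=
    ⟨hΩ, hU, qs_cmp qf hsh, qs_cmp qg hsh, ⟨(2 * C) ^ 2, fun n => (main (n + N) (by omega)).1⟩,
      fun n => (evv_pos _).le, fun n => ks _, fun n => ke _, fun K hK hKΩ => by
        obtain ⟨C, hC⟩ := kb K hK hKΩ
        exact ⟨C, hsh.eventually hC⟩⟩
  have := D.off hψ (δ := δ / 4) (by positivity) (Eventually.of_forall fun n =>
    (main (n + N) (by omega)).2)
  exact (tendsto_add_atTop_iff_nat N).1 this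

/-- quantum ergodic sequences are locally bounded in mean square -/
lemma qs_bd (hΩ : IsOpen Ω) (hU : ∀ z ∈ Ω, 0 < z.im) {lam : ℕ → ℝ} (qk : QS Ω lam k) {K : Set ℂ}
    (hK : IsCompact K) (hKΩ : K ⊆ Ω) : ∃ C : ℝ, ∀ᶠ n in atTop, ∫ z in K, k n z ^ 2 ≤ C := by
  obtain ⟨C, hC⟩ := ((qs_sy hΩ hU qk).bd 0).lb.bd K hK hKΩ
  refine ⟨C, hC.mono fun n hn => ?_⟩
  have e : ∀ z, ‖(lw lam k 0 n z)‖ ^ 2 = k n z ^ 2 := fun z => by
    rw [lw0, Complex.norm_real, Real.norm_eq_abs, sq_abs]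
  simp only [e] at hn
  exact hn

/-- if `c` is the largest of the three numbers, the others are comparable, and `c` is not close to
their sum -/
def Adm (δ a b c : ℝ) : Prop :=
  a ≤ c → b ≤ c → δ * a ≤ b ∧ δ * b ≤ a ∧ δ * c ≤ |c - (a + b)|

lemma adm_away (ht : Tendsto t atTop atTop) (hs : Tendsto s atTop atTop)
    (h1 : ∀ n, t n ≤ u n ∧ s n ≤ u n) {δ' : ℝ} (hδ' : 0 < δ')
    (h2 : ∀ᶠ n in atTop, Adm δ' (t n) (s n) (u n)) : Away t s u := by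
  obtain ⟨δ, hδd⟩ : ∃ δ, δ = min δ' 1 := ⟨_, rfl⟩
  have hδ : 0 < δ := by rw [hδd]; positivity
  have hδ1 : δ ≤ 1 := by rw [hδd]; exact min_le_right _ _
  have hδ2 : δ ≤ δ' := by rw [hδd]; exact min_le_left _ _
  refine ⟨δ ^ 2, by positivity, ?_⟩
  filter_upwards [ht.eventually_ge_atTop 1, hs.eventually_ge_atTop 1, h2] with n n1 n2 n3
  obtain ⟨m1, m2⟩ := h1 n
  obtain ⟨g1, g2, g3⟩ := n3 m1 m2
  clear n3
  generalize t n = a at n1 m1 g1 g2 g3 ⊢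
  generalize s n = b at n2 m2 g1 g2 g3 ⊢
  generalize u n = c at m1 m2 g3 ⊢
  have k1 : δ * a ≤ b := (mul_le_mul_of_nonneg_right hδ2 (by linarith)).trans g1
  have k2 : δ * b ≤ a := (mul_le_mul_of_nonneg_right hδ2 (by linarith)).trans g2
  have k3 : δ * c ≤ |c - (a + b)| := (mul_le_mul_of_nonneg_right hδ2 (by linarith)).trans g3
  have dd : δ ^ 2 ≤ δ := by nlinarith
  have s1 : δ ^ 2 * a ≤ δ * a := mul_le_mul_of_nonneg_right dd (by linarith)
  have s2 : δ ^ 2 * b ≤ δ * b := mul_le_mul_of_nonneg_right dd (by linarith)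
  have s3 : δ ^ 2 * a ^ 2 ≤ δ * a ^ 2 := mul_le_mul_of_nonneg_right dd (sq_nonneg _)
  refine ⟨s1.trans k1, s2.trans k2, ?_, ?_, ?_⟩
  · have e : c ^ 2 - (a + b) ^ 2 = (c - (a + b)) * (c + (a + b)) := by ring
    rw [e, abs_mul, abs_of_pos (by linarith : 0 < c + (a + b))]
    have q1 : δ * c * c ≤ |c - (a + b)| * (c + (a + b)) :=
      mul_le_mul k3 (by linarith) (by linarith) (abs_nonneg _)
    have q2 : δ * a ^ 2 ≤ δ * c * c := by
      have : a ^ 2 ≤ c * c := by nlinarith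
      nlinarith
    linarith
  · refine le_trans ?_ (le_abs_self _)
    have q1 : (a - b) ^ 2 + a * b ≤ c ^ 2 := by
      rcases le_total a b with h | h
      · nlinarith
      · nlinarith
    have q2 : δ * a ^ 2 ≤ a * b := by nlinarith
    linarith
  · refine le_trans ?_ (le_abs_self _)
    have q0 : δ ^ 2 * a ^ 2 ≤ b ^ 2 := by
      have : (δ * a) ^ 2 ≤ b ^ 2 := pow_le_pow_left₀ (by positivity) k1 2
      linarith [mul_pow δ a 2]
    have q1 : δ ^ 2 * a ^ 2 ≤ a ^ 2 := by nlinarith [sq_nonneg a]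
    rcases abs_cases (a ^ 2 - b ^ 2) with ⟨h, -⟩ | ⟨h, -⟩
    · rw [h]; nlinarith
    · rw [h]; nlinarith

/-- no degenerate triangle -/
def NonDeg (t s u : ℕ → ℝ) : Prop := ∃ δ : ℝ, 0 < δ ∧ ∀ᶠ n in atTop,
  Adm δ (t n) (s n) (u n) ∧ Adm δ (s n) (u n) (t n) ∧ Adm δ (u n) (t n) (s n)

/-- **three quantum ergodic sequences** -/
theorem fin2 (hΩ : IsOpen Ω) (hU : ∀ z ∈ Ω, 0 < z.im) (ht : Tendsto t atTop atTop)
    (hs : Tendsto s atTop atTop) (hu : Tendsto u atTop atTop) (qf : QS Ω (fun n => evv (t n)) f)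
    (qg : QS Ω (fun n => evv (s n)) g) (qk : QS Ω (fun n => evv (u n)) k)
    (hA : NonDeg t s u) {ψ : ℂ → ℝ} (hψ : TF Ω ψ) :
    Tendsto (fun n => J3 ψ (f n) (g n) (k n)) atTop (𝓝 0) := by
  obtain ⟨δ, hδ, hA⟩ := hA
  refine tendsto_of_subseq_tendsto fun ns hns => ?_
  have cs : ∃ᶠ n in atTop, (t (ns n) ≤ u (ns n) ∧ s (ns n) ≤ u (ns n)) ∨
      (s (ns n) ≤ t (ns n) ∧ u (ns n) ≤ t (ns n)) ∨
      (u (ns n) ≤ s (ns n) ∧ t (ns n) ≤ s (ns n)) := by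
    refine Frequently.of_forall fun n => ?_
    rcases le_total (t (ns n)) (u (ns n)) with h1 | h1 <;>
    rcases le_total (s (ns n)) (u (ns n)) with h2 | h2 <;>
    rcases le_total (s (ns n)) (t (ns n)) with h3 | h3 <;>
    first
    | exact Or.inl ⟨by linarith, by linarith⟩
    | exact Or.inr (Or.inl ⟨by linarith, by linarith⟩)
    | exact Or.inr (Or.inr ⟨by linarith, by linarith⟩)
  rw [frequently_or_distrib, frequently_or_distrib] at cs
  rcases cs with cs | cs | cs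
  · obtain ⟨τ, hτ, hτC⟩ := extraction_of_frequently_atTop cs
    have hσ : Tendsto (fun n => ns (τ n)) atTop atTop := hns.comp hτ.tendsto_atTop
    refine ⟨τ, ?_⟩
    have A1 := adm_away (ht.comp hσ) (hs.comp hσ) hτC hδ ((hσ.eventually hA).mono fun n hn => hn.1)
    exact fin1 hΩ hU (ht.comp hσ) (hs.comp hσ) (qs_cmp qf hσ) (qs_cmp qg hσ) (fun n => qk.sm _)
      (fun n => qk.eq _) (fun K hK hKΩ => by
        obtain ⟨C, hC⟩ := qs_bd hΩ hU qk hK hKΩ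
        exact ⟨C, hσ.eventually hC⟩) A1 hψ
  · obtain ⟨τ, hτ, hτC⟩ := extraction_of_frequently_atTop cs
    have hσ : Tendsto (fun n => ns (τ n)) atTop atTop := hns.comp hτ.tendsto_atTop
    refine ⟨τ, ?_⟩
    have A1 := adm_away (hs.comp hσ) (hu.comp hσ) hτC hδ
      ((hσ.eventually hA).mono fun n hn => hn.2.1)
    refine (fin1 hΩ hU (hs.comp hσ) (hu.comp hσ) (qs_cmp qg hσ) (qs_cmp qk hσ) (fun n => qf.sm _)
      (fun n => qf.eq _) (fun K hK hKΩ => by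
        obtain ⟨C, hC⟩ := qs_bd hΩ hU qf hK hKΩ
        exact ⟨C, hσ.eventually hC⟩) A1 hψ).congr fun n => ?_
    unfold J3
    congr 1; funext z; ring
  · obtain ⟨τ, hτ, hτC⟩ := extraction_of_frequently_atTop cs
    have hσ : Tendsto (fun n => ns (τ n)) atTop atTop := hns.comp hτ.tendsto_atTop
    refine ⟨τ, ?_⟩
    have A1 := adm_away (hu.comp hσ) (ht.comp hσ) hτC hδ
      ((hσ.eventually hA).mono fun n hn => hn.2.2)
    refine (fin1 hΩ hU (hu.comp hσ) (ht.comp hσ) (qs_cmp qk hσ) (qs_cmp qf hσ) (fun n => qg.sm _)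
      (fun n => qg.eq _) (fun K hK hKΩ => by
        obtain ⟨C, hC⟩ := qs_bd hΩ hU qg hK hKΩ
        exact ⟨C, hσ.eventually hC⟩) A1 hψ).congr fun n => ?_
    unfold J3
    congr 1; funext z; ring

end

end Pool.Agent.K13.TP
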