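import Pool.Agent.K13.TP.All2
import Pool.Agent.K13.TP.Fin

/-!
# The joint moment of three eigenfunctions: spectral parameters, all comparable triples
-/

set_option autoImplicit false
set_option linter.unusedSectionVars false
open MeasureTheory Filter Topology Complex Set
open scoped ContDiff Real Manifold

namespace Pool.Agent.K13.TP

open Pool.Agent.W745.RW Pool.Agent.TH294.RS Pool.Agent.Y265.HY
open Pool.Agent.R314.JN (QS)
open Pool.Agent.Y265.HY.JC (hh sub_ratio eX mS)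

noncomputable section

/-- the three parameters: `t` and `s` are comparable and `u` is not much smaller -/
def Comp (t s u : ℕ → ℝ) : Prop := ∃ δ : ℝ, 0 < δ ∧ ∀ᶠ n in atTop,
  δ * t n ≤ s n ∧ δ * s n ≤ t n ∧ δ * t n ≤ u n

/-- no right triangles -/
def NR (t s u : ℕ → ℝ) : Prop := ∃ δ : ℝ, 0 < δ ∧ ∀ᶠ n in atTop,
  δ * t n ^ 2 ≤ |u n ^ 2 - abs (t n ^ 2 - s n ^ 2)|

variable {Ω : Set ℂ} {t s u : ℕ → ℝ} {f g k : ℕ → ℂ → ℝ}

/-- the setting -/
structure FD3 (Ω : Set ℂ) (t s u : ℕ → ℝ) (f g k : ℕ → ℂ → ℝ) : Prop where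
  op : IsOpen Ω
  hU : ∀ z ∈ Ω, 0 < z.im
  ht : Tendsto t atTop atTop
  hs : Tendsto s atTop atTop
  qf : QS Ω (fun n => evv (t n)) f
  qg : QS Ω (fun n => evv (s n)) g
  ks : ∀ n, ContDiffOn ℝ ∞ (k n) Ω
  ke : ∀ n, ∀ z ∈ Ω, z.im ^ 2 * lap (k n) z + evv (u n) * k n z = 0
  kb : ∀ K : Set ℂ, IsCompact K → K ⊆ Ω → ∃ C : ℝ, ∀ᶠ n in atTop, ∫ z in K, k n z ^ 2 ≤ C

lemma nr_c {t s u η : ℝ} (hη : 0 < η) (h1 : η * t ^ 2 ≤ |u ^ 2 - abs (t ^ 2 - s ^ 2)|)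
    (h2 : 1 ≤ t) (h3 : 4 / η ≤ t) :
    η / 2 ≤ |evv u / evv t - abs (1 - ((1 / √(evv t)) / (1 / √(evv s))) ^ 2)| := by
  obtain ⟨a, ha⟩ : ∃ a, a = √(evv t) := ⟨_, rfl⟩
  obtain ⟨b, hb⟩ : ∃ b, b = √(evv s) := ⟨_, rfl⟩
  have a0 : 0 < a := by rw [ha]; exact Real.sqrt_pos.2 (evv_pos _)
  have b0 : 0 < b := by rw [hb]; exact Real.sqrt_pos.2 (evv_pos _)
  have asq : a ^ 2 = evv t := by rw [ha]; exact Real.sq_sqrt (evv_pos _).le
  have bsq : b ^ 2 = evv s := by rw [hb]; exact Real.sq_sqrt (evv_pos _).le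
  have e3 : |1 - ((1 / a) / (1 / b)) ^ 2| = |t ^ 2 - s ^ 2| / a ^ 2 := by
    have : 1 - ((1 / a) / (1 / b)) ^ 2 = (t ^ 2 - s ^ 2) / a ^ 2 := by
      field_simp
      rw [asq, bsq]; unfold evv; ring
    rw [this, abs_div, abs_of_pos (by positivity : 0 < a ^ 2)]
  have dv : ∀ x : ℝ, evv u / evv t - x / a ^ 2 = (evv u - x) / evv t := by
    intro x; rw [asq]; ring
  rw [← ha, ← hb, e3, dv, abs_div, abs_of_pos (evv_pos t), le_div_iff₀ (evv_pos t)]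
  have h4 : |u ^ 2 - abs (t ^ 2 - s ^ 2)| ≤ |evv u - abs (t ^ 2 - s ^ 2)| + |(-1 / 4 : ℝ)| := by
    have : u ^ 2 - abs (t ^ 2 - s ^ 2) = (evv u - abs (t ^ 2 - s ^ 2)) + (-1 / 4) := by
      unfold evv; ring
    rw [this]; exact abs_add_le _ _
  have h5 : |(-1 / 4 : ℝ)| = 1 / 4 := by norm_num
  rw [h5] at h4
  have h6 : 4 ≤ η * t := by rw [div_le_iff₀ hη] at h3; linarith
  have h7 : 4 ≤ η * t ^ 2 := by nlinarith
  have h8 : η ≤ η * t ^ 2 := by nlinarith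
  unfold evv at h4 ⊢
  linarith

/-- the data after a shift -/
theorem FD3.mkT (D : FD3 Ω t s u f g k) (hc : Comp t s u) : ∃ (N : ℕ) (δ : ℝ), 0 < δ ∧
    TD Ω (fun n => evv (t (n + N))) (fun n => evv (s (n + N))) (fun n => evv (u (n + N)))
      (fun n => f (n + N)) (fun n => g (n + N)) (fun n => k (n + N)) ∧
    (∀ᶠ n in atTop, δ ≤ evv (u (n + N)) / evv (t (n + N))) ∧
    (NR t s u → ∃ δ' : ℝ, 0 < δ' ∧ ∀ᶠ n in atTop, δ' ≤ |evv (u (n + N)) / evv (t (n + N)) -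
      abs (1 - rh (fun n => evv (t (n + N))) (fun n => evv (s (n + N))) n ^ 2)|) := by
  obtain ⟨δ', hδ', hA⟩ := hc
  obtain ⟨δ, hδd⟩ : ∃ δ, δ = min δ' 1 := ⟨_, rfl⟩
  have hδ : 0 < δ := by rw [hδd]; positivity
  have hδ1 : δ ≤ 1 := by rw [hδd]; exact min_le_right _ _
  have hδ2 : δ ≤ δ' := by rw [hδd]; exact min_le_left _ _
  obtain ⟨C, hC⟩ : ∃ C, C = 1 / δ := ⟨_, rfl⟩
  have hC1 : 1 ≤ C := by rw [hC, le_div_iff₀ hδ]; linarith
  have hCδ : C * δ = 1 := by rw [hC]; field_simp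
  have E := ((D.ht.eventually_ge_atTop 1).and (D.hs.eventually_ge_atTop 1)).and hA
  rw [eventually_atTop] at E
  obtain ⟨N, hN⟩ := E
  have main : ∀ n, N ≤ n → (evv (t n) ≤ (2 * C) ^ 2 * evv (s n) ∧
      evv (s n) ≤ (2 * C) ^ 2 * evv (t n)) ∧ δ ^ 2 ≤ evv (u n) / evv (t n) := by
    intro n hn
    obtain ⟨⟨h1, h2⟩, h4, h5, h6⟩ := hN n hn
    have st : s n ≤ C * t n := by
      have : δ * s n ≤ t n := (mul_le_mul_of_nonneg_right hδ2 (by linarith)).trans h5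
      calc s n = C * (δ * s n) := by rw [← mul_assoc, hCδ, one_mul]
        _ ≤ C * t n := mul_le_mul_of_nonneg_left this (by linarith)
    have ts : t n ≤ C * s n := by
      have : δ * t n ≤ s n := (mul_le_mul_of_nonneg_right hδ2 (by linarith)).trans h4
      calc t n = C * (δ * t n) := by rw [← mul_assoc, hCδ, one_mul]
        _ ≤ C * s n := mul_le_mul_of_nonneg_left this (by linarith)
    have ut : δ * t n ≤ u n := (mul_le_mul_of_nonneg_right hδ2 (by linarith)).trans h6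
    refine ⟨⟨?_, ?_⟩, ?_⟩
    · unfold evv
      nlinarith
    · unfold evv
      nlinarith
    · rw [le_div_iff₀ (evv_pos _)]
      have h7 : (δ * t n) ^ 2 ≤ u n ^ 2 := pow_le_pow_left₀ (by positivity) ut 2
      have h8 : δ ^ 2 ≤ 1 := pow_le_one₀ hδ.le hδ1
      unfold evv
      nlinarith
  have hsh : Tendsto (fun n => n + N) atTop atTop := tendsto_add_atTop_nat N
  refine ⟨N, δ ^ 2, by positivity, ⟨D.op, D.hU, qs_cmp D.qf hsh, qs_cmp D.qg hsh,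
    ⟨(2 * C) ^ 2, fun n => (main (n + N) (by omega)).1⟩,
      fun n => (evv_pos _).le, fun n => D.ks _, fun n => D.ke _, fun K hK hKΩ => by
        obtain ⟨C, hC⟩ := D.kb K hK hKΩ
        exact ⟨C, hsh.eventually hC⟩⟩, Eventually.of_forall fun n =>
    (main (n + N) (by omega)).2, ?_⟩
  rintro ⟨η, hη, hR⟩
  refine ⟨η / 2, by positivity, ?_⟩
  have E2 := hsh.eventually (hR.and ((D.ht.eventually_ge_atTop 1).and
    ((D.ht.eventually_ge_atTop (4 / η)).and (D.hs.eventually_ge_atTop 1))))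
  filter_upwards [E2] with n hn
  obtain ⟨h1, h2, h3, h4⟩ := hn
  exact nr_c hη h1 h2 h3

/-- **all comparable triples**, nonnegative test functions -/
theorem FD3.allR (D : FD3 Ω t s u f g k) (hc : Comp t s u) {φ : ℂ → ℝ} (hφ : TF Ω φ)
    (h0 : ∀ z, 0 ≤ φ z) {ε : ℝ} (hε : 0 < ε) : ∀ᶠ n in atTop, J3 φ (f n) (g n) (k n) ^ 2 ≤
      MT ε φ (f n) (g n) (k n) + ε * √(1 + |eX φ (f n)| + |eX φ (g n)|) := by
  obtain ⟨N, δ, hδ, T, h1, -⟩ := D.mkT hc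
  have := T.allR hφ h0 hδ h1 hε
  rw [eventually_atTop] at this ⊢
  obtain ⟨M, hM⟩ := this
  refine ⟨M + N, fun n hn => ?_⟩
  have := hM (n - N) (by omega)
  rwa [show n - N + N = n by omega] at this

/-- **all comparable triples away from right triangles**, nonnegative test functions -/
theorem FD3.allD (D : FD3 Ω t s u f g k) (hc : Comp t s u) (hr : NR t s u) {φ : ℂ → ℝ}
    (hφ : TF Ω φ) (h0 : ∀ z, 0 ≤ φ z) {ε : ℝ} (hε : 0 < ε) :
    ∀ᶠ n in atTop, J3 φ (f n) (g n) (k n) ^ 2 ≤ MT ε φ (f n) (g n) (k n) + ε := by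
  obtain ⟨N, δ, hδ, T, h1, h2⟩ := D.mkT hc
  obtain ⟨δ', hδ', h3⟩ := h2 hr
  have δm : 0 < min δ δ' := lt_min hδ hδ'
  have := T.allD hφ h0 δm (h1.mono fun n hn => (min_le_left _ _).trans hn)
    (h3.mono fun n hn => (min_le_right _ _).trans hn) hε
  rw [eventually_atTop] at this ⊢
  obtain ⟨M, hM⟩ := this
  refine ⟨M + N, fun n hn => ?_⟩
  have := hM (n - N) (by omega)
  rwa [show n - N + N = n by omega] at this

/-- nonnegative test functions suffice -/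
theorem sgn_all (hΩ : IsOpen Ω) (cf : ∀ n, ContinuousOn (f n) Ω) (cg : ∀ n, ContinuousOn (g n) Ω)
    (ck : ∀ n, ContinuousOn (k n) Ω) (key : ∀ φ, TF Ω φ → (∀ z, 0 ≤ φ z) →
      Tendsto (fun n => J3 φ (f n) (g n) (k n)) atTop (𝓝 0)) {ψ : ℂ → ℝ} (hψ : TF Ω ψ) :
    Tendsto (fun n => J3 ψ (f n) (g n) (k n)) atTop (𝓝 0) := by
  obtain ⟨χ, hχ, hχ0, -, hχ1⟩ := Pool.Agent.Y265.RW.cutoff hΩ hψ.2.1 hψ.2.2
  obtain ⟨M', hM'⟩ := hψ.2.1.exists_bound_of_continuousOn hψ.1.continuous.continuousOn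
  obtain ⟨M, hM⟩ : ∃ M, M = max M' 0 := ⟨_, rfl⟩
  have M0 : 0 ≤ M := by rw [hM]; exact le_max_right _ _
  have t1 : TF Ω (fun z => ψ z + M * χ z) := by
    refine ⟨hψ.1.add (contDiff_const.mul hχ.1), hψ.2.1.add (hχ.2.1.mul_left), ?_⟩
    refine (tsupport_add _ _).trans (Set.union_subset hψ.2.2 ?_)
    exact (tsupport_mul_subset_right (f := fun _ : ℂ => M)).trans hχ.2.2
  have p1 : ∀ z, 0 ≤ ψ z + M * χ z := by
    intro z
    by_cases hz : z ∈ tsupport ψ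
    · rw [hχ1 z hz, mul_one]
      have h1 := hM' z hz
      rw [Real.norm_eq_abs] at h1
      have h2 := neg_abs_le (ψ z)
      have h3 : M' ≤ M := by rw [hM]; exact le_max_left _ _
      linarith
    · rw [image_eq_zero_of_notMem_tsupport hz, zero_add]
      exact mul_nonneg M0 (hχ0 z)
  have kk := (key _ t1 p1).sub ((key χ hχ hχ0).const_mul M)
  rw [mul_zero, sub_zero] at kk
  refine kk.congr fun n => ?_
  have c0 : ContinuousOn (fun z => f n z * g n z * k n z) Ω := ((cf n).mul (cg n)).mul (ck n)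
  have i1 : Integrable (fun z => (ψ z + M * χ z) * (f n z * g n z * k n z)) :=
    Pool.Agent.W311.RW.int_mul hΩ t1 c0
  have i2 : Integrable (fun z => χ z * (f n z * g n z * k n z)) :=
    Pool.Agent.W311.RW.int_mul hΩ hχ c0
  simp only [J3]
  rw [← integral_const_mul, ← integral_sub i1 (i2.const_mul _)]
  congr 1; funext z; ring

/-- **vanishing** -/
theorem FD3.van (D : FD3 Ω t s u f g k) (hc : Comp t s u)
    (hf : ∀ φ, TF Ω φ → (∀ z, 0 ≤ φ z) → Tendsto (fun n => eX φ (f n)) atTop (𝓝 0))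
    (hg : ∀ φ, TF Ω φ → (∀ z, 0 ≤ φ z) → ∃ B : ℝ, ∀ᶠ n in atTop, |eX φ (g n)| ≤ B)
    {ψ : ℂ → ℝ} (hψ : TF Ω ψ) :
    Tendsto (fun n => J3 ψ (f n) (g n) (k n)) atTop (𝓝 0) := by
  refine sgn_all D.op (fun n => (D.qf.sm n).continuousOn) (fun n => (D.qg.sm n).continuousOn)
    (fun n => (D.ks n).continuousOn) (fun φ hφ h0 => ?_) hψ
  obtain ⟨N, δ, hδ, T, h1, -⟩ := D.mkT hc
  have hsh : Tendsto (fun n => n + N) atTop atTop := tendsto_add_atTop_nat N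
  obtain ⟨B, hB⟩ := hg φ hφ h0
  have := T.van hφ h0 hδ h1 ((hf φ hφ h0).comp hsh) (hsh.eventually hB)
  exact (tendsto_add_atTop_iff_nat N).1 this

end

end Pool.Agent.K13.TP
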