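import Pool.Agent.K13.TP.Ring
import Pool.Agent.W745.RW.Stm

/-!
# Linear functionals on Laurent polynomials given by asymptotic four-point functions
-/

set_option autoImplicit false
open Filter Topology

namespace Pool.Agent.K13.TP

noncomputable section

open Polynomial
open Pool.Agent.W745.RW (Null)

/-- the functional with the values `D` on the monomials -/
def Ev {G : Type*} (ρ : ℕ → ℝ) (D : G → ℕ → ℂ) (x : AddMonoidAlgebra A G) (n : ℕ) : ℂ :=
  x.coeff.sum fun m p => ((p.eval (ρ n) : ℝ) : ℂ) * D m n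

section
variable {G H : Type*} {ρ : ℕ → ℝ} {D D' : G → ℕ → ℂ}

lemma Ev_zero (n : ℕ) : Ev ρ D 0 n = 0 := by simp [Ev]

lemma Ev_add (x y : AddMonoidAlgebra A G) (n : ℕ) :
    Ev ρ D (x + y) n = Ev ρ D x n + Ev ρ D y n := by
  unfold Ev
  rw [AddMonoidAlgebra.coeff_add, Finsupp.sum_add_index' (fun _ => by simp)
    (fun _ _ _ => by rw [eval_add]; push_cast; ring)]

lemma Ev_single (m : G) (p : A) (n : ℕ) :
    Ev ρ D (AddMonoidAlgebra.single m p) n = ((p.eval (ρ n) : ℝ) : ℂ) * D m n := by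
  unfold Ev
  rw [AddMonoidAlgebra.coeff_single, Finsupp.sum_single_index (by simp)]

lemma Ev_neg (x : AddMonoidAlgebra A G) (n : ℕ) : Ev ρ D (-x) n = - Ev ρ D x n := by
  have h := Ev_add (ρ := ρ) (D := D) x (-x) n
  rw [add_neg_cancel, Ev_zero] at h
  linear_combination -h

lemma Ev_sub (x y : AddMonoidAlgebra A G) (n : ℕ) :
    Ev ρ D (x - y) n = Ev ρ D x n - Ev ρ D y n := by
  rw [sub_eq_add_neg, Ev_add, Ev_neg]; ring

lemma Ev_D (x : AddMonoidAlgebra A G) (n : ℕ) :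
    Ev ρ (fun m n => D m n + D' m n) x n = Ev ρ D x n + Ev ρ D' x n := by
  induction x using AddMonoidAlgebra.induction_linear with
  | zero => simp only [Ev_zero, add_zero]
  | add x y h1 h2 => rw [Ev_add, Ev_add, Ev_add, h1, h2]; ring
  | single m p => rw [Ev_single, Ev_single, Ev_single]; ring

lemma Ev_map (f : G → H) (D : H → ℕ → ℂ) (x : AddMonoidAlgebra A G) (n : ℕ) :
    Ev ρ D (AddMonoidAlgebra.mapDomain f x) n = Ev ρ (fun m => D (f m)) x n := by
  induction x using AddMonoidAlgebra.induction_linear with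
  | zero => simp only [AddMonoidAlgebra.mapDomain_zero, Ev_zero]
  | add x y h1 h2 => rw [AddMonoidAlgebra.mapDomain_add, Ev_add, Ev_add, h1, h2]
  | single m p => rw [AddMonoidAlgebra.mapDomain_single, Ev_single, Ev_single]

end

/-- the group of the exponents -/
abbrev Z4 := ℤ × ℤ × ℤ × ℤ
/-- Laurent polynomials in one variable -/
abbrev R1 := AddMonoidAlgebra A ℤ
/-- Laurent polynomials in four variables -/
abbrev R4 := AddMonoidAlgebra A Z4

lemma null_bd {a : ℕ → ℂ} {c : ℕ → ℝ} {C : ℝ} (ha : Null a) (hc : ∀ n, |c n| ≤ C) :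
    Null (fun n => (c n : ℂ) * a n) := by
  have h1 : Tendsto (fun n => C * ‖a n‖) atTop (𝓝 0) := by
    have := (tendsto_zero_iff_norm_tendsto_zero.1 ha).const_mul C
    rwa [mul_zero] at this
  refine squeeze_zero_norm (fun n => ?_) h1
  rw [norm_mul, Complex.norm_real, Real.norm_eq_abs]
  exact mul_le_mul_of_nonneg_right (hc n) (norm_nonneg _)

/-- polynomials are bounded on bounded sequences -/
lemma poly_bd {ρ : ℕ → ℝ} {C : ℝ} (hρ : ∀ n, |ρ n| ≤ C) (p : A) :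
    ∃ C', ∀ n, |p.eval (ρ n)| ≤ C' := by
  obtain ⟨C', hC'⟩ := (isCompact_Icc (a := -C) (b := C)).exists_bound_of_continuousOn
    (p.continuous.continuousOn)
  exact ⟨C', fun n => hC' _ (abs_le.1 (hρ n))⟩

/-- the ideal of the elements all of whose multiples have null values -/
def NI (ρ : ℕ → ℝ) (D : Z4 → ℕ → ℂ) : Ideal R4 where
  carrier := {x | ∀ y, Null (Ev ρ D (y * x))}
  add_mem' := fun {a b} ha hb y => by
    have := Tendsto.add (ha y) (hb y)
    rw [add_zero] at this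
    refine this.congr fun n => ?_
    rw [mul_add, Ev_add]
  zero_mem' := fun y => by
    refine Tendsto.congr (fun n => ?_) tendsto_const_nhds
    rw [mul_zero, Ev_zero]
  smul_mem' := fun c x hx y => by
    have := hx (y * c)
    rw [mul_assoc] at this
    exact this

variable {ρ : ℕ → ℝ} {D : Z4 → ℕ → ℂ}

lemma mem_NI {x : R4} : x ∈ NI ρ D ↔ ∀ y, Null (Ev ρ D (y * x)) := Iff.rfl

/-- monomials -/
def mo (a b c d : ℤ) : R4 := AddMonoidAlgebra.single (a, b, c, d) 1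

lemma mo_mul (a b c d a' b' c' d' : ℤ) :
    mo a b c d * mo a' b' c' d' = mo (a + a') (b + b') (c + c') (d + d') := by
  unfold mo
  rw [AddMonoidAlgebra.single_mul_single, one_mul]
  rfl

lemma mo_zero : mo 0 0 0 0 = 1 := rfl

lemma NI_of {C : ℝ} (hρ : ∀ n, |ρ n| ≤ C) {x : R4} (h : ∀ a b c d, Null (Ev ρ D (mo a b c d * x))) :
    x ∈ NI ρ D := by
  intro y
  induction y using AddMonoidAlgebra.induction_linear with
  | zero =>
    refine Tendsto.congr (fun n => ?_) tendsto_const_nhds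
    rw [zero_mul, Ev_zero]
  | add y z h1 h2 =>
    have := Tendsto.add h1 h2
    rw [add_zero] at this
    refine this.congr fun n => ?_
    rw [add_mul, Ev_add]
  | single m p =>
    obtain ⟨a, b, c, d⟩ := m
    obtain ⟨C', hC'⟩ := poly_bd hρ p
    refine (null_bd (h a b c d) hC').congr fun n => ?_
    have e : ∀ x : R4, Ev ρ D (AddMonoidAlgebra.single (a, b, c, d) p * x) n =
        ((p.eval (ρ n) : ℝ) : ℂ) * Ev ρ D (mo a b c d * x) n := by
      intro x
      induction x using AddMonoidAlgebra.induction_linear with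
      | zero => rw [mul_zero, mul_zero, Ev_zero, mul_zero]
      | add y z h1 h2 => rw [mul_add, mul_add, Ev_add, Ev_add, h1, h2]; ring
      | single k q =>
        unfold mo
        rw [AddMonoidAlgebra.single_mul_single, AddMonoidAlgebra.single_mul_single, Ev_single,
          Ev_single, one_mul, eval_mul]
        push_cast; ring
    rw [e]

lemma NI_eq {x y : R4} (h : Ideal.Quotient.mk (NI ρ D) x = Ideal.Quotient.mk (NI ρ D) y) :
    Null (fun n => Ev ρ D x n - Ev ρ D y n) := by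
  have h1 := (Ideal.Quotient.eq.1 h) 1
  rw [one_mul] at h1
  exact h1.congr fun n => Ev_sub x y n

/-- the relations of asymptotic four point functions -/
structure Rel (ρ : ℕ → ℝ) (D : Z4 → ℕ → ℂ) : Prop where
  bd : ∃ C, ∀ n, |ρ n| ≤ C
  T : ∀ a b c d, Null (fun n => D (a + 1, b, c, d) n + D (a, b + 1, c, d) n +
    (ρ n : ℂ) * (D (a, b, c + 1, d) n + D (a, b, c, d + 1) n))
  T' : ∀ a b c d, Null (fun n => D (a - 1, b, c, d) n + D (a, b - 1, c, d) n +
    (ρ n : ℂ) * (D (a, b, c - 1, d) n + D (a, b, c, d - 1) n))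
  N : ∀ a b c d, Null (fun n => D (a + 1, b + 1, c - 1, d - 1) n +
    D (a - 1, b - 1, c + 1, d + 1) n - 2 * D (a, b, c, d) n)
  s34 : ∀ a b c d n, D (a, b, c, d) n = D (a, b, d, c) n

lemma rr4 : rr R4 = AddMonoidAlgebra.single (0, 0, 0, 0) X := rfl

lemma Ev_mo (a b c d : ℤ) (n : ℕ) : Ev ρ D (mo a b c d) n = D (a, b, c, d) n := by
  unfold mo; rw [Ev_single]; simp

lemma Ev_rmo (a b c d : ℤ) (n : ℕ) : Ev ρ D (rr R4 * mo a b c d) n = (ρ n : ℂ) * D (a, b, c, d) n := by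
  rw [rr4]
  unfold mo
  rw [AddMonoidAlgebra.single_mul_single, Ev_single]
  simp

/-- the quotient ring -/
abbrev QQ (ρ : ℕ → ℝ) (D : Z4 → ℕ → ℂ) := R4 ⧸ NI ρ D

/-- the projection -/
def pr (ρ : ℕ → ℝ) (D : Z4 → ℕ → ℂ) : R4 →ₐ[A] QQ ρ D := Ideal.Quotient.mkₐ A (NI ρ D)

lemma pr_zero {x : R4} (hx : x ∈ NI ρ D) : pr ρ D x = 0 := Ideal.Quotient.eq_zero_iff_mem.2 hx

lemma pr_rr : pr ρ D (rr R4) = rr (QQ ρ D) := (pr ρ D).commutes X

theorem Rel.kin (R : Rel ρ D) : Kin (QQ ρ D) (pr ρ D (mo 1 0 0 0)) (pr ρ D (mo (-1) 0 0 0))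
    (pr ρ D (mo 0 1 0 0)) (pr ρ D (mo 0 (-1) 0 0)) (pr ρ D (mo 0 0 1 0)) (pr ρ D (mo 0 0 (-1) 0))
    (pr ρ D (mo 0 0 0 1)) (pr ρ D (mo 0 0 0 (-1))) := by
  obtain ⟨C, hC⟩ := R.bd
  have u : ∀ x y : R4, x * y = 1 → pr ρ D x * pr ρ D y = 1 := fun x y h => by
    rw [← map_mul, h, map_one]
  refine ⟨u _ _ ?_, u _ _ ?_, u _ _ ?_, u _ _ ?_, ?_, ?_, ?_⟩
  · rw [mo_mul]; exact mo_zero
  · rw [mo_mul]; exact mo_zero
  · rw [mo_mul]; exact mo_zero
  · rw [mo_mul]; exact mo_zero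
  · rw [← pr_rr, ← map_add, ← map_add, ← map_mul, ← map_add]
    refine pr_zero (NI_of hC fun a b c d => (R.T a b c d).congr fun n => ?_)
    rw [show mo a b c d * (mo 1 0 0 0 + mo 0 1 0 0 + rr R4 * (mo 0 0 1 0 + mo 0 0 0 1)) =
      mo a b c d * mo 1 0 0 0 + mo a b c d * mo 0 1 0 0 + (rr R4 * (mo a b c d * mo 0 0 1 0) +
        rr R4 * (mo a b c d * mo 0 0 0 1)) by ring]
    simp only [mo_mul, Ev_add, Ev_mo, Ev_rmo, add_zero]
    ring
  · rw [← pr_rr, ← map_add, ← map_add, ← map_mul, ← map_add]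
    refine pr_zero (NI_of hC fun a b c d => (R.T' a b c d).congr fun n => ?_)
    rw [show mo a b c d * (mo (-1) 0 0 0 + mo 0 (-1) 0 0 + rr R4 * (mo 0 0 (-1) 0 +
      mo 0 0 0 (-1))) = mo a b c d * mo (-1) 0 0 0 + mo a b c d * mo 0 (-1) 0 0 +
        (rr R4 * (mo a b c d * mo 0 0 (-1) 0) + rr R4 * (mo a b c d * mo 0 0 0 (-1))) by ring]
    simp only [mo_mul, Ev_add, Ev_mo, Ev_rmo, add_zero, ← sub_eq_add_neg]
    ring
  · have e : mo 1 0 0 0 * mo 0 1 0 0 * (mo 0 0 (-1) 0 * mo 0 0 0 (-1)) +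
        mo (-1) 0 0 0 * mo 0 (-1) 0 0 * (mo 0 0 1 0 * mo 0 0 0 1) - 2 =
        mo 1 1 (-1) (-1) + mo (-1) (-1) 1 1 - 2 := by
      simp only [mo_mul, add_zero, zero_add]
    have h2 : pr ρ D 2 = 2 := by rw [← one_add_one_eq_two, map_add, map_one]; norm_num
    rw [← sub_eq_zero, ← h2]
    simp only [← map_mul, ← map_add, ← map_sub]
    rw [e]
    refine pr_zero (NI_of hC fun a b c d => (R.N a b c d).congr fun n => ?_)
    rw [show mo a b c d * (mo 1 1 (-1) (-1) + mo (-1) (-1) 1 1 - 2) =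
      mo a b c d * mo 1 1 (-1) (-1) + mo a b c d * mo (-1) (-1) 1 1 - (mo a b c d + mo a b c d) by
        ring]
    simp only [mo_mul, Ev_add, Ev_sub, Ev_mo, ← sub_eq_add_neg]
    ring

/-- the quotient ring, in abstract form -/
theorem Rel.exQ (R : Rel ρ D) : ∃ (Q : Type) (_ : CommRing Q) (_ : Algebra A Q) (φ : R4 →ₐ[A] Q),
    Kin Q (φ (mo 1 0 0 0)) (φ (mo (-1) 0 0 0)) (φ (mo 0 1 0 0)) (φ (mo 0 (-1) 0 0))
      (φ (mo 0 0 1 0)) (φ (mo 0 0 (-1) 0)) (φ (mo 0 0 0 1)) (φ (mo 0 0 0 (-1))) ∧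
    ∀ x y, φ x = φ y → Null (fun n => Ev ρ D x n - Ev ρ D y n) :=
  ⟨QQ ρ D, inferInstance, inferInstance, pr ρ D, R.kin, fun _ _ h => NI_eq h⟩

end

end Pool.Agent.K13.TP
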