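import Pool.Agent.K13.TP.Lap

/-!
# Laurent polynomials as symbols of quadratic expressions of two ladders
-/

set_option autoImplicit false
set_option linter.unusedSectionVars false
open MeasureTheory Filter Topology Complex Set
open scoped ContDiff Real Manifold

namespace Pool.Agent.K13.TP

open Pool.Agent.W745.RW Pool.Agent.TH294.RS Pool.Agent.Y265.HY
open Pool.Agent.TH294.RG (sL sL_eq lap_cg lap_lin sL1 sL_it)

noncomputable section

variable {B : Set ℂ} {h κ : ℕ → ℝ} {w v : ℤ → ℕ → ℂ → ℂ}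

/-- the quadratic expression with the symbol `a` -/
def LM (ρ : ℕ → ℝ) (w v : ℤ → ℕ → ℂ → ℂ) (a : R1) (n : ℕ) (z : ℂ) : ℂ :=
  Ev ρ (fun m n => w m n z * v (-m) n z) a n

variable {ρ : ℕ → ℝ}

lemma LM_zero (n : ℕ) (z : ℂ) : LM ρ w v 0 n z = 0 := Ev_zero n
lemma LM_add (a b : R1) (n : ℕ) (z : ℂ) : LM ρ w v (a + b) n z = LM ρ w v a n z + LM ρ w v b n z :=
  Ev_add a b n
lemma LM_single (m : ℤ) (p : A) (n : ℕ) (z : ℂ) : LM ρ w v (AddMonoidAlgebra.single m p) n z =
    ((p.eval (ρ n) : ℝ) : ℂ) * (w m n z * v (-m) n z) := Ev_single m p n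

lemma alg_single (p q : A) (m : ℤ) : algebraMap A R1 p * AddMonoidAlgebra.single m q =
    AddMonoidAlgebra.single m (p * q) := by
  have : algebraMap A R1 p = AddMonoidAlgebra.single 0 p := rfl
  rw [this, AddMonoidAlgebra.single_mul_single, zero_add]

lemma LM_alg (p : A) (a : R1) (n : ℕ) (z : ℂ) :
    LM ρ w v (algebraMap A R1 p * a) n z = ((p.eval (ρ n) : ℝ) : ℂ) * LM ρ w v a n z := by
  induction a using AddMonoidAlgebra.induction_linear with
  | zero => rw [mul_zero, LM_zero, mul_zero]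
  | add x y h1 h2 => rw [mul_add, LM_add, LM_add, h1, h2]; ring
  | single m q =>
    rw [alg_single, LM_single, LM_single, Polynomial.eval_mul]; push_cast; ring

lemma LM_one (n : ℕ) (z : ℂ) : LM ρ w v 1 n z = w 0 n z * v 0 n z := by
  have : (1 : R1) = AddMonoidAlgebra.single 0 1 := rfl
  rw [this, LM_single]; simp

lemma xs_single (m : ℤ) (p : A) : xs * AddMonoidAlgebra.single m p =
    AddMonoidAlgebra.single m ((1 + Polynomial.X ^ 2) * p) +
    (AddMonoidAlgebra.single (m + 1) (Polynomial.X * p) +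
      AddMonoidAlgebra.single (m - 1) (Polynomial.X * p)) := by
  have e1 : rr R1 = AddMonoidAlgebra.single 0 Polynomial.X := rfl
  have e0 : (1 : R1) = AddMonoidAlgebra.single 0 1 := rfl
  unfold xs xx tt tt'
  rw [mul_one, mul_one, e1, e0, sq, AddMonoidAlgebra.single_mul_single, add_mul, add_mul, mul_add,
    add_mul]
  simp only [AddMonoidAlgebra.single_mul_single, zero_add, mul_one, one_mul]
  rw [← AddMonoidAlgebra.single_add, show 1 + m = m + 1 by ring, show -1 + m = m - 1 by ring]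
  congr 2
  ring

section
variable (H : SY B Complex.im h w) (H' : SY B Complex.im κ v)

include H H' in
lemma LM_sm (ρ : ℕ → ℝ) (a : R1) (n : ℕ) : ContDiffOn ℝ ∞ (LM ρ w v a n) B := by
  induction a using AddMonoidAlgebra.induction_linear with
  | zero =>
    refine (contDiffOn_const (c := (0 : ℂ))).congr fun z _ => LM_zero n z
  | add x y h1 h2 => exact (h1.add h2).congr fun z _ => LM_add x y n z
  | single m p =>
    exact (contDiffOn_const.mul (((H.bd m).sm n).mul ((H'.bd (-m)).sm n))).congr fun z _ =>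
      LM_single m p n z

/-- `E` is the combination with the symbol `a`, up to `O(h)` -/
def Good2 (B : Set ℂ) (h κ : ℕ → ℝ) (w v : ℤ → ℕ → ℂ → ℂ) (E : ℕ → ℂ → ℂ) (a : R1) : Prop :=
  ∃ Q, Q2 B h κ w v Q ∧ ∀ n, ∀ z ∈ B, E n z = LM (ra h κ) w v a n z + (h n : ℂ) * Q n z

lemma Good2.cg {E E' : ℕ → ℂ → ℂ} {a a' : R1} (G : Good2 B h κ w v E a)
    (e : ∀ n, ∀ z ∈ B, E' n z = E n z) (e' : a' = a) : Good2 B h κ w v E' a' := by
  obtain ⟨Q, hQ, hQ'⟩ := G
  exact ⟨Q, hQ, fun n z hz => by rw [e n z hz, hQ' n z hz, e']⟩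

lemma Good2.add {E E' : ℕ → ℂ → ℂ} {a a' : R1} (G : Good2 B h κ w v E a)
    (G' : Good2 B h κ w v E' a') : Good2 B h κ w v (fun n z => E n z + E' n z) (a + a') := by
  obtain ⟨Q, hQ, hQ'⟩ := G
  obtain ⟨R, hR, hR'⟩ := G'
  refine ⟨_, hQ.add hR, fun n z hz => ?_⟩
  beta_reduce
  rw [hQ' n z hz, hR' n z hz, LM_add]; ring

include H H' in
lemma Good2.pm {C : ℝ} (hC : Cmp h κ C) {E : ℕ → ℂ → ℂ} {a : R1} (G : Good2 B h κ w v E a)
    (p : A) : Good2 B h κ w v (fun n z => ((p.eval (ra h κ n) : ℝ) : ℂ) * E n z)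
      (algebraMap A R1 p * a) := by
  obtain ⟨Q, hQ, hQ'⟩ := G
  obtain ⟨C', hC'⟩ := poly_bd (ra_bd H H' hC) p
  refine ⟨_, Q2.bs hC' hQ, fun n z hz => ?_⟩
  beta_reduce
  rw [hQ' n z hz, LM_alg]; ring

include H H' in
lemma Q2.zero (k0 : EX B κ v (v 0)) : Q2 B h κ w v (fun _ _ => 0) :=
  ((Q2.mv (H.bd 0) (RP.W H' k0 0)).cmul H H' 0).cg fun n z _ => by ring

include H H' in
lemma Good2.hq {Q : ℕ → ℂ → ℂ} (hQ : Q2 B h κ w v Q) :
    Good2 B h κ w v (fun n z => (h n : ℂ) * Q n z) 0 :=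
  ⟨Q, hQ, fun n z _ => by rw [LM_zero, zero_add]⟩

include H H' in
lemma good_LM (k0 : EX B κ v (v 0)) (a : R1) : Good2 B h κ w v (LM (ra h κ) w v a) a :=
  ⟨_, Q2.zero H H' k0, fun n z _ => by rw [mul_zero, add_zero]⟩

include H H' in
lemma good_sLM {C : ℝ} (hC : Cmp h κ C) (h0 : EX B h w (w 0)) (k0 : EX B κ v (v 0)) (a : R1) :
    Good2 B h κ w v (sL Complex.im h (LM (ra h κ) w v a)) (xs * a) := by
  induction a using AddMonoidAlgebra.induction_linear with
  | zero =>
    refine (Good2.hq H H' (Q2.zero H H' k0)).cg (fun n z hz => ?_) (mul_zero _)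
    have e2 : lap (LM (ra h κ) w v 0 n) z = 0 := by
      have e : LM (ra h κ) w v 0 n = fun _ : ℂ => (0 : ℂ) := by funext z; exact LM_zero n z
      have e0 : lap (fun _ : ℂ => (0 : ℂ)) z =
        fderiv ℝ (fun w => fderiv ℝ (fun _ : ℂ => (0 : ℂ)) w 1) z 1 +
        fderiv ℝ (fun w => fderiv ℝ (fun _ : ℂ => (0 : ℂ)) w I) z I := rfl
      rw [e, e0]; simp
    simp only [sL, e2]; ring
  | add c d ih1 ih2 =>
    refine (ih1.add ih2).cg (fun n z hz => ?_) (mul_add _ _ _)
    have e : LM (ra h κ) w v (c + d) n =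
          fun z => 1 * LM (ra h κ) w v c n z + 1 * LM (ra h κ) w v d n z := by
      funext z
      rw [LM_add]; ring
    simp only [sL]
    rw [e, lap_lin H.op (LM_sm H H' _ c n) (LM_sm H H' _ d n) 1 1 hz]
    ring
  | single m p =>
    obtain ⟨Q, hQ, hQ'⟩ := sL_prod2 H H' hC h0 k0 m (-m)
    obtain ⟨C', hC'⟩ := poly_bd (ra_bd H H' hC) p
    refine ⟨_, Q2.bs hC' hQ, fun n z hz => ?_⟩
    have sm : ContDiffOn ℝ ∞ (fun z => w m n z * v (-m) n z) B :=
      ((H.bd m).sm n).mul ((H'.bd (-m)).sm n)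
    have e1 : sL Complex.im h (LM (ra h κ) w v (AddMonoidAlgebra.single m p)) n z =
        ((p.eval (ra h κ n) : ℝ) : ℂ) * sL Complex.im h (fun n z => w m n z * v (-m) n z) n z := by
      have e2 : LM (ra h κ) w v (AddMonoidAlgebra.single m p) n =
          fun z => ((p.eval (ra h κ n) : ℝ) : ℂ) * (w m n z * v (-m) n z) +
          0 * (w m n z * v (-m) n z) := by
        funext z; rw [LM_single]; ring
      simp only [sL]
      rw [e2, lap_lin H.op sm sm _ _ hz]
      ring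
    rw [e1, hQ' n z hz, xs_single, LM_add, LM_add, LM_single, LM_single, LM_single]
    rw [show -m - 1 = -(m + 1) by ring, show -m + 1 = -(m - 1) by ring]
    simp only [Polynomial.eval_mul, Polynomial.eval_add, Polynomial.eval_one,
      Polynomial.eval_pow, Polynomial.eval_X]
    push_cast
    ring

include H H' in
lemma Good2.sL {C : ℝ} (hC : Cmp h κ C) (h0 : EX B h w (w 0)) (k0 : EX B κ v (v 0))
    {E : ℕ → ℂ → ℂ} {a : R1} (G : Good2 B h κ w v E a) :
    Good2 B h κ w v (TH294.RG.sL Complex.im h E) (xs * a) := by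
  obtain ⟨Q, hQ, hQ'⟩ := G
  refine ((good_sLM H H' hC h0 k0 a).add (Good2.hq H H' (hQ.sL H H' hC))).cg
    (fun n z hz => ?_) (add_zero _).symm
  have e : ∀ z ∈ B, E n z = 1 * LM (ra h κ) w v a n z + (h n : ℂ) * Q n z := fun z hz => by
    rw [hQ' n z hz, one_mul]
  simp only [TH294.RG.sL]
  rw [TH294.RG.lap_cg H.op e hz, TH294.RG.lap_lin H.op (LM_sm H H' _ a n) ((hQ.lb H H').sm n) _ _ hz]
  ring

include H H' in
lemma Good2.it {C : ℝ} (hC : Cmp h κ C) (h0 : EX B h w (w 0)) (k0 : EX B κ v (v 0))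
    {E : ℕ → ℂ → ℂ} {a : R1} (G : Good2 B h κ w v E a) (i : ℕ) :
    Good2 B h κ w v ((TH294.RG.sL Complex.im h)^[i] E) (xs ^ i * a) := by
  induction i with
  | zero => exact G.cg (fun _ _ _ => rfl) (by rw [pow_zero, one_mul])
  | succ i ih =>
    rw [Function.iterate_succ_apply']
    exact (Good2.sL H H' hC h0 k0 ih).cg (fun _ _ _ => rfl) (by rw [pow_succ]; ring)

/-- the operator `F(L)`, the coefficients of `F` are polynomials in the ratio `ρ` -/
def OP (h ρ : ℕ → ℝ) (F : Polynomial A) (E : ℕ → ℂ → ℂ) (n : ℕ) (z : ℂ) : ℂ :=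
  F.sum fun i c => ((c.eval (ρ n) : ℝ) : ℂ) * (TH294.RG.sL Complex.im h)^[i] E n z

include H H' in
lemma Good2.sum (k0 : EX B κ v (v 0)) {ι : Type*} (t : Finset ι) {E : ι → ℕ → ℂ → ℂ} {a : ι → R1}
    (G : ∀ i, Good2 B h κ w v (E i) (a i)) :
    Good2 B h κ w v (fun n z => ∑ i ∈ t, E i n z) (∑ i ∈ t, a i) := by
  classical
  induction t using Finset.induction_on with
  | empty =>
    exact (Good2.hq H H' (Q2.zero H H' k0)).cg (fun n z _ => by simp) (by simp)
  | insert i t hi ih =>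
    refine ((G i).add ih).cg (fun n z _ => ?_) ?_
    · rw [Finset.sum_insert hi]
    · rw [Finset.sum_insert hi]

include H H' in
/-- **the symbol of `F(L) (f g)`** -/
theorem good_OP {C : ℝ} (hC : Cmp h κ C) (h0 : EX B h w (w 0)) (k0 : EX B κ v (v 0))
    (F : Polynomial A) :
    Good2 B h κ w v (OP h (ra h κ) F (fun n z => w 0 n z * v 0 n z)) (Polynomial.aeval xs F) := by
  have g0 : Good2 B h κ w v (fun n z => w 0 n z * v 0 n z) 1 :=
    (good_LM H H' k0 1).cg (fun n z _ => (LM_one n z).symm) rfl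
  refine (Good2.sum H H' k0 F.support fun i =>
    ((g0.it H H' hC h0 k0 i).pm H H' hC (F.coeff i))).cg (fun n z hz => ?_) ?_
  · simp only [OP, Polynomial.sum_def]
  · rw [Polynomial.aeval_eq_sum_range, ← Finset.sum_subset (s₁ := F.support)]
    · refine Finset.sum_congr rfl fun i _ => ?_
      rw [mul_one, Algebra.smul_def]
    · intro i hi
      exact Finset.mem_range_succ_iff.2 (Polynomial.le_natDegree_of_mem_supp i hi)
    · intro i _ hi
      rw [Polynomial.notMem_support_iff.1 hi, zero_smul]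

end

end

end Pool.Agent.K13.TP
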