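import Pool.Agent.K13.TP.Cls
import Pool.Agent.K13.TP.Sym

/-!
# Polynomials in the Laplacian applied to the product of two ladders
-/

set_option autoImplicit false
set_option linter.unusedSectionVars false
open MeasureTheory Filter Topology Complex Set
open scoped ContDiff Real Manifold

namespace Pool.Agent.K13.TP

open Pool.Agent.W745.RW Pool.Agent.TH294.RS Pool.Agent.Y265.HY
open Pool.Agent.Y265.HY.PS (DM_cg)
open Pool.Agent.TH294.RG (sL sL_eq lap_cg lap_lin sL1 sL_it)

noncomputable section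

variable {B : Set ℂ} {h κ : ℕ → ℝ} {w v : ℤ → ℕ → ℂ → ℂ}
variable (H : SY B Complex.im h w) (H' : SY B Complex.im κ v)

include H H' in
/-- the Laplacian of a product of elements of the two ladders -/
lemma sL_prod2 {C : ℝ} (hC : Cmp h κ C) (h0 : EX B h w (w 0)) (k0 : EX B κ v (v 0)) (i j : ℤ) :
    ∃ Q, Q2 B h κ w v Q ∧ ∀ n, ∀ z ∈ B, sL Complex.im h (fun n z => w i n z * v j n z) n z =
      (1 + (ra h κ n : ℂ) ^ 2) * (w i n z * v j n z) +
      (ra h κ n : ℂ) * (w (i + 1) n z * v (j - 1) n z + w (i - 1) n z * v (j + 1) n z) +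
      (h n : ℂ) * Q n z := by
  have hB := H.op
  have rp : ∀ k, RP B h w (w k) := fun k => RP.W H h0 k
  have rv : ∀ k, RP B κ v (v k) := fun k => RP.W H' k0 k
  obtain ⟨e1, he1, g1⟩ := H.up i
  obtain ⟨e2, he2, g2⟩ := H'.up j
  obtain ⟨f1, hf1, k1⟩ := H.dn (i + 1)
  obtain ⟨f2, hf2, k2⟩ := H'.dn j
  obtain ⟨f3, hf3, k3⟩ := H.dn i
  obtain ⟨f4, hf4, k4⟩ := H'.dn (j + 1)
  have ch : ∀ {f}, M2C B κ f → M2C B h f := fun hf => M2C.chg H H' hC hf
  have b1 : ∀ n, |ra h κ n| ≤ C := ra_bd H H' hC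
  have mw' : ∀ {e f : ℕ → ℂ → ℂ}, M2C B κ e → RP B h w f →
      Q2 B h κ w v (fun n z => f n z * e n z) :=
    fun he hf => (Q2.mw (ch he) hf).cg fun n z _ => by ring
  have q0 : Q2 B h κ w v (fun n z => w i n z * v j n z) := Q2.mv (H.bd i) (rv j)
  have q1 : Q2 B h κ w v (fun n z => e1 n z * v j n z + w i n z * e2 n z) :=
    (Q2.mv he1 (rv j)).add (mw' he2 (rp i))
  have q2 : Q2 B h κ w v (fun n z => (f1 n z * v j n z + w (i + 1) n z * f2 n z) +
      (ra h κ n : ℂ) * (f3 n z * v (j + 1) n z + w i n z * f4 n z)) :=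
    ((Q2.mv hf1 (rv j)).add (mw' hf2 (rp _))).add
      (Q2.bs b1 ((Q2.mv hf3 (rv _)).add (mw' hf4 (rp _))))
  have q3 : Q2 B h κ w v (fun n z => ab Complex.im z *
      TH294.RS.sP Complex.im h (fun n z => w i n z * v j n z) n z) :=
    (q0.sP H H' hC).smulc H H' (ab_sm hB H.sa)
  have q4 := q1.sM H H' hC
  refine ⟨_, (q3.sub H H' q2).sub H H' q4, fun n z hz => ?_⟩
  have sw : ∀ k, ContDiffOn ℝ ∞ (w k n) B := fun k => (H.bd k).sm n
  have sv : ∀ k, ContDiffOn ℝ ∞ (v k n) B := fun k => (H'.bd k).sm n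
  have hk : (κ n : ℂ) ≠ 0 := by exact_mod_cast (H'.hpos n).ne'
  obtain ⟨r, hr⟩ : ∃ r : ℂ, r = (ra h κ n : ℂ) := ⟨_, rfl⟩
  have hrk : r * (κ n : ℂ) = (h n : ℂ) := by
    rw [hr]; simp only [ra]; push_cast; field_simp
  rw [sL_eq hB H.sa (q0.lb H H').sm n hz]
  -- `DP` of the product
  have eP : ∀ z ∈ B, TH294.RS.sP Complex.im h (fun n z => w i n z * v j n z) n z =
      (w (i + 1) n z * v j n z + r * (w i n z * v (j + 1) n z)) +
      (h n : ℂ) * (e1 n z * v j n z + w i n z * e2 n z) := by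
    intro z hz
    have c1 := g1 n z hz
    have c2 := g2 n z hz
    simp only [TH294.RS.sP, DP] at c1 c2 ⊢
    rw [dd_mul (fda hB (sw i) hz) (fda hB (sv j) hz)]
    linear_combination (v j n z) * c1 + (r * w i n z) * c2 +
      (w i n z * e2 n z - w i n z * ((z.im : ℂ) * dd (v j n) z)) * hrk
  have eM : TH294.RS.sM Complex.im h (TH294.RS.sP Complex.im h (fun n z => w i n z * v j n z)) n z =
      DM Complex.im (h n) (fun z => (w (i + 1) n z * v j n z + r * (w i n z * v (j + 1) n z)) +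
      (h n : ℂ) * (e1 n z * v j n z + w i n z * e2 n z)) z := DM_cg hB (h n) eP hz
  have s1 := fda hB ((sw (i + 1)).mul (sv j)) hz
  have s2 := fda hB ((sw i).mul (sv (j + 1))) hz
  have s3 := fda hB ((q1.lb H H').sm n) hz
  have eM2 : DM Complex.im (h n) (fun z => (w (i + 1) n z * v j n z +
      r * (w i n z * v (j + 1) n z)) +
      (h n : ℂ) * (e1 n z * v j n z + w i n z * e2 n z)) z =
      DM Complex.im (h n) (fun z => w (i + 1) n z * v j n z) z +
      r * DM Complex.im (h n) (fun z => w i n z * v (j + 1) n z) z +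
      (h n : ℂ) * TH294.RS.sM Complex.im h (fun n z => e1 n z * v j n z + w i n z * e2 n z) n z := by
    simp only [DM, TH294.RS.sM]
    rw [Pool.Agent.Y265.HY.db_add
      (f := fun z => w (i + 1) n z * v j n z + r * (w i n z * v (j + 1) n z))
      (g := fun z => (h n : ℂ) * (e1 n z * v j n z + w i n z * e2 n z)) (s1.add (s2.const_mul _))
      (s3.const_mul _), Pool.Agent.Y265.HY.db_add s1 (s2.const_mul _), db_cm s3, db_cm s2]
    ring
  have m1 : DM Complex.im (h n) (fun z => w (i + 1) n z * v j n z) z =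
      -(w i n z * v j n z) - r * (w (i + 1) n z * v (j - 1) n z) +
      (h n : ℂ) * (f1 n z * v j n z + w (i + 1) n z * f2 n z) := by
    have c1 := k1 n z hz
    have c2 := k2 n z hz
    rw [add_sub_cancel_right] at c1
    simp only [DM] at c1 c2 ⊢
    rw [db_mul (fda hB (sw (i + 1)) hz) (fda hB (sv j) hz)]
    linear_combination (v j n z) * c1 + (r * w (i + 1) n z) * c2 +
      (w (i + 1) n z * f2 n z - w (i + 1) n z * ((z.im : ℂ) * db (v j n) z)) * hrk
  have m2 : DM Complex.im (h n) (fun z => w i n z * v (j + 1) n z) z =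
      -(w (i - 1) n z * v (j + 1) n z) - r * (w i n z * v j n z) +
      (h n : ℂ) * (f3 n z * v (j + 1) n z + w i n z * f4 n z) := by
    have c1 := k3 n z hz
    have c2 := k4 n z hz
    rw [add_sub_cancel_right] at c2
    simp only [DM] at c1 c2 ⊢
    rw [db_mul (fda hB (sw i) hz) (fda hB (sv (j + 1)) hz)]
    linear_combination (v (j + 1) n z) * c1 + (r * w i n z) * c2 +
      (w i n z * f4 n z - w i n z * ((z.im : ℂ) * db (v (j + 1) n) z)) * hrk
  rw [eM, eM2, m1, m2, ← hr]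
  ring

end

end Pool.Agent.K13.TP
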