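import Pool.Agent.K13.TP.Poly2
import Pool.Agent.K13.TP.All

/-!
# The joint moment of three eigenfunctions: degenerate and right triangles
-/

set_option autoImplicit false
set_option linter.unusedSectionVars false
open MeasureTheory Filter Topology Complex Set
open scoped ContDiff Real Manifold

namespace Pool.Agent.K13.TP

open Pool.Agent.W745.RW Pool.Agent.TH294.RS Pool.Agent.Y265.HY
open Pool.Agent.R314.JN (QS)
open Pool.Agent.Y265.HY.JC (hh eX mS)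

noncomputable section

variable {Ω : Set ℂ} {lam mu nu : ℕ → ℝ} {u v g : ℕ → ℂ → ℝ}

lemma exw_eq (φ : ℂ → ℝ) (n : ℕ) : exw φ (lw lam u) n = eX φ (u n) := by
  have g3 : Pool.Agent.W745.RW.GG 0 0 0 0 = 3 := by
    simp [Pool.Agent.W745.RW.GG, CC]; norm_num
  have a2 : ∫ z, ((φ z : ℝ) : ℂ) * F4 (lw lam u) 0 0 0 0 n z =
      ((∫ z, φ z * u n z ^ 4 : ℝ) : ℂ) := by
    rw [← integral_complex_ofReal]
    congr 1; funext z
    simp only [F4, lw0]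
    push_cast; ring
  unfold exw eX
  simp only [D4]
  rw [a2, g3, show (3 : ℂ) = ((3 : ℝ) : ℂ) by norm_num, ← Complex.ofReal_mul,
    ← Complex.ofReal_sub, Complex.ofReal_re]

/-- quantum ergodic sequences are locally bounded in mean square -/
lemma qs_bd' (hΩ : IsOpen Ω) (hU : ∀ z ∈ Ω, 0 < z.im) (qk : QS Ω lam u) {K : Set ℂ}
    (hK : IsCompact K) (hKΩ : K ⊆ Ω) : ∃ C : ℝ, ∀ᶠ n in atTop, ∫ z in K, u n z ^ 2 ≤ C := by
  obtain ⟨C, hC⟩ := ((qs_sy hΩ hU qk).bd 0).lb.bd K hK hKΩ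
  refine ⟨C, hC.mono fun n hn => ?_⟩
  have e : ∀ z, ‖(lw lam u 0 n z)‖ ^ 2 = u n z ^ 2 := fun z => by
    rw [lw0, Complex.norm_real, Real.norm_eq_abs, sq_abs]
  simp only [e] at hn
  exact hn

/-- the excess is asymptotically nonnegative -/
lemma qs_low (hΩ : IsOpen Ω) (hU : ∀ z ∈ Ω, 0 < z.im) (D : QS Ω lam u) {φ : ℂ → ℝ}
    (hφ : TF Ω φ) (h0 : ∀ z, 0 ≤ φ z) {ε : ℝ} (hε : 0 < ε) : ∀ᶠ n in atTop, -ε ≤ eX φ (u n) := by
  have J : JC.JD Ω lam lam u u := ⟨hΩ, hU, D.pos, D.lim, D.pos, D.lim, D.sm, D.sm, D.eq, D.eq,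
    fun K hK hKΩ => qs_bd' hΩ hU D hK hKΩ, D.qe⟩
  exact J.low hφ h0 hε

/-- the centred mean squares -/
abbrev Aw (lam mu : ℕ → ℝ) (φ : ℂ → ℝ) (u : ℕ → ℂ → ℝ) (F : Polynomial A) (n : ℕ) : ℝ :=
  AM (rh lam mu) φ (lw lam u) F n
abbrev Av (lam mu : ℕ → ℝ) (φ : ℂ → ℝ) (v : ℕ → ℂ → ℝ) (F : Polynomial A) (n : ℕ) : ℝ :=
  AM (rh lam mu) φ (lw mu v) F n

theorem TD.au (D : TD Ω lam mu nu u v g) {φ : ℂ → ℝ} (hφ : TF Ω φ) (F : Polynomial A) :
    Tendsto (fun n => Aw lam mu φ u F n - (2 * gp F (rh lam mu n) * (∫ z, φ z) +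
      (2 * ev2 (rh lam mu n) 0 F ^ 2 + ev2 (rh lam mu n) 4 F ^ 2) / 3 * eX φ (u n))) atTop
      (𝓝 0) := by
  obtain ⟨C, hC⟩ := D.cc
  have k := AM_lim (qs_sy D.op D.hU D.qu) D.hU hφ (qs_ex D.op D.hU D.qu)
    (ra_bd (qs_sy D.op D.hU D.qu) (qs_sy D.op D.hU D.qv) hC) F
  simp only [exw_eq] at k
  exact k

theorem TD.av (D : TD Ω lam mu nu u v g) {φ : ℂ → ℝ} (hφ : TF Ω φ) (F : Polynomial A) :
    Tendsto (fun n => Av lam mu φ v F n - (2 * gp F (rh lam mu n) * (∫ z, φ z) +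
      (2 * ev2 (rh lam mu n) 0 F ^ 2 + ev2 (rh lam mu n) 4 F ^ 2) / 3 * eX φ (v n))) atTop
      (𝓝 0) := by
  obtain ⟨C, hC⟩ := D.cc
  have k := AM_lim (qs_sy D.op D.hU D.qv) D.hU hφ (qs_ex D.op D.hU D.qv)
    (ra_bd (qs_sy D.op D.hU D.qu) (qs_sy D.op D.hU D.qv) hC) F
  simp only [exw_eq] at k
  exact k

/-- the bound of the power spectrum, general form -/
theorem TD.f1g (D : TD Ω lam mu nu u v g) {φ : ℂ → ℝ} (hφ : TF Ω φ) (p0 : ∀ z, 0 ≤ φ z)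
    {F c b G : Polynomial A} (hd : Dec F c b G) :
    ∃ e : ℕ → ℝ, Tendsto e atTop (𝓝 0) ∧ ∀ n,
      (∫ z, φ z * XR lam mu F u v n z ^ 2) ≤ gx F (rh lam mu n) * (∫ z, φ z) +
        √(Aw lam mu φ u (BS b G) n * Av lam mu φ v (CS c) n) + e n := by
  obtain ⟨C, hC⟩ := D.cc
  have H := qs_sy D.op D.hU D.qu
  have H' := qs_sy D.op D.hU D.qv
  obtain ⟨e, he, h⟩ := sqb2 H H' D.hU hC hφ (qs_ex D.op D.hU D.qu) (qs_ex D.op D.hU D.qv) p0 hd
  refine ⟨e, he, fun n => ?_⟩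
  have h1 := h n
  have a1 : ∫ z, (φ z : ℂ) * (OP (hh lam) (rh lam mu) F
      (fun n z => lw lam u 0 n z * lw mu v 0 n z) n z * OP (hh lam) (rh lam mu) F
      (fun n z => lw lam u 0 n z * lw mu v 0 n z) n z) =
      ((∫ z, φ z * XR lam mu F u v n z ^ 2 : ℝ) : ℂ) := by
    rw [← integral_complex_ofReal]
    congr 1; funext z
    by_cases hz : z ∈ Ω
    · rw [XR_eq D F n hz]
      push_cast; ring
    · have : φ z = 0 := TF.zero hφ hz
      rw [this]; simp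
  rw [a1, Complex.ofReal_re] at h1
  exact h1

/-- from the bound of the power spectrum to the bound of the moment -/
theorem TD.fin (D : TD Ω lam mu nu u v g) {φ : ℂ → ℝ} (hφ : TF Ω φ) (h0 : ∀ z, 0 ≤ φ z)
    {ρ r : ℝ} (l1 : Tendsto (rh lam mu) atTop (𝓝 ρ)) (l2 : Tendsto (fun n => nu n / lam n) atTop (𝓝 r))
    {F : Polynomial A} (hF : ev2 ρ r F = 1) {R : ℕ → ℝ} {X1 C ε : ℝ} (hε : 0 < ε) (hX : 0 ≤ X1)
    (hC : ∀ᶠ n in atTop, mS φ (g n) ≤ C) (hX1 : (1 + ε) * X1 * C ≤ ε / 2)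
    (hR : ∀ᶠ n in atTop, (∫ z, φ z * XR lam mu F u v n z ^ 2) ≤ R n + X1) :
    ∀ᶠ n in atTop, J3 φ (u n) (v n) (g n) ^ 2 ≤ (1 + ε) * R n * mS φ (g n) + ε := by
  obtain ⟨η, hη⟩ : ∃ x, x = min (ε / 3) 1 := ⟨_, rfl⟩
  have ηp : 0 < η := by rw [hη]; positivity
  have η1 : η ≤ 1 := by rw [hη]; exact min_le_right _ _
  have η3 : η ≤ ε / 3 := by rw [hη]; exact min_le_left _ _
  have η2 : (1 + η) ^ 2 ≤ 1 + ε := by nlinarith
  have F1 : Tendsto (fun n => ev2 (rh lam mu n) (nu n / lam n) F) atTop (𝓝 1) := by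
    have := ((ev2_cont F).tendsto (ρ, r)).comp (l1.prodMk_nhds l2)
    rw [hF] at this
    exact this
  have P1 : Tendsto (fun n => ev2 (rh lam mu n) (nu n / lam n) F *
      J3 φ (u n) (v n) (g n) - ∫ z, φ z * (XR lam mu F u v n z * g n z)) atTop (𝓝 0) := by
    have k1 := (D.f2 hφ F).mul ((l2.const_add 1).pow F.natDegree)
    rw [zero_mul] at k1
    refine k1.congr fun n => ?_
    have hp : (1 + nu n / lam n) ^ F.natDegree ≠ 0 := by
      have := div_nonneg (D.np n) (D.qu.pos n).le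
      positivity
    rw [div_mul_cancel₀ _ hp]
    rfl
  have E3 : ∀ᶠ n in atTop, 1 ≤ (1 + η) * ev2 (rh lam mu n) (nu n / lam n) F ^ 2 := by
    have k := (F1.pow 2).const_mul (1 + η)
    have k2 := k.eventually (lt_mem_nhds (show 1 < (1 + η) * 1 ^ 2 by linarith))
    exact k2.mono fun n hn => hn.le
  have E4 : ∀ᶠ n in atTop, (1 + η) * (1 + 1 / η) * (ev2 (rh lam mu n) (nu n / lam n) F *
      J3 φ (u n) (v n) (g n) - ∫ z, φ z * (XR lam mu F u v n z * g n z)) ^ 2 ≤ ε / 2 := by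
    have k := (P1.pow 2).const_mul ((1 + η) * (1 + 1 / η))
    rw [zero_pow two_ne_zero, mul_zero] at k
    exact (k.eventually (gt_mem_nhds (show (0 : ℝ) < ε / 2 by positivity))).mono fun n hn => hn.le
  filter_upwards [hR, hC, E3, E4] with n n1 n2 n3 n4
  have m0 : 0 ≤ mS φ (g n) := integral_nonneg fun z => mul_nonneg (h0 z) (sq_nonneg _)
  have cs := JC.cs D.op hφ h0 (XR_co D F n) (D.gs n).continuousOn
  have := JC.alg (J := J3 φ (u n) (v n) (g n))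
    (Z := ∫ z, φ z * (XR lam mu F u v n z * g n z)) (F := ev2 (rh lam mu n) (nu n / lam n) F)
    (B := ∫ z, φ z * XR lam mu F u v n z ^ 2) (m := mS φ (g n)) (e := R n) (c := 1) (C := C)
    hε ηp η2 n3 rfl n4 cs m0 n2 hX (by linarith) hX1
  rw [mul_one] at this
  exact this

end

end Pool.Agent.K13.TP
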