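import Pool.Agent.K13.TP.Lim2

/-!
# The joint moment of three eigenfunctions: degenerate triangles
-/

set_option autoImplicit false
set_option linter.unusedSectionVars false
open MeasureTheory Filter Topology Complex Set
open scoped ContDiff Real Manifold

namespace Pool.Agent.K13.TP

open Pool.Agent.W745.RW Pool.Agent.TH294.RS Pool.Agent.Y265.HY
open Pool.Agent.R314.JN (QS)
open Pool.Agent.Y265.HY.JC (hh eX mS)

noncomputable section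

variable {Ω : Set ℂ} {lam mu nu : ℕ → ℝ} {u v g : ℕ → ℂ → ℝ}

lemma Dec.ev {F c b G : Polynomial A} (hd : Dec F c b G) {ρ x P : ℝ}
    (h : x ^ 2 - 2 * (1 + ρ ^ 2) * x + (ρ ^ 2 - 1) ^ 2 = -(P * x)) :
    ev2 ρ x F ^ 2 = ev2 ρ P c * ev2 ρ P b * ev2 ρ x G := by
  let _ := algR ρ
  have hr : rr ℝ = ρ := by
    show Polynomial.eval ρ Polynomial.X = ρ
    simp
  have := hd ℝ x P (by rw [hr]; exact h)
  rw [← aeval_ev2, ← aeval_ev2, ← aeval_ev2, ← aeval_ev2]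
  exact this

lemma ev2_BS4 (t : ℝ) {b : Polynomial A} (G : Polynomial A) {P : ℝ} (h : ev2 t P b = 0) :
    ev2 t P (BS b G) = 0 := by
  rw [BS, ev2_mul, ev2_mul, h, mul_zero, zero_mul]

/-- the choice of the exponent -/
lemma exM {ρ : ℝ} (hρ : 1 ≤ ρ) {η : ℝ} (hη : 0 < η) :
    ∃ M, gp (CS (cD (4 * ρ ^ 2) M)) ρ < η := by
  have cc := Real.continuous_cos
  have hp : ρ ^ 2 ≠ 0 := by positivity
  have key := dctp (a := fun θ => 4 * ρ ^ 2 - ρ ^ 2 * (2 + 2 * Real.cos θ))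
    (q := fun θ => 1 - 1 / (4 * ρ ^ 2) * (ρ ^ 2 * (2 + 2 * Real.cos θ))) (by fun_prop)
    (by fun_prop) (fun θ => ?_) (S := {θ | Real.cos θ = -1})
    (Pool.Agent.Y265.HY.JC.cnt _) (fun θ hθ => ?_)
  · have t : Tendsto (fun M => gp (CS (cD (4 * ρ ^ 2) M)) ρ) atTop (𝓝 0) := by
      refine gp_small (key.congr fun M => ?_)
      congr 1; funext θ
      rw [ev_cD]
    exact (t.eventually (gt_mem_nhds hη)).exists
  · have e : 1 - 1 / (4 * ρ ^ 2) * (ρ ^ 2 * (2 + 2 * Real.cos θ)) =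
        (2 - 2 * Real.cos θ) / 4 := by field_simp; ring
    have a1 := Real.cos_le_one θ
    have a2 := Real.neg_one_le_cos θ
    rw [e, abs_le]
    constructor <;> linarith
  · have e : 1 - 1 / (4 * ρ ^ 2) * (ρ ^ 2 * (2 + 2 * Real.cos θ)) =
        (2 - 2 * Real.cos θ) / 4 := by field_simp; ring
    have a1 := Real.cos_le_one θ
    have a2 : -1 < Real.cos θ := lt_of_le_of_ne (Real.neg_one_le_cos θ) (Ne.symm hθ)
    rw [e, abs_lt]
    constructor <;> linarith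

/-- an upper bound of a centred mean square -/
lemma up_bd {a x b g : ℕ → ℝ} {β G I0 η ε e1 : ℝ} (he1 : 0 < e1)
    (hβ : 0 < β) (h : Tendsto (fun n => a n - (2 * g n * I0 + (2 * b n ^ 2 + 0 ^ 2) / 3 * x n)) atTop (𝓝 0))
    (hb : Tendsto b atTop (𝓝 β)) (hg : Tendsto g atTop (𝓝 G)) (hG : G < η) (hη : 0 < η)
    (hI : 0 ≤ I0) (hx : ∀ ε' > 0, ∀ᶠ n in atTop, -ε' ≤ x n) (hε : 0 < ε)
    (hηε : (2 * I0 + 1) * η ≤ 1 / 3 * β ^ 2 * ε) :
    ∀ᶠ n in atTop, a n ≤ 2 / 3 * (1 + e1) * β ^ 2 * (x n + ε) := by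
  have E1 := h.eventually (gt_mem_nhds hη)
  have E2 := (hb.pow 2).eventually (gt_mem_nhds (show β ^ 2 < (1 + e1) * β ^ 2 by nlinarith [sq_pos_of_pos hβ]))
  have E3 := hg.eventually (gt_mem_nhds hG)
  filter_upwards [E1, E2, E3, hx (ε / 2) (by positivity)] with n n1 n2 n3 n4
  have m1 : 0 ≤ x n + ε / 2 := by linarith
  have m2 : b n ^ 2 * (x n + ε / 2) ≤ (1 + e1) * β ^ 2 * (x n + ε / 2) :=
    mul_le_mul_of_nonneg_right n2.le m1
  have m3 : 0 ≤ b n ^ 2 * (ε / 2) := by positivity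
  have m4 : 2 * g n * I0 ≤ 2 * η * I0 := by nlinarith
  have m5 : 0 ≤ e1 * β ^ 2 * ε := by positivity
  nlinarith

lemma arR {S q A gv I0 I1 η X1 e : ℝ} (m1 : S ≤ gv * I1 + q + e) (n3 : gv < η) (n4 : e < X1 / 2)
    (hI : 0 ≤ I0) (ηp : 0 < η) (η1 : η * (I0 + 1) ≤ X1 / 4) (m3 : q ≤ A) (X1p : 0 < X1)
    (e1 : I0 = I1) : S ≤ A + X1 := by
  subst e1
  have h5 := mul_le_mul_of_nonneg_right n3.le hI
  have h6 : η * (I0 + 1) = η * I0 + η := by ring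
  rw [h6] at η1
  linarith

/-- **degenerate triangles**, convergent ratios -/
theorem TD.limD (D : TD Ω lam mu nu u v g) {φ : ℂ → ℝ} (hφ : TF Ω φ) (h0 : ∀ z, 0 ≤ φ z)
    {ρ r r' : ℝ} (hρ : 1 ≤ ρ) (hr : 0 < r) (hr' : 0 ≤ r') (hne : r' ≠ r)
    (hs : r + r' = 2 + 2 * ρ ^ 2) (hd : r * r' = (ρ ^ 2 - 1) ^ 2)
    (l1 : Tendsto (rh lam mu) atTop (𝓝 ρ)) (l2 : Tendsto (fun n => nu n / lam n) atTop (𝓝 r))
    {ε : ℝ} (hε : 0 < ε) : ∀ᶠ n in atTop, J3 φ (u n) (v n) (g n) ^ 2 ≤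
      (1 + ε) / 3 * √((eX φ (u n) + ε) * (eX φ (v n) + ε)) * mS φ (g n) + ε := by
  obtain ⟨C, hC0, hC⟩ := D.f5 hφ
  obtain ⟨I0, hI⟩ : ∃ I0, I0 = ∫ z, φ z := ⟨_, rfl⟩
  have I0n : 0 ≤ I0 := by rw [hI]; exact integral_nonneg h0
  obtain ⟨e1, he1⟩ : ∃ e1, e1 = min ε 1 / 16 := ⟨_, rfl⟩
  have e1p : 0 < e1 := by rw [he1]; positivity
  have e1a : e1 ≤ ε / 16 := by
    rw [he1]; exact div_le_div_of_nonneg_right (min_le_left _ _) (by norm_num)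
  have e1b : e1 ≤ 1 / 16 := by
    rw [he1]; exact div_le_div_of_nonneg_right (min_le_right _ _) (by norm_num)
  obtain ⟨X1, hX1⟩ : ∃ X1, X1 = e1 / (2 * (1 + e1) * (C + 1)) := ⟨_, rfl⟩
  have X1p : 0 < X1 := by rw [hX1]; positivity
  obtain ⟨β0, hβ0⟩ : ∃ β0, β0 = 1 / (8 * ρ ^ 2) := ⟨_, rfl⟩
  have β0p : 0 < β0 := by rw [hβ0]; positivity
  obtain ⟨η, hη⟩ : ∃ η, η = min (X1 / (4 * (I0 + 1))) (1 / 3 * β0 ^ 2 * ε / (2 * I0 + 1)) :=
    ⟨_, rfl⟩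
  have ηp : 0 < η := by rw [hη]; positivity
  have η1 : η * (I0 + 1) ≤ X1 / 4 := by
    have : η ≤ X1 / (4 * (I0 + 1)) := by rw [hη]; exact min_le_left _ _
    rw [le_div_iff₀ (by positivity)] at this
    linarith
  have η2 : (2 * I0 + 1) * η ≤ 1 / 3 * β0 ^ 2 * ε := by
    have : η ≤ 1 / 3 * β0 ^ 2 * ε / (2 * I0 + 1) := by rw [hη]; exact min_le_right _ _
    rw [le_div_iff₀ (by positivity)] at this
    linarith
  obtain ⟨M, hM⟩ := exM hρ ηp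
  obtain ⟨T, hT⟩ : ∃ T, T = 4 * ρ ^ 2 := ⟨_, rfl⟩
  rw [← hT] at hM
  -- the second choice
  have quad : r ^ 2 - 2 * (1 + ρ ^ 2) * r + (ρ ^ 2 - 1) ^ 2 = 0 := by
    linear_combination (-1 : ℝ) * hd + r * hs
  have hF0 : ev2 ρ r (FD T M 1) ≠ 0 := by
    rw [ev_FD, quad, mul_zero, add_zero]
    refine mul_ne_zero (mul_ne_zero ?_ ?_) (pow_ne_zero _ hr.ne')
    · intro h
      have h1 : r = ρ ^ 2 - 1 := by linarith
      rw [← h1] at hd
      have : r' = r := by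
        have h2 : r * (r' - r) = 0 := by linear_combination hd
        rcases mul_eq_zero.1 h2 with h3 | h3
        · exact absurd h3 hr.ne'
        · linarith
      exact hne this
    · have : 0 ≤ ρ ^ 2 - 1 := by nlinarith
      positivity
  obtain ⟨η', hη'⟩ : ∃ η', η' = min (min η 1) (e1 / (16 * ρ ^ 2 * (r' ^ (2 * M + 2) + 1))) :=
    ⟨_, rfl⟩
  have ηp' : 0 < η' := by rw [hη']; positivity
  have ηa : η' ≤ η := by rw [hη']; exact (min_le_left _ _).trans (min_le_left _ _)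
  have ηb : η' ≤ 1 := by rw [hη']; exact (min_le_left _ _).trans (min_le_right _ _)
  have ηc : η' * (16 * ρ ^ 2 * (r' ^ (2 * M + 2) + 1)) ≤ e1 := by
    have : η' ≤ e1 / (16 * ρ ^ 2 * (r' ^ (2 * M + 2) + 1)) := by rw [hη']; exact min_le_right _ _
    rwa [le_div_iff₀ (by positivity)] at this
  obtain ⟨Hp, H1, H2, H3, H4⟩ := pickG hρ hr (FD T M 1) (bD T M) (2 * M + 2) hF0 hr'
    (by nlinarith [sq_nonneg (ρ - 1)]) hne ηp'
  obtain ⟨Hc, hHc⟩ : ∃ Hc, Hc = Hp.map Polynomial.C := ⟨_, rfl⟩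
  rw [← hHc] at H1 H2 H3
  have eF : FD T M 1 * Hc = FD T M Hc := by unfold FD; ring
  rw [eF] at H1 H2
  have eG : Polynomial.X ^ (2 * M + 2) * Hc ^ 2 = GD M Hc := rfl
  rw [eG] at H3
  -- the values of the symbols
  have G1 : ev2 ρ r (GD M Hc) = 1 / (16 * ρ ^ 2) := by
    have h1 := (dec_D T M Hc).ev (ρ := ρ) (x := r) (P := 0) (by rw [quad]; ring)
    have h2 : ev2 ρ 0 (cD T M) = 4 * ρ ^ 2 := by simp [cD, ev2]
    rw [H1, h2, ev_bD] at h1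
    have hp : ρ ^ 2 ≠ 0 := by positivity
    rw [eq_div_iff (by positivity)]
    simp only [sub_zero, mul_zero, one_pow, mul_one] at h1
    linarith
  have G2 : ev2 ρ r' (GD M Hc) = r' ^ (2 * M + 2) * Hp.eval r' ^ 2 := by
    rw [GD, ev2_mul, ev2_pow, ev2_pow, ev2_X, hHc, ev2_map]
  have G2n : 0 ≤ ev2 ρ r' (GD M Hc) := by rw [G2]; positivity
  have G2b : 8 * ρ ^ 2 * ev2 ρ r' (GD M Hc) ≤ e1 / 2 := by
    rw [G2]
    have h1 : Hp.eval r' ^ 2 ≤ η' := by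
      rw [← sq_abs]
      nlinarith [abs_nonneg (Hp.eval r')]
    have h2 : r' ^ (2 * M + 2) * Hp.eval r' ^ 2 ≤ r' ^ (2 * M + 2) * η' :=
      mul_le_mul_of_nonneg_left h1 (by positivity)
    have h3 : 8 * ρ ^ 2 * (r' ^ (2 * M + 2) * η') ≤ e1 / 2 := by
      have h5 : 0 ≤ 16 * ρ ^ 2 * η' := by positivity
      have h6 : η' * (16 * ρ ^ 2 * (r' ^ (2 * M + 2) + 1)) =
        2 * (8 * ρ ^ 2 * (r' ^ (2 * M + 2) * η')) + 16 * ρ ^ 2 * η' := by ring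
      linarith
    have h4 : 0 ≤ 8 * ρ ^ 2 := by positivity
    exact (mul_le_mul_of_nonneg_left h2 h4).trans h3
  obtain ⟨β, hβ⟩ : ∃ β, β = ev2 ρ 0 (BS (bD T M) (GD M Hc)) := ⟨_, rfl⟩
  have hβe : β = 2 * (1 / (16 * ρ ^ 2) + ev2 ρ r' (GD M Hc)) := by
    rw [hβ, ev2_BS ρ r r' 0 (by linarith) hd, ev_bD, G1]
    simp only [sub_zero, mul_zero, one_pow, mul_one]
    ring
  have hββ : β0 ≤ β := by
    rw [hβe, hβ0]
    have : 1 / (8 * ρ ^ 2) = 2 * (1 / (16 * ρ ^ 2)) := by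
      have hp : ρ ^ 2 ≠ 0 := by positivity
      field_simp; norm_num
    linarith
  have βp : 0 < β := lt_of_lt_of_le β0p hββ
  obtain ⟨γ, hγ⟩ : ∃ γ, γ = ev2 ρ 0 (CS (cD T M)) := ⟨_, rfl⟩
  have hγe : γ = 4 * ρ ^ 2 := by
    rw [hγ, ev_cD]; simp
  have γp : 0 < γ := by rw [hγe]; positivity
  have hγβ : β0 ≤ γ := by
    rw [hγe, hβ0, div_le_iff₀ (by positivity)]
    have h5 : 1 ≤ ρ ^ 2 := one_le_pow₀ hρ
    have h6 : 1 ≤ ρ ^ 2 * ρ ^ 2 := one_le_mul_of_one_le_of_one_le h5 h5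
    have h7 : 4 * ρ ^ 2 * (8 * ρ ^ 2) = 32 * (ρ ^ 2 * ρ ^ 2) := by ring
    rw [h7]; linarith
  have hβγ : β * γ ≤ (1 + e1) / 2 := by
    rw [hβe, hγe]
    have hp : ρ ^ 2 ≠ 0 := by positivity
    have : 2 * (1 / (16 * ρ ^ 2) + ev2 ρ r' (GD M Hc)) * (4 * ρ ^ 2) =
        1 / 2 + 8 * ρ ^ 2 * ev2 ρ r' (GD M Hc) := by field_simp; ring
    rw [this]; linarith
  -- the bounds of the mean squares
  have cb : Tendsto (fun n => ev2 (rh lam mu n) 0 (BS (bD T M) (GD M Hc))) atTop (𝓝 β) := by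
    rw [hβ]
    exact ((ev2_cont (BS (bD T M) (GD M Hc))).tendsto (ρ, 0)).comp
      (l1.prodMk_nhds tendsto_const_nhds)
  have cg : Tendsto (fun n => ev2 (rh lam mu n) 0 (CS (cD T M))) atTop (𝓝 γ) := by
    rw [hγ]
    exact ((ev2_cont (CS (cD T M))).tendsto (ρ, 0)).comp (l1.prodMk_nhds tendsto_const_nhds)
  have A1 := D.au hφ (BS (bD T M) (GD M Hc))
  have A2 := D.av hφ (CS (cD T M))
  have z1 : ∀ t, ev2 t 4 (BS (bD T M) (GD M Hc)) = 0 := fun t =>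
    ev2_BS4 t _ (by rw [ev_bD]; ring)
  have z2 : ∀ t, ev2 t 4 (CS (cD T M)) = 0 := fun t => by rw [ev_cD]; ring
  simp only [z1, ← hI] at A1
  simp only [z2, ← hI] at A2
  have B1 := up_bd e1p βp A1 cb (((gp_cont _).tendsto ρ).comp l1) (H3.trans_le ηa) ηp I0n
    (fun ε' h => qs_low D.op D.hU D.qu hφ h0 h) hε (by
      refine η2.trans ?_
      have : β0 ^ 2 ≤ β ^ 2 := pow_le_pow_left₀ β0p.le hββ 2
      nlinarith)
  have B2 := up_bd e1p γp A2 cg (((gp_cont _).tendsto ρ).comp l1) hM ηp I0n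
    (fun ε' h => qs_low D.op D.hU D.qv hφ h0 h) hε (by
      refine η2.trans ?_
      have : β0 ^ 2 ≤ γ ^ 2 := pow_le_pow_left₀ β0p.le hγβ 2
      nlinarith)
  obtain ⟨e, he0, hbd⟩ := D.f1g hφ h0 (dec_D T M Hc)
  have E1 : Tendsto (fun n => gx (FD T M Hc) (rh lam mu n)) atTop (𝓝 (gx (FD T M Hc) ρ)) :=
    ((gx_cont _).tendsto ρ).comp l1
  have E2 := E1.eventually (gt_mem_nhds (H2.trans_le ηa))
  have E3 := he0.eventually (gt_mem_nhds (show 0 < X1 / 2 by positivity))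
  have hR : ∀ᶠ n in atTop, (∫ z, φ z * XR lam mu (FD T M Hc) u v n z ^ 2) ≤
      (1 / 3 * (1 + e1) ^ 2 * √((eX φ (u n) + ε) * (eX φ (v n) + ε))) + X1 := by
    filter_upwards [B1, B2, E2, E3, qs_low D.op D.hU D.qu hφ h0 hε,
      qs_low D.op D.hU D.qv hφ h0 hε] with n n1 n2 n3 n4 n5 n6
    have m1 := hbd n
    have p1 : 0 ≤ Aw lam mu φ u (BS (bD T M) (GD M Hc)) n := AM_nn h0 _ n
    have p2 : 0 ≤ Av lam mu φ v (CS (cD T M)) n := AM_nn h0 _ n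
    have x0 : 0 ≤ eX φ (u n) + ε := by linarith
    have y0 : 0 ≤ eX φ (v n) + ε := by linarith
    have m2 : Aw lam mu φ u (BS (bD T M) (GD M Hc)) n * Av lam mu φ v (CS (cD T M)) n ≤
        (2 / 3 * (1 + e1) * (β * γ)) ^ 2 * ((eX φ (u n) + ε) * (eX φ (v n) + ε)) := by
      have := mul_le_mul n1 n2 p2 (by positivity)
      nlinarith
    have m3 := Real.sqrt_le_sqrt m2
    have m3' : √((2 / 3 * (1 + e1) * (β * γ)) ^ 2 * ((eX φ (u n) + ε) * (eX φ (v n) + ε))) =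
        2 / 3 * (1 + e1) * (β * γ) * √((eX φ (u n) + ε) * (eX φ (v n) + ε)) := by
      rw [Real.sqrt_mul (by positivity), Real.sqrt_sq (by positivity)]
    rw [m3'] at m3
    have m4 : 2 / 3 * (1 + e1) * (β * γ) * √((eX φ (u n) + ε) * (eX φ (v n) + ε)) ≤
        1 / 3 * (1 + e1) ^ 2 * √((eX φ (u n) + ε) * (eX φ (v n) + ε)) := by
      refine mul_le_mul_of_nonneg_right ?_ (Real.sqrt_nonneg _)
      nlinarith
    exact arR m1 n3 n4 I0n ηp η1 (m3.trans m4) X1p hI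
  have key := D.fin hφ h0 l1 l2 H1 e1p X1p.le hC (by
    rw [hX1]
    have : (1 + e1) * (e1 / (2 * (1 + e1) * (C + 1))) * C = e1 / 2 * (C / (C + 1)) := by
      field_simp
    rw [this]
    have : C / (C + 1) ≤ 1 := by rw [div_le_one (by positivity)]; linarith
    nlinarith) hR
  filter_upwards [key] with n n1
  refine n1.trans ?_
  have m0 : 0 ≤ mS φ (g n) := integral_nonneg fun z => mul_nonneg (h0 z) (sq_nonneg _)
  have s0 := Real.sqrt_nonneg ((eX φ (u n) + ε) * (eX φ (v n) + ε))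
  have k1 : (1 + e1) * (1 / 3 * (1 + e1) ^ 2) ≤ (1 + ε) / 3 := by
    have h5 : e1 ^ 2 ≤ e1 := by nlinarith
    have h6 : e1 ^ 3 ≤ e1 := by
      have : e1 ^ 3 = e1 * e1 ^ 2 := by ring
      nlinarith
    have h7 : (1 + e1) * (1 / 3 * (1 + e1) ^ 2) = 1 / 3 * (1 + 3 * e1 + 3 * e1 ^ 2 + e1 ^ 3) := by
      ring
    rw [h7]; linarith
  have k2 : (1 + e1) * (1 / 3 * (1 + e1) ^ 2 * √((eX φ (u n) + ε) * (eX φ (v n) + ε))) *
      mS φ (g n) ≤ (1 + ε) / 3 * √((eX φ (u n) + ε) * (eX φ (v n) + ε)) * mS φ (g n) := by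
    refine mul_le_mul_of_nonneg_right ?_ m0
    rw [← mul_assoc]
    exact mul_le_mul_of_nonneg_right k1 s0
  linarith

end

end Pool.Agent.K13.TP
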