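import Pool.Agent.K13.TP.LimD

/-!
# The joint moment of three eigenfunctions: right triangles
-/

set_option autoImplicit false
set_option linter.unusedSectionVars false
open MeasureTheory Filter Topology Complex Set
open scoped ContDiff Real Manifold

namespace Pool.Agent.K13.TP

open Pool.Agent.W745.RW Pool.Agent.TH294.RS Pool.Agent.Y265.HY
open Pool.Agent.R314.JN (QS)
open Pool.Agent.Y265.HY.JC (hh eX mS)

noncomputable section

variable {Ω : Set ℂ} {lam mu nu : ℕ → ℝ} {u v g : ℕ → ℂ → ℝ}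

/-- the choice of the exponent -/
lemma exMR {ρ : ℝ} (hρ : 1 ≤ ρ) {η : ℝ} (hη : 0 < η) :
    ∃ M, gp (CS (cRt (1 / (16 + 16 * ρ ^ 4)) M)) ρ < η := by
  have cc := Real.continuous_cos
  have hp : ρ ^ 2 ≠ 0 := by positivity
  have b : ∀ θ, (ρ ^ 2 * (2 + 2 * Real.cos θ) - 4) ^ 2 ≤ 16 + 16 * ρ ^ 4 := by
    intro θ
    have a1 := Real.cos_le_one θ
    have a2 := Real.neg_one_le_cos θ
    have h1 : 0 ≤ ρ ^ 2 * (2 + 2 * Real.cos θ) := mul_nonneg (by positivity) (by linarith)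
    have h2 : ρ ^ 2 * (2 + 2 * Real.cos θ) ≤ 4 * ρ ^ 2 := by nlinarith [sq_nonneg ρ]
    have h3 : (4 * ρ ^ 2) ^ 2 = 16 * ρ ^ 4 := by ring
    nlinarith
  have c0 : 0 < 1 / (16 + 16 * ρ ^ 4) := by positivity
  have key := dctp (a := fun θ => ρ ^ 2 * (2 + 2 * Real.cos θ) *
      (4 * ρ ^ 2 - ρ ^ 2 * (2 + 2 * Real.cos θ)))
    (q := fun θ => 1 - 1 / (16 + 16 * ρ ^ 4) * (ρ ^ 2 * (2 + 2 * Real.cos θ) - 4) ^ 2)
    (by fun_prop) (by fun_prop) (fun θ => ?_) (S := {θ | Real.cos θ = (4 / ρ ^ 2 - 2) / 2})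
    (Pool.Agent.Y265.HY.JC.cnt _) (fun θ hθ => ?_)
  · have t : Tendsto (fun M => gp (CS (cRt (1 / (16 + 16 * ρ ^ 4)) M)) ρ) atTop (𝓝 0) := by
      refine gp_small (key.congr fun M => ?_)
      congr 1; funext θ
      rw [ev_cR]
    exact (t.eventually (gt_mem_nhds hη)).exists
  · have h1 : 1 / (16 + 16 * ρ ^ 4) * (ρ ^ 2 * (2 + 2 * Real.cos θ) - 4) ^ 2 ≤ 1 := by
      rw [one_div, inv_mul_le_iff₀ (by positivity), mul_one]
      exact b θ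
    have h2 : 0 ≤ 1 / (16 + 16 * ρ ^ 4) * (ρ ^ 2 * (2 + 2 * Real.cos θ) - 4) ^ 2 := by positivity
    rw [abs_le]
    constructor <;> linarith
  · have h1 : 1 / (16 + 16 * ρ ^ 4) * (ρ ^ 2 * (2 + 2 * Real.cos θ) - 4) ^ 2 ≤ 1 := by
      rw [one_div, inv_mul_le_iff₀ (by positivity), mul_one]
      exact b θ
    have h3 : ρ ^ 2 * (2 + 2 * Real.cos θ) - 4 ≠ 0 := by
      intro h4
      apply hθ
      show Real.cos θ = _
      field_simp
      linarith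
    have h2 : 0 < 1 / (16 + 16 * ρ ^ 4) * (ρ ^ 2 * (2 + 2 * Real.cos θ) - 4) ^ 2 := by
      positivity
    rw [abs_lt]
    constructor <;> linarith

/-- an upper bound of a centred mean square -/
lemma up_bdR {a x b g : ℕ → ℝ} {β G I0 η : ℝ}
    (h : Tendsto (fun n => a n - (2 * g n * I0 + (2 * 0 ^ 2 + b n ^ 2) / 3 * x n)) atTop (𝓝 0))
    (hb : Tendsto b atTop (𝓝 β)) (hg : Tendsto g atTop (𝓝 G)) (hG : G < η) (hη1 : η ≤ 1)
    (hI : 0 ≤ I0) :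
    ∀ᶠ n in atTop, a n ≤ (2 * (I0 + 1) + (β ^ 2 + 1)) * (1 + |x n|) := by
  have E1 := h.eventually (gt_mem_nhds one_pos)
  have E2 := (hb.pow 2).eventually (gt_mem_nhds (show β ^ 2 < β ^ 2 + 1 by linarith))
  have E3 := hg.eventually (gt_mem_nhds hG)
  filter_upwards [E1, E2, E3] with n n1 n2 n3
  have x0 := abs_nonneg (x n)
  have m1 : b n ^ 2 * x n ≤ b n ^ 2 * |x n| :=
    mul_le_mul_of_nonneg_left (le_abs_self _) (sq_nonneg _)
  have m2 : b n ^ 2 * |x n| ≤ (β ^ 2 + 1) * |x n| := mul_le_mul_of_nonneg_right n2.le x0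
  have m4 : g n * I0 ≤ 1 * I0 := mul_le_mul_of_nonneg_right (n3.le.trans hη1) hI
  have m5 : 0 ≤ β ^ 2 * |x n| := by positivity
  have m6 : 0 ≤ I0 * |x n| := by positivity
  have m7 : 0 ≤ β ^ 2 := sq_nonneg _
  nlinarith

lemma up_bdR0 {a x g : ℕ → ℝ} {G I0 η : ℝ}
    (h : Tendsto (fun n => a n - (2 * g n * I0 + (2 * 0 ^ 2 + 0 ^ 2) / 3 * x n)) atTop (𝓝 0))
    (hg : Tendsto g atTop (𝓝 G)) (hG : G < η) (hη : 0 < η)
    (hI : 0 ≤ I0) : ∀ᶠ n in atTop, a n ≤ 2 * η * (I0 + 1) := by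
  have E1 := h.eventually (gt_mem_nhds hη)
  have E3 := hg.eventually (gt_mem_nhds hG)
  filter_upwards [E1, E3] with n n1 n3
  have m4 : g n * I0 ≤ η * I0 := mul_le_mul_of_nonneg_right n3.le hI
  have m5 : (2 * 0 ^ 2 + 0 ^ 2) / 3 * x n = 0 := by ring
  have m6 : 2 * η * (I0 + 1) = 2 * (η * I0) + 2 * η := by ring
  rw [m5] at n1
  rw [m6]
  linarith

/-- **right triangles**, convergent ratios -/
theorem TD.limR (D : TD Ω lam mu nu u v g) {φ : ℂ → ℝ} (hφ : TF Ω φ) (h0 : ∀ z, 0 ≤ φ z)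
    {ρ r : ℝ} (hρ : 1 ≤ ρ) (hr : 0 < r) (hs : r = ρ ^ 2 - 1)
    (l1 : Tendsto (rh lam mu) atTop (𝓝 ρ)) (l2 : Tendsto (fun n => nu n / lam n) atTop (𝓝 r))
    {ε : ℝ} (hε : 0 < ε) : ∀ᶠ n in atTop, J3 φ (u n) (v n) (g n) ^ 2 ≤
      ε * √(1 + |eX φ (u n)|) := by
  obtain ⟨C, hC0, hC⟩ := D.f5 hφ
  obtain ⟨I0, hI⟩ : ∃ I0, I0 = ∫ z, φ z := ⟨_, rfl⟩
  have I0n : 0 ≤ I0 := by rw [hI]; exact integral_nonneg h0
  obtain ⟨β, hβ⟩ : ∃ β, β = 1 / (16 * r) := ⟨_, rfl⟩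
  obtain ⟨B, hB⟩ : ∃ B, B = 2 * (I0 + 1) + (β ^ 2 + 1) := ⟨_, rfl⟩
  have Bp : 0 < B := by rw [hB]; positivity
  obtain ⟨e1, he1⟩ : ∃ e1, e1 = min (ε / 4) 1 := ⟨_, rfl⟩
  have e1p : 0 < e1 := by rw [he1]; positivity
  have e1a : e1 ≤ ε / 4 := by rw [he1]; exact min_le_left _ _
  have e1b : e1 ≤ 1 := by rw [he1]; exact min_le_right _ _
  obtain ⟨s, hs'⟩ : ∃ s, s = ε / (8 * (C + 1)) := ⟨_, rfl⟩
  have sp : 0 < s := by rw [hs']; positivity
  have s1 : s * (8 * (C + 1)) = ε := by rw [hs']; field_simp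
  obtain ⟨X1, hX1⟩ : ∃ X1, X1 = e1 / (4 * (C + 1)) := ⟨_, rfl⟩
  have X1p : 0 < X1 := by rw [hX1]; positivity
  have X1e : X1 * (4 * (C + 1)) = e1 := by rw [hX1]; field_simp
  obtain ⟨η, hη⟩ : ∃ η, η = min 1 (min (X1 / (4 * (I0 + 1))) (s ^ 2 / (2 * B * (I0 + 1)))) :=
    ⟨_, rfl⟩
  have ηp : 0 < η := by rw [hη]; positivity
  have η0 : η ≤ 1 := by rw [hη]; exact min_le_left _ _
  have η1 : η * (I0 + 1) ≤ X1 / 4 := by
    have : η ≤ X1 / (4 * (I0 + 1)) := by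
      rw [hη]; exact (min_le_right _ _).trans (min_le_left _ _)
    rw [le_div_iff₀ (by positivity)] at this
    linarith
  have η2 : B * (2 * η * (I0 + 1)) ≤ s ^ 2 := by
    have : η ≤ s ^ 2 / (2 * B * (I0 + 1)) := by
      rw [hη]; exact (min_le_right _ _).trans (min_le_right _ _)
    rw [le_div_iff₀ (by positivity)] at this
    calc B * (2 * η * (I0 + 1)) = η * (2 * B * (I0 + 1)) := by ring
      _ ≤ s ^ 2 := this
  obtain ⟨M, hM⟩ := exMR hρ ηp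
  obtain ⟨c, hc⟩ : ∃ c, c = 1 / (16 + 16 * ρ ^ 4) := ⟨_, rfl⟩
  rw [← hc] at hM
  have quad : r ^ 2 - 2 * (1 + ρ ^ 2) * r + (ρ ^ 2 - 1) ^ 2 = -(4 * r) := by
    rw [← hs]
    have : ρ ^ 2 = r + 1 := by linarith
    rw [this]; ring
  have hF0 : ev2 ρ r (FR c M 1) ≠ 0 := by
    rw [ev_FR, quad, ← hs, sub_self, zero_pow four_ne_zero, mul_zero, sub_zero]
    have := hr.ne'
    refine mul_ne_zero (mul_ne_zero ?_ ?_) (pow_ne_zero _ (pow_ne_zero _ this))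
    · exact neg_ne_zero.2 (by positivity)
    · positivity
  obtain ⟨Hp, H1, H2, H3, -⟩ := pickG hρ hr (FR c M 1) (bRt c M) (4 * M + 3) hF0 le_rfl
    (by positivity) hr.ne ηp
  obtain ⟨Hc, hHc⟩ : ∃ Hc, Hc = Hp.map Polynomial.C := ⟨_, rfl⟩
  rw [← hHc] at H1 H2 H3
  have eF : FR c M 1 * Hc = FR c M Hc := by unfold FR; ring
  rw [eF] at H1 H2
  have eG : Polynomial.X ^ (4 * M + 3) * Hc ^ 2 = GR M Hc := rfl
  rw [eG] at H3
  have G1 : ev2 ρ r (GR M Hc) = 1 / (64 * r) := by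
    have h1 := (dec_R c M Hc).ev (ρ := ρ) (x := r) (P := 4) quad
    have h2 : ev2 ρ 4 (cRt c M) = 16 * r := by
      rw [hs]
      simp [cRt, ev2]
      ring
    rw [H1, h2, ev_bR] at h1
    rw [eq_div_iff (by positivity)]
    simp only [sub_self, ne_eq, OfNat.ofNat_ne_zero, not_false_eq_true, zero_pow, mul_zero,
      sub_zero, one_pow, mul_one] at h1
    linarith
  have hβe : ev2 ρ 4 (BS (bRt c M) (GR M Hc)) = β := by
    have hr' := hr.ne'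
    rw [ev2_BS ρ r r 4 (by linarith) (by rw [hs]; ring), ev_bR, G1, hβ]
    simp only [sub_self, ne_eq, OfNat.ofNat_ne_zero, not_false_eq_true, zero_pow, mul_zero,
      sub_zero, one_pow, mul_one]
    field_simp
    norm_num
  have cb : Tendsto (fun n => ev2 (rh lam mu n) 4 (BS (bRt c M) (GR M Hc))) atTop (𝓝 β) := by
    rw [← hβe]
    exact ((ev2_cont (BS (bRt c M) (GR M Hc))).tendsto (ρ, 4)).comp
      (l1.prodMk_nhds tendsto_const_nhds)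
  have A1 := D.au hφ (BS (bRt c M) (GR M Hc))
  have A2 := D.av hφ (CS (cRt c M))
  have z1 : ∀ t, ev2 t 0 (BS (bRt c M) (GR M Hc)) = 0 := fun t =>
    ev2_BS4 t _ (by rw [ev_bR]; ring)
  have z2 : ∀ t, ev2 t 4 (CS (cRt c M)) = 0 := fun t => by rw [ev_cR]; ring
  have z3 : ∀ t, ev2 t 0 (CS (cRt c M)) = 0 := fun t => by rw [ev_cR]; ring
  simp only [z1, ← hI] at A1
  simp only [z2, z3, ← hI] at A2
  have B1 := up_bdR A1 cb (((gp_cont _).tendsto ρ).comp l1) H3 η0 I0n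
  have B2 := up_bdR0 A2 (((gp_cont _).tendsto ρ).comp l1) hM ηp I0n
  rw [← hB] at B1
  obtain ⟨e, he0, hbd⟩ := D.f1g hφ h0 (dec_R c M Hc)
  have E1 : Tendsto (fun n => gx (FR c M Hc) (rh lam mu n)) atTop (𝓝 (gx (FR c M Hc) ρ)) :=
    ((gx_cont _).tendsto ρ).comp l1
  have E2 := E1.eventually (gt_mem_nhds H2)
  have E3 := he0.eventually (gt_mem_nhds (show 0 < X1 / 2 by positivity))
  have hR : ∀ᶠ n in atTop, (∫ z, φ z * XR lam mu (FR c M Hc) u v n z ^ 2) ≤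
      s * √(1 + |eX φ (u n)|) + X1 := by
    filter_upwards [B1, B2, E2, E3] with n n1 n2 n3 n4
    have m1 := hbd n
    have p1 : 0 ≤ Aw lam mu φ u (BS (bRt c M) (GR M Hc)) n := AM_nn h0 _ n
    have p2 : 0 ≤ Av lam mu φ v (CS (cRt c M)) n := AM_nn h0 _ n
    have x0 : 0 ≤ 1 + |eX φ (u n)| := by positivity
    have m2 : Aw lam mu φ u (BS (bRt c M) (GR M Hc)) n * Av lam mu φ v (CS (cRt c M)) n ≤
        s ^ 2 * (1 + |eX φ (u n)|) := by
      calc _ ≤ (B * (1 + |eX φ (u n)|)) * (2 * η * (I0 + 1)) :=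
            mul_le_mul n1 n2 p2 (by positivity)
        _ = B * (2 * η * (I0 + 1)) * (1 + |eX φ (u n)|) := by ring
        _ ≤ s ^ 2 * (1 + |eX φ (u n)|) := mul_le_mul_of_nonneg_right η2 x0
    have m3 := Real.sqrt_le_sqrt m2
    rw [Real.sqrt_mul (sq_nonneg s) (1 + |eX φ (u n)|), Real.sqrt_sq sp.le] at m3
    exact arR m1 n3 n4 I0n ηp η1 m3 X1p hI
  have hX : (1 + e1) * X1 * C ≤ e1 / 2 := by
    have h1 : (1 + e1) * (X1 * C) ≤ 2 * (X1 * C) :=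
      mul_le_mul_of_nonneg_right (by linarith) (by positivity)
    have h2 : (1 + e1) * X1 * C = (1 + e1) * (X1 * C) := by ring
    have h3 : X1 * (4 * (C + 1)) = 4 * (X1 * C) + 4 * X1 := by ring
    rw [h2]
    linarith
  have key := D.fin hφ h0 l1 l2 H1 e1p X1p.le hC hX hR
  filter_upwards [key, hC] with n n1 n2
  refine n1.trans ?_
  have m0 : 0 ≤ mS φ (g n) := integral_nonneg fun z => mul_nonneg (h0 z) (sq_nonneg _)
  have s0 : 1 ≤ √(1 + |eX φ (u n)|) := by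
    rw [Real.one_le_sqrt]
    have := abs_nonneg (eX φ (u n))
    linarith
  obtain ⟨q, hq⟩ : ∃ q, q = √(1 + |eX φ (u n)|) := ⟨_, rfl⟩
  rw [← hq] at s0 ⊢
  have k1 : (1 + e1) * (s * q) * mS φ (g n) ≤ 2 * (s * q) * C :=
    mul_le_mul (mul_le_mul_of_nonneg_right (by linarith) (by positivity)) n2 m0 (by positivity)
  have k2 : 2 * (s * q) * C = 2 * (s * C) * q := by ring
  have k3 : 8 * (s * C) ≤ ε := by
    have : s * (8 * (C + 1)) = 8 * (s * C) + 8 * s := by ring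
    linarith
  have k4 : 2 * (s * C) * q ≤ ε / 4 * q := mul_le_mul_of_nonneg_right (by linarith) (by linarith)
  have k5 : ε / 4 * 1 ≤ ε / 4 * q := mul_le_mul_of_nonneg_left s0 (by positivity)
  have k6 : 0 ≤ ε / 4 * q := by positivity
  linarith

end

end Pool.Agent.K13.TP
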