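import Pool.Agent.K13.TP.Good

/-!
# The relations of the joint four-point functions of two ladders
-/

set_option autoImplicit false
set_option linter.unusedSectionVars false
open MeasureTheory Filter Topology Complex Set
open scoped ContDiff Real Manifold

namespace Pool.Agent.K13.TP

open Pool.Agent.W745.RW Pool.Agent.TH294.RS Pool.Agent.Y265.HY

noncomputable section

variable {B : Set ℂ} {h κ : ℕ → ℝ} {w v : ℤ → ℕ → ℂ → ℂ}

/-- the joint four-point functions -/
def J4 (φ : ℂ → ℝ) (w v : ℤ → ℕ → ℂ → ℂ) (m : Z4) (n : ℕ) : ℂ :=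
  ∫ z, (φ z : ℂ) * (w m.1 n z * w m.2.1 n z * (v m.2.2.1 n z * v m.2.2.2 n z))

/-- the Gaussian value -/
def G4 (m : Z4) : ℂ := CC m.1 m.2.1 * CC m.2.2.1 m.2.2.2

/-- the deviation from the Gaussian value -/
def D5 (φ : ℂ → ℝ) (w v : ℤ → ℕ → ℂ → ℂ) (m : Z4) (n : ℕ) : ℂ :=
  J4 φ w v m n - G4 m * ((∫ z, φ z : ℝ) : ℂ)

/-- the sign -/
def sg (k : ℤ) : ℂ := (-1) ^ k.natAbs

lemma sg_neg (k : ℤ) : sg (-k) = sg k := by unfold sg; rw [Int.natAbs_neg]

lemma sg_succ (k : ℤ) : sg (k + 1) = - sg k := by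
  unfold sg
  rcases Nat.even_or_odd k.natAbs with h | h
  · have : Odd (k + 1).natAbs := by
      rw [Nat.even_iff] at h; rw [Nat.odd_iff]; omega
    rw [h.neg_one_pow, this.neg_one_pow]
  · have : Even (k + 1).natAbs := by
      rw [Nat.odd_iff] at h; rw [Nat.even_iff]; omega
    rw [h.neg_one_pow, this.neg_one_pow]; ring

lemma sg_sq (k : ℤ) : sg k * sg k = 1 := by
  unfold sg
  rw [← mul_pow]; norm_num

lemma sg_flip (k : ℤ) : sg (-k + 1) = - sg k := by rw [sg_succ, sg_neg]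

variable (H : SY B Complex.im h w) (H' : SY B Complex.im κ v)

include H H' in
/-- the conjugate translation relation -/
lemma tr6 (hBU : B ⊆ UH) {C : ℝ} (hC : Cmp h κ C) (h0 : EX B h w (w 0)) (k0 : EX B κ v (v 0))
    (a b c d : ℤ) :
    WN B (fun n z => w (a - 1) n z * w b n z * v c n z * v d n z +
      w a n z * w (b - 1) n z * v c n z * v d n z + ((h n / κ n : ℝ) : ℂ) *
      (w a n z * w b n z * v (c - 1) n z * v d n z +
      w a n z * w b n z * v c n z * v (d - 1) n z)) := by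
  have key := ((Pool.Agent.R314.JN.tr5 H H' hBU hC.1 h0 k0 (-a) (-b) (-c) (-d)).conj).cmul
    (-(sg a * sg b * sg c * sg d))
  refine key.congr fun n z hz => ?_
  have cw : ∀ k, (starRingEnd ℂ) (w (-k) n z) = sg k * w k n z := fun k => by
    rw [H.cj (-k) n z hz, neg_neg, Int.natAbs_neg]; rfl
  have cw' : ∀ k, (starRingEnd ℂ) (w (-k + 1) n z) = - sg k * w (k - 1) n z := fun k => by
    rw [H.cj (-k + 1) n z hz, ← sg_flip k]
    congr 2; ring
  have cv : ∀ k, (starRingEnd ℂ) (v (-k) n z) = sg k * v k n z := fun k => by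
    rw [H'.cj (-k) n z hz, neg_neg, Int.natAbs_neg]; rfl
  have cv' : ∀ k, (starRingEnd ℂ) (v (-k + 1) n z) = - sg k * v (k - 1) n z := fun k => by
    rw [H'.cj (-k + 1) n z hz, ← sg_flip k]
    congr 2; ring
  simp only [map_add, map_mul, conj_ofReal, cw, cw', cv, cv']
  have s1 := sg_sq a
  have s2 := sg_sq b
  have s3 := sg_sq c
  have s4 := sg_sq d
  have s : (sg a * sg b * sg c * sg d) * (sg a * sg b * sg c * sg d) = 1 := by
    calc _ = (sg a * sg a) * (sg b * sg b) * (sg c * sg c) * (sg d * sg d) := by ring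
      _ = 1 := by rw [s1, s2, s3, s4]; ring
  linear_combination (-(w (a - 1) n z * w b n z * v c n z * v d n z +
      w a n z * w (b - 1) n z * v c n z * v d n z + ((h n / κ n : ℝ) : ℂ) *
      (w a n z * w b n z * v (c - 1) n z * v d n z +
      w a n z * w b n z * v c n z * v (d - 1) n z))) * s

include H H' in
lemma J4_int {φ : ℂ → ℝ} (hφ : TF B φ) (a b c d : ℤ) (n : ℕ) :
    Integrable (fun z => (φ z : ℂ) * (w a n z * w b n z * (v c n z * v d n z))) :=
  TF.cint hφ ((((H.bd a).co n).mul ((H.bd b).co n)).mul (((H'.bd c).co n).mul ((H'.bd d).co n)))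

include H H' in
/-- **the relations** -/
theorem rel5 (hBU : B ⊆ UH) {C : ℝ} (hC : Cmp h κ C) (h0 : EX B h w (w 0)) (k0 : EX B κ v (v 0))
    {φ : ℂ → ℝ} (hφ : TF B φ) : Rel (ra h κ) (D5 φ w v) := by
  have I4 := J4_int H H' hφ
  have IJ : Integrable (fun z => (φ z : ℂ)) :=
    (hφ.1.continuous.integrable_of_hasCompactSupport hφ.2.1).ofReal
  set I0 : ℂ := ((∫ z, φ z : ℝ) : ℂ) with hI0
  refine ⟨⟨C, ra_bd H H' hC⟩, fun a b c d => ?_, fun a b c d => ?_, fun a b c d => ?_,
    fun a b c d n => ?_⟩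
  · refine ((Pool.Agent.R314.JN.tr5 H H' hBU hC.1 h0 k0 a b c d).nul φ hφ).congr fun n => ?_
    have g1 : G4 (a + 1, b, c, d) + G4 (a, b + 1, c, d) = 0 := by
      simp only [G4]; rw [← add_mul, CC_st, zero_mul]
    have g2 : G4 (a, b, c + 1, d) + G4 (a, b, c, d + 1) = 0 := by
      simp only [G4]; rw [← mul_add, CC_st, mul_zero]
    have e : D5 φ w v (a + 1, b, c, d) n + D5 φ w v (a, b + 1, c, d) n +
        (ra h κ n : ℂ) * (D5 φ w v (a, b, c + 1, d) n + D5 φ w v (a, b, c, d + 1) n) =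
        J4 φ w v (a + 1, b, c, d) n + J4 φ w v (a, b + 1, c, d) n +
        (ra h κ n : ℂ) * (J4 φ w v (a, b, c + 1, d) n + J4 φ w v (a, b, c, d + 1) n) := by
      simp only [D5]
      linear_combination (-I0) * g1 - (ra h κ n : ℂ) * I0 * g2
    rw [e]
    simp only [J4]
    have i12 : Integrable (fun z => (φ z : ℂ) * (w (a + 1) n z * w b n z * (v c n z * v d n z)) +
      (φ z : ℂ) * (w a n z * w (b + 1) n z * (v c n z * v d n z))) := (I4 _ _ _ _ n).add (I4 _ _ _ _ n)
    have i34 : Integrable (fun z => (φ z : ℂ) * (w a n z * w b n z * (v (c + 1) n z * v d n z)) +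
      (φ z : ℂ) * (w a n z * w b n z * (v c n z * v (d + 1) n z))) := (I4 _ _ _ _ n).add (I4 _ _ _ _ n)
    rw [← integral_add (I4 _ _ _ _ n) (I4 _ _ _ _ n), ← integral_add (I4 _ _ _ _ n) (I4 _ _ _ _ n),
      ← integral_const_mul, ← integral_add i12 (i34.const_mul _)]
    congr 1; funext z
    ring
  · refine ((tr6 H H' hBU hC h0 k0 a b c d).nul φ hφ).congr fun n => ?_
    have g1 : G4 (a - 1, b, c, d) + G4 (a, b - 1, c, d) = 0 := by
      simp only [G4]; rw [CC_dn]; ring
    have g2 : G4 (a, b, c - 1, d) + G4 (a, b, c, d - 1) = 0 := by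
      simp only [G4]; rw [CC_dn]; ring
    have e : D5 φ w v (a - 1, b, c, d) n + D5 φ w v (a, b - 1, c, d) n +
        (ra h κ n : ℂ) * (D5 φ w v (a, b, c - 1, d) n + D5 φ w v (a, b, c, d - 1) n) =
        J4 φ w v (a - 1, b, c, d) n + J4 φ w v (a, b - 1, c, d) n +
        (ra h κ n : ℂ) * (J4 φ w v (a, b, c - 1, d) n + J4 φ w v (a, b, c, d - 1) n) := by
      simp only [D5]
      linear_combination (-I0) * g1 - (ra h κ n : ℂ) * I0 * g2
    rw [e]
    simp only [J4]
    have i12 : Integrable (fun z => (φ z : ℂ) * (w (a - 1) n z * w b n z * (v c n z * v d n z)) +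
      (φ z : ℂ) * (w a n z * w (b - 1) n z * (v c n z * v d n z))) := (I4 _ _ _ _ n).add (I4 _ _ _ _ n)
    have i34 : Integrable (fun z => (φ z : ℂ) * (w a n z * w b n z * (v (c - 1) n z * v d n z)) +
      (φ z : ℂ) * (w a n z * w b n z * (v c n z * v (d - 1) n z))) := (I4 _ _ _ _ n).add (I4 _ _ _ _ n)
    rw [← integral_add (I4 _ _ _ _ n) (I4 _ _ _ _ n), ← integral_add (I4 _ _ _ _ n) (I4 _ _ _ _ n),
      ← integral_const_mul, ← integral_add i12 (i34.const_mul _)]
    congr 1; funext z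
    ring
  · have key := (Pool.Agent.R314.JN.nWJ H H' hBU hC.1 hC.2 h0 k0 a b c d).nul φ hφ
    refine key.congr fun n => ?_
    obtain ⟨c0, hc0⟩ : ∃ c0 : ℂ, c0 = CC (a + 1) (b + 1) * CC (c - 1) (d - 1) +
        CC (a - 1) (b - 1) * CC (c + 1) (d + 1) - 2 * CC a b * CC c d := ⟨_, rfl⟩
    have e : D5 φ w v (a + 1, b + 1, c - 1, d - 1) n + D5 φ w v (a - 1, b - 1, c + 1, d + 1) n -
        2 * D5 φ w v (a, b, c, d) n = (J4 φ w v (a + 1, b + 1, c - 1, d - 1) n +
        J4 φ w v (a - 1, b - 1, c + 1, d + 1) n - 2 * J4 φ w v (a, b, c, d) n) - c0 * I0 := by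
      rw [hc0]
      simp only [D5, G4]
      ring
    have e1 : c0 * I0 = ∫ z, (φ z : ℂ) * c0 := by
      rw [integral_mul_const, integral_complex_ofReal, mul_comm]
    rw [e, e1]
    simp only [J4]
    have h12 : Integrable (fun z => (φ z : ℂ) * (w (a + 1) n z * w (b + 1) n z *
        (v (c - 1) n z * v (d - 1) n z)) + (φ z : ℂ) * (w (a - 1) n z * w (b - 1) n z *
        (v (c + 1) n z * v (d + 1) n z))) := (I4 _ _ _ _ n).add (I4 _ _ _ _ n)
    have h3 : Integrable (fun z => 2 * ((φ z : ℂ) * (w a n z * w b n z * (v c n z * v d n z)))) :=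
      (I4 _ _ _ _ n).const_mul 2
    have h4 : Integrable (fun z => (φ z : ℂ) * c0) := IJ.mul_const c0
    have h123 : Integrable (fun z => ((φ z : ℂ) * (w (a + 1) n z * w (b + 1) n z *
        (v (c - 1) n z * v (d - 1) n z)) + (φ z : ℂ) * (w (a - 1) n z * w (b - 1) n z *
        (v (c + 1) n z * v (d + 1) n z))) - 2 * ((φ z : ℂ) * (w a n z * w b n z *
        (v c n z * v d n z)))) := h12.sub h3
    rw [← integral_add (I4 _ _ _ _ n) (I4 _ _ _ _ n), ← integral_const_mul,
      ← integral_sub h12 h3, ← integral_sub h123 h4]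
    congr 1; funext z
    rw [hc0]
    ring
  · simp only [D5, J4, G4]
    rw [CC_symm c d]
    congr 2
    funext z
    ring

end

end Pool.Agent.K13.TP
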