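import Pool.Agent.K13.TP.Sq2

/-!
# The bound of the power spectrum of a product: general form
-/

set_option autoImplicit false
set_option linter.unusedSectionVars false
open MeasureTheory Filter Topology Complex Set
open scoped ContDiff Real Manifold

namespace Pool.Agent.K13.TP

open Pool.Agent.W745.RW Pool.Agent.TH294.RS Pool.Agent.Y265.HY
open Polynomial (aeval)

noncomputable section

variable {B : Set ℂ} {h κ : ℕ → ℝ} {w v : ℤ → ℕ → ℂ → ℂ} {ρ : ℕ → ℝ}

variable (H : SY B Complex.im h w) (H' : SY B Complex.im κ v) (hBU : B ⊆ UH) {C : ℝ}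
  (hC : Cmp h κ C)

include H H' hBU hC in
/-- **the reduction to the squares**, general form -/
theorem red2 (h0 : EX B h w (w 0)) (k0 : EX B κ v (v 0)) {φ : ℂ → ℝ} (hφ : TF B φ)
    {F c b G : Polynomial A} (hd : Dec F c b G) :
    Null (fun n => (∫ z, (φ z : ℂ) * (OP h (ra h κ) F (fun n z => w 0 n z * v 0 n z) n z *
      OP h (ra h κ) F (fun n z => w 0 n z * v 0 n z) n z)) -
      ((∫ z, (φ z : ℂ) * (LM (ra h κ) w w (aeval ps (BS b G)) n z *
        LM (ra h κ) v v (aeval ps (CS c)) n z)) +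
      (((gx F (ra h κ n) - ev2 (ra h κ n) 0 (BS b G) * ev2 (ra h κ n) 0 (CS c)) *
        (∫ z, φ z) : ℝ) : ℂ))) := by
  have n1 := sq_main H H' hBU hC k0 hφ (good_OP H H' hC h0 k0 F)
  have n2 := (rel5 H H' hBU hC h0 k0 hφ).main2 hd
  have n3 := n1.add n2
  rw [add_zero] at n3
  refine n3.congr fun n => ?_
  set I0 : ℂ := ((∫ z, φ z : ℝ) : ℂ) with hI0
  have cw := fun m n => (H.bd m).co n
  have cv := fun m n => (H'.bd m).co n
  have p1 := Ev_prod (ρ := ra h κ) hφ cw cv cw cv (D := J4 φ w v) (g := g1) (g' := g2)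
    (fun m k n => J4_1 φ m k n) (aeval xs F) (aeval xs F) n
  have p2 := Ev_prod (ρ := ra h κ) hφ cw cw cv cv (D := J4 φ w v) (g := g12) (g' := g34)
    (fun m k n => J4_2 φ m k n) (aeval ps (BS b G)) (aeval ps (CS c)) n
  have q1 : Ev (ra h κ) (fun m _ => G4 m) (JJ g1 (aeval xs F) *
      JJ g2 (aeval xs F)) n = ((gx F (ra h κ n) : ℝ) : ℂ) := by
    rw [Ev_J2, ← ct_xs (ρ := ra h κ) F n]
    unfold ct
    rw [Ev_pair]
    refine Ev_cg _ n fun m => Ev_cg _ n fun k => G4_1 m k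
  obtain ⟨b0, hb0⟩ : ∃ b0 : ℂ, b0 = ((ev2 (ra h κ n) 0 (BS b G) : ℝ) : ℂ) := ⟨_, rfl⟩
  obtain ⟨c0, hc0⟩ : ∃ c0 : ℂ, c0 = ((ev2 (ra h κ n) 0 (CS c) : ℝ) : ℂ) := ⟨_, rfl⟩
  have q2 : Ev (ra h κ) (fun m _ => G4 m) (JJ g12 (aeval ps (BS b G)) *
      JJ g34 (aeval ps (CS c))) n = c0 * b0 := by
    rw [Ev_J2]
    have f1 : Ev (ra h κ) (fun m n => Ev (ra h κ) (fun k _ => G4 (g12 m + g34 k))
        (aeval ps (CS c)) n) (aeval ps (BS b G)) n = Ev (ra h κ) (fun m _ => c0 * sg m)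
        (aeval ps (BS b G)) n := by
      refine Ev_cg _ n fun m => ?_
      have f2 : Ev (ra h κ) (fun k _ => G4 (g12 m + g34 k)) (aeval ps (CS c)) n =
          Ev (ra h κ) (fun k _ => sg m * sg k) (aeval ps (CS c)) n := Ev_cg _ n fun k => G4_2 m k
      rw [f2, Ev_smulD (D := fun k _ => sg k), Ev_sg_ps, hc0]
      ring
    rw [f1, Ev_smulD (D := fun m _ => sg m), Ev_sg_ps, hb0]
  rw [Ev_D5, Ev_D5, q1, q2, p1, p2, hb0, hc0]
  push_cast
  ring

/-- real parts of integrals -/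
lemma re_int2 {φ : ℂ → ℝ} (hφ : TF B φ) {X Y : ℂ → ℂ}
    (rX : ∀ z ∈ B, ((X z).re : ℂ) = X z) (rY : ∀ z ∈ B, ((Y z).re : ℂ) = Y z) :
    ∫ z, (φ z : ℂ) * (X z * Y z) = ((∫ z, φ z * ((X z).re * (Y z).re) : ℝ) : ℂ) := by
  rw [← integral_complex_ofReal]
  congr 1; funext z
  by_cases hz : z ∈ B
  · conv_lhs => rw [← rX z hz, ← rY z hz]
    push_cast; ring
  · rw [TF.zero hφ hz]; simp

lemma re_int1 {φ : ℂ → ℝ} (hφ : TF B φ) {X : ℂ → ℂ}
    (rX : ∀ z ∈ B, ((X z).re : ℂ) = X z) :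
    ∫ z, (φ z : ℂ) * X z = ((∫ z, φ z * (X z).re : ℝ) : ℂ) := by
  rw [← integral_complex_ofReal]
  congr 1; funext z
  by_cases hz : z ∈ B
  · conv_lhs => rw [← rX z hz]
    push_cast; ring
  · rw [TF.zero hφ hz]; simp

/-- the centred mean square -/
def AM (ρ : ℕ → ℝ) (φ : ℂ → ℝ) (w : ℤ → ℕ → ℂ → ℂ) (F : Polynomial A) (n : ℕ) : ℝ :=
  ∫ z, φ z * ((LM ρ w w (aeval ps F) n z).re - ev2 (ρ n) 0 F) ^ 2

/-- the excess -/
def exw (φ : ℂ → ℝ) (w : ℤ → ℕ → ℂ → ℂ) (n : ℕ) : ℝ := (D4 w φ 0 0 0 0 n).re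

section
variable {φ : ℂ → ℝ} (hφ : TF B φ)

lemma AM_nn (p0 : ∀ z, 0 ≤ φ z) (F : Polynomial A) (n : ℕ) : 0 ≤ AM ρ φ w F n :=
  integral_nonneg fun z => mul_nonneg (p0 z) (sq_nonneg _)

include H hφ in
lemma int_r1 (F : Polynomial A) (n : ℕ) :
    Integrable fun z => φ z * (LM ρ w w (aeval ps F) n z).re := by
  have c : ContinuousOn (fun z => (LM ρ w w (aeval ps F) n z).re) B :=
    Complex.continuous_re.comp_continuousOn (LM_sm H H _ _ n).continuousOn
  exact Pool.Agent.W311.RW.int_mul H.op hφ c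

include H H' hφ in
lemma int_r2 (F F' : Polynomial A) (n : ℕ) :
    Integrable fun z => φ z * ((LM ρ w w (aeval ps F) n z).re *
      (LM ρ v v (aeval ps F') n z).re) := by
  have c : ContinuousOn (fun z => (LM ρ w w (aeval ps F) n z).re) B :=
    Complex.continuous_re.comp_continuousOn (LM_sm H H _ _ n).continuousOn
  have c' : ContinuousOn (fun z => (LM ρ v v (aeval ps F') n z).re) B :=
    Complex.continuous_re.comp_continuousOn (LM_sm H' H' _ _ n).continuousOn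
  exact Pool.Agent.W311.RW.int_mul H.op hφ (c.mul c')

include H hφ in
lemma int_r0 : Integrable φ := by
  have := Pool.Agent.W311.RW.int_mul H.op hφ (continuousOn_const (c := (1 : ℝ)))
  simpa using this

include H H' hφ in
/-- expansion of a centred product -/
lemma cen (F F' : Polynomial A) (x y : ℝ) (n : ℕ) :
    ∫ z, φ z * (((LM ρ w w (aeval ps F) n z).re - x) * ((LM ρ v v (aeval ps F') n z).re - y)) =
    (∫ z, φ z * ((LM ρ w w (aeval ps F) n z).re * (LM ρ v v (aeval ps F') n z).re)) -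
    y * (∫ z, φ z * (LM ρ w w (aeval ps F) n z).re) -
    x * (∫ z, φ z * (LM ρ v v (aeval ps F') n z).re) + x * y * ∫ z, φ z := by
  have i1 := int_r2 (ρ := ρ) H H' hφ F F' n
  have i2 := int_r1 (ρ := ρ) H hφ F n
  have i3 := int_r1 (ρ := ρ) H' hφ F' n
  have i4 := int_r0 H hφ
  rw [← integral_const_mul, ← integral_const_mul, ← integral_const_mul,
    ← integral_sub i1 (i2.const_mul _)]
  have i5 : Integrable (fun z => φ z * ((LM ρ w w (aeval ps F) n z).re *
      (LM ρ v v (aeval ps F') n z).re) - y * (φ z * (LM ρ w w (aeval ps F) n z).re)) :=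
    i1.sub (i2.const_mul _)
  rw [← integral_sub i5 (i3.const_mul _)]
  have i6 : Integrable (fun z => φ z * ((LM ρ w w (aeval ps F) n z).re *
      (LM ρ v v (aeval ps F') n z).re) - y * (φ z * (LM ρ w w (aeval ps F) n z).re) -
      x * (φ z * (LM ρ v v (aeval ps F') n z).re)) := i5.sub (i3.const_mul _)
  rw [← integral_add i6 (i4.const_mul _)]
  congr 1; funext z; ring

include H hBU hφ in
/-- asymptotics of the centred mean square -/
theorem AM_lim (h0 : EX B h w (w 0)) {C : ℝ} (hρ : ∀ n, |ρ n| ≤ C) (F : Polynomial A) :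
    Tendsto (fun n => AM ρ φ w F n - (2 * gp F (ρ n) * (∫ z, φ z) +
      (2 * ev2 (ρ n) 0 F ^ 2 + ev2 (ρ n) 4 F ^ 2) / 3 * exw φ w n)) atTop (𝓝 0) := by
  have r1 := mean1 H hφ hρ F
  have r2 := msq2 H hBU h0 hφ hρ F
  obtain ⟨C', hC'⟩ : ∃ C', ∀ n, |ev2 (ρ n) 0 F| ≤ C' := by
    have e : ∀ t, ev2 t 0 F = (F.coeff 0).eval t := fun t => by
      rw [ev2, ← Polynomial.coeff_zero_eq_eval_zero, Polynomial.coeff_map]; rfl
    obtain ⟨C', hC'⟩ := poly_bd hρ (F.coeff 0)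
    exact ⟨C', fun n => by rw [e]; exact hC' n⟩
  have r3 := null_bd r1 (c := fun n => 2 * ev2 (ρ n) 0 F) (C := 2 * C') fun n => by
    rw [abs_mul, abs_of_pos (by norm_num : (0 : ℝ) < 2)]
    linarith [hC' n]
  have s := (Complex.continuous_re.tendsto _).comp (r2.sub r3)
  rw [sub_zero, Complex.zero_re] at s
  refine s.congr fun n => ?_
  have e1 := cen (ρ := ρ) H H hφ F F (ev2 (ρ n) 0 F) (ev2 (ρ n) 0 F) n
  have e2 : AM ρ φ w F n = ∫ z, φ z * (((LM ρ w w (aeval ps F) n z).re - ev2 (ρ n) 0 F) *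
      ((LM ρ w w (aeval ps F) n z).re - ev2 (ρ n) 0 F)) := by
    unfold AM; congr 1; funext z; ring
  have f1 := re_int2 hφ (X := fun z => LM ρ w w (aeval ps F) n z)
    (Y := fun z => LM ρ w w (aeval ps F) n z) (fun z hz => LM_re H _ n hz)
    (fun z hz => LM_re H _ n hz)
  have f2 := re_int1 hφ (X := fun z => LM ρ w w (aeval ps F) n z) (fun z hz => LM_re H _ n hz)
  simp only [Function.comp_apply]
  rw [f1, f2, e2, e1]
  simp only [sub_re, ofReal_re, re_ofReal_mul, exw]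
  ring

include H H' hBU hC hφ in
/-- **the bound of the power spectrum of the product**, general form -/
theorem sqb2 (h0 : EX B h w (w 0)) (k0 : EX B κ v (v 0)) 
    (p0 : ∀ z, 0 ≤ φ z) {F c b G : Polynomial A} (hd : Dec F c b G) :
    ∃ e : ℕ → ℝ, Tendsto e atTop (𝓝 0) ∧ ∀ n,
      (∫ z, (φ z : ℂ) * (OP h (ra h κ) F (fun n z => w 0 n z * v 0 n z) n z *
      OP h (ra h κ) F (fun n z => w 0 n z * v 0 n z) n z)).re ≤
      gx F (ra h κ n) * (∫ z, φ z) +
        √(AM (ra h κ) φ w (BS b G) n * AM (ra h κ) φ v (CS c) n) + e n := by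
  have r1 := red2 H H' hBU hC h0 k0 hφ hd
  have m1 := mean1 H hφ (ra_bd H H' hC) (BS b G)
  have m2 := mean1 H' hφ (ra_bd H H' hC) (CS c)
  have bd0 : ∀ F : Polynomial A, ∃ C', ∀ n, |ev2 (ra h κ n) 0 F| ≤ C' := by
    intro F
    have e : ∀ t, ev2 t 0 F = (F.coeff 0).eval t := fun t => by
      rw [ev2, ← Polynomial.coeff_zero_eq_eval_zero, Polynomial.coeff_map]; rfl
    obtain ⟨C', hC'⟩ := poly_bd (ra_bd H H' hC) (F.coeff 0)
    exact ⟨C', fun n => by rw [e]; exact hC' n⟩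
  obtain ⟨C1, hC1⟩ := bd0 (BS b G)
  obtain ⟨C2, hC2⟩ := bd0 (CS c)
  have m3 := null_bd m1 hC2
  have m4 := null_bd m2 hC1
  have s := (Complex.continuous_re.tendsto _).comp ((r1.add m3).add m4)
  simp only [add_zero, Complex.zero_re] at s
  refine ⟨_, s, fun n => ?_⟩
  have f1 := re_int2 hφ (X := fun z => LM (ra h κ) w w (aeval ps (BS b G)) n z)
    (Y := fun z => LM (ra h κ) v v (aeval ps (CS c)) n z) (fun z hz => LM_re H _ n hz)
    (fun z hz => LM_re H' _ n hz)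
  have f2 := re_int1 hφ (X := fun z => LM (ra h κ) w w (aeval ps (BS b G)) n z)
    (fun z hz => LM_re H _ n hz)
  have f3 := re_int1 hφ (X := fun z => LM (ra h κ) v v (aeval ps (CS c)) n z)
    (fun z hz => LM_re H' _ n hz)
  have e1 := cen (ρ := ra h κ) H H' hφ (BS b G) (CS c) (ev2 (ra h κ n) 0 (BS b G))
    (ev2 (ra h κ n) 0 (CS c)) n
  have cX : ContinuousOn (fun z => (LM (ra h κ) w w (aeval ps (BS b G)) n z).re -
      ev2 (ra h κ n) 0 (BS b G)) B :=
    (Complex.continuous_re.comp_continuousOn (LM_sm H H _ _ n).continuousOn).sub continuousOn_const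
  have cY : ContinuousOn (fun z => (LM (ra h κ) v v (aeval ps (CS c)) n z).re -
      ev2 (ra h κ n) 0 (CS c)) B :=
    (Complex.continuous_re.comp_continuousOn (LM_sm H' H' _ _ n).continuousOn).sub
      continuousOn_const
  have cs := JC.cs H.op hφ p0 cX cY
  have cs2 := Real.abs_le_sqrt cs
  have cs3 := (le_abs_self _).trans cs2
  rw [e1] at cs3
  simp only [Function.comp_apply]
  rw [f1, f2, f3]
  simp only [sub_re, add_re, ofReal_re, re_ofReal_mul]
  unfold AM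
  linarith

end

end

end Pool.Agent.K13.TP
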