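import Pool.Agent.K13.TP.Lim
import Pool.Agent.K13.TP.Sqb2

/-!
# Polynomials which pick exceptional frequencies
-/

set_option autoImplicit false
set_option linter.unusedSectionVars false
open MeasureTheory Filter Topology

namespace Pool.Agent.K13.TP

noncomputable section

lemma Sy_ev2' (ρ x y P : ℝ) (hs : P + x + y = 2 + 2 * ρ ^ 2) (hd : x * y = (ρ ^ 2 - 1) ^ 2)
    (G : Polynomial A) : ev2 ρ x G + ev2 ρ y G = ev2 ρ P (Sy G) := by
  let _ := algR ρ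
  have hr : rr ℝ = ρ := by
    show Polynomial.eval ρ Polynomial.X = ρ
    simp
  have h := Sy_eq' (Q := ℝ) x y P (by rw [hr]; exact hs) (by rw [hr, hd]) G
  rw [← aeval_ev2, ← aeval_ev2, ← aeval_ev2]
  exact h

lemma ev2_BS (ρ x y P : ℝ) (hs : P + x + y = 2 + 2 * ρ ^ 2) (hd : x * y = (ρ ^ 2 - 1) ^ 2)
    (b G : Polynomial A) : ev2 ρ P (BS b G) =
      1 / 2 * ev2 ρ P b * (ev2 ρ x G + ev2 ρ y G) := by
  rw [Sy_ev2' ρ x y P hs hd, BS, ev2_mul, ev2_mul, ev2_C, Polynomial.eval_C]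

/-- dominated convergence for powers -/
lemma dctp {a q : ℝ → ℝ} (ha : Continuous a) (hq : Continuous q) (h1 : ∀ θ, |q θ| ≤ 1) {S : Set ℝ}
    (hS : S.Countable) (h2 : ∀ θ, θ ∉ S → |q θ| < 1) :
    Tendsto (fun N : ℕ => ∫ θ in (0 : ℝ)..(2 * Real.pi), (a θ * q θ ^ N) ^ 2) atTop (𝓝 0) := by
  refine dct2 (F := fun N θ => a θ * q θ ^ N) (g := fun θ => |a θ|) (fun N => ha.mul (hq.pow N))
    ha.abs (fun N θ => ?_) hS fun θ hθ => ?_
  · rw [abs_mul, abs_pow]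
    exact mul_le_of_le_one_right (abs_nonneg _) (pow_le_one₀ (abs_nonneg _) (h1 θ))
  · have := (tendsto_pow_atTop_nhds_zero_of_abs_lt_one (h2 θ hθ)).const_mul (a θ)
    simpa using this

lemma gp_small {F : ℕ → Polynomial A} {ρ : ℝ} (h : Tendsto (fun N : ℕ =>
    ∫ θ in (0 : ℝ)..(2 * Real.pi), (ev2 ρ (2 + 2 * Real.cos θ) (F N)) ^ 2) atTop (𝓝 0)) :
    Tendsto (fun N => gp (F N) ρ) atTop (𝓝 0) := by
  have := h.const_mul (1 / (2 * Real.pi))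
  rw [mul_zero] at this
  exact this

lemma gx_small {F : ℕ → Polynomial A} {ρ : ℝ} (h : Tendsto (fun N : ℕ =>
    ∫ θ in (0 : ℝ)..(2 * Real.pi), (ev2 ρ (1 + ρ ^ 2 + ρ * (2 * Real.cos θ)) (F N)) ^ 2) atTop
    (𝓝 0)) : Tendsto (fun N => gx (F N) ρ) atTop (𝓝 0) := by
  have := h.const_mul (1 / (2 * Real.pi))
  rw [mul_zero] at this
  exact this

lemma ev2_cx (ρ : ℝ) (F : Polynomial A) : Continuous fun x => ev2 ρ x F :=
  (ev2_cont F).comp (continuous_const.prodMk continuous_id)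

/-- **the choice of the last factor** -/
theorem pickG {ρ r : ℝ} (hρ : 1 ≤ ρ) (hr : 0 < r) (F0 b0 : Polynomial A) (e : ℕ)
    (hF : ev2 ρ r F0 ≠ 0) {r' : ℝ} (hr' : 0 ≤ r') (hrT : r' ≤ 4 + 2 * ρ ^ 2) (hne : r' ≠ r)
    {ε : ℝ} (hε : 0 < ε) : ∃ Hp : Polynomial ℝ,
    ev2 ρ r (F0 * Hp.map Polynomial.C) = 1 ∧ gx (F0 * Hp.map Polynomial.C) ρ < ε ∧
    gp (BS b0 (Polynomial.X ^ e * (Hp.map Polynomial.C) ^ 2)) ρ < ε ∧ |Hp.eval r'| < ε := by
  obtain ⟨T, hT⟩ : ∃ T, T = 4 + 2 * ρ ^ 2 := ⟨_, rfl⟩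
  have T0 : 0 < T := by rw [hT]; positivity
  obtain ⟨c, hc⟩ : ∃ c, c = 1 / (T ^ 2 + r ^ 2) := ⟨_, rfl⟩
  have c0 : 0 < c := by rw [hc]; positivity
  have q1 : ∀ x, 0 ≤ x → x ≤ T → |(qp c r).eval x| ≤ 1 := by
    intro x x0 x1
    rw [qp_ev, abs_le]
    have e1 : c * (x - r) ^ 2 ≤ 1 := by
      rw [hc, one_div, inv_mul_le_iff₀ (by positivity), mul_one]
      nlinarith [mul_nonneg x0 hr.le]
    have e2 : 0 ≤ c * (x - r) ^ 2 := by positivity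
    constructor <;> linarith
  have q2 : ∀ x, 0 ≤ x → x ≤ T → x ≠ r → |(qp c r).eval x| < 1 := by
    intro x x0 x1 xr
    rw [qp_ev, abs_lt]
    have e1 : c * (x - r) ^ 2 ≤ 1 := by
      rw [hc, one_div, inv_mul_le_iff₀ (by positivity), mul_one]
      nlinarith [mul_nonneg x0 hr.le]
    have e2 : 0 < c * (x - r) ^ 2 := by
      have : x - r ≠ 0 := sub_ne_zero.2 xr
      positivity
    constructor <;> linarith
  have q3 : (qp c r).eval r = 1 := by rw [qp_ev]; ring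
  obtain ⟨k, hk⟩ : ∃ k, k = (ev2 ρ r F0)⁻¹ := ⟨_, rfl⟩
  obtain ⟨Hp, hHp⟩ : ∃ Hp : ℕ → Polynomial ℝ, ∀ N, Hp N = Polynomial.C k * qp c r ^ N :=
    ⟨_, fun _ => rfl⟩
  have eH : ∀ N x, (Hp N).eval x = k * (qp c r).eval x ^ N := fun N x => by
    rw [hHp, Polynomial.eval_mul, Polynomial.eval_C, Polynomial.eval_pow]
  have cM : Continuous fun x => ev2 ρ x F0 := ev2_cx ρ F0
  have cH : ∀ N, Continuous fun x => (Hp N).eval x := fun N => (Hp N).continuous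
  have cq : Continuous fun x => (qp c r).eval x := (qp c r).continuous
  have xT : ∀ θ : ℝ, 0 ≤ 1 + ρ ^ 2 + ρ * (2 * Real.cos θ) ∧
      1 + ρ ^ 2 + ρ * (2 * Real.cos θ) ≤ T := by
    intro θ
    have a1 := Real.cos_le_one θ
    have a2 := Real.neg_one_le_cos θ
    rw [hT]
    constructor <;> nlinarith
  have t1 : Tendsto (fun N => ∫ θ in (0 : ℝ)..(2 * Real.pi),
      (ev2 ρ (1 + ρ ^ 2 + ρ * (2 * Real.cos θ)) (F0 * (Hp N).map Polynomial.C)) ^ 2) atTop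
      (𝓝 0) := by
    have ex : Continuous fun θ : ℝ => 1 + ρ ^ 2 + ρ * (2 * Real.cos θ) := by fun_prop
    have := dctp (a := fun θ => ev2 ρ (1 + ρ ^ 2 + ρ * (2 * Real.cos θ)) F0 * k)
      (q := fun θ => (qp c r).eval (1 + ρ ^ 2 + ρ * (2 * Real.cos θ)))
      ((cM.comp ex).mul continuous_const) (cq.comp ex) (fun θ => q1 _ (xT θ).1 (xT θ).2)
      (S := {θ | Real.cos θ = (r - 1 - ρ ^ 2) / (2 * ρ)})
      (Pool.Agent.Y265.HY.JC.cnt _) (fun θ hθ => q2 _ (xT θ).1 (xT θ).2 ?_)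
    · refine this.congr fun N => ?_
      congr 1
      funext θ
      rw [ev2_mul, ev2_map, eH]; ring
    · intro h
      apply hθ
      show Real.cos θ = _
      have : (2 * ρ) ≠ 0 := by positivity
      rw [eq_div_iff this]; linarith
  have t2 : Tendsto (fun N => ∫ θ in (0 : ℝ)..(2 * Real.pi),
      (ev2 ρ (2 + 2 * Real.cos θ) (BS b0 (Polynomial.X ^ e * ((Hp N).map Polynomial.C) ^ 2))) ^ 2)
      atTop (𝓝 0) := by
    have eA : ∀ N θ, ev2 ρ (2 + 2 * Real.cos θ)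
        (BS b0 (Polynomial.X ^ e * ((Hp N).map Polynomial.C) ^ 2)) =
        1 / 2 * ev2 ρ (2 + 2 * Real.cos θ) b0 *
        (rx 1 ρ θ ^ e * (k * (qp c r).eval (rx 1 ρ θ) ^ N) ^ 2 +
         rx (-1) ρ θ ^ e * (k * (qp c r).eval (rx (-1) ρ θ) ^ N) ^ 2) := fun N θ => by
      rw [ev2_BS ρ _ _ _ (rx_sum ρ θ) (rx_mul hρ), ev2_mul, ev2_mul, ev2_pow, ev2_pow, ev2_pow,
        ev2_pow, ev2_X, ev2_X, ev2_map, ev2_map, eH, eH]
    have c1 := rx_co 1 ρ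
    have c2 := rx_co (-1) ρ
    have cc := Real.continuous_cos
    have cb : Continuous fun θ : ℝ => ev2 ρ (2 + 2 * Real.cos θ) b0 :=
      (ev2_cx ρ b0).comp (by fun_prop)
    have d1 := cq.comp c1
    have d2 := cq.comp c2
    simp only [Function.comp_def] at d1 d2
    refine dct2 (g := fun θ => |1 / 2 * ev2 ρ (2 + 2 * Real.cos θ) b0| *
        (rx 1 ρ θ ^ e * k ^ 2 + rx (-1) ρ θ ^ e * k ^ 2)) (fun N => ?_)
      ?_ (fun N θ => ?_) (S := {θ | Real.cos θ =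
        (-(r ^ 2 - (2 + 2 * ρ ^ 2) * r + (ρ ^ 2 - 1) ^ 2) / r - 2) / 2})
      (Pool.Agent.Y265.HY.JC.cnt _) (fun θ hθ => ?_)
    · simp only [eA]
      exact (continuous_const.mul cb).mul ((((c1.pow e)).mul ((continuous_const.mul
        (d1.pow N)).pow 2)).add (((c2.pow e)).mul ((continuous_const.mul (d2.pow N)).pow 2)))
    · exact ((continuous_const.mul cb).abs).mul (((c1.pow e).mul continuous_const).add
        ((c2.pow e).mul continuous_const))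
    · have n1 := rx_nn (θ := θ) hρ
      have n2 := rx_le (θ := θ) hρ
      rw [← hT] at n2
      have b : ∀ x, 0 ≤ x → x ≤ T → x ^ e * (k * (qp c r).eval x ^ N) ^ 2 ≤ x ^ e * k ^ 2 := by
        intro x x0 x1
        rw [mul_pow k]
        have h5 : ((qp c r).eval x ^ N) ^ 2 ≤ 1 := by
          rw [← sq_abs, abs_pow]
          exact pow_le_one₀ (by positivity) (pow_le_one₀ (abs_nonneg _) (q1 x x0 x1))
        exact mul_le_mul_of_nonneg_left (mul_le_of_le_one_right (sq_nonneg _) h5) (by positivity)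
      have p1 := n1.1
      have p2 := n1.2
      rw [eA, abs_mul]
      refine mul_le_mul_of_nonneg_left ?_ (abs_nonneg _)
      rw [abs_of_nonneg (by positivity)]
      exact add_le_add (b _ n1.1 n2.1) (b _ n1.2 n2.2)
    · simp only [eA]
      have n1 := rx_nn (θ := θ) hρ
      have n2 := rx_le (θ := θ) hρ
      rw [← hT] at n2
      have b : ∀ x y, 0 ≤ x → x ≤ T → (2 + 2 * Real.cos θ) + x + y = 2 + 2 * ρ ^ 2 →
          x * y = (ρ ^ 2 - 1) ^ 2 →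
          Tendsto (fun N => x ^ e * (k * (qp c r).eval x ^ N) ^ 2) atTop (𝓝 0) := by
        intro x y x0 x1 hs hd
        have hne : x ≠ r := rx_ne hr hs hd hθ
        have h10 := tendsto_pow_atTop_nhds_zero_of_abs_lt_one (q2 _ x0 x1 hne)
        have h11 := ((h10.const_mul k).pow 2).const_mul (x ^ e)
        simpa using h11
      have b1 := b _ _ n1.1 n2.1 (rx_sum ρ θ) (rx_mul hρ)
      have b2 := b (rx (-1) ρ θ) (rx 1 ρ θ) n1.2 n2.2 (by linarith [rx_sum ρ θ])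
        (by rw [mul_comm]; exact rx_mul hρ)
      have := (b1.add b2).const_mul (1 / 2 * ev2 ρ (2 + 2 * Real.cos θ) b0)
      simpa using this
  have t3 : Tendsto (fun N => |(Hp N).eval r'|) atTop (𝓝 0) := by
    have h10 := tendsto_pow_atTop_nhds_zero_of_abs_lt_one (q2 r' hr' (by rw [hT]; exact hrT) hne)
    have h11 := (h10.const_mul k).abs
    rw [mul_zero, abs_zero] at h11
    exact h11.congr fun N => by rw [eH]
  obtain ⟨N, hN1, hN2, hN3⟩ := (((gx_small t1).eventually (gt_mem_nhds hε)).and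
    (((gp_small t2).eventually (gt_mem_nhds hε)).and (t3.eventually (gt_mem_nhds hε)))).exists
  refine ⟨Hp N, ?_, hN1, hN2, hN3⟩
  rw [ev2_mul, ev2_map, eH, q3, one_pow, mul_one, hk, mul_inv_cancel₀ hF]

/-- the weights in the second wave -/
lemma ev_cD (ρ P : ℝ) (T : ℝ) (M : ℕ) : ev2 ρ P (CS (cD T M)) =
    (4 * ρ ^ 2 - ρ ^ 2 * P) * (1 - 1 / T * (ρ ^ 2 * P)) ^ M := by
  have : ∀ F : Polynomial A, ev2 ρ P (CS F) = ev2 ρ (ρ ^ 2 * P) F := by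
    intro F
    simp only [ev2, CS, Polynomial.map_comp, Polynomial.eval_comp]
    simp
  rw [this]
  simp [cD, ev2]

lemma ev_cR (ρ P : ℝ) (c : ℝ) (M : ℕ) : ev2 ρ P (CS (cRt c M)) =
    ρ ^ 2 * P * (4 * ρ ^ 2 - ρ ^ 2 * P) * (1 - c * (ρ ^ 2 * P - 4) ^ 2) ^ M := by
  have : ∀ F : Polynomial A, ev2 ρ P (CS F) = ev2 ρ (ρ ^ 2 * P) F := by
    intro F
    simp only [ev2, CS, Polynomial.map_comp, Polynomial.eval_comp]
    simp
  rw [this]
  simp [cRt, ev2]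

lemma ev_bD (ρ P : ℝ) (T : ℝ) (M : ℕ) : ev2 ρ P (bD T M) = (4 - P) * (1 - 1 / T * P) ^ M := by
  simp [bD, ev2]

lemma ev_bR (ρ P : ℝ) (c : ℝ) (M : ℕ) : ev2 ρ P (bRt c M) = P * (1 - c * (P - 4) ^ 2) ^ M := by
  simp [bRt, ev2]

lemma ev_FD (ρ x : ℝ) (T : ℝ) (M : ℕ) : ev2 ρ x (FD T M 1) =
    (x - (ρ ^ 2 - 1)) * (x + (ρ ^ 2 - 1)) *
      (x + 1 / T * (x ^ 2 - 2 * (1 + ρ ^ 2) * x + (ρ ^ 2 - 1) ^ 2)) ^ M := by
  simp [FD, Ym, Yp, Np, ev2]

lemma ev_FR (ρ x : ℝ) (c : ℝ) (M : ℕ) : ev2 ρ x (FR c M 1) =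
    (x ^ 2 - 2 * (1 + ρ ^ 2) * x + (ρ ^ 2 - 1) ^ 2) * (x + (ρ ^ 2 - 1)) *
      (x ^ 2 - c * (x - (ρ ^ 2 - 1)) ^ 4) ^ M := by
  simp [FR, Ym, Yp, Np, ev2]

end

end Pool.Agent.K13.TP
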