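import Pool.Agent.K13.TP.Mom

/-!
# Moments of products of quadratic expressions
-/

set_option autoImplicit false
set_option linter.unusedSectionVars false
open MeasureTheory Filter Topology Complex Set
open scoped ContDiff Real Manifold

namespace Pool.Agent.K13.TP

open Pool.Agent.W745.RW Pool.Agent.TH294.RS Pool.Agent.Y265.HY

noncomputable section

section gen
variable {G H : Type*} {ρ : ℕ → ℝ} {D D' : G → ℕ → ℂ}

lemma Ev_smulD (x : AddMonoidAlgebra A G) (c : ℂ) (n : ℕ) :
    Ev ρ (fun m n => c * D m n) x n = c * Ev ρ D x n := by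
  induction x using AddMonoidAlgebra.induction_linear with
  | zero => rw [Ev_zero, Ev_zero, mul_zero]
  | add x y h1 h2 => rw [Ev_add, Ev_add, h1, h2]; ring
  | single m p => rw [Ev_single, Ev_single]; ring

lemma Ev_cg (x : AddMonoidAlgebra A G) (n : ℕ) (h : ∀ m, D m n = D' m n) :
    Ev ρ D x n = Ev ρ D' x n := by
  induction x using AddMonoidAlgebra.induction_linear with
  | zero => rw [Ev_zero, Ev_zero]
  | add x y h1 h2 => rw [Ev_add, Ev_add, h1, h2]
  | single m p => rw [Ev_single, Ev_single, h m]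

lemma Ev_null {C : ℝ} (hρ : ∀ n, |ρ n| ≤ C) (h : ∀ m, Null (D m)) (x : AddMonoidAlgebra A G) :
    Null (Ev ρ D x) := by
  induction x using AddMonoidAlgebra.induction_linear with
  | zero => exact tendsto_const_nhds.congr fun n => (Ev_zero n).symm
  | add x y h1 h2 =>
    have := Tendsto.add h1 h2
    rw [add_zero] at this
    exact this.congr fun n => (Ev_add x y n).symm
  | single m p =>
    obtain ⟨C', hC'⟩ := poly_bd hρ p
    exact (null_bd (h m) hC').congr fun n => (Ev_single m p n).symm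

lemma Ev_int {g : ℂ → ℂ} {f : G → ℂ → ℂ} (hf : ∀ m, Integrable (fun z => g z * f m z))
    (x : AddMonoidAlgebra A G) (n : ℕ) :
    Integrable (fun z => g z * Ev ρ (fun m _ => f m z) x n) ∧
    Ev ρ (fun m _ => ∫ z, g z * f m z) x n = ∫ z, g z * Ev ρ (fun m _ => f m z) x n := by
  induction x using AddMonoidAlgebra.induction_linear with
  | zero =>
    simp only [Ev_zero, mul_zero, integral_zero, and_true]
    exact integrable_zero _ _ _
  | add x y h1 h2 =>
    obtain ⟨i1, e1⟩ := h1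
    obtain ⟨i2, e2⟩ := h2
    simp only [Ev_add]
    have e : (fun z => g z * (Ev ρ (fun m _ => f m z) x n + Ev ρ (fun m _ => f m z) y n)) =
        fun z => g z * Ev ρ (fun m _ => f m z) x n + g z * Ev ρ (fun m _ => f m z) y n := by
      funext z; ring
    rw [e]
    refine ⟨i1.add i2, ?_⟩
    rw [integral_add i1 i2, e1, e2]
  | single m p =>
    simp only [Ev_single]
    have e : (fun z => g z * (((p.eval (ρ n) : ℝ) : ℂ) * f m z)) =
        fun z => ((p.eval (ρ n) : ℝ) : ℂ) * (g z * f m z) := by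
      funext z; ring
    rw [e]
    refine ⟨(hf m).const_mul _, ?_⟩
    rw [integral_const_mul]

lemma Ev_pair {K : Type*} [AddMonoid K] (D : K → ℕ → ℂ) (x y : AddMonoidAlgebra A K) (n : ℕ) :
    Ev ρ D (x * y) n = Ev ρ (fun m n => Ev ρ (fun k n => D (m + k) n) y n) x n := by
  induction x using AddMonoidAlgebra.induction_linear with
  | zero => rw [zero_mul, Ev_zero, Ev_zero]
  | add x x' h1 h2 => rw [add_mul, Ev_add, Ev_add, h1, h2]
  | single m p =>
    rw [Ev_single]
    induction y using AddMonoidAlgebra.induction_linear with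
    | zero => rw [mul_zero, Ev_zero, Ev_zero, mul_zero]
    | add y y' h1 h2 => rw [mul_add, Ev_add, Ev_add, h1, h2]; ring
    | single k q =>
      rw [AddMonoidAlgebra.single_mul_single, Ev_single, Ev_single, Polynomial.eval_mul]
      push_cast; ring

/-- evaluation at a character -/
lemma Ev_char {K : Type*} [AddMonoid K] {χ : K → ℕ → ℂ} (hχ : ∀ a b n, χ (a + b) n = χ a n * χ b n)
    (x y : AddMonoidAlgebra A K) (n : ℕ) : Ev ρ χ (x * y) n = Ev ρ χ x n * Ev ρ χ y n := by
  rw [Ev_pair]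
  have : Ev ρ (fun m n => Ev ρ (fun k n => χ (m + k) n) y n) x n =
      Ev ρ (fun m n' => Ev ρ χ y n * χ m n) x n := by
    refine Ev_cg x n fun m => ?_
    have e2 : Ev ρ (fun k n => χ (m + k) n) y n = Ev ρ (fun k n' => χ m n * χ k n) y n :=
      Ev_cg y n fun k => hχ m k n
    rw [e2, Ev_smulD (D := fun k _ => χ k n), mul_comm]
    congr 1
  rw [this, Ev_smulD (D := fun m _ => χ m n), mul_comm]
  congr 1

end gen

section
variable {ρ : ℕ → ℝ} {B : Set ℂ} {h κ : ℕ → ℝ} {w v w1 v1 w2 v2 : ℤ → ℕ → ℂ → ℂ}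

lemma Ev_J2 (D : Z4 → ℕ → ℂ) (g g' : ℤ →+ Z4) (a b : R1) (n : ℕ) :
    Ev ρ D (JJ g a * JJ g' b) n = Ev ρ (fun m n => Ev ρ (fun k n => D (g m + g' k) n) b n) a n := by
  rw [Ev_pair, Ev_JJ]
  refine Ev_cg a n fun m => ?_
  rw [Ev_JJ]

lemma LM_co (c3 : ∀ m n, ContinuousOn (w2 m n) B) (c4 : ∀ m n, ContinuousOn (v2 m n) B)
    (b : R1) (n : ℕ) : ContinuousOn (fun z => LM ρ w2 v2 b n z) B := by
  induction b using AddMonoidAlgebra.induction_linear with
  | zero =>
    refine (continuousOn_const (c := (0 : ℂ))).congr fun z _ => LM_zero n z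
  | add x y h1 h2 => exact (h1.add h2).congr fun z _ => LM_add x y n z
  | single m p =>
    exact (continuousOn_const.mul ((c3 m n).mul (c4 (-m) n))).congr fun z _ =>
      LM_single m p n z

lemma Ev_prod {φ : ℂ → ℝ} (hφ : TF B φ) (c1 : ∀ m n, ContinuousOn (w1 m n) B)
    (c2 : ∀ m n, ContinuousOn (v1 m n) B) (c3 : ∀ m n, ContinuousOn (w2 m n) B)
    (c4 : ∀ m n, ContinuousOn (v2 m n) B) {D : Z4 → ℕ → ℂ} {g g' : ℤ →+ Z4}
    (hD : ∀ m k n, D (g m + g' k) n = ∫ z, (φ z : ℂ) * ((w1 m n z * v1 (-m) n z) *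
      (w2 k n z * v2 (-k) n z))) (a b : R1) (n : ℕ) :
    Ev ρ D (JJ g a * JJ g' b) n = ∫ z, (φ z : ℂ) * (LM ρ w1 v1 a n z * LM ρ w2 v2 b n z) := by
  rw [Ev_J2]
  have e1 : ∀ m, Ev ρ (fun k n => D (g m + g' k) n) b n =
      ∫ z, (φ z : ℂ) * (w1 m n z * v1 (-m) n z) * LM ρ w2 v2 b n z := by
    intro m
    have i := Ev_int (ρ := ρ) (g := fun z => (φ z : ℂ) * (w1 m n z * v1 (-m) n z))
      (f := fun k z => w2 k n z * v2 (-k) n z) (fun k => by
        have := TF.cint hφ (((c1 m n).mul (c2 (-m) n)).mul ((c3 k n).mul (c4 (-k) n)))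
        refine this.congr (Eventually.of_forall fun z => ?_)
        simp only [Pi.mul_apply]; ring) b n
    rw [show (∫ z, (φ z : ℂ) * (w1 m n z * v1 (-m) n z) * LM ρ w2 v2 b n z) =
      ∫ z, (φ z : ℂ) * (w1 m n z * v1 (-m) n z) * Ev ρ (fun k _ => w2 k n z * v2 (-k) n z) b n from
        rfl, ← i.2]
    refine Ev_cg b n fun k => ?_
    rw [hD]
    congr 1; funext z; ring
  have e2 : Ev ρ (fun m n => Ev ρ (fun k n => D (g m + g' k) n) b n) a n =
      Ev ρ (fun m _ => ∫ z, ((φ z : ℂ) * LM ρ w2 v2 b n z) * (w1 m n z * v1 (-m) n z)) a n := by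
    refine Ev_cg a n fun m => ?_
    rw [e1 m]
    congr 1; funext z; ring
  have cL : ContinuousOn (fun z => LM ρ w2 v2 b n z) B := LM_co c3 c4 b n
  rw [e2, (Ev_int (ρ := ρ) (g := fun z => (φ z : ℂ) * LM ρ w2 v2 b n z)
      (f := fun m z => w1 m n z * v1 (-m) n z) (fun m => by
        have := TF.cint hφ (cL.mul ((c1 m n).mul (c2 (-m) n)))
        refine this.congr (Eventually.of_forall fun z => ?_)
        simp only [Pi.mul_apply]; ring) a n).2]
  congr 1; funext z
  have e3 : Ev ρ (fun m _ => w1 m n z * v1 (-m) n z) a n = LM ρ w1 v1 a n z := rfl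
  rw [e3]; ring

end

end

end Pool.Agent.K13.TP
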