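import Mathlib

/-!
# The kinematics of four plane waves in the plane

Polynomial identities for four plane waves `z₁, z₂` (frequency `1`) and `w₁, w₂` (frequency `r`)
with vanishing total momentum, modulo the null form.
-/

set_option autoImplicit false

namespace Pool.Agent.K13.TP

noncomputable section

open Polynomial

/-- the ring of coefficients: polynomials in the ratio of the frequencies -/
abbrev A := Polynomial ℝ

/-- the image of the ratio -/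
def rr (Q : Type*) [CommRing Q] [Algebra A Q] : Q := algebraMap A Q Polynomial.X

/-- the kinematic relations -/
structure Kin (Q : Type*) [CommRing Q] [Algebra A Q] (z1 z1' z2 z2' w1 w1' w2 w2' : Q) : Prop where
  i1 : z1 * z1' = 1
  i2 : z2 * z2' = 1
  j1 : w1 * w1' = 1
  j2 : w2 * w2' = 1
  T : z1 + z2 + rr Q * (w1 + w2) = 0
  T' : z1' + z2' + rr Q * (w1' + w2') = 0
  N : z1 * z2 * (w1' * w2') + z1' * z2' * (w1 * w2) = 2

variable {Q : Type*} [CommRing Q] [Algebra A Q]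

/-- the frequency of the product of a wave of frequency `1` and a wave of frequency `r` -/
def xx (z z' w w' : Q) : Q := 1 + rr Q ^ 2 + rr Q * (z * w' + z' * w)

/-- the frequency of the product of the two waves of frequency `1` -/
def PP (z1 z1' z2 z2' : Q) : Q := 2 + (z1 * z2' + z1' * z2)

variable {z1 z1' z2 z2' w1 w1' w2 w2' : Q}

lemma Kin.swap (K : Kin Q z1 z1' z2 z2' w1 w1' w2 w2') : Kin Q z1 z1' z2 z2' w2 w2' w1 w1' where
  i1 := K.i1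
  i2 := K.i2
  j1 := K.j2
  j2 := K.j1
  T := by linear_combination K.T
  T' := by linear_combination K.T'
  N := by linear_combination K.N

lemma Kin.xx2 (K : Kin Q z1 z1' z2 z2' w1 w1' w2 w2') : xx z2 z2' w2 w2' = xx z1 z1' w1 w1' := by
  unfold xx
  linear_combination (z2 + rr Q * w2) * K.T' - (z1' + rr Q * w1') * K.T + K.i1 - K.i2 -
    (rr Q) ^ 2 * K.j2 + (rr Q) ^ 2 * K.j1

lemma Kin.PPg (K : Kin Q z1 z1' z2 z2' w1 w1' w2 w2') :
    rr Q ^ 2 * PP w1 w1' w2 w2' = PP z1 z1' z2 z2' := by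
  unfold PP
  linear_combination (rr Q * (w1' + w2')) * K.T - (z1 + z2) * K.T' + K.i1 + K.i2 -
    (rr Q) ^ 2 * K.j2 - (rr Q) ^ 2 * K.j1

lemma Kin.sum (K : Kin Q z1 z1' z2 z2' w1 w1' w2 w2') :
    PP z1 z1' z2 z2' + xx z1 z1' w1 w1' + xx z1 z1' w2 w2' = 2 + 2 * rr Q ^ 2 := by
  unfold PP xx
  linear_combination z1 * K.T' + z1' * K.T - 2 * K.i1

/-- `(z₁ + z₂) (e - 1) = 0` -/
lemma Kin.pe (K : Kin Q z1 z1' z2 z2' w1 w1' w2 w2') :
    (z1 + z2) * (z1 * z2 * (w1' * w2') - 1) = 0 := by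
  linear_combination (-z1 * z2) * K.T' + (z1 * z2 * (w1' * w2')) * K.T + z2 * K.i1 + z1 * K.i2
    - (rr Q * z1 * z2 * w2') * K.j1 - (rr Q * z1 * z2 * w1') * K.j2

/-- `e e' = 1` -/
lemma Kin.ee (K : Kin Q z1 z1' z2 z2' w1 w1' w2 w2') :
    z1 * z2 * (w1' * w2') * (z1' * z2' * (w1 * w2)) = 1 := by
  have : z1 * z2 * (w1' * w2') * (z1' * z2' * (w1 * w2)) =
      (z1 * z1') * (z2 * z2') * (w1 * w1') * (w2 * w2') := by ring
  rw [this, K.i1, K.i2, K.j1, K.j2]; ring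

/-- `(e - 1)² = 0` -/
lemma Kin.e2 (K : Kin Q z1 z1' z2 z2' w1 w1' w2 w2') :
    (z1 * z2 * (w1' * w2') - 1) ^ 2 = 0 := by
  linear_combination (z1 * z2 * (w1' * w2')) * K.N - K.ee

/-- the defect of the kinematic relation -/
def dl (z1 z1' w1 w1' w2 w2' : Q) : Q :=
  (rr Q ^ 2 - 1) ^ 2 - xx z1 z1' w1 w1' * xx z1 z1' w2 w2'

/-- the defect is a multiple of `e - 1` -/
lemma Kin.dl_e (K : Kin Q z1 z1' z2 z2' w1 w1' w2 w2') :
    dl z1 z1' w1 w1' w2 w2' = - rr Q ^ 2 * (z1 * z2 * (w1' * w2') - 1) *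
      (z1 * z2' - z1' * z2 * (z1' * z2' * (w1 * w2))) := by
  have h1 : xx z1 z1' w1 w1' * xx z1 z1' w2 w2' = (1 + rr Q ^ 2) ^ 2 + (1 + rr Q ^ 2) *
      (rr Q * (z1 * (w1' + w2') + z1' * (w1 + w2))) + rr Q ^ 2 * (z1 ^ 2 * (w1' * w2') +
      z1' ^ 2 * (w1 * w2) + (z1 * z1') * (w1 * w2' + w1' * w2)) := by
    unfold xx; ring
  have h2 : rr Q * (z1 * (w1' + w2') + z1' * (w1 + w2)) = - PP z1 z1' z2 z2' := by
    unfold PP
    linear_combination z1 * K.T' + z1' * K.T - 2 * K.i1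
  have h3 : rr Q ^ 2 * (w1 * w2' + w1' * w2) = PP z1 z1' z2 z2' - 2 * rr Q ^ 2 := by
    have := K.PPg
    have e : PP w1 w1' w2 w2' = 2 + (w1 * w2' + w1' * w2) := rfl
    rw [e] at this
    linear_combination this
  have hP : PP z1 z1' z2 z2' = 2 + (z1 * z2' + z1' * z2) := rfl
  have h4 : z1 ^ 2 * (w1' * w2') = z1 * z2' * (z1 * z2 * (w1' * w2')) := by
    linear_combination (-(z1 ^ 2 * (w1' * w2'))) * K.i2
  have h5 : z1' ^ 2 * (w1 * w2) = z1' * z2 * (z1' * z2' * (w1 * w2)) := by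
    linear_combination (-(z1' ^ 2 * (w1 * w2))) * K.i2
  have h6 := K.ee
  obtain ⟨e, he⟩ : ∃ e, e = z1 * z2 * (w1' * w2') := ⟨_, rfl⟩
  obtain ⟨e', he'⟩ : ∃ e, e = z1' * z2' * (w1 * w2) := ⟨_, rfl⟩
  unfold dl
  rw [h1, h2, h4, h5, K.i1]
  rw [← he, ← he'] at h6 ⊢
  have h7 : rr Q ^ 2 * (z1 * z2' * e + z1' * z2 * e' + 1 * (w1 * w2' + w1' * w2)) =
      rr Q ^ 2 * (z1 * z2' * e + z1' * z2 * e') + (PP z1 z1' z2 z2' - 2 * rr Q ^ 2) := by
    rw [← h3]; ring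
  rw [h7, hP]
  linear_combination (-(rr Q ^ 2 * z1' * z2)) * h6

lemma Kin.Pe (K : Kin Q z1 z1' z2 z2' w1 w1' w2 w2') :
    PP z1 z1' z2 z2' * (z1 * z2 * (w1' * w2') - 1) = 0 := by
  have : PP z1 z1' z2 z2' = (z1 + z2) * (z1' + z2') := by
    unfold PP
    linear_combination -K.i1 - K.i2
  rw [this]
  linear_combination (z1' + z2') * K.pe

lemma Kin.Pdl (K : Kin Q z1 z1' z2 z2' w1 w1' w2 w2') :
    PP z1 z1' z2 z2' * dl z1 z1' w1 w1' w2 w2' = 0 := by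
  rw [K.dl_e]
  linear_combination (- rr Q ^ 2 * (z1 * z2' - z1' * z2 * (z1' * z2' * (w1 * w2)))) * K.Pe

lemma Kin.dl2 (K : Kin Q z1 z1' z2 z2' w1 w1' w2 w2') : dl z1 z1' w1 w1' w2 w2' ^ 2 = 0 := by
  rw [K.dl_e]
  linear_combination (rr Q ^ 4 * (z1 * z2' - z1' * z2 * (z1' * z2' * (w1 * w2))) ^ 2) * K.e2

/-- `N(Y) = Y² - 2 (1 + r²) Y + (r² - 1)²`, with the roots `(1 ± r)²` -/
def Np : Polynomial A := Polynomial.X ^ 2 - C (2 * (1 + X ^ 2)) * Polynomial.X + C ((X ^ 2 - 1) ^ 2)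

/-- `M(Y) = N(Y) (Y² - (r² - 1)²)` -/
def Mp : Polynomial A := Np * (Polynomial.X ^ 2 - C ((X ^ 2 - 1) ^ 2))

lemma am2 : algebraMap A Q 2 = 2 := map_ofNat _ 2

lemma aN (x : Q) : aeval x Np = x ^ 2 - 2 * (1 + rr Q ^ 2) * x + (rr Q ^ 2 - 1) ^ 2 := by
  simp [Np, rr, am2]

lemma aM (x : Q) : aeval x Mp = (x ^ 2 - 2 * (1 + rr Q ^ 2) * x + (rr Q ^ 2 - 1) ^ 2) *
    (x ^ 2 - (rr Q ^ 2 - 1) ^ 2) := by
  rw [Mp, map_mul, aN]
  simp [rr]

/-- **the key identity** -/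
theorem Kin.key (K : Kin Q z1 z1' z2 z2' w1 w1' w2 w2') {x P : Q} (hx : x = xx z1 z1' w1 w1')
    (hP : P = PP z1 z1' z2 z2') :
    (aeval x Mp) ^ 2 = P ^ 2 * x ^ 4 * (4 - P) * (4 * rr Q ^ 2 - P) := by
  obtain ⟨y, hy⟩ : ∃ y, y = xx z1 z1' w2 w2' := ⟨_, rfl⟩
  obtain ⟨r, hr⟩ : ∃ r, r = rr Q := ⟨_, rfl⟩
  have hs := K.sum
  have h1 := K.Pdl
  have h2 := K.dl2
  unfold dl at h1 h2
  rw [aM]
  rw [← hx, ← hP, ← hy, ← hr] at hs
  rw [← hx, ← hy, ← hr] at h1 h2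
  rw [← hP] at h1
  rw [← hr]
  -- `N + P x = δ`
  obtain ⟨D, hD⟩ : ∃ D, D = (r ^ 2 - 1) ^ 2 - x * y := ⟨_, rfl⟩
  rw [← hD] at h1 h2
  have hN : x ^ 2 - 2 * (1 + r ^ 2) * x + (r ^ 2 - 1) ^ 2 = D - P * x := by
    rw [hD]; linear_combination x * hs
  have hd : (r ^ 2 - 1) ^ 2 = D - P * x - x ^ 2 + 2 * (1 + r ^ 2) * x := by
    linear_combination hN
  -- `N² = P² x²`
  have hNN : (x ^ 2 - 2 * (1 + r ^ 2) * x + (r ^ 2 - 1) ^ 2) ^ 2 = P ^ 2 * x ^ 2 := by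
    rw [hN]; linear_combination h2 - 2 * x * h1
  have e : (x ^ 2 - (r ^ 2 - 1) ^ 2) ^ 2 = (x ^ 2 - 2 * (r ^ 2 - 1) * x + (r ^ 2 - 1) ^ 2) *
      (x ^ 2 + 2 * (r ^ 2 - 1) * x + (r ^ 2 - 1) ^ 2) := by ring
  have f1 : P * (x ^ 2 - 2 * (r ^ 2 - 1) * x + (r ^ 2 - 1) ^ 2) = P * (x * (4 - P)) := by
    linear_combination h1 + P * hN
  have f2 : P * (x ^ 2 + 2 * (r ^ 2 - 1) * x + (r ^ 2 - 1) ^ 2) = P * (x * (4 * r ^ 2 - P)) := by
    linear_combination h1 + P * hN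
  rw [mul_pow, hNN, e]
  linear_combination (x ^ 2 * (P * (x ^ 2 + 2 * (r ^ 2 - 1) * x + (r ^ 2 - 1) ^ 2))) * f1 +
    (x ^ 2 * (P * (x * (4 - P)))) * f2

/-- the power sums `x^m + y^m` as polynomials in `P`, where `x + y = 2 + 2 r² - P` and
`x y = (r² - 1)²` -/
def Sm : ℕ → Polynomial A
  | 0 => 2
  | 1 => C (2 + 2 * X ^ 2) - Polynomial.X
  | (m + 2) => (C (2 + 2 * X ^ 2) - Polynomial.X) * Sm (m + 1) - C ((X ^ 2 - 1) ^ 2) * Sm m

lemma Sm_rec (x y P : Q) (hs : P + x + y = 2 + 2 * rr Q ^ 2)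
    (hd : P * ((rr Q ^ 2 - 1) ^ 2 - x * y) = 0) (m : ℕ) :
    P * (x ^ m + y ^ m) = P * aeval P (Sm m) := by
  induction m using Nat.twoStepInduction with
  | zero =>
    have : aeval P (2 : Polynomial A) = 2 := map_ofNat _ 2
    simp only [Sm, this]; ring
  | one =>
    simp only [Sm, map_sub, aeval_C, aeval_X, map_add, map_mul, map_pow, pow_one]
    have : algebraMap A Q X = rr Q := rfl
    rw [this, map_ofNat]
    linear_combination P * hs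
  | more m h1 h2 =>
    have e : aeval P (Sm (m + 2)) = (2 + 2 * rr Q ^ 2 - P) * aeval P (Sm (m + 1)) -
        (rr Q ^ 2 - 1) ^ 2 * aeval P (Sm m) := by
      simp only [Sm, map_sub, aeval_C, aeval_X, map_add, map_mul, map_pow]
      have : algebraMap A Q X = rr Q := rfl
      rw [this, map_ofNat, map_one]
    rw [e]
    have hx : x = 2 + 2 * rr Q ^ 2 - P - y := by linear_combination hs
    linear_combination (2 + 2 * rr Q ^ 2 - P) * h2 - (rr Q ^ 2 - 1) ^ 2 * h1 +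
      (x ^ m + y ^ m) * hd + (P * (x ^ (m + 1) + y ^ (m + 1))) * hs

/-- symmetrisation of a polynomial -/
def Sy (G : Polynomial A) : Polynomial A := G.sum fun m c => C c * Sm m

lemma Sy_eq (x y P : Q) (hs : P + x + y = 2 + 2 * rr Q ^ 2)
    (hd : P * ((rr Q ^ 2 - 1) ^ 2 - x * y) = 0) (G : Polynomial A) :
    P * (aeval x G + aeval y G) = P * aeval P (Sy G) := by
  rw [Sy, Polynomial.sum_def, map_sum, aeval_eq_sum_range, aeval_eq_sum_range,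
    ← Finset.sum_add_distrib]
  have e : ∀ m, algebraMap A Q (G.coeff m) * (P * (x ^ m + y ^ m)) =
      algebraMap A Q (G.coeff m) * (P * aeval P (Sm m)) := fun m => by rw [Sm_rec x y P hs hd]
  have e2 : P * ∑ m ∈ G.support, aeval P (C (G.coeff m) * Sm m) =
      ∑ m ∈ Finset.range (G.natDegree + 1), algebraMap A Q (G.coeff m) * (P * aeval P (Sm m)) := by
    rw [Finset.mul_sum]
    refine Finset.sum_subset_zero_on_sdiff (fun m hm => ?_) (fun m hm => ?_) fun m _ => ?_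
    · exact Finset.mem_range_succ_iff.2 (le_natDegree_of_mem_supp m hm)
    · have : G.coeff m = 0 := notMem_support_iff.1 (Finset.mem_sdiff.1 hm).2
      rw [this]; simp
    · rw [map_mul, aeval_C]; ring
  rw [e2, Finset.mul_sum]
  refine Finset.sum_congr rfl fun m _ => ?_
  rw [← e m, Algebra.smul_def, Algebra.smul_def]
  ring

/-- the final identity -/
theorem Kin.fin (K : Kin Q z1 z1' z2 z2' w1 w1' w2 w2') (H : Polynomial A) :
    aeval (xx z1 z1' w1 w1') (Mp * H) * aeval (xx z2 z2' w2 w2') (Mp * H) =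
      PP z1 z1' z2 z2' ^ 2 * (4 - PP z1 z1' z2 z2') * (4 * rr Q ^ 2 - PP z1 z1' z2 z2') *
      aeval (xx z1 z1' w1 w1') ((Polynomial.X ^ 2 * H) ^ 2) := by
  rw [K.xx2]
  have h := K.key rfl rfl
  simp only [map_mul, map_pow, aeval_X]
  linear_combination (aeval (xx z1 z1' w1 w1') H) ^ 2 * h

end

end Pool.Agent.K13.TP
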