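import Pool.Agent.K13.TP.Ring

/-!
# The kinematics of four plane waves: exact quadratic relation
-/

set_option autoImplicit false

namespace Pool.Agent.K13.TP

noncomputable section

open Polynomial

variable {Q : Type*} [CommRing Q] [Algebra A Q]
variable {z1 z1' z2 z2' w1 w1' w2 w2' : Q}

lemma Kin.conj (K : Kin Q z1 z1' z2 z2' w1 w1' w2 w2') : Kin Q z1' z1 z2' z2 w1' w1 w2' w2 where
  i1 := by linear_combination K.i1
  i2 := by linear_combination K.i2
  j1 := by linear_combination K.j1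
  j2 := by linear_combination K.j2
  T := K.T'
  T' := K.T
  N := by linear_combination K.N

/-- `(z₁' + z₂') (e - 1) = 0` -/
lemma Kin.pe' (K : Kin Q z1 z1' z2 z2' w1 w1' w2 w2') :
    (z1' + z2') * (z1 * z2 * (w1' * w2') - 1) = 0 := by
  have h := K.conj.pe
  linear_combination (z1' + z2') * K.N - h

/-- the defect vanishes -/
lemma Kin.dl0 (K : Kin Q z1 z1' z2 z2' w1 w1' w2 w2') : dl z1 z1' w1 w1' w2 w2' = 0 := by
  have h1 := K.pe
  have h2 := K.pe'
  have h3 := K.e2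
  have h4 := K.N
  rw [K.dl_e]
  obtain ⟨e, he⟩ : ∃ e, e = z1 * z2 * (w1' * w2') := ⟨_, rfl⟩
  obtain ⟨e', he'⟩ : ∃ e, e = z1' * z2' * (w1 * w2) := ⟨_, rfl⟩
  rw [← he] at h1 h2 h3
  rw [← he, ← he'] at h4 ⊢
  have k1 : (e - 1) * (z1 * z2') = -(e - 1) := by
    linear_combination z1 * h2 - (e - 1) * K.i1
  have k2 : (e - 1) * (z1' * z2) = -(e - 1) := by
    linear_combination z1' * h1 - (e - 1) * K.i1
  have k3 : (e - 1) * e' = e - 1 := by
    linear_combination (e - 1) * h4 - h3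
  linear_combination (-rr Q ^ 2) * k1 + (rr Q ^ 2 * e') * k2 - (rr Q ^ 2) * k3

/-- the product of the two frequencies -/
lemma Kin.mul (K : Kin Q z1 z1' z2 z2' w1 w1' w2 w2') :
    xx z1 z1' w1 w1' * xx z1 z1' w2 w2' = (rr Q ^ 2 - 1) ^ 2 := by
  have := K.dl0
  unfold dl at this
  linear_combination -this

/-- the quadratic relation -/
lemma Kin.quad (K : Kin Q z1 z1' z2 z2' w1 w1' w2 w2') :
    xx z1 z1' w1 w1' ^ 2 - 2 * (1 + rr Q ^ 2) * xx z1 z1' w1 w1' + (rr Q ^ 2 - 1) ^ 2 =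
      -(PP z1 z1' z2 z2' * xx z1 z1' w1 w1') := by
  linear_combination (xx z1 z1' w1 w1') * K.sum - K.mul

/-- `Y - d` and `Y + d`, `d = r² - 1` -/
def Ym : Polynomial A := Polynomial.X - C (X ^ 2 - 1)
def Yp : Polynomial A := Polynomial.X + C (X ^ 2 - 1)

lemma aYm (x : Q) : aeval x Ym = x - (rr Q ^ 2 - 1) := by
  simp [Ym, rr]

lemma aYp (x : Q) : aeval x Yp = x + (rr Q ^ 2 - 1) := by
  simp [Yp, rr]

lemma quad_m {x P : Q} (h : x ^ 2 - 2 * (1 + rr Q ^ 2) * x + (rr Q ^ 2 - 1) ^ 2 = -(P * x)) :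
    (aeval x Ym) ^ 2 = x * (4 - P) := by
  rw [aYm]; linear_combination h

lemma quad_p {x P : Q} (h : x ^ 2 - 2 * (1 + rr Q ^ 2) * x + (rr Q ^ 2 - 1) ^ 2 = -(P * x)) :
    (aeval x Yp) ^ 2 = x * (4 * rr Q ^ 2 - P) := by
  rw [aYp]; linear_combination h

/-- the polynomials for degenerate triangles -/
def FD (T : ℝ) (M : ℕ) (H : Polynomial A) : Polynomial A :=
  Ym * Yp * (Polynomial.X + C (C (1 / T)) * Np) ^ M * H

/-- the polynomials for right triangles -/
def FR (c : ℝ) (M : ℕ) (H : Polynomial A) : Polynomial A :=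
  Np * Yp * (Polynomial.X ^ 2 - C (C c) * Ym ^ 4) ^ M * H

/-- the weights in the second wave -/
def cD (T : ℝ) (M : ℕ) : Polynomial A :=
  (4 * C (X ^ 2) - Polynomial.X) * (1 - C (C (1 / T)) * Polynomial.X) ^ M
def cRt (c : ℝ) (M : ℕ) : Polynomial A :=
  Polynomial.X * (4 * C (X ^ 2) - Polynomial.X) * (1 - C (C c) * (Polynomial.X - 4) ^ 2) ^ M

/-- the weights in the first wave -/
def bD (T : ℝ) (M : ℕ) : Polynomial A :=
  (4 - Polynomial.X) * (1 - C (C (1 / T)) * Polynomial.X) ^ M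
def bRt (c : ℝ) (M : ℕ) : Polynomial A :=
  Polynomial.X * (1 - C (C c) * (Polynomial.X - 4) ^ 2) ^ M

/-- the symmetric parts -/
def GD (M : ℕ) (H : Polynomial A) : Polynomial A := Polynomial.X ^ (2 * M + 2) * H ^ 2
def GR (M : ℕ) (H : Polynomial A) : Polynomial A := Polynomial.X ^ (4 * M + 3) * H ^ 2

lemma am4 (x : Q) : aeval x (4 : Polynomial A) = 4 := map_ofNat (aeval x) 4

lemma quad_D {x P : Q} (h : x ^ 2 - 2 * (1 + rr Q ^ 2) * x + (rr Q ^ 2 - 1) ^ 2 = -(P * x))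
    (T : ℝ) (M : ℕ) (H : Polynomial A) : (aeval x (FD T M H)) ^ 2 =
      aeval P (cD T M) * aeval P (bD T M) * aeval x (GD M H) := by
  have hm := quad_m h
  have hp := quad_p h
  have eX : algebraMap A Q X = rr Q := rfl
  simp only [FD, cD, bD, GD, map_mul, map_pow, map_add, map_sub, aeval_X, aeval_C, am4, map_one,
    aN, eX, h]
  have e1 : x + algebraMap A Q (C (1 / T)) * -(P * x) = x * (1 - algebraMap A Q (C (1 / T)) * P) := by
    ring
  rw [e1, mul_pow, mul_pow, mul_pow, hm, hp, mul_pow]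
  ring

lemma quad_R {x P : Q} (h : x ^ 2 - 2 * (1 + rr Q ^ 2) * x + (rr Q ^ 2 - 1) ^ 2 = -(P * x))
    (c : ℝ) (M : ℕ) (H : Polynomial A) : (aeval x (FR c M H)) ^ 2 =
      aeval P (cRt c M) * aeval P (bRt c M) * aeval x (GR M H) := by
  have hm := quad_m h
  have hp := quad_p h
  have eX : algebraMap A Q X = rr Q := rfl
  simp only [FR, cRt, bRt, GR, map_mul, map_pow, map_sub, aeval_X, aeval_C, am4, map_one,
    aN, eX, h]
  have e1 : x ^ 2 - algebraMap A Q (C c) * (aeval x) Ym ^ 4 =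
      x ^ 2 * (1 - algebraMap A Q (C c) * (P - 4) ^ 2) := by
    rw [show (aeval x) Ym ^ 4 = ((aeval x) Ym ^ 2) ^ 2 by ring, hm]; ring
  rw [e1, mul_pow, mul_pow, mul_pow, hp, mul_pow]
  ring

end

end Pool.Agent.K13.TP
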