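import Pool.Agent.K13.TP.Prod
import Pool.Agent.K13.TP.Ev2

/-!
# Evaluation of symbols
-/

set_option autoImplicit false
set_option linter.unusedSectionVars false
open MeasureTheory Filter Topology Complex Set
open scoped ContDiff Real Manifold

namespace Pool.Agent.K13.TP

open Pool.Agent.W745.RW Pool.Agent.TH294.RS Pool.Agent.Y265.HY
open Polynomial (aeval)

noncomputable section

/-- the characters of `ℤ` -/
def ch (θ : ℝ) (m : ℤ) : ℂ := cexp ((m : ℂ) * (θ * I))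

lemma ch_add (θ : ℝ) (a b : ℤ) : ch θ (a + b) = ch θ a * ch θ b := by
  unfold ch
  rw [← Complex.exp_add]
  push_cast; ring_nf

lemma ch_zero (θ : ℝ) : ch θ 0 = 1 := by simp [ch]

lemma ch_cos (θ : ℝ) : ch θ 1 + ch θ (-1) = ((2 * Real.cos θ : ℝ) : ℂ) := by
  unfold ch
  push_cast
  rw [Complex.cos]
  ring_nf

/-- the constant term -/
def ct (ρ : ℕ → ℝ) (x : R1) (n : ℕ) : ℂ := Ev ρ (fun m _ => if m = 0 then 1 else 0) x n

variable {ρ : ℕ → ℝ}

lemma Ev_alg {χ : ℤ → ℕ → ℂ} {n : ℕ} (h0 : χ 0 n = 1) (c : A) :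
    Ev ρ χ (algebraMap A R1 c) n = ((c.eval (ρ n) : ℝ) : ℂ) := by
  have : algebraMap A R1 c = AddMonoidAlgebra.single 0 c := rfl
  rw [this, Ev_single, h0, mul_one]

lemma Ev_pow {χ : ℤ → ℕ → ℂ} (hχ : ∀ a b n, χ (a + b) n = χ a n * χ b n) {n : ℕ}
    (h0 : χ 0 n = 1) (y : R1) (i : ℕ) : Ev ρ χ (y ^ i) n = Ev ρ χ y n ^ i := by
  induction i with
  | zero =>
    rw [pow_zero, pow_zero]
    have := Ev_alg (ρ := ρ) h0 1
    rw [map_one, Polynomial.eval_one] at this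
    rw [this]; norm_num
  | succ i ih => rw [pow_succ, pow_succ, Ev_char hχ, ih]

lemma Ev_aeval {χ : ℤ → ℕ → ℂ} (hχ : ∀ a b n, χ (a + b) n = χ a n * χ b n) {n : ℕ}
    (h0 : χ 0 n = 1) {y : R1} {t : ℝ} (hy : Ev ρ χ y n = t) (F : Polynomial A) :
    Ev ρ χ (aeval y F) n = ((ev2 (ρ n) t F : ℝ) : ℂ) := by
  induction F using Polynomial.induction_on' with
  | add p q hp hq => rw [map_add, Ev_add, hp, hq, ev2_add]; push_cast; ring
  | monomial i c =>
    rw [Polynomial.aeval_monomial, Ev_char hχ, Ev_alg h0, Ev_pow hχ h0, hy]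
    simp [ev2]

lemma Ev_xs {χ : ℤ → ℕ → ℂ} (hχ : ∀ a b n, χ (a + b) n = χ a n * χ b n) {n : ℕ}
    (h0 : χ 0 n = 1) : Ev ρ χ xs n = 1 + (ρ n : ℂ) ^ 2 + (ρ n : ℂ) * (χ 1 n + χ (-1) n) := by
  have e1 : xs = algebraMap A R1 (1 + Polynomial.X ^ 2) + algebraMap A R1 Polynomial.X *
      (AddMonoidAlgebra.single 1 1 + AddMonoidAlgebra.single (-1) 1) := by
    unfold xs xx rr tt tt'
    rw [map_add, map_pow, map_one, mul_one, mul_one]
  rw [e1, Ev_add, Ev_alg h0, Ev_char hχ, Ev_alg h0, Ev_add, Ev_single, Ev_single]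
  simp

lemma Ev_ps {χ : ℤ → ℕ → ℂ} {n : ℕ} (h0 : χ 0 n = 1) :
    Ev ρ χ ps n = 2 + (χ 1 n + χ (-1) n) := by
  have e1 : ps = algebraMap A R1 2 + (AddMonoidAlgebra.single 1 1 +
      AddMonoidAlgebra.single (-1) 1) := by
    unfold ps PP tt tt'
    rw [am2, mul_one, mul_one]
  rw [e1, Ev_add, Ev_alg h0, Ev_add, Ev_single, Ev_single]
  simp

lemma int_ch (m : ℤ) : (1 / (2 * π) : ℂ) * ∫ θ in (0 : ℝ)..(2 * π), ch θ m =
    if m = 0 then 1 else 0 := by
  have hp : (π : ℂ) ≠ 0 := by exact_mod_cast Real.pi_ne_zero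
  by_cases hm : m = 0
  · subst hm
    simp only [ch_zero, if_true]
    rw [intervalIntegral.integral_const, sub_zero]
    simp only [real_smul, ofReal_mul, ofReal_ofNat, mul_one]
    field_simp
  · rw [if_neg hm]
    have hc : (m : ℂ) * I ≠ 0 := mul_ne_zero (by exact_mod_cast hm) I_ne_zero
    have e : ∀ θ : ℝ, ch θ m = cexp ((m : ℂ) * I * θ) := fun θ => by
      unfold ch; ring_nf
    simp only [e]
    rw [integral_exp_mul_complex hc]
    have e1 : cexp ((m : ℂ) * I * ((2 * π : ℝ) : ℂ)) = 1 := by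
      have := Complex.exp_int_mul_two_pi_mul_I m
      rw [← this]
      congr 1; push_cast; ring
    rw [e1]; simp

lemma ch_cont (m : ℤ) : Continuous fun θ : ℝ => ch θ m := by
  unfold ch; fun_prop

lemma Ev_ch_cont (x : R1) (n : ℕ) : Continuous fun θ : ℝ => Ev ρ (fun m _ => ch θ m) x n := by
  induction x using AddMonoidAlgebra.induction_linear with
  | zero => simp only [Ev_zero]; exact continuous_const
  | add x y h1 h2 => simp only [Ev_add]; exact h1.add h2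
  | single m p => simp only [Ev_single]; exact continuous_const.mul (ch_cont m)

lemma ct_eq (x : R1) (n : ℕ) : ct ρ x n = (1 / (2 * π) : ℂ) * ∫ θ in (0 : ℝ)..(2 * π),
    Ev ρ (fun m _ => ch θ m) x n := by
  unfold ct
  induction x using AddMonoidAlgebra.induction_linear with
  | zero => simp [Ev_zero]
  | add x y h1 h2 =>
    simp only [Ev_add]
    rw [intervalIntegral.integral_add ((Ev_ch_cont x n).intervalIntegrable _ _)
      ((Ev_ch_cont y n).intervalIntegrable _ _), h1, h2]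
    ring
  | single m p =>
    simp only [Ev_single]
    rw [intervalIntegral.integral_const_mul, ← int_ch m]
    ring

/-- the mean square for the product of different waves -/
def gx (F : Polynomial A) (ρ : ℝ) : ℝ :=
  1 / (2 * π) * ∫ θ in (0 : ℝ)..(2 * π), (ev2 ρ (1 + ρ ^ 2 + ρ * (2 * Real.cos θ)) F) ^ 2

/-- the mean square for the product of equal waves -/
def gp (F : Polynomial A) (ρ : ℝ) : ℝ :=
  1 / (2 * π) * ∫ θ in (0 : ℝ)..(2 * π), (ev2 ρ (2 + 2 * Real.cos θ) F) ^ 2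

lemma ct_xs (F : Polynomial A) (n : ℕ) :
    ct ρ (aeval xs F * aeval xs F) n = ((gx F (ρ n) : ℝ) : ℂ) := by
  rw [ct_eq]
  have e : ∀ θ : ℝ, Ev ρ (fun m _ => ch θ m) (aeval xs F * aeval xs F) n =
      (((ev2 (ρ n) (1 + ρ n ^ 2 + ρ n * (2 * Real.cos θ)) F) ^ 2 : ℝ) : ℂ) := by
    intro θ
    have hχ : ∀ (a b : ℤ) (_ : ℕ), ch θ (a + b) = ch θ a * ch θ b := fun a b _ => ch_add θ a b
    have h1 : Ev ρ (fun m _ => ch θ m) xs n = ((1 + ρ n ^ 2 + ρ n * (2 * Real.cos θ) : ℝ) : ℂ) := by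
      rw [Ev_xs (χ := fun m _ => ch θ m) hχ (ch_zero θ), ch_cos]
      push_cast; ring
    rw [Ev_char (χ := fun m _ => ch θ m) hχ, Ev_aeval (χ := fun m _ => ch θ m) hχ (ch_zero θ) h1]
    push_cast; ring
  simp only [e]
  rw [intervalIntegral.integral_ofReal]
  unfold gx
  push_cast; ring

lemma ct_ps (F : Polynomial A) (n : ℕ) :
    ct ρ (aeval ps F * aeval ps F) n = ((gp F (ρ n) : ℝ) : ℂ) := by
  rw [ct_eq]
  have e : ∀ θ : ℝ, Ev ρ (fun m _ => ch θ m) (aeval ps F * aeval ps F) n =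
      (((ev2 (ρ n) (2 + 2 * Real.cos θ) F) ^ 2 : ℝ) : ℂ) := by
    intro θ
    have hχ : ∀ (a b : ℤ) (_ : ℕ), ch θ (a + b) = ch θ a * ch θ b := fun a b _ => ch_add θ a b
    have h1 : Ev ρ (fun m _ => ch θ m) ps n = ((2 + 2 * Real.cos θ : ℝ) : ℂ) := by
      rw [Ev_ps (χ := fun m _ => ch θ m) (ch_zero θ), ch_cos]
      push_cast; ring
    rw [Ev_char (χ := fun m _ => ch θ m) hχ, Ev_aeval (χ := fun m _ => ch θ m) hχ (ch_zero θ) h1]
    push_cast; ring
  simp only [e]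
  rw [intervalIntegral.integral_ofReal]
  unfold gp
  push_cast; ring

lemma sg_add (a b : ℤ) : sg (a + b) = sg a * sg b := by
  induction b using Int.induction_on with
  | zero => simp [sg]
  | succ i ih =>
    rw [← add_assoc, sg_succ, ih, sg_succ]; ring
  | pred i ih =>
    have h1 := sg_succ (a + (-(i : ℤ) - 1))
    have h2 := sg_succ (-(i : ℤ) - 1)
    rw [show a + (-(i : ℤ) - 1) + 1 = a + -(i : ℤ) by ring, ih] at h1
    rw [show -(i : ℤ) - 1 + 1 = -(i : ℤ) by ring] at h2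
    rw [h2] at h1
    linear_combination h1

lemma sg_zero : sg 0 = 1 := by simp [sg]
lemma sg_one : sg 1 = -1 := by simp [sg]
lemma sg_mone : sg (-1) = -1 := by simp [sg]

lemma Ev_sg_ps (F : Polynomial A) (n : ℕ) :
    Ev ρ (fun m _ => sg m) (aeval ps F) n = ((ev2 (ρ n) 0 F : ℝ) : ℂ) := by
  refine Ev_aeval (χ := fun m _ => sg m) (fun a b _ => sg_add a b) sg_zero ?_ F
  rw [Ev_ps (χ := fun m _ => sg m) sg_zero, sg_one, sg_mone]
  norm_num

lemma Ev_one_ps (F : Polynomial A) (n : ℕ) :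
    Ev ρ (fun _ _ => 1) (aeval ps F) n = ((ev2 (ρ n) 4 F : ℝ) : ℂ) := by
  refine Ev_aeval (χ := fun _ _ => 1) (fun a b _ => (mul_one _).symm) rfl ?_ F
  rw [Ev_ps (χ := fun _ _ => 1) rfl]
  norm_num

end

end Pool.Agent.K13.TP
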