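import Pool.Agent.K13.TP.Err

/-!
# Asymptotics and bounds of second moments
-/

set_option autoImplicit false
set_option linter.unusedSectionVars false
open MeasureTheory Filter Topology Complex Set
open scoped ContDiff Real Manifold

namespace Pool.Agent.K13.TP

open Pool.Agent.W745.RW Pool.Agent.TH294.RS Pool.Agent.Y265.HY
open Polynomial (aeval)

noncomputable section

variable {B : Set ℂ} {h κ : ℕ → ℝ} {w v : ℤ → ℕ → ℂ → ℂ} {ρ : ℕ → ℝ}

/-- the sign as a real number of the form `± 1` -/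
lemma sg_val (k : ℤ) : sg k = if k % 2 = 0 then 1 else -1 := by
  unfold sg
  rcases Nat.even_or_odd k.natAbs with h | h
  · rw [h.neg_one_pow, if_pos]
    rw [Nat.even_iff] at h; omega
  · rw [h.neg_one_pow, if_neg]
    rw [Nat.odd_iff] at h; omega

lemma eps_z (m k : ℤ) : Pool.Agent.W745.RW.eps m (-m) k (-k) = 1 / 3 + 2 / 3 * (sg m * sg k) := by
  unfold Pool.Agent.W745.RW.eps
  rw [sg_val, sg_val]
  by_cases h1 : m % 2 = 0
  · by_cases h2 : k % 2 = 0
    · rw [if_pos (by omega), if_pos h1, if_pos h2]; norm_num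
    · rw [if_neg (by omega), if_pos h1, if_neg h2]; norm_num
  · by_cases h2 : k % 2 = 0
    · rw [if_neg (by omega), if_neg h1, if_pos h2]; norm_num
    · rw [if_pos (by omega), if_neg h1, if_neg h2]; norm_num

lemma CC_self (m : ℤ) : CC m (-m) = sg m := by
  unfold CC sg
  rw [if_pos (by ring)]

lemma CC_val (m k : ℤ) : CC m k = if m + k = 0 then sg m else 0 := rfl

lemma sg_two (m : ℤ) : sg m * sg m = 1 := sg_sq m

lemma GG_z (m k : ℤ) : Pool.Agent.W745.RW.GG m (-m) k (-k) = sg m * sg k +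
    ((if m + k = 0 then 1 else 0) + if m + -k = 0 then 1 else 0) := by
  unfold Pool.Agent.W745.RW.GG
  rw [CC_self, CC_self]
  have e1 : CC m k * CC (-m) (-k) = if m + k = 0 then 1 else 0 := by
    rw [CC_val, CC_val]
    by_cases h : m + k = 0
    · rw [if_pos h, if_pos (by omega), if_pos h, sg_neg, sg_sq]
    · rw [if_neg h, if_neg h, zero_mul]
  have e2 : CC m (-k) * CC (-m) k = if m + -k = 0 then 1 else 0 := by
    rw [CC_val, CC_val]
    by_cases h : m + -k = 0
    · rw [if_pos h, if_pos (by omega), if_pos h, sg_neg, sg_sq]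
    · rw [if_neg h, if_neg h, zero_mul]
  rw [e1, e2]
  ring

/-- inversion of the variable -/
def ng : ℤ →+ ℤ where
  toFun m := -m
  map_zero' := neg_zero
  map_add' := neg_add

/-- inversion of the variable on symbols -/
abbrev inv1 : R1 →ₐ[A] R1 := AddMonoidAlgebra.mapDomainAlgHom A A ng

lemma inv_single (m : ℤ) (p : A) :
    inv1 (AddMonoidAlgebra.single m p) = AddMonoidAlgebra.single (-m) p := by
  show AddMonoidAlgebra.mapDomain ng _ = _
  rw [AddMonoidAlgebra.mapDomain_single]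
  rfl

lemma inv_ps : inv1 ps = ps := by
  unfold ps
  rw [map_PP]
  unfold PP tt tt'
  simp only [map_one, mul_one]
  rw [inv_single, inv_single, neg_neg]
  ring

lemma inv_aeval (F : Polynomial A) : inv1 (aeval ps F) = aeval ps F := by
  have := (Polynomial.aeval_algHom_apply inv1 ps F)
  rw [inv_ps] at this
  exact this.symm

lemma Ev_inv (D : ℤ → ℕ → ℂ) (F : Polynomial A) (n : ℕ) :
    Ev ρ (fun m => D (-m)) (aeval ps F) n = Ev ρ D (aeval ps F) n := by
  have h1 : Ev ρ D (inv1 (aeval ps F)) n = Ev ρ (fun m => D (ng m)) (aeval ps F) n :=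
    Ev_map ng D _ n
  rw [inv_aeval] at h1
  exact h1.symm

variable (H : SY B Complex.im h w) (H' : SY B Complex.im κ v) (hBU : B ⊆ UH)

include H hBU in
/-- **mean square of an expression in one ladder whose symbol vanishes at `±1`** -/
theorem msq (h0 : EX B h w (w 0)) {φ : ℂ → ℝ} (hφ : TF B φ) {C : ℝ} (hρ : ∀ n, |ρ n| ≤ C)
    (F : Polynomial A) (e0 : ∀ t, ev2 t 0 F = 0) (e4' : ∀ t, ev2 t 4 F = 0) :
    Null (fun n => (∫ z, (φ z : ℂ) * (LM ρ w w (aeval ps F) n z * LM ρ w w (aeval ps F) n z)) -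
      ((2 * gp F (ρ n) * (∫ z, φ z) : ℝ) : ℂ)) := by
  set I0 : ℂ := ((∫ z, φ z : ℝ) : ℂ) with hI0
  obtain ⟨a, ha⟩ : ∃ a, a = aeval ps F := ⟨_, rfl⟩
  have DDr : DD (D4 w φ) := dd4 H hBU h0 hφ
  obtain ⟨E, hE⟩ : ∃ E : ℤ → ℤ → ℕ → ℂ, E = fun m k n => D4 w φ m (-m) k (-k) n -
    Pool.Agent.W745.RW.eps m (-m) k (-k) * D4 w φ 0 0 0 0 n := ⟨_, rfl⟩
  have nE : ∀ m k, Null (E m k) := fun m k => by
    have := DDr.even m (-m) k (-k) 0 (by ring)
    rw [hE]
    simpa using this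
  have nE2 : Null (Ev ρ (fun m => Ev ρ (E m) a) a) :=
    Ev_null hρ (fun m => Ev_null hρ (nE m) a) a
  have cw := fun m n => (H.bd m).co n
  refine nE2.congr fun n => ?_
  have hJ : ∀ m k n, J4 φ w w (g12 m + g34 k) n =
      ∫ z, (φ z : ℂ) * ((w m n z * w (-m) n z) * (w k n z * w (-k) n z)) := by
    intro m k n
    have e : (g12 m + g34 k : Z4) = (m, -m, k, -k) := by
      show ((m + 0, -m + 0, 0 + k, 0 + -k) : Z4) = _
      simp only [add_zero, zero_add]
    rw [e]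
    rfl
  have e1 := Ev_prod (ρ := ρ) hφ cw cw cw cw (D := J4 φ w w) (g := g12) (g' := g34) hJ a a n
  rw [← ha, ← e1, Ev_J2]
  -- the four point function
  have e2 : ∀ m k, J4 φ w w (g12 m + g34 k) n = E m k n + ((1 / 3 * D4 w φ 0 0 0 0 n) * 1 +
      ((2 / 3 * D4 w φ 0 0 0 0 n + I0) * sg m) * sg k +
      I0 * ((if m + k = 0 then 1 else 0) + if m + -k = 0 then 1 else 0)) := by
    intro m k
    have d1 : D4 w φ m (-m) k (-k) n = (∫ z, (φ z : ℂ) * F4 w m (-m) k (-k) n z) -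
      Pool.Agent.W745.RW.GG m (-m) k (-k) * I0 := rfl
    have d2 : J4 φ w w (g12 m + g34 k) n = ∫ z, (φ z : ℂ) * F4 w m (-m) k (-k) n z := by
      rw [hJ]
      congr 1; funext z; simp only [F4]; ring
    rw [d2, hE]
    beta_reduce
    rw [d1, eps_z, GG_z]
    ring
  have v0 : Ev ρ (fun m _ => sg m) a n = 0 := by rw [ha, Ev_sg_ps, e0]; simp
  have v1 : Ev ρ (fun _ _ => 1) a n = 0 := by rw [ha, Ev_one_ps, e4']; simp
  have e3 : ∀ m, Ev ρ (fun k n => J4 φ w w (g12 m + g34 k) n) a n = Ev ρ (E m) a n +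
      (2 * I0) * Ev ρ (fun k _ => if m + k = 0 then 1 else 0) a n := by
    intro m
    have f1 : Ev ρ (fun k n => J4 φ w w (g12 m + g34 k) n) a n =
        Ev ρ (fun k n' => E m k n' + ((1 / 3 * D4 w φ 0 0 0 0 n) * 1 +
      ((2 / 3 * D4 w φ 0 0 0 0 n + I0) * sg m) * sg k +
      I0 * ((if m + k = 0 then 1 else 0) + if m + -k = 0 then 1 else 0))) a n :=
      Ev_cg a n fun k => e2 m k
    rw [f1, Ev_D (D := fun k n' => E m k n'), Ev_D (D := fun k n' => (1 / 3 * D4 w φ 0 0 0 0 n) * 1 +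
      ((2 / 3 * D4 w φ 0 0 0 0 n + I0) * sg m) * sg k),
      Ev_D (D := fun k n' => (1 / 3 * D4 w φ 0 0 0 0 n) * 1),
      Ev_smulD (D := fun k _ => 1), Ev_smulD (D := fun k _ => sg k),
      Ev_smulD (D := fun k _ => (if m + k = 0 then 1 else 0) + if m + -k = 0 then 1 else 0),
      Ev_D (D := fun k _ => if m + k = 0 then 1 else 0), v0, v1]
    have f2 : Ev ρ (fun k _ => if m + -k = 0 then 1 else 0) a n =
        Ev ρ (fun k _ => if m + k = 0 then 1 else 0) a n := by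
      rw [ha]
      exact Ev_inv (fun k _ => if m + k = 0 then 1 else 0) F n
    rw [f2]
    ring
  have e4 : Ev ρ (fun m n => Ev ρ (fun k n => J4 φ w w (g12 m + g34 k) n) a n) a n =
      Ev ρ (fun m n => Ev ρ (E m) a n) a n + (2 * I0) * ct ρ (a * a) n := by
    have f1 : Ev ρ (fun m n => Ev ρ (fun k n => J4 φ w w (g12 m + g34 k) n) a n) a n =
        Ev ρ (fun m n' => Ev ρ (E m) a n' +
      (2 * I0) * Ev ρ (fun k _ => if m + k = 0 then 1 else 0) a n) a n := Ev_cg a n e3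
    rw [f1, Ev_D (D := fun m n' => Ev ρ (E m) a n'),
      Ev_smulD (D := fun m _ => Ev ρ (fun k _ => if m + k = 0 then 1 else 0) a n)]
    unfold ct
    rw [Ev_pair]
    rfl
  have e5 : ct ρ (a * a) n = ((gp F (ρ n) : ℝ) : ℂ) := by rw [ha]; exact ct_ps F n
  rw [e4, e5]
  push_cast
  ring

end

end Pool.Agent.K13.TP
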