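import Pool.Agent.K13.TP.Sym
import Pool.Agent.K13.TP.Ring2

/-!
# Reduction of the power spectrum of a product, general form
-/

set_option autoImplicit false
open Filter Topology

namespace Pool.Agent.K13.TP

noncomputable section

open Polynomial
open Pool.Agent.W745.RW (Null)

section
variable {Q : Type*} [CommRing Q] [Algebra A Q]

lemma Sm_rec' (x y P : Q) (hs : P + x + y = 2 + 2 * rr Q ^ 2)
    (hd : x * y = (rr Q ^ 2 - 1) ^ 2) (m : ℕ) :
    x ^ m + y ^ m = aeval P (Sm m) := by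
  induction m using Nat.twoStepInduction with
  | zero =>
    have : aeval P (2 : Polynomial A) = 2 := map_ofNat _ 2
    simp only [Sm, this]; ring
  | one =>
    simp only [Sm, map_sub, aeval_C, aeval_X, map_add, map_mul, map_pow, pow_one]
    have : algebraMap A Q X = rr Q := rfl
    rw [this, map_ofNat]
    linear_combination hs
  | more m h1 h2 =>
    have e : aeval P (Sm (m + 2)) = (2 + 2 * rr Q ^ 2 - P) * aeval P (Sm (m + 1)) -
        (rr Q ^ 2 - 1) ^ 2 * aeval P (Sm m) := by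
      simp only [Sm, map_sub, aeval_C, aeval_X, map_add, map_mul, map_pow]
      have : algebraMap A Q X = rr Q := rfl
      rw [this, map_ofNat, map_one]
    rw [e]
    linear_combination (2 + 2 * rr Q ^ 2 - P) * h2 - (rr Q ^ 2 - 1) ^ 2 * h1 -
      (x ^ m + y ^ m) * hd + (x ^ (m + 1) + y ^ (m + 1)) * hs

lemma Sy_eq' (x y P : Q) (hs : P + x + y = 2 + 2 * rr Q ^ 2)
    (hd : x * y = (rr Q ^ 2 - 1) ^ 2) (G : Polynomial A) :
    aeval x G + aeval y G = aeval P (Sy G) := by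
  rw [Sy, Polynomial.sum_def, map_sum, aeval_eq_sum_range, aeval_eq_sum_range,
    ← Finset.sum_add_distrib]
  have e2 : ∑ m ∈ G.support, aeval P (C (G.coeff m) * Sm m) =
      ∑ m ∈ Finset.range (G.natDegree + 1), algebraMap A Q (G.coeff m) * aeval P (Sm m) := by
    refine Finset.sum_subset_zero_on_sdiff (fun m hm => ?_) (fun m hm => ?_) fun m _ => ?_
    · exact Finset.mem_range_succ_iff.2 (le_natDegree_of_mem_supp m hm)
    · have : G.coeff m = 0 := notMem_support_iff.1 (Finset.mem_sdiff.1 hm).2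
      rw [this]; simp
    · rw [map_mul, aeval_C]
  rw [e2]
  refine Finset.sum_congr rfl fun m _ => ?_
  rw [← Sm_rec' x y P hs hd, Algebra.smul_def, Algebra.smul_def]
  ring

end

/-- a factorisation of the square of `F` on the spectrum -/
def Dec (F c b G : Polynomial A) : Prop :=
  ∀ (Q : Type) [CommRing Q] [Algebra A Q] (x P : Q),
    x ^ 2 - 2 * (1 + rr Q ^ 2) * x + (rr Q ^ 2 - 1) ^ 2 = -(P * x) →
    (aeval x F) ^ 2 = aeval P c * aeval P b * aeval x G

lemma dec_D (T : ℝ) (M : ℕ) (H : Polynomial A) : Dec (FD T M H) (cD T M) (bD T M) (GD M H) :=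
  fun _ _ _ _ _ h => quad_D h T M H

lemma dec_R (c : ℝ) (M : ℕ) (H : Polynomial A) : Dec (FR c M H) (cRt c M) (bRt c M) (GR M H) :=
  fun _ _ _ _ _ h => quad_R h c M H

/-- the symbol in the first wave -/
def BS (b G : Polynomial A) : Polynomial A := C (C (1 / 2)) * b * Sy G
/-- the symbol in the second wave -/
def CS (c : Polynomial A) : Polynomial A := c.comp (C (X ^ 2) * Polynomial.X)

variable {ρ : ℕ → ℝ} {D : Z4 → ℕ → ℂ}

/-- **The reduction**, general form -/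
theorem Rel.main2 (R : Rel ρ D) {F c b G : Polynomial A} (hd : Dec F c b G) :
    Null (fun n => Ev ρ D (JJ g1 (aeval xs F) * JJ g2 (aeval xs F)) n -
      Ev ρ D (JJ g12 (aeval ps (BS b G)) * JJ g34 (aeval ps (CS c))) n) := by
  obtain ⟨Q, iQ, iA, φ, K, hφ⟩ := R.exQ
  have K' := K.swap
  set z1 := φ (mo 1 0 0 0) with hz1
  set z1' := φ (mo (-1) 0 0 0) with hz1'
  set z2 := φ (mo 0 1 0 0) with hz2
  set z2' := φ (mo 0 (-1) 0 0) with hz2'
  set w1 := φ (mo 0 0 1 0) with hw1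
  set w1' := φ (mo 0 0 (-1) 0) with hw1'
  set w2 := φ (mo 0 0 0 1) with hw2
  set w2' := φ (mo 0 0 0 (-1)) with hw2'
  obtain ⟨P4, hP4⟩ : ∃ x : R4, x = PP (mo 1 0 0 0) (mo (-1) 0 0 0) (mo 0 1 0 0) (mo 0 (-1) 0 0) :=
    ⟨_, rfl⟩
  obtain ⟨X1, hX1⟩ : ∃ x : R4, x = xx (mo 1 0 0 0) (mo (-1) 0 0 0) (mo 0 0 1 0) (mo 0 0 (-1) 0) :=
    ⟨_, rfl⟩
  obtain ⟨X2, hX2⟩ : ∃ x : R4, x = xx (mo 1 0 0 0) (mo (-1) 0 0 0) (mo 0 0 0 1) (mo 0 0 0 (-1)) :=
    ⟨_, rfl⟩
  obtain ⟨W1, hW1⟩ : ∃ x : R4, x = aeval P4 c * aeval P4 b * aeval X1 G := ⟨_, rfl⟩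
  obtain ⟨W2, hW2⟩ : ∃ x : R4, x = aeval P4 c * aeval P4 b * aeval X2 G := ⟨_, rfl⟩
  -- symmetry
  have hs : ∀ n, Ev ρ D W2 n = Ev ρ D W1 n := by
    intro n
    have e : JJ gs W1 = W2 := by
      rw [hW1, hW2]
      simp only [map_mul, JJ_ev]
      have e1 : JJ gs P4 = P4 := by
        rw [hP4, map_PP, mo_s, mo_s, mo_s, mo_s]
      have e2 : JJ gs X1 = X2 := by
        rw [hX1, hX2, map_xx, mo_s, mo_s, mo_s, mo_s]
      rw [e1, e2]
    rw [← e, R.Ev_s]
  obtain ⟨hf, hhf⟩ : ∃ x : R4, x = algebraMap A R4 (C (1 / 2)) := ⟨_, rfl⟩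
  have prP : φ P4 = PP z1 z1' z2 z2' := by rw [hP4, map_PP]
  have prX1 : φ X1 = xx z1 z1' w1 w1' := by rw [hX1, map_xx]
  have prX2 : φ X2 = xx z1 z1' w2 w2' := by rw [hX2, map_xx]
  have q1 : φ (JJ g1 (aeval xs F) * JJ g2 (aeval xs F)) = φ W1 := by
    have h1 := hd Q _ _ K.quad
    rw [map_mul, JJ_ev, JJ_ev, J1x, J2x, alg_ev, alg_ev, map_xx, map_xx, hW1]
    simp only [map_mul, alg_ev, prP, prX1]
    rw [← h1, ← hz1, ← hz1', ← hz2, ← hz2', ← hw1, ← hw1', ← hw2, ← hw2', K.xx2]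
    ring
  have q2 : φ (JJ g12 (aeval ps (BS b G)) * JJ g34 (aeval ps (CS c))) =
      φ (hf * (W1 + W2)) := by
    have e1 := Sy_eq' (xx z1 z1' w1 w1') (xx z1 z1' w2 w2') (PP z1 z1' z2 z2') K.sum K.mul G
    have e2 := K.PPg
    have e3 : φ hf = algebraMap A (Q) (C (1 / 2)) := by
      rw [hhf]; exact φ.commutes _
    have eX : algebraMap A (Q) X = rr (Q) := rfl
    rw [map_mul, JJ_ev, JJ_ev, J12p, J34p, alg_ev, alg_ev, map_PP, map_PP, BS, CS, hW1, hW2,
      aeval_comp]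
    simp only [map_mul, map_pow, map_add, alg_ev, prP, prX1, prX2, aeval_C,
      aeval_X, eX, e3]
    rw [← hz1, ← hz1', ← hz2, ← hz2', ← hw1, ← hw1', ← hw2, ← hw2', e2, ← e1]
    ring
  have n1 := hφ _ _ q1
  have n2 := hφ _ _ q2
  have n3 := n1.sub n2
  rw [sub_zero] at n3
  refine n3.congr fun n => ?_
  have e5 : Ev ρ D (hf * (W1 + W2)) n = Ev ρ D W1 n := by
    have e6 : Ev ρ D (hf * (W1 + W2)) n = Ev ρ D (hf * W1) n + Ev ρ D (hf * W2) n := by
      rw [mul_add, Ev_add]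
    have e7 : ∀ x : R4, Ev ρ D (hf * x) n = (1 / 2 : ℂ) * Ev ρ D x n := by
      intro x
      induction x using AddMonoidAlgebra.induction_linear with
      | zero => rw [mul_zero, Ev_zero, mul_zero]
      | add y z h1 h2 => rw [mul_add, Ev_add, Ev_add, h1, h2]; ring
      | single m q =>
        have e8 : hf = AddMonoidAlgebra.single 0 (C (1 / 2)) := hhf
        rw [e8, AddMonoidAlgebra.single_mul_single, Ev_single, Ev_single, eval_mul, eval_C,
          zero_add]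
        push_cast; ring
    rw [e6, e7, e7, hs n]; ring
  rw [e5]
  ring

end

end Pool.Agent.K13.TP
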