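import Pool.Agent.K13.TP.Sqb
import Pool.Agent.K13.TP.Sym2

/-!
# Second moments: general form
-/

set_option autoImplicit false
set_option linter.unusedSectionVars false
open MeasureTheory Filter Topology Complex Set
open scoped ContDiff Real Manifold

namespace Pool.Agent.K13.TP

open Pool.Agent.W745.RW Pool.Agent.TH294.RS Pool.Agent.Y265.HY
open Polynomial (aeval)

noncomputable section

variable {B : Set ℂ} {h κ : ℕ → ℝ} {w v : ℤ → ℕ → ℂ → ℂ} {ρ : ℕ → ℝ}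

variable (H : SY B Complex.im h w) (H' : SY B Complex.im κ v) (hBU : B ⊆ UH)

include H in
/-- **mean of an expression in one ladder** -/
theorem mean1 {φ : ℂ → ℝ} (hφ : TF B φ) {C : ℝ} (hρ : ∀ n, |ρ n| ≤ C) (F : Polynomial A) :
    Null (fun n => (∫ z, (φ z : ℂ) * LM ρ w w (aeval ps F) n z) -
      ((ev2 (ρ n) 0 F * (∫ z, φ z) : ℝ) : ℂ)) := by
  obtain ⟨a, ha⟩ : ∃ a, a = aeval ps F := ⟨_, rfl⟩
  set I0 : ℂ := ((∫ z, φ z : ℝ) : ℂ) with hI0
  have cw := fun m n => (H.bd m).co n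
  have IJ : Integrable (fun z => (φ z : ℂ)) :=
    (hφ.1.continuous.integrable_of_hasCompactSupport hφ.2.1).ofReal
  obtain ⟨E, hE⟩ : ∃ E : ℤ → ℕ → ℂ, E = fun m n => (∫ z, (φ z : ℂ) * (w m n z * w (-m) n z)) -
      sg m * I0 := ⟨_, rfl⟩
  have nE : ∀ m, Null (E m) := fun m => by
    rw [hE]
    refine ((H.two m (-m)).nul φ hφ).congr fun n => ?_
    have i1 : Integrable (fun z => (φ z : ℂ) * (w m n z * w (-m) n z)) :=
      TF.cint hφ ((cw m n).mul (cw (-m) n))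
    have e1 : sg m * I0 = ∫ z, (φ z : ℂ) * sg m := by
      rw [integral_mul_const, hI0, integral_complex_ofReal, mul_comm]
    beta_reduce
    rw [e1, ← integral_sub i1 (IJ.mul_const _)]
    congr 1; funext z
    rw [CC_self]; ring
  refine (Ev_null hρ nE a).congr fun n => ?_
  have i := Ev_int (ρ := ρ) (g := fun z => (φ z : ℂ)) (f := fun m z => w m n z * w (-m) n z)
    (fun m => TF.cint hφ ((cw m n).mul (cw (-m) n))) a n
  have e1 : ∫ z, (φ z : ℂ) * LM ρ w w a n z =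
      Ev ρ (fun m _ => ∫ z, (φ z : ℂ) * (w m n z * w (-m) n z)) a n := i.2.symm
  have e2 : Ev ρ (fun m _ => ∫ z, (φ z : ℂ) * (w m n z * w (-m) n z)) a n =
      Ev ρ (fun m n' => E m n + I0 * sg m) a n := by
    refine Ev_cg a n fun m => ?_
    rw [hE]; ring
  have e3 : Ev ρ (fun m n' => E m n + I0 * sg m) a n = Ev ρ E a n + I0 * Ev ρ (fun m _ => sg m) a n := by
    rw [Ev_D (D := fun m n' => E m n), Ev_smulD (D := fun m _ => sg m)]
    rfl
  rw [← ha, e1, e2, e3, ha, Ev_sg_ps]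
  push_cast; ring

include H hBU in
/-- **mean square of an expression in one ladder** -/
theorem msq2 (h0 : EX B h w (w 0)) {φ : ℂ → ℝ} (hφ : TF B φ) {C : ℝ} (hρ : ∀ n, |ρ n| ≤ C)
    (F : Polynomial A) :
    Null (fun n => (∫ z, (φ z : ℂ) * (LM ρ w w (aeval ps F) n z * LM ρ w w (aeval ps F) n z)) -
      (((ev2 (ρ n) 0 F ^ 2 + 2 * gp F (ρ n)) * (∫ z, φ z) : ℝ) : ℂ) -
      (((2 * ev2 (ρ n) 0 F ^ 2 + ev2 (ρ n) 4 F ^ 2) / 3 : ℝ) : ℂ) * D4 w φ 0 0 0 0 n) := by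
  set I0 : ℂ := ((∫ z, φ z : ℝ) : ℂ) with hI0
  obtain ⟨a, ha⟩ : ∃ a, a = aeval ps F := ⟨_, rfl⟩
  have DDr : DD (D4 w φ) := dd4 H hBU h0 hφ
  obtain ⟨E, hE⟩ : ∃ E : ℤ → ℤ → ℕ → ℂ, E = fun m k n => D4 w φ m (-m) k (-k) n -
    Pool.Agent.W745.RW.eps m (-m) k (-k) * D4 w φ 0 0 0 0 n := ⟨_, rfl⟩
  have nE : ∀ m k, Null (E m k) := fun m k => by
    have := DDr.even m (-m) k (-k) 0 (by ring)
    rw [hE]
    simpa using this
  have nE2 : Null (Ev ρ (fun m => Ev ρ (E m) a) a) :=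
    Ev_null hρ (fun m => Ev_null hρ (nE m) a) a
  have cw := fun m n => (H.bd m).co n
  refine nE2.congr fun n => ?_
  have hJ : ∀ m k n, J4 φ w w (g12 m + g34 k) n =
      ∫ z, (φ z : ℂ) * ((w m n z * w (-m) n z) * (w k n z * w (-k) n z)) := by
    intro m k n
    have e : (g12 m + g34 k : Z4) = (m, -m, k, -k) := by
      show ((m + 0, -m + 0, 0 + k, 0 + -k) : Z4) = _
      simp only [add_zero, zero_add]
    rw [e]
    rfl
  have e1 := Ev_prod (ρ := ρ) hφ cw cw cw cw (D := J4 φ w w) (g := g12) (g' := g34) hJ a a n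
  rw [← ha, ← e1, Ev_J2]
  obtain ⟨d, hd⟩ : ∃ d, d = D4 w φ 0 0 0 0 n := ⟨_, rfl⟩
  have e2 : ∀ m k, J4 φ w w (g12 m + g34 k) n = E m k n + ((1 / 3 * d) * 1 +
      ((2 / 3 * d + I0) * sg m) * sg k +
      I0 * ((if m + k = 0 then 1 else 0) + if m + -k = 0 then 1 else 0)) := by
    intro m k
    have d1 : D4 w φ m (-m) k (-k) n = (∫ z, (φ z : ℂ) * F4 w m (-m) k (-k) n z) -
      Pool.Agent.W745.RW.GG m (-m) k (-k) * I0 := rfl
    have d2 : J4 φ w w (g12 m + g34 k) n = ∫ z, (φ z : ℂ) * F4 w m (-m) k (-k) n z := by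
      rw [hJ]
      congr 1; funext z; simp only [F4]; ring
    rw [d2, hE]
    beta_reduce
    rw [d1, eps_z, GG_z, ← hd]
    ring
  obtain ⟨v0, hv0⟩ : ∃ v0 : ℂ, v0 = ((ev2 (ρ n) 0 F : ℝ) : ℂ) := ⟨_, rfl⟩
  obtain ⟨v1, hv1⟩ : ∃ v1 : ℂ, v1 = ((ev2 (ρ n) 4 F : ℝ) : ℂ) := ⟨_, rfl⟩
  have s0 : Ev ρ (fun m _ => sg m) a n = v0 := by rw [ha, Ev_sg_ps, hv0]
  have s1 : Ev ρ (fun _ _ => 1) a n = v1 := by rw [ha, Ev_one_ps, hv1]
  have e3 : ∀ m, Ev ρ (fun k n => J4 φ w w (g12 m + g34 k) n) a n = Ev ρ (E m) a n +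
      ((1 / 3 * d * v1) * 1 + (((2 / 3 * d + I0) * v0) * sg m +
      (2 * I0) * Ev ρ (fun k _ => if m + k = 0 then 1 else 0) a n)) := by
    intro m
    have f1 : Ev ρ (fun k n => J4 φ w w (g12 m + g34 k) n) a n =
        Ev ρ (fun k n' => E m k n' + ((1 / 3 * d) * 1 +
      ((2 / 3 * d + I0) * sg m) * sg k +
      I0 * ((if m + k = 0 then 1 else 0) + if m + -k = 0 then 1 else 0))) a n :=
      Ev_cg a n fun k => e2 m k
    rw [f1, Ev_D (D := fun k n' => E m k n'), Ev_D (D := fun k n' => (1 / 3 * d) * 1 +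
      ((2 / 3 * d + I0) * sg m) * sg k),
      Ev_D (D := fun k n' => (1 / 3 * d) * 1),
      Ev_smulD (D := fun k _ => 1), Ev_smulD (D := fun k _ => sg k),
      Ev_smulD (D := fun k _ => (if m + k = 0 then 1 else 0) + if m + -k = 0 then 1 else 0),
      Ev_D (D := fun k _ => if m + k = 0 then 1 else 0), s0, s1]
    have f2 : Ev ρ (fun k _ => if m + -k = 0 then 1 else 0) a n =
        Ev ρ (fun k _ => if m + k = 0 then 1 else 0) a n := by
      rw [ha]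
      exact Ev_inv (fun k _ => if m + k = 0 then 1 else 0) F n
    rw [f2]
    ring
  have e4 : Ev ρ (fun m n => Ev ρ (fun k n => J4 φ w w (g12 m + g34 k) n) a n) a n =
      Ev ρ (fun m n => Ev ρ (E m) a n) a n + ((1 / 3 * d * v1) * v1 +
        (((2 / 3 * d + I0) * v0) * v0 + (2 * I0) * ct ρ (a * a) n)) := by
    have f1 : Ev ρ (fun m n => Ev ρ (fun k n => J4 φ w w (g12 m + g34 k) n) a n) a n =
        Ev ρ (fun m n' => Ev ρ (E m) a n' + ((1 / 3 * d * v1) * 1 +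
        (((2 / 3 * d + I0) * v0) * sg m +
      (2 * I0) * Ev ρ (fun k _ => if m + k = 0 then 1 else 0) a n))) a n := Ev_cg a n e3
    rw [f1, Ev_D (D := fun m n' => Ev ρ (E m) a n'), Ev_D (D := fun m n' => (1 / 3 * d * v1) * 1),
      Ev_smulD (D := fun _ _ => 1), Ev_D (D := fun m n' => ((2 / 3 * d + I0) * v0) * sg m),
      Ev_smulD (D := fun m _ => sg m), s0, s1,
      Ev_smulD (D := fun m _ => Ev ρ (fun k _ => if m + k = 0 then 1 else 0) a n)]
    unfold ct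
    rw [Ev_pair]
    rfl
  have e5 : ct ρ (a * a) n = ((gp F (ρ n) : ℝ) : ℂ) := by rw [ha]; exact ct_ps F n
  rw [e4, e5, ← hd, hv0, hv1, hI0]
  push_cast
  ring

end

end Pool.Agent.K13.TP
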